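import Mathlib

-- part Pool.Agent.Lib.MP_2fb4be_al.Sol.Defs
section

/-!
Shared definitions for the theorem on soluble automatic groups.
-/

set_option autoImplicit false

noncomputable section

namespace Pool.Agent.Lib.MP_2fb4be_al.Sol

/-- A proper length function. -/
structure Len (G : Type) [Group G] where
  len : G → ℕ
  one : len 1 = 0
  mul : ∀ g h, len (g * h) ≤ len g + len h
  inv : ∀ g, len g⁻¹ = len g
  fin : ∀ R, {g | len g ≤ R}.Finite

/-- A synchronous combing of linear length, for some proper length function. -/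
def Combable (G : Type) [Group G] : Prop :=
  ∃ (L : Len G) (p : ℕ → G → G) (C : ℕ), (∀ g, p 0 g = 1) ∧
    (∀ t g, L.len ((p t g)⁻¹ * p (t + 1) g) ≤ C) ∧
    (∀ R, ∃ R', ∀ t g h, L.len (g⁻¹ * h) ≤ R → L.len ((p t g)⁻¹ * p t h) ≤ R') ∧
    ∀ g t, C * (L.len g + 1) ≤ t → p t g = g

/-- A subnormal series of length at most `h` whose factors embed in the rationals. -/
def PolyQ : ℕ → ∀ (N : Type) [Group N], Prop
  | 0, N, _ => Subsingleton N
  | h + 1, N, _ => ∃ φ : N →* Multiplicative ℚ, PolyQ h φ.ker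

/-- A nilpotent multiplicatively closed subspace. -/
structure NilI {A : Type} [Ring A] [Algebra ℚ A] (I : Submodule ℚ A) (k : ℕ) : Prop where
  mul_le : I * I ≤ I
  pow_k : I ^ (k + 1) = ⊥

/-- A faithful unipotent model of the normal subgroup `N`, with the conjugation action of `G`. -/
structure NilModel (G : Type) [Group G] (N : Subgroup G) where
  A : Type
  [ring : Ring A]
  [alg : Algebra ℚ A]
  [fd : FiniteDimensional ℚ A]
  I : Submodule ℚ A
  k : ℕ
  ι : N →* Aˣ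
  α : G →* (A ≃ₐ[ℚ] A)
  nil : NilI I k
  inj : Function.Injective ι
  span : I = Submodule.span ℚ (Set.range fun n => (ι n : A) - 1)
  conj : ∀ (g : G) (n n' : N), (n' : G) = g * n * g⁻¹ → α g (ι n) = ι n'
  inner : ∀ (n : N) (a : A), α n a = ι n * a * ((ι n)⁻¹ : Aˣ)

attribute [instance] NilModel.ring NilModel.alg NilModel.fd

/-- The vectors that are sent into `W` by all products of `l` operators `ρ h - 1`, `h ∈ S`. -/
def Zs {H M : Type} [AddCommGroup M] [Module ℚ M] (ρ : H → Module.End ℚ M) (S : Set H)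
    (W : Submodule ℚ M) : ℕ → Submodule ℚ M
  | 0 => W
  | l + 1 => ⨅ h ∈ S, (Zs ρ S W l).comap (ρ h - 1)

section explog

variable {A : Type} [Ring A] [Algebra ℚ A]

theorem NilI.pow_le {I : Submodule ℚ A} {k : ℕ} (h : NilI I k) (i j : ℕ) :
    I ^ (i + j + 1) ≤ I ^ (i + 1) := by
  induction j with
  | zero => exact le_rfl
  | succ j ih =>
    refine le_trans ?_ ih
    have e : I ^ (i + (j + 1) + 1) = I ^ (i + j) * (I * I) := by
      rw [← mul_assoc, ← pow_succ, ← pow_succ]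
      rfl
    rw [e, pow_succ]
    exact mul_le_mul_right h.mul_le _

theorem NilI.anti {I : Submodule ℚ A} {k : ℕ} (h : NilI I k) {i j : ℕ} (hij : i ≤ j) :
    I ^ (j + 1) ≤ I ^ (i + 1) := by
  obtain ⟨d, rfl⟩ := Nat.exists_eq_add_of_le hij
  exact h.pow_le i d

theorem mul_mem_pow {I : Submodule ℚ A} {i j : ℕ} {x y : A} (hx : x ∈ I ^ i) (hy : y ∈ I ^ j) :
    x * y ∈ I ^ (i + j) := by
  rw [pow_add]
  exact Submodule.mul_mem_mul hx hy

theorem NilI.mul_mem {I : Submodule ℚ A} {k : ℕ} (h : NilI I k) {i j : ℕ} {x y : A}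
    (hx : x ∈ I ^ (i + 1)) (hy : y ∈ I ^ (j + 1)) : x * y ∈ I ^ (i + 1) :=
  h.anti (Nat.le_add_right i (j + 1)) (by
    have := mul_mem_pow hx hy
    rwa [show i + 1 + (j + 1) = i + (j + 1) + 1 by ring] at this)

theorem NilI.pow_eq_zero {I : Submodule ℚ A} {k : ℕ} (h : NilI I k) {x : A} (hx : x ∈ I) :
    x ^ (k + 1) = 0 := by
  have := Submodule.pow_mem_pow I hx (k + 1)
  rwa [h.pow_k, Submodule.mem_bot] at this

/-- The group of units congruent to `1` modulo `I ^ (i + 1)`. -/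
def Ul {I : Submodule ℚ A} {k : ℕ} (h : NilI I k) (i : ℕ) : Subgroup Aˣ where
  carrier := {u | (u : A) - 1 ∈ I ^ (i + 1)}
  one_mem' := by simp
  mul_mem' := fun {u v} hu hv => by
    have e : ((u * v : Aˣ) : A) - 1 = (u - 1) * (v - 1) + (u - 1) + (v - 1) := by
      rw [Units.val_mul]; noncomm_ring
    change _ ∈ I ^ (i + 1)
    rw [e]
    exact add_mem (add_mem (h.mul_mem hu hv) hu) hv
  inv_mem' := fun {u} hu => by
    change _ ∈ I ^ (i + 1)
    have hx : (1 : A) - u ∈ I ^ (i + 1) := by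
      simpa using neg_mem (show (u : A) - 1 ∈ I ^ (i + 1) from hu)
    have key : ∀ m : ℕ, (1 - (u : A)) ^ (m + 1) ∈ I ^ (i + 1) ∧
        ((u⁻¹ : Aˣ) : A) - 1 - (u⁻¹ : Aˣ) * (1 - (u : A)) ^ (m + 1) ∈ I ^ (i + 1) := by
      intro m
      induction m with
      | zero => exact ⟨by simpa using hx, by simp [mul_sub]⟩
      | succ m ih =>
        refine ⟨by rw [pow_succ (1 - (u : A))]; exact h.mul_mem ih.1 hx, ?_⟩
        have e : ((u⁻¹ : Aˣ) : A) * (1 - (u : A)) ^ (m + 1 + 1) =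
            (u⁻¹ : Aˣ) * (1 - (u : A)) ^ (m + 1) - (1 - (u : A)) ^ (m + 1) := by
          rw [pow_succ' _ (m + 1), ← mul_assoc, mul_sub, mul_one, Units.inv_mul, sub_mul, one_mul]
        rw [e, ← sub_add]
        exact add_mem ih.2 ih.1
    have := (key k).2
    rwa [h.pow_eq_zero (by simpa using h.anti (Nat.zero_le i) hx), mul_zero, sub_zero] at this

theorem mem_Ul {I : Submodule ℚ A} {k : ℕ} (h : NilI I k) {i : ℕ} {u : Aˣ} :
    u ∈ Ul h i ↔ (u : A) - 1 ∈ I ^ (i + 1) := Iff.rfl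

open Classical in
/-- The exponential of a nilpotent element, as a unit. -/
def ex (a : A) : Aˣ :=
  if h : IsNilpotent a then ⟨IsNilpotent.exp a, IsNilpotent.exp (-a),
    IsNilpotent.exp_mul_exp_neg_self h, IsNilpotent.exp_neg_mul_exp_self h⟩ else 1

open Classical in
/-- The logarithm of a unipotent unit. -/
def lg (u : Aˣ) : A := if h : ∃ a : A, IsNilpotent a ∧ ex a = u then h.choose else 0

/-- Rational powers of a unipotent unit. -/
def pw (t : ℚ) (u : Aˣ) : Aˣ := ex (t • lg u)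

end explog

end Pool.Agent.Lib.MP_2fb4be_al.Sol
end
end

-- part Pool.Agent.Lib.MP_2fb4be_al.Sol.LKM
section

/-!
The theorem of Lie, Kolchin and Malcev: a soluble linear group has a subgroup of finite index
whose derived subgroup is unipotent.
-/

set_option autoImplicit false

noncomputable section

namespace Pool.Agent.Lib.MP_2fb4be_al.Sol

namespace Lkm

open Module

theorem fi_of_fin {G X : Type} [Group G] (H : Subgroup G) (f : G → X) (hf : (Set.range f).Finite)
    (h : ∀ g g', f g = f g' → g⁻¹ * g' ∈ H) : H.FiniteIndex := by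
  have := hf.to_subtype
  have : Finite (G ⧸ H) := Finite.of_injective
    (fun q : G ⧸ H => (⟨f q.out, q.out, rfl⟩ : Set.range f)) fun q q' e => by
      rw [← q.out_eq, ← q'.out_eq]
      exact QuotientGroup.eq.mpr (h _ _ (congrArg Subtype.val e))
  exact Subgroup.finiteIndex_of_finite_quotient

/-- Induction along the derived series of a normal subgroup. -/
theorem solv_ind {G : Type} [Group G] [Group.IsSolvable G] (P : Subgroup G → Prop)
    (D : Subgroup G) (hD : D.Normal) (h0 : P ⊥)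
    (h : ∀ B : Subgroup G, B.Normal → B ≤ D → P ⁅B, B⁆ → P B) : P D := by
  obtain ⟨n, hn⟩ := Group.IsSolvable.solvable (G := G)
  have key : ∀ (j i : ℕ) (B : Subgroup G), i + j = n → B.Normal → B ≤ D →
      B ≤ derivedSeries G i → P B := by
    intro j
    induction j with
    | zero =>
      intro i B e _ _ h3
      rw [show i = n from e, hn, le_bot_iff] at h3
      rwa [h3]
    | succ j ih =>
      intro i B e h1 h2 h3
      refine h B h1 h2 (ih (i + 1) _ (by omega) inferInstance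
        ((Subgroup.commutator_le_left B B).trans h2) ?_)
      rw [derivedSeries_succ]
      exact Subgroup.commutator_mono h3 h3
  exact key n 0 D (zero_add n) hD le_rfl le_top

section lin
variable {K V : Type} [Field K] [IsAlgClosed K] [AddCommGroup V] [Module K V]
  [FiniteDimensional K V]

/-- Commuting operators have a common eigenvector. -/
theorem exists_eigen [Nontrivial V] {ι : Type} (f : ι → End K V)
    (hf : ∀ i j, f i * f j = f j * f i) : ∃ (v : V) (χ : ι → K), v ≠ 0 ∧ ∀ i, f i v = χ i • v := by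
  obtain ⟨W, ⟨h1, h2⟩, h3⟩ := exists_minimal_of_wellFoundedLT
    (fun W : Submodule K V => W ≠ ⊥ ∧ ∀ i, ∀ w ∈ W, f i w ∈ W) ⟨⊤, top_ne_bot, by simp⟩
  have h4 : ∀ i, ∃ c : K, ∀ w ∈ W, f i w = c • w := fun i => by
    have : Nontrivial W := Submodule.nontrivial_iff_ne_bot.mpr h1
    obtain ⟨c, hc⟩ := End.exists_eigenvalue (K := K) ((f i).restrict (h2 i))
    obtain ⟨w, hw⟩ := hc.exists_hasEigenvector
    have h5 := h3 (y := W ⊓ (f i).eigenspace c) ⟨?_, fun j x hx => ⟨h2 j x hx.1, ?_⟩⟩ inf_le_left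
    · exact ⟨c, fun x hx => End.mem_eigenspace_iff.mp (h5 hx).2⟩
    · refine (Submodule.ne_bot_iff _).mpr ⟨w, ⟨w.2, ?_⟩, fun e => hw.2 (Subtype.ext e)⟩
      exact End.mem_eigenspace_iff.mpr (congrArg Subtype.val hw.apply_eq_smul)
    · refine End.mem_eigenspace_iff.mpr ?_
      rw [← End.mul_apply, hf, End.mul_apply, End.mem_eigenspace_iff.mp hx.2, map_smul]
  choose χ hχ using h4
  obtain ⟨v, hv, h0⟩ := (Submodule.ne_bot_iff _).mp h1
  exact ⟨v, χ, h0, fun i => hχ i v hv⟩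

omit [IsAlgClosed K] in
theorem finite_weights {ι : Type} (f : ι → End K V) (hf : ∀ i j, f i * f j = f j * f i) :
    {χ : ι → K | ∃ v : V, v ≠ 0 ∧ ∀ i, f i v = χ i • v}.Finite := by
  refine (WellFoundedGT.finite_ne_bot_of_iSupIndep
    (End.independent_iInf_maxGenEigenspace_of_forall_mapsTo f fun i j φ =>
      End.mapsTo_maxGenEigenspace_of_comm (hf j i) φ)).subset ?_
  rintro χ ⟨v, h0, hv⟩
  refine (Submodule.ne_bot_iff _).mpr ⟨v, ?_, h0⟩
  rw [End.mem_iInf_maxGenEigenspace_iff]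
  exact fun j => ⟨1, by simp [hv]⟩

variable {G : Type} [Group G] (ρ : G →* End K V)

/-- Irreducible for every subgroup of finite index. -/
def Irr : Prop := ∀ H : Subgroup G, H.FiniteIndex → ∀ W : Submodule K V,
  (∀ h ∈ H, ∀ w ∈ W, ρ h w ∈ W) → W = ⊥ ∨ W = ⊤

/-- The element acts by a scalar. -/
def Sc (g : G) : Prop := ∃ c : K, ρ g = c • 1

omit [IsAlgClosed K] [FiniteDimensional K V] in
theorem apply_ne (g : G) {v : V} (h : v ≠ 0) : ρ g v ≠ 0 := fun e => h (by
  have := congrArg (ρ g⁻¹) e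
  rwa [← End.mul_apply, ← map_mul, inv_mul_cancel, map_one, End.one_apply, map_zero] at this)

variable {ρ}

theorem Irr.abel [Nontrivial V] (h : Irr ρ) (A : Subgroup G) (hA : A.Normal)
    (hc : ∀ a ∈ A, ∀ b ∈ A, ρ a * ρ b = ρ b * ρ a) : ∀ a ∈ A, Sc ρ a := by
  have hc' : ∀ a b : A, ρ a * ρ b = ρ b * ρ a := fun a b => hc a a.2 b b.2
  obtain ⟨v, χ, h0, hv⟩ := exists_eigen (fun a : A => ρ a) hc'
  let cj : G → A → A := fun g a => ⟨g⁻¹ * a * g, hA.conj_mem' a a.2 g⟩
  have e1 : ∀ (g : G) (a : A) (w : V), ρ a (ρ g w) = ρ g (ρ (cj g a) w) := fun g a w => by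
    rw [← End.mul_apply, ← End.mul_apply, ← map_mul, ← map_mul]
    congr 2
    simp only [cj]
    group
  have e2 : ∀ g g' a, cj (g * g') a = cj g' (cj g a) := fun g g' a => Subtype.ext (by
    simp only [cj]; group)
  have e3 : ∀ a, cj 1 a = a := fun a => Subtype.ext (by simp [cj])
  let H : Subgroup G :=
    { carrier := {g | ∀ a, χ (cj g a) = χ a}
      mul_mem' := fun {g g'} hg hg' a => by rw [e2, hg', hg]
      one_mem' := fun a => by rw [e3]
      inv_mem' := fun {g} hg a => by rw [← hg (cj g⁻¹ a), ← e2, inv_mul_cancel, e3] }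
  have hH : H.FiniteIndex := fi_of_fin H (fun g a => χ (cj g a))
    ((finite_weights (fun a : A => ρ a) hc').subset (by
      rintro _ ⟨g, rfl⟩
      exact ⟨ρ g v, apply_ne ρ g h0, fun a => by rw [e1, hv, map_smul]⟩))
    fun g g' e a => by
      rw [e2, ← congrFun e (cj g⁻¹ a), ← e2, inv_mul_cancel, e3]
  let W : Submodule K V := ⨅ a : A, (ρ a).eigenspace (χ a)
  have hW : ∀ w, w ∈ W ↔ ∀ a : A, ρ a w = χ a • w := fun w => by
    simp only [W, Submodule.mem_iInf, End.mem_eigenspace_iff]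
  rcases h H hH W (fun g hg w hw => (hW _).mpr fun a => by
    rw [e1, (hW w).mp hw, hg, map_smul]) with e | e
  · exact absurd ((Submodule.mem_bot K).mp (e ▸ (hW v).mpr hv)) h0
  · exact fun a ha => ⟨χ ⟨a, ha⟩, LinearMap.ext fun w =>
      (hW w).mp (e ▸ Submodule.mem_top) ⟨a, ha⟩⟩

theorem Irr.schur [Nontrivial V] (h : Irr ρ) (b : G)
    (hb : (Set.range fun g => ρ (g * b * g⁻¹)).Finite) : Sc ρ b := by
  let H : Subgroup G :=
    { carrier := {g | ρ g * ρ b = ρ b * ρ g}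
      mul_mem' := fun {g g'} hg hg' => by
        change ρ (g * g') * ρ b = ρ b * ρ (g * g')
        rw [map_mul, mul_assoc, hg', ← mul_assoc, hg, mul_assoc]
      one_mem' := by simp
      inv_mem' := fun {g} hg => by
        have := congrArg (fun u => ρ g⁻¹ * u * ρ g⁻¹) hg
        simp only [← map_mul, ← mul_assoc, inv_mul_cancel, one_mul, mul_inv_cancel_right] at this
        change ρ g⁻¹ * ρ b = ρ b * ρ g⁻¹
        rw [← map_mul, ← map_mul, this] }
  have hH : H.FiniteIndex := fi_of_fin H _ hb fun g g' e => by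
    have := congrArg (fun u => ρ g⁻¹ * u * ρ g') e
    simp only [← map_mul, ← mul_assoc, inv_mul_cancel, one_mul, inv_mul_cancel_right] at this
    change ρ (g⁻¹ * g') * ρ b = ρ b * ρ (g⁻¹ * g')
    rw [← map_mul, ← map_mul, ← this, mul_assoc]
  obtain ⟨c, hc⟩ := End.exists_eigenvalue (K := K) (ρ b)
  rcases h H hH ((ρ b).eigenspace c) (fun g hg w hw => End.mem_eigenspace_iff.mpr (by
    rw [← End.mul_apply, ← hg, End.mul_apply, End.mem_eigenspace_iff.mp hw, map_smul])) with e | e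
  · exact absurd e hc
  · exact ⟨c, LinearMap.ext fun w => End.mem_eigenspace_iff.mp (e ▸ Submodule.mem_top)⟩

omit [IsAlgClosed K] in
theorem finite_conj [Nontrivial V] (ρ : G →* End K V) (y : G) :
    {u : End K V | LinearMap.det u = LinearMap.det (ρ y) ∧ ∃ c : K, u = c • ρ y}.Finite := by
  classical
  have h0 : LinearMap.det (ρ y) ≠ 0 := fun e => by
    have := congrArg LinearMap.det (ρ.map_mul y y⁻¹)
    rw [mul_inv_cancel, map_one, map_one, map_mul, e, zero_mul] at this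
    exact one_ne_zero this
  refine ((Polynomial.nthRoots (finrank K V) (1 : K)).toFinset.finite_toSet.image
    fun c => c • ρ y).subset ?_
  rintro _ ⟨h, c, rfl⟩
  refine ⟨c, ?_, rfl⟩
  rw [LinearMap.det_smul] at h
  rw [Finset.mem_coe, Multiset.mem_toFinset, Polynomial.mem_nthRoots finrank_pos]
  exact mul_right_cancel₀ h0 (by rw [h, one_mul])

omit [IsAlgClosed K] [FiniteDimensional K V] in
theorem det_conj (ρ : G →* End K V) (g y : G) :
    LinearMap.det (ρ (g * y * g⁻¹)) = LinearMap.det (ρ y) := by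
  rw [map_mul, map_mul, map_mul, map_mul, mul_right_comm, ← map_mul, ← map_mul ρ, mul_inv_cancel,
    map_one, map_one, one_mul]

theorem Irr.step [Nontrivial V] (h : Irr ρ) (B : Subgroup G) (hB : B.Normal)
    (hc : ∀ x ∈ ⁅B, B⁆, Sc ρ x) : ∀ b ∈ B, Sc ρ b := by
  classical
  intro b hb
  let A : Subgroup G :=
    { carrier := {x | x ∈ B ∧ ∀ y ∈ B, ρ (x * y * x⁻¹) = ρ y}
      mul_mem' := fun {x x'} hx hx' => ⟨B.mul_mem hx.1 hx'.1, fun y hy => by
        rw [show x * x' * y * (x * x')⁻¹ = x * (x' * y * x'⁻¹) * x⁻¹ by group,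
          hx.2 _ (hB.conj_mem y hy x'), hx'.2 y hy]⟩
      one_mem' := ⟨B.one_mem, fun y _ => by simp⟩
      inv_mem' := fun {x} hx => ⟨B.inv_mem hx.1, fun y hy => by
        rw [← hx.2 _ (hB.conj_mem y hy x⁻¹)]
        congr 1
        group⟩ }
  have hA : A.Normal := ⟨fun x hx g => ⟨hB.conj_mem x hx.1 g, fun y hy => by
    rw [show g * x * g⁻¹ * y * (g * x * g⁻¹)⁻¹ = g * (x * (g⁻¹ * y * g) * x⁻¹) * g⁻¹ by group,
      map_mul, map_mul, hx.2 _ (hB.conj_mem' y hy g), ← map_mul, ← map_mul]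
    congr 1
    group⟩⟩
  have hA' := h.abel A hA fun x hx y hy => by
    conv_rhs => rw [← hx.2 y hy.1, ← map_mul, inv_mul_cancel_right, map_mul]
  obtain ⟨T, hT, hs⟩ : ∃ T : Finset G, (∀ t ∈ T, t ∈ B) ∧
      ∀ y ∈ B, ρ y ∈ Submodule.span K (ρ '' T) := by
    obtain ⟨t, h1, h2⟩ := (Submodule.fg_span_iff_fg_span_finset_subset (R := K) (ρ '' B)).mp
      (IsNoetherian.noetherian _)
    obtain ⟨T, h3, h4⟩ := Finset.subset_set_image_iff.mp h1
    refine ⟨T, h3, fun y hy => ?_⟩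
    rw [← Finset.coe_image, h4, ← h2]
    exact Submodule.subset_span ⟨y, hy, rfl⟩
  let f : G → T → End K V := fun g t => ρ (g * b * g⁻¹ * t * (g * b * g⁻¹)⁻¹)
  have hf : (Set.range f).Finite := by
    refine (Set.Finite.pi' fun t : T => finite_conj ρ t).subset ?_
    rintro _ ⟨g, rfl⟩ t
    refine ⟨det_conj ρ _ _, ?_⟩
    obtain ⟨c, e⟩ := hc _ (Subgroup.commutator_mem_commutator (hB.conj_mem b hb g) (hT t t.2))
    refine ⟨c, ?_⟩
    rw [← one_mul (ρ t), ← smul_mul_assoc, ← e, ← map_mul, commutatorElement_def,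
      inv_mul_cancel_right]
  refine h.schur b ((hf.biUnion fun φ _ => finite_conj ρ
    (Function.invFun f φ * b * (Function.invFun f φ)⁻¹)).subset ?_)
  rintro _ ⟨g, rfl⟩
  refine Set.mem_biUnion ⟨g, rfl⟩ ⟨by rw [det_conj, det_conj], ?_⟩
  have e := Function.invFun_eq (f := f) ⟨g, rfl⟩
  generalize Function.invFun f (f g) = g' at e
  have hx := hB.conj_mem b hb g
  have hx' := hB.conj_mem b hb g'
  have e' : ∀ t : T, ρ (g' * b * g'⁻¹ * t * (g' * b * g'⁻¹)⁻¹) =
      ρ (g * b * g⁻¹ * t * (g * b * g⁻¹)⁻¹) := congrFun e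
  change ∃ c : K, ρ (g * b * g⁻¹) = c • ρ (g' * b * g'⁻¹)
  generalize g * b * g⁻¹ = x at hx e'
  generalize g' * b * g'⁻¹ = x' at hx' e'
  suffices h2 : x'⁻¹ * x ∈ A by
    obtain ⟨c, hc'⟩ := hA' _ h2
    exact ⟨c, by rw [← mul_one (ρ x'), ← mul_smul_comm, ← hc', ← map_mul, mul_inv_cancel_left]⟩
  refine ⟨B.mul_mem (B.inv_mem hx') hx, fun y hy => ?_⟩
  have h1 : ∀ u ∈ Submodule.span K (ρ '' T), ρ (x'⁻¹ * x) * u * ρ (x'⁻¹ * x)⁻¹ = u := by
    intro u hu
    induction hu using Submodule.span_induction with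
    | mem u hu =>
      obtain ⟨t, ht, rfl⟩ := hu
      rw [← map_mul, ← map_mul,
        show x'⁻¹ * x * t * (x'⁻¹ * x)⁻¹ = x'⁻¹ * (x * t * x⁻¹) * x' by group, map_mul, map_mul,
        ← e' ⟨t, ht⟩, ← map_mul, ← map_mul]
      congr 1
      group
    | zero => simp
    | add u u' _ _ hu hu' => rw [mul_add, add_mul, hu, hu']
    | smul c u _ hu => rw [mul_smul_comm, smul_mul_assoc, hu]
  rw [map_mul, map_mul, h1 _ (hs y hy)]

theorem Irr.sc [Group.IsSolvable G] [Nontrivial V] (h : Irr ρ) (g : G) : Sc ρ g :=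
  solv_ind (fun B => ∀ x ∈ B, Sc ρ x) ⊤ inferInstance
    (fun x hx => ⟨1, by rw [Subgroup.mem_bot.mp hx, map_one, one_smul]⟩)
    (fun B hB _ => h.step B hB) g trivial

end lin

/-- The vectors that satisfy `P` after `e` difference operators. -/
def Kv {G V : Type} [AddCommGroup V] (ρ : G → V → V) (S : Set G) (P : V → Prop) : ℕ → V → Prop
  | 0, v => P v
  | e + 1, v => ∀ h ∈ S, Kv ρ S P e (ρ h v - v)

theorem Kv.add {G V : Type} [AddCommGroup V] {ρ : G → V → V} {S : Set G} {P : V → Prop} (a : ℕ) :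
    ∀ (b : ℕ) (v : V), Kv ρ S (Kv ρ S P a) b v → Kv ρ S P (a + b) v
  | 0, _, h => h
  | b + 1, _, h => fun g hg => Kv.add a b _ (h g hg)

theorem Kv.rel {G V G' V' : Type} [AddCommGroup V] [AddCommGroup V'] {ρ : G → V → V} {S : Set G}
    {P : V → Prop} {ρ' : G' → V' → V'} {S' : Set G'} {P' : V' → Prop} (R : V → V' → Prop)
    (h0 : ∀ v v', R v v' → P' v' → P v)
    (h1 : ∀ h ∈ S, ∃ h' ∈ S', ∀ v v', R v v' → R (ρ h v - v) (ρ' h' v' - v')) :
    ∀ (e : ℕ) (v : V) (v' : V'), R v v' → Kv ρ' S' P' e v' → Kv ρ S P e v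
  | 0, v, v', r, h => h0 v v' r h
  | e + 1, v, v', r, h => fun g hg => by
    obtain ⟨g', hg', h2⟩ := h1 g hg
    exact Kv.rel R h0 h1 e _ _ (h2 v v' r) (h g' hg')

theorem closed {K : Type} [Field K] [IsAlgClosed K] (n : ℕ) : ∀ (G V : Type) [Group G]
    [Group.IsSolvable G] [AddCommGroup V] [Module K V] [FiniteDimensional K V]
    (ρ : G →* End K V), finrank K V = n → ∃ H : Subgroup G, H.FiniteIndex ∧ ∃ e, ∀ v,
      Kv (fun g => ρ g) (⁅H, H⁆ : Subgroup G) (· = 0) e v := by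
  induction n using Nat.strong_induction_on with
  | _ n ih =>
  intro G V _ _ _ _ _ ρ hn
  rcases subsingleton_or_nontrivial V with hV | hV
  · exact ⟨⊤, inferInstance, 0, fun v => Subsingleton.elim v 0⟩
  by_cases h : Irr ρ
  · refine ⟨⊤, inferInstance, 1, fun v g hg => ?_⟩
    have h1 : ⁅(⊤ : Subgroup G), ⊤⁆ ≤ ρ.toHomUnits.ker := Subgroup.commutator_le.mpr
      fun x _ y _ => Units.ext (by
        obtain ⟨c, hc⟩ := h.sc x
        have e : ρ (x * y) = ρ (y * x) := by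
          rw [map_mul, map_mul, hc, smul_mul_assoc, mul_smul_comm, one_mul, mul_one]
        change ρ (x * y * x⁻¹ * y⁻¹) = 1
        rw [map_mul, map_mul, e, ← map_mul, ← map_mul, mul_inv_cancel_right, mul_inv_cancel,
          map_one])
    have h2 : ρ g = 1 := congrArg Units.val (h1 hg)
    change ρ g v - v = 0
    rw [h2, End.one_apply, sub_self]
  simp only [Irr, not_forall, not_or] at h
  obtain ⟨H, hH, W, hW, h1, h2⟩ := h
  have hW' : ∀ g : H, W ≤ W.comap (ρ.comp H.subtype g) := fun g => hW g g.2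
  have d := W.finrank_quotient_add_finrank
  have d1 := Submodule.finrank_lt h2
  have d2 : finrank K W ≠ 0 := fun e => h1 (Submodule.finrank_eq_zero.mp e)
  obtain ⟨H1, i1, e1, k1⟩ := ih _ (hn ▸ d1) H W
    (Representation.subrepresentation (ρ.comp H.subtype) W hW') rfl
  obtain ⟨H2, i2, e2, k2⟩ := ih _ (by omega) H (V ⧸ W)
    (Representation.quotient (ρ.comp H.subtype) W hW') rfl
  refine ⟨(H1 ⊓ H2).map H.subtype, ⟨?_⟩, e1 + e2, fun v => Kv.add e1 e2 v ?_⟩
  · rw [Subgroup.index_map_subtype]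
    exact mul_ne_zero Subgroup.FiniteIndex.index_ne_zero hH.index_ne_zero
  rw [← Subgroup.map_commutator]
  refine Kv.rel (fun v q => W.mkQ v = q) (fun v q r hq => ?_) ?_ e2 v _ rfl (k2 (W.mkQ v))
  · refine Kv.rel (fun (v : V) (w : W) => v = w) (fun v w r hw => by rw [r, hw]; rfl) ?_ e1 v
      ⟨v, (Submodule.Quotient.mk_eq_zero W).mp (r.trans hq)⟩ rfl (k1 _)
    rintro _ ⟨g, hg, rfl⟩
    refine ⟨g, Subgroup.commutator_mono inf_le_left inf_le_left hg, ?_⟩
    rintro _ w rfl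
    rfl
  · rintro _ ⟨g, hg, rfl⟩
    refine ⟨g, Subgroup.commutator_mono inf_le_right inf_le_right hg, ?_⟩
    rintro v _ rfl
    rfl

theorem mem_Zs {G V : Type} [AddCommGroup V] [Module ℚ V] (ρ : G → End ℚ V) (S : Set G)
    (W : Submodule ℚ V) : ∀ (e : ℕ) (v : V), Kv (fun g => ρ g) S (· ∈ W) e v → v ∈ Zs ρ S W e
  | 0, _, h => h
  | e + 1, v, h => by
    simp only [Zs, Submodule.mem_iInf, Submodule.mem_comap]
    exact fun g hg => mem_Zs ρ S W e _ (h g hg)

theorem of_mem_Zs {G V : Type} [AddCommGroup V] [Module ℚ V] (ρ : G → End ℚ V) (S : Set G)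
    (W : Submodule ℚ V) : ∀ (e : ℕ) (v : V), v ∈ Zs ρ S W e → Kv (fun g => ρ g) S (· ∈ W) e v
  | 0, _, h => h
  | e + 1, v, h => by
    simp only [Zs, Submodule.mem_iInf, Submodule.mem_comap] at h
    exact fun g hg => of_mem_Zs ρ S W e _ (h g hg)

end Lkm

open TensorProduct in
theorem lkm (G V : Type) [Group G] [Group.IsSolvable G] [AddCommGroup V] [Module ℚ V]
    [FiniteDimensional ℚ V] (ρ : G →* Module.End ℚ V) :
    ∃ H : Subgroup G, H.FiniteIndex ∧ ∃ e, Zs ρ (⁅H, H⁆ : Subgroup G) ⊥ e = ⊤ := by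
  obtain ⟨H, hH, e, h⟩ := Lkm.closed (K := ℂ) _ G (ℂ ⊗[ℚ] V)
    ((Module.End.baseChangeHom ℚ ℂ V : _ →* _).comp ρ) rfl
  refine ⟨H, hH, e, eq_top_iff.mpr fun v _ => Lkm.mem_Zs _ _ _ e v ?_⟩
  refine Lkm.Kv.rel (fun v w => (1 : ℂ) ⊗ₜ[ℚ] v = w) (fun v w r hw => ?_) (fun g hg => ⟨g, hg, ?_⟩)
    e v _ rfl (h _)
  · exact Module.FaithfullyFlat.tensorProduct_mk_injective (A := ℚ) (B := ℂ) V
      ((r.trans hw).trans (map_zero _).symm)
  · rintro v _ rfl
    rw [tmul_sub]
    rfl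

end Pool.Agent.Lib.MP_2fb4be_al.Sol
end
end
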