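import Mathlib
import Pool.Agent.Lib.MP_2fb4be_al.Comb
import Pool.Agent.Lib.MP_2fb4be_al.Sol.LKM

-- part Pool.Agent.Lib.MP_2fb4be_al.Sol.Comb
section

/-!
Combable groups: automatic groups, subgroups of finite index, quotients by finite subgroups,
and fillings of cycles.
-/

set_option autoImplicit false

namespace Pool.Agent.Lib.MP_2fb4be_al.Sol

variable {G : Type} [Group G]

theorem exists_comb (hG : IsAutomatic G) : ∃ B : ℕ → G → Prop, Balls B ∧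
    ∃ (p : ℕ → G → G) (k C : ℕ), (∀ g, p 0 g = 1) ∧ (∀ t g, B 1 ((p t g)⁻¹ * p (t + 1) g)) ∧
      (∀ t g h R, B R (g⁻¹ * h) → B (k * R) ((p t g)⁻¹ * p t h)) ∧
      ∀ g D, B D g → ∀ t, C * (D + 1) ≤ t → p t g = g := by
  classical
  obtain ⟨A, _, f, L, k, -, hinv, ⟨σ, _, M, hM⟩, hsurj, hft⟩ := hG
  let B : ℕ → G → Prop := fun R g => ∃ w : List A, w.length ≤ R ∧ (w.map f).prod = g
  have hB : Balls B := by
    refine ⟨⟨[], le_rfl, rfl⟩, ?_, ?_, ?_, ?_, ?_, ?_, ?_⟩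
    · rintro R R' g h ⟨w, h1, h2⟩
      exact ⟨w, h1.trans h, h2⟩
    · rintro R R' g h ⟨w, h1, rfl⟩ ⟨w', h1', rfl⟩
      exact ⟨w ++ w', by simp; omega, by simp⟩
    · rintro R g ⟨w, h1, rfl⟩
      choose i hi using hinv
      refine ⟨(w.map i).reverse, by simpa using h1, ?_⟩
      clear h1
      induction w with
      | nil => simp
      | cons a w ih =>
        simp only [List.map_cons, List.reverse_cons, List.map_append, List.prod_append, ih]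
        simp [hi]
    · intro R
      refine ((List.finite_length_le A R).image fun w => (w.map f).prod).subset ?_
      rintro g ⟨w, h1, h2⟩
      exact ⟨w, h1, h2⟩
    · intro g
      obtain ⟨w, -, h⟩ := hsurj g
      exact ⟨_, w, le_rfl, h⟩
    · rintro g ⟨w, h1, rfl⟩
      rw [List.length_eq_zero_iff.1 (Nat.le_zero.1 h1)]
      rfl
    · rintro R g ⟨w, h1, rfl⟩
      rcases List.eq_nil_or_concat w with rfl | ⟨l, a, rfl⟩
      · exact ⟨1, 1, ⟨[], by simp, rfl⟩, ⟨[], by simp, rfl⟩, by simp⟩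
      · exact ⟨_, _, ⟨l, by simpa using h1, rfl⟩, ⟨[a], le_rfl, rfl⟩, by simp⟩
  have hmin : ∀ g : G, ∃ w, w ∈ L ∧ (w.map f).prod = g ∧
      ∀ v ∈ L, (v.map f).prod = g → w.length ≤ v.length := by
    intro g
    have hex : ∃ n, ∃ w, w ∈ L ∧ (w.map f).prod = g ∧ w.length = n := by
      obtain ⟨w, h1, h2⟩ := hsurj g
      exact ⟨_, w, h1, h2, rfl⟩
    obtain ⟨w, h1, h2, h3⟩ := Nat.find_spec hex
    exact ⟨w, h1, h2, fun v hv e => h3 ▸ Nat.find_min' hex ⟨v, hv, e, rfl⟩⟩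
  choose c hcL hcv hcm using hmin
  have hft' : ∀ g s, B 1 s → ∀ t, B k ((((c g).take t).map f).prod⁻¹ *
      (((c (g * s)).take t).map f).prod) := by
    rintro g s ⟨w, h1, rfl⟩ t
    obtain ⟨u, h2, h3⟩ := hft (c g) (hcL g) (c (g * (w.map f).prod)) (hcL _)
      ⟨w, h1, by rw [hcv, hcv]⟩ t
    exact ⟨u, h2, by rw [← h3]; simp⟩
  let N0 : ℕ := (Finset.univ (α := σ) ×ˢ (hB.fin k).toFinset).card
  have hlen : ∀ g s, B 1 s → (c (g * s)).length ≤ (c g).length + N0 := by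
    intro g s hs
    by_contra hlt
    push Not at hlt
    set v := c (g * s) with hv
    obtain ⟨i, hi, j, hj, hij, e⟩ := Finset.exists_ne_map_eq_of_card_lt_of_maps_to
      (s := Finset.range (N0 + 1)) (t := Finset.univ (α := σ) ×ˢ (hB.fin k).toFinset)
      (by simp [N0])
      (f := fun i => (M.eval (v.take ((c g).length + i)),
        g⁻¹ * ((v.take ((c g).length + i)).map f).prod)) (by
        intro i _
        have := hft' g s hs ((c g).length + i)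
        rw [List.take_of_length_le (by omega), hcv] at this
        simpa using this)
    have key : ∀ i j, i < j → j < N0 + 1 →
        M.eval (v.take ((c g).length + i)) = M.eval (v.take ((c g).length + j)) →
        ((v.take ((c g).length + i)).map f).prod = ((v.take ((c g).length + j)).map f).prod →
        False := by
      intro i j h1 h2 e1 e2
      have a1 : v.take ((c g).length + i) ++ v.drop ((c g).length + j) ∈ L := by
        have a0 : v ∈ L := hcL _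
        rw [← hM, DFA.mem_accepts] at a0 ⊢
        rw [← List.take_append_drop ((c g).length + j) v] at a0
        unfold DFA.eval at *
        rwa [DFA.evalFrom_of_append, ← e1, ← DFA.evalFrom_of_append] at a0
      have a2 := hcm (g * s) _ a1 (by
        rw [List.map_append, List.prod_append, e2, ← List.prod_append, ← List.map_append,
          List.take_append_drop, hv, hcv])
      rw [← hv] at a2
      simp only [List.length_append, List.length_take, List.length_drop] at a2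
      omega
    simp only [Prod.mk.injEq, mul_right_inj] at e
    rcases lt_or_gt_of_ne hij with h | h
    · exact key i j h (Finset.mem_range.1 hj) e.1 e.2
    · exact key j i h (Finset.mem_range.1 hi) e.1.symm e.2.symm
  have hlen2 : ∀ D g, B D g → (c g).length ≤ (c 1).length + N0 * D := by
    intro D
    induction D with
    | zero => intro g hg; rw [hB.zero hg]; simp
    | succ D ih =>
      intro g hg
      obtain ⟨h, s, h1, h2, rfl⟩ := hB.succ hg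
      have := ih h h1
      have := hlen h s h2
      rw [Nat.mul_succ]
      omega
  refine ⟨B, hB, (fun t g => (((c g).take t).map f).prod), k,
    ((c 1).length + N0), (fun g => by simp), (fun t g => ?_), (fun t g h R => ?_),
    (fun g D hg t ht => ?_)⟩
  · beta_reduce
    rcases lt_or_ge t (c g).length with h | h
    · refine ⟨[(c g)[t]], le_rfl, ?_⟩
      rw [List.take_succ_eq_append_getElem h]
      simp only [List.map_append, List.prod_append, inv_mul_cancel_left]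
    · rw [List.take_of_length_le h, List.take_of_length_le (by omega), inv_mul_cancel]
      exact hB.mono (Nat.zero_le _) hB.one
  · beta_reduce
    induction R generalizing h with
    | zero =>
      intro hh
      have : h = g := (inv_mul_eq_one.1 (hB.zero hh)).symm
      rw [this, inv_mul_cancel]
      exact hB.one
    | succ R ih =>
      intro hh
      obtain ⟨u, s, h1, h2, h3⟩ := hB.succ hh
      have a1 := ih (g * u) (by simpa using h1)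
      have a2 := hft' (g * u) s h2 t
      have e : g * u * s = h := by rw [mul_assoc, ← h3]; simp
      rw [e] at a2
      simpa [mul_assoc, Nat.mul_succ] using hB.mul a1 a2
  · have := hlen2 D g hg
    beta_reduce
    rw [List.take_of_length_le (by nlinarith), hcv]

theorem combable_of_automatic (hG : IsAutomatic G) : Combable G := by
  classical
  obtain ⟨B, hB, p, k, C, h0, h1, h2, h3⟩ := exists_comb hG
  have hl : ∀ g R, Nat.find (hB.ex g) ≤ R ↔ B R g := fun g R =>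
    ⟨fun h => hB.mono h (Nat.find_spec (hB.ex g)), fun h => Nat.find_min' _ h⟩
  have hs : ∀ g, B (Nat.find (hB.ex g)) g := fun g => Nat.find_spec (hB.ex g)
  let L : Len G :=
    { len := fun g => Nat.find (hB.ex g)
      one := Nat.le_zero.1 ((hl _ _).2 hB.one)
      mul := fun g h => (hl _ _).2 (hB.mul (hs g) (hs h))
      inv := fun g => le_antisymm ((hl _ _).2 (hB.inv (hs g)))
        ((hl _ _).2 (by simpa using hB.inv (hs g⁻¹)))
      fin := fun R => (hB.fin R).subset fun g hg => (hl _ _).1 hg }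
  refine ⟨L, p, C + 1, h0, fun t g => ((hl _ _).2 (h1 t g)).trans (by omega),
    fun R => ⟨k * R, fun t g h hh => (hl _ _).2 (h2 t g h R ((hl _ _).1 hh))⟩,
    fun g t ht => h3 g _ (hs g) t (le_trans (Nat.mul_le_mul_right _ (by omega)) ht)⟩

theorem Len.bdd (L : Len G) {s : Set G} (hs : s.Finite) : ∃ R, ∀ g ∈ s, L.len g ≤ R := by
  obtain ⟨R, hR⟩ := (hs.image L.len).bddAbove
  exact ⟨R, fun g hg => hR ⟨g, hg, rfl⟩⟩

theorem Len.mul3 (L : Len G) (a b c : G) : L.len (a * b * c) ≤ L.len a + L.len b + L.len c :=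
  (L.mul _ _).trans (Nat.add_le_add_right (L.mul _ _) _)

theorem Combable.fg (hG : Combable G) : Group.FG G := by
  obtain ⟨L, p, C, h0, h1, -, h3⟩ := hG
  refine Group.fg_iff.2 ⟨_, ?_, L.fin C⟩
  rw [eq_top_iff]
  intro g _
  rw [← h3 g _ le_rfl]
  generalize C * (L.len g + 1) = t
  induction t with
  | zero => rw [h0]; exact one_mem _
  | succ t ih => simpa using mul_mem (ih) (Subgroup.subset_closure (h1 t g))

theorem Combable.subgroup (hG : Combable G) (H : Subgroup G) [H.FiniteIndex] : Combable H := by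
  classical
  obtain ⟨L, p, C, h0, h1, h2, h3⟩ := hG
  obtain ⟨c, hc⟩ := L.bdd (Set.finite_range fun q : G ⧸ H => q.out)
  have hσ : ∀ g : G, ∃ s : H, L.len (g⁻¹ * s) ≤ c ∧ (g ∈ H → s = g) := by
    intro g
    by_cases hg : g ∈ H
    · exact ⟨⟨g, hg⟩, by simp [L.one], fun _ => rfl⟩
    · obtain ⟨s, hs⟩ := QuotientGroup.mk_out_eq_mul H g⁻¹
      exact ⟨s, hs ▸ hc _ ⟨_, rfl⟩, fun h => absurd h hg⟩
  choose σ hσ1 hσ2 using hσ
  let L' : Len H :=
    { len := fun h => L.len h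
      one := L.one
      mul := fun g h => L.mul g h
      inv := fun g => L.inv g
      fin := fun R => (L.fin R).preimage Subtype.val_injective.injOn }
  have key : ∀ x y : G, L'.len ((σ x)⁻¹ * σ y) ≤ c + L.len (x⁻¹ * y) + c := by
    intro x y
    have := L.mul3 (x⁻¹ * σ x)⁻¹ (x⁻¹ * y) (y⁻¹ * σ y)
    rw [L.inv] at this
    have e : (x⁻¹ * σ x)⁻¹ * (x⁻¹ * y) * (y⁻¹ * σ y) = (σ x : G)⁻¹ * σ y := by group
    have a := hσ1 x
    have b := hσ1 y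
    rw [e] at this
    exact this.trans (by omega)
  refine ⟨L', fun t h => σ (p t h), c + C + c, fun g => Subtype.ext ?_, fun t g => ?_, fun R => ?_,
    fun g t ht => Subtype.ext ?_⟩
  · beta_reduce
    rw [h0]
    exact hσ2 1 H.one_mem
  · have := h1 t g
    exact (key _ _).trans (by omega)
  · obtain ⟨R', hR'⟩ := h2 R
    refine ⟨c + R' + c, fun t g h hh => (key _ _).trans ?_⟩
    have := hR' t g h hh
    omega
  · beta_reduce
    rw [h3 g t (le_trans (Nat.mul_le_mul_right _ (by omega)) ht)]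
    exact hσ2 _ g.2

theorem Combable.quotient (hG : Combable G) (T : Subgroup G) [T.Normal] [Finite T] :
    Combable (G ⧸ T) := by
  classical
  obtain ⟨L, p, C, h0, h1, h2, h3⟩ := hG
  obtain ⟨c, hc⟩ := L.bdd (Set.toFinite (T : Set G))
  have hs : ∀ q : G ⧸ T, ∃ g : G, (g : G ⧸ T) = q ∧ ∀ g' : G, (g' : G ⧸ T) = q → L.len g ≤ L.len g' := by
    intro q
    have hex : ∃ n, ∃ g : G, (g : G ⧸ T) = q ∧ L.len g = n := ⟨_, q.out, q.out_eq, rfl⟩
    obtain ⟨g, a, b⟩ := Nat.find_spec hex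
    exact ⟨g, a, fun g' e => b ▸ Nat.find_min' hex ⟨g', e, rfl⟩⟩
  choose s hs1 hs2 using hs
  let L' : Len (G ⧸ T) :=
    { len := fun q => L.len (s q)
      one := Nat.le_zero.1 (L.one ▸ hs2 1 1 rfl)
      mul := fun g h => (hs2 _ _ (by simp [hs1])).trans (L.mul (s g) (s h))
      inv := fun g => le_antisymm ((hs2 _ _ (by simp [hs1])).trans (L.inv (s g)).le)
        ((hs2 _ _ (by simp [hs1])).trans (L.inv (s g⁻¹)).le)
      fin := fun R => ((L.fin R).image QuotientGroup.mk).subset fun q hq => ⟨s q, hq, hs1 q⟩ }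
  have key : ∀ x y : G, L'.len ((x : G ⧸ T)⁻¹ * y) ≤ L.len (x⁻¹ * y) :=
    fun x y => hs2 _ _ (by simp)
  refine ⟨L', fun t q => p t (s q), C, fun g => by simp [h0], fun t g => (key _ _).trans (h1 _ _),
    fun R => ?_, fun g t ht => by beta_reduce; rw [h3 _ t ht, hs1]⟩
  obtain ⟨R', hR'⟩ := h2 (R + c)
  refine ⟨R', fun t g h hh => (key _ _).trans (hR' _ _ _ ?_)⟩
  have e : ((s (g⁻¹ * h) : G) : G ⧸ T) = ((s g)⁻¹ * s h : G) := by simp [hs1]
  have a := hc _ (QuotientGroup.eq.1 e)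
  have b := L.mul (s (g⁻¹ * h)) ((s (g⁻¹ * h))⁻¹ * ((s g)⁻¹ * s h))
  rw [mul_inv_cancel_left] at b
  have : L.len (s (g⁻¹ * h)) ≤ R := hh
  omega

theorem fill_of_contr {X : Type} (κ : ℕ → X → X) (M : ℕ) (x0 : X) {z : Ch X} (hz : bd z = 0)
    {S S' : List X → Prop} {n N : ℕ} (hs : Sup z S N) (hn : ∀ l, S l → l.length = n)
    (h0 : ∀ l, S l → ∀ x ∈ l, κ 0 x = x)
    (h1 : ∀ t < M, ∀ l m, S l → m.length = n + 1 →
      (∀ y ∈ m, ∃ x ∈ l, y = κ t x ∨ y = κ (t + 1) x) → S' m)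
    (h2 : ∀ l, S l → S' (x0 :: l.map (κ M))) : ∃ Y, bd Y = z ∧ Sup Y S' (M * (N * n) + N) := by
  have tel : ∀ T, bd (∑ t ∈ Finset.range T, pr (κ t) (κ (t + 1)) z) = z + push (κ T) z := by
    intro T
    induction T with
    | zero => rw [push_eq_self _ _ fun l hl => h0 l (hs.2 l hl), add_self]; simp
    | succ T ih =>
      rw [Finset.sum_range_succ, map_add, ih, bd_pr, hz, map_zero, zero_add, add_assoc,
        ← add_assoc (push _ z), add_self, zero_add]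
  refine ⟨∑ t ∈ Finset.range M, pr (κ t) (κ (t + 1)) z + cn x0 (push (κ M) z), ?_, Sup.add ?_ ?_⟩
  · rw [map_add, tel, bd_cn, bd_push, hz, map_zero, map_zero, add_zero, add_assoc, add_self,
      add_zero]
  · have := Sup.sum (Finset.range M) (c := fun t => pr (κ t) (κ (t + 1)) z) (S := S') (N := N * n)
      fun t ht => hs.pr _ _ hn (h1 t (Finset.mem_range.1 ht))
    rwa [Finset.card_range] at this
  · exact (hs.push (S' := fun m => S' (x0 :: m)) _ h2).cn _ fun _ h => h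

theorem Combable.fill (hG : Combable G) : ∃ L : Len G, ∀ n R, ∃ R' C, ∀ (D N : ℕ) (z : Ch G),
    bd z = 0 → Sup z (fun l => l.length = n ∧ (∀ x ∈ l, ∀ y ∈ l, L.len (x⁻¹ * y) ≤ R) ∧
      ∀ x ∈ l, L.len x ≤ D) N → ∃ Y, bd Y = z ∧
      Sup Y (fun l => l.length = n + 1 ∧ ∀ x ∈ l, ∀ y ∈ l, L.len (x⁻¹ * y) ≤ R')
        (C * (D + 1) * N) := by
  obtain ⟨L, p, C, h0, h1, h2, h3⟩ := hG
  refine ⟨L, fun n R => ?_⟩
  obtain ⟨R', hR'⟩ := h2 R
  refine ⟨R' + C, C * n + 1, fun D N z hz hs => ?_⟩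
  obtain ⟨Y, a, b⟩ := fill_of_contr (fun t => p (C * (D + 1) - t)) (C * (D + 1)) 1 hz hs
    (S' := fun l => l.length = n + 1 ∧ ∀ x ∈ l, ∀ y ∈ l, L.len (x⁻¹ * y) ≤ R' + C)
    (fun l hl => hl.1)
    (fun l hl x hx => h3 x _ (by
      have := hl.2.2 x hx
      exact Nat.mul_le_mul_left _ (by omega)))
    (fun t ht l m hl hm hx => ⟨hm, fun y hy y' hy' => by
      obtain ⟨x, hx1, e⟩ := hx y hy
      obtain ⟨x', hx1', e'⟩ := hx y' hy'
      have a1 := fun t => hR' t _ _ (hl.2.1 x hx1 x' hx1')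
      obtain ⟨s, hs⟩ : ∃ s, C * (D + 1) - t = s + 1 := ⟨C * (D + 1) - (t + 1), by omega⟩
      have hs' : C * (D + 1) - (t + 1) = s := by omega
      simp only [hs, hs'] at e e'
      rcases e with rfl | rfl <;> rcases e' with rfl | rfl
      · exact (a1 _).trans (by omega)
      · have := L.mul ((p (s + 1) x)⁻¹ * p (s + 1) x') ((p s x')⁻¹ * p (s + 1) x')⁻¹
        rw [L.inv] at this
        have b1 := a1 (s + 1)
        have b2 := h1 s x'
        simp only [mul_inv_rev, inv_inv, mul_assoc, mul_inv_cancel_left] at this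
        omega
      · have := L.mul ((p s x)⁻¹ * p s x') ((p s x')⁻¹ * p (s + 1) x')
        have b1 := a1 s
        have b2 := h1 s x'
        simp only [mul_assoc, mul_inv_cancel_left] at this
        omega
      · exact (a1 _).trans (by omega)⟩)
    (fun l hl => ⟨by simp [hl.1], fun x hx y hy => by
      have : ∀ x ∈ (1 : G) :: l.map (p (C * (D + 1) - C * (D + 1))), x = 1 := by simp [h0]
      simp [this x hx, this y hy, L.one]⟩)
  exact ⟨Y, a, b.mono (fun _ h => h) (by nlinarith [Nat.zero_le (D * N)])⟩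

end Pool.Agent.Lib.MP_2fb4be_al.Sol
end

-- part Pool.Agent.Lib.MP_2fb4be_al.Sol.Geo
section

/-!
An axiomatic form of a cocompact lattice in a soluble group over finitely many places;
fillings and subdivision of cycles.
-/

set_option autoImplicit false

namespace Pool.Agent.Lib.MP_2fb4be_al.Sol

/-- Products of at most `D` elements of `B`. -/
def Rad {Γ : Type} [Group Γ] (B : Set Γ) (D : ℕ) (x : Γ) : Prop :=
  ∃ l : List Γ, l.length ≤ D ∧ (∀ b ∈ l, b ∈ B) ∧ l.prod = x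

/-- The data used by the geometric argument. -/
structure Geo (G Γ K J : Type) [Group G] [Group Γ] [Field K] [Fintype J] where
  i : G →* Γ
  k : ℕ
  U : ℕ → Subgroup Γ
  Bd : ℕ → Set Γ
  Om : ℕ → ℕ → Set Γ
  pw : ℚ → Γ → Γ
  lin : Γ → K
  tr : Γ → K
  v : J → AbsoluteValue K ℝ
  r : ℕ
  s : (Fin r → ℤ) → Γ
  U_normal : ∀ a, (U a).Normal
  U_anti : Antitone U
  U_k : U k = ⊥
  U_nil : (U 0).lowerCentralSeries k = ⊥
  Bd_mono : Monotone Bd
  Bd_one : 1 ∈ Bd 0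
  Bd_mul : ∀ R, ∃ R', ∀ a ∈ Bd R, a⁻¹ ∈ Bd R' ∧ ∀ b ∈ Bd R, a * b ∈ Bd R'
  Bd_i : ∀ g, ∃ R, i g ∈ Bd R
  Bd_fin : ∀ R, {g | i g ∈ Bd R}.Finite
  Bd_cob : ∃ R0, ∀ R, ∀ b ∈ Bd R, ∃ g, (i g)⁻¹ * b ∈ Bd R0
  Bd_v : ∀ R, ∃ c : ℝ, ∀ b ∈ Bd R, ∀ j, v j (tr b) ≤ c
  Om_mono : ∀ {R R' L L'}, R ≤ R' → L ≤ L' → Om R L ⊆ Om R' L'
  Om_U : ∀ R L, ∀ u ∈ Om R L, u ∈ U 0
  Om_mul : ∀ R, ∃ R' d, ∀ L, 2 ≤ L → (∀ b ∈ Bd R, b ∈ U 0 → b ∈ Om R' (L ^ d)) ∧
    ∀ u ∈ Om R L, u⁻¹ ∈ Om R' (L ^ d) ∧ (∀ u' ∈ Om R L, u * u' ∈ Om R' (L ^ d)) ∧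
      ∀ b ∈ Bd R, b * u * b⁻¹ ∈ Om R' (L ^ d)
  contr : ∀ R, ∃ R' d, ∀ L, 2 ≤ L → ∃ M : ℕ, 0 < M ∧ M ≤ L ^ d ∧
    (∀ t : ℕ, t ≤ M → ∀ j, v j (((t : ℚ) / M : ℚ) : K) ≤ 1) ∧
    ∀ u ∈ Om R L, pw (1 / M) u ∈ Bd R' ∧ pw (1 / M) u ^ M = u ∧
      (∀ t : ℕ, t ≤ M → pw (t / M) u ∈ Om R' (L ^ d)) ∧
      ∀ a, u ∈ U a → ∀ u' ∈ Om R L, u' ∈ U a → ∀ b ∈ Bd R, u⁻¹ * u' * b⁻¹ ∈ U (a + 1) →
        ∀ t t' : ℕ, t ≤ M → t' ≤ M → t ≤ t' + 1 → t' ≤ t + 1 →
          ∃ b' ∈ Bd R', (pw (t / M) u)⁻¹ * pw (t' / M) u' * b'⁻¹ ∈ U (a + 1)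
  pw_U : ∀ a t, ∀ u ∈ U a, pw t u ∈ U a
  pw_zero : ∀ u, pw 0 u = 1
  pw_one : ∀ u ∈ U 0, pw 1 u = u
  lin_one : lin 1 = 1
  lin_mul : ∀ a b, lin (a * b) = lin a * lin b
  tr_mul : ∀ a b, tr (a * b) = tr a + lin a * tr b
  lin_U : ∀ u ∈ U 0, lin u = 1
  tr_U : ∀ u ∈ U 1, tr u = 0
  tr_pw : ∀ t, ∀ u ∈ U 0, tr (pw t u) = t * tr u
  card : 2 ≤ Fintype.card J
  nonface : ∀ γ, ∃ j, v j (lin γ) ≤ 1
  face : ∀ j0, ∃ q, ∀ j, j ≠ j0 → 1 < v j (lin (s q))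
  tr_s : ∀ q, tr (s q) = 0
  lin_s : ∀ q q', lin (s (q + q')) = lin (s q) * lin (s q')
  s_Bd : ∀ q, ∃ R, s q ∈ Bd R
  s_rad : ∃ R d, ∀ L : ℕ, 2 ≤ L → ∀ q : Fin r → ℤ, (∀ a, |q a| ≤ (L : ℤ)) → Rad (Bd R) (L ^ d) (s q)
  s_coc : ∀ c : ℕ, ∃ R d, ∀ L : ℕ, 2 ≤ L → ∀ q e : Fin r → ℤ, (∀ a, |q a| ≤ (L : ℤ)) → (∀ a, |e a| ≤ (c : ℤ)) →
    (s q)⁻¹ * s (q + e) * (s e)⁻¹ ∈ Om R (L ^ d)
  elts : ∃ R d c : ℕ, ∀ n L : ℕ, 2 ≤ L → ∃ x : J → Γ, (∀ j, x j ∈ U 0) ∧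
    (∀ j, 2 ^ n ≤ v j (tr (x j))) ∧ (∀ j j', j' ≠ j → v j' (tr (x j)) ≤ 1) ∧
    ∀ j (q : Fin r → ℤ), (∀ a, |q a| ≤ (L : ℤ)) → ((c * (n + 1) : ℕ) : ℝ) ≤ Real.log (v j (lin (s q))) →
      (s q)⁻¹ * x j * s q ∈ Om R (L ^ d)

theorem lin_congr {X Y : Type} {F H : Ch X →ₗ[ZMod 2] Ch Y} {c : Ch X}
    (h : ∀ l ∈ c.support, F (sx l) = H (sx l)) : F c = H c := by
  conv_lhs => rw [← c.sum_single, Finsupp.sum, map_sum]
  conv_rhs => rw [← c.sum_single, Finsupp.sum, map_sum]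
  refine Finset.sum_congr rfl fun l hl => ?_
  have h2 : c l = 1 := (zmod2 _).resolve_left (Finsupp.mem_support_iff.1 hl)
  rw [h2]
  exact h l hl

theorem sup_bdL {X : Type} (l : List X) :
    Sup (bdL l) (fun m => m.length + 1 = l.length ∧ ∀ x ∈ m, x ∈ l) l.length := by
  induction l with
  | nil => exact Sup.zero _ _
  | cons x l ih =>
    rw [bdL, List.length_cons, add_comm l.length 1]
    refine Sup.add (Sup.sx ⟨add_comm _ _, fun y hy => by simp [hy]⟩) (ih.cn _ ?_)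
    rintro m ⟨h1, h2⟩
    refine ⟨by simp; omega, fun y hy => ?_⟩
    rcases List.mem_cons.1 hy with rfl | hy
    · simp
    · simp [h2 y hy]

theorem sup_self {X : Type} {c : Ch X} {S : List X → Prop} (h : ∀ l ∈ c.support, S l) :
    Sup c S c.support.card := ⟨le_rfl, h⟩

theorem Sup.lin' {X Y : Type} {c : Ch X} {S : List X → Prop} {S' : List Y → Prop} {N : ℕ}
    (h : Sup c S N) (F : Ch X →ₗ[ZMod 2] Ch Y)
    (hF : ∀ l, S l → ∀ m ∈ (F (sx l)).support, S' m) : ∀ m ∈ (F c).support, S' m := by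
  classical
  have h1 : Sup c (fun l => l ∈ c.support) N := ⟨h.1, fun _ h => h⟩
  exact (h1.lin (M := c.support.sup fun l => (F (sx l)).support.card) F fun l hl =>
    ⟨Finset.le_sup (f := fun l => (F (sx l)).support.card) hl, hF l (h.2 l hl)⟩).2

theorem supp_add {X : Type} {c d : Ch X} {S : List X → Prop} (h1 : ∀ l ∈ c.support, S l)
    (h2 : ∀ l ∈ d.support, S l) : ∀ l ∈ (c + d).support, S l :=
  ((sup_self h1).add (sup_self h2)).2

theorem le_pow_self {L d : ℕ} (hd : 1 ≤ d) : L ≤ L ^ d :=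
  Nat.le_self_pow (by omega) L

theorem Rad.mono {Γ : Type} [Group Γ] {B B' : Set Γ} {D D' : ℕ} {x : Γ} (h : Rad B D x)
    (h1 : B ⊆ B') (h2 : D ≤ D') : Rad B' D' x := by
  obtain ⟨l, a, b, c⟩ := h
  exact ⟨l, a.trans h2, fun y hy => h1 (b y hy), c⟩

theorem Rad.mul {Γ : Type} [Group Γ] {B : Set Γ} {D D' : ℕ} {x y : Γ} (h : Rad B D x)
    (h' : Rad B D' y) : Rad B (D + D') (x * y) := by
  obtain ⟨l, a, b, rfl⟩ := h
  obtain ⟨l', a', b', rfl⟩ := h'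
  refine ⟨l ++ l', by simp; omega, fun z hz => ?_, by simp⟩
  rcases List.mem_append.1 hz with hz | hz
  · exact b z hz
  · exact b' z hz

theorem Rad.inv {Γ : Type} [Group Γ] {B B' : Set Γ} {D : ℕ} {x : Γ} (h : Rad B D x)
    (h1 : ∀ b ∈ B, b⁻¹ ∈ B') : Rad B' D x⁻¹ := by
  obtain ⟨l, a, b, rfl⟩ := h
  refine ⟨(l.map (·⁻¹)).reverse, by simpa using a, fun z hz => ?_, (List.prod_inv_reverse l).symm⟩
  obtain ⟨w, hw, rfl⟩ := List.mem_map.1 (List.mem_reverse.1 hz)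
  exact h1 w (b w hw)

theorem Rad.pow {Γ : Type} [Group Γ] {B : Set Γ} {x : Γ} (h : x ∈ B) (M : ℕ) : Rad B M (x ^ M) :=
  ⟨List.replicate M x, by simp, fun b hb => (List.eq_of_mem_replicate hb) ▸ h, by simp⟩

namespace Geo

variable {G Γ K J : Type} [Group G] [Group Γ] [Field K] [Fintype J] (P : Geo G Γ K J)

theorem one_mem (R : ℕ) : (1 : Γ) ∈ P.Bd R := P.Bd_mono (Nat.zero_le R) P.Bd_one

theorem bd3 (R : ℕ) : ∃ R', R ≤ R' ∧ ∀ a ∈ P.Bd R, ∀ b ∈ P.Bd R, ∀ c ∈ P.Bd R,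
    a * b * c⁻¹ ∈ P.Bd R' ∧ a⁻¹ * b * c ∈ P.Bd R' := by
  obtain ⟨R1, h1⟩ := P.Bd_mul R
  obtain ⟨R2, h2⟩ := P.Bd_mul R1
  refine ⟨max R R2, le_max_left _ _, fun a ha b hb c hc => ⟨P.Bd_mono (le_max_right _ _) ?_,
    P.Bd_mono (le_max_right _ _) ?_⟩⟩
  · exact (h2 _ ((h1 a ha).2 b hb)).2 _ (h1 c hc).1
  · rw [mul_assoc]
    exact (h2 _ (h1 a ha).1).2 _ ((h1 b hb).2 c hc)

theorem bd_finite {s : Set Γ} (hs : s.Finite) (h : ∀ x ∈ s, ∃ R, x ∈ P.Bd R) :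
    ∃ R, ∀ x ∈ s, x ∈ P.Bd R := by
  choose! f hf using h
  obtain ⟨R, hR⟩ := (hs.image f).bddAbove
  exact ⟨R, fun x hx => P.Bd_mono (hR ⟨x, hx, rfl⟩) (hf x hx)⟩

theorem step (R : ℕ) : ∃ R' d, R ≤ R' ∧ 1 ≤ d ∧ ∀ L, 2 ≤ L →
    (∀ b ∈ P.Bd R, b ∈ P.U 0 → b ∈ P.Om R' (L ^ d)) ∧
    ∀ u ∈ P.Om R L, u ∈ P.Om R' (L ^ d) ∧ u⁻¹ ∈ P.Om R' (L ^ d) ∧
      (∀ u' ∈ P.Om R L, u * u' ∈ P.Om R' (L ^ d)) ∧
      ∀ b ∈ P.Bd R, b * u * b⁻¹ ∈ P.Om R' (L ^ d) ∧ b⁻¹ * u * b ∈ P.Om R' (L ^ d) := by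
  obtain ⟨R0, hR0, h0⟩ := P.bd3 R
  obtain ⟨R', d, h⟩ := P.Om_mul R0
  refine ⟨max R0 R', d + 1, le_max_of_le_left hR0, by omega, fun L hL => ?_⟩
  have m : P.Om R' (L ^ d) ⊆ P.Om (max R0 R') (L ^ (d + 1)) :=
    P.Om_mono (le_max_right _ _) (Nat.pow_le_pow_right (by omega) (by omega))
  have m0 : P.Om R L ⊆ P.Om R0 L := P.Om_mono hR0 le_rfl
  refine ⟨fun b hb hU => m ((h L hL).1 b (P.Bd_mono hR0 hb) hU), fun u hu => ?_⟩
  obtain ⟨a1, a2, a3⟩ := (h L hL).2 u (m0 hu)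
  refine ⟨P.Om_mono (le_max_of_le_left hR0) (le_pow_self (by omega)) hu, m a1,
    fun u' hu' => m (a2 u' (m0 hu')), fun b hb => ⟨m (a3 b (P.Bd_mono hR0 hb)), m ?_⟩⟩
  have := a3 _ (h0 b hb 1 (P.one_mem _) 1 (P.one_mem _)).2
  simpa using this

theorem tr_one : P.tr 1 = 0 := by
  have := P.tr_mul 1 1
  rw [mul_one, P.lin_one, one_mul] at this
  exact left_eq_add.1 this

theorem tr_sub (x y : Γ) : P.tr y - P.tr x = P.lin x * P.tr (x⁻¹ * y) := by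
  have := P.tr_mul x (x⁻¹ * y)
  rw [mul_inv_cancel_left] at this
  rw [this]
  ring

theorem fill (hG : Combable G) (n R : ℕ) : ∃ R' C, ∀ (D N : ℕ) (z : Ch Γ), bd z = 0 →
    Sup z (fun l => l.length = n ∧ (∀ x ∈ l, ∀ y ∈ l, x⁻¹ * y ∈ P.Bd R) ∧
      ∀ x ∈ l, Rad (P.Bd R) D x) N → ∃ Y, bd Y = z ∧
      Sup Y (fun l => l.length = n + 1 ∧ ∀ x ∈ l, ∀ y ∈ l, x⁻¹ * y ∈ P.Bd R')
        (C * (D + 1) * N) := by
  obtain ⟨L, hL⟩ := hG.fill
  obtain ⟨R0, hR0⟩ := P.Bd_cob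
  have h1 : ∀ x : Γ, ∃ g, (∃ R, x ∈ P.Bd R) → (P.i g)⁻¹ * x ∈ P.Bd R0 := by
    intro x
    by_cases hx : ∃ R, x ∈ P.Bd R
    · obtain ⟨R, hx⟩ := hx
      obtain ⟨g, hg⟩ := hR0 R x hx
      exact ⟨g, fun _ => hg⟩
    · exact ⟨1, fun h => absurd h hx⟩
  choose ρ hρ using h1
  obtain ⟨R1, hR1, h3⟩ := P.bd3 (max R R0)
  obtain ⟨c, hc⟩ := L.bdd (P.Bd_fin R1)
  have m1 : P.Bd R ⊆ P.Bd (max R R0) := P.Bd_mono (le_max_left _ _)
  have m2 : P.Bd R0 ⊆ P.Bd (max R R0) := P.Bd_mono (le_max_right _ _)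
  have close : ∀ x y, (∃ R, x ∈ P.Bd R) → (∃ R, y ∈ P.Bd R) → x⁻¹ * y ∈ P.Bd R →
      L.len ((ρ x)⁻¹ * ρ y) ≤ c := by
    intro x y hx hy hxy
    refine hc _ ?_
    have := (h3 _ (m2 (hρ x hx)) _ (m1 hxy) _ (m2 (hρ y hy))).1
    simpa [mul_assoc] using this
  have rad : ∀ l : List Γ, (∀ b ∈ l, b ∈ P.Bd R) →
      (∃ R, l.prod ∈ P.Bd R) ∧ L.len (ρ l.prod) ≤ L.len (ρ 1) + c * l.length := by
    intro l
    induction l using List.reverseRecOn with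
    | nil => exact fun _ => ⟨⟨0, P.Bd_one⟩, by simp⟩
    | append_singleton l b ih =>
      intro hl
      obtain ⟨⟨R2, a1⟩, a2⟩ := ih fun x hx => hl x (by simp [hx])
      have hb := hl b (by simp)
      obtain ⟨R3, hR3⟩ := P.Bd_mul (max R R2)
      have a3 : ∃ R, l.prod * b ∈ P.Bd R := ⟨R3, (hR3 _ (P.Bd_mono (le_max_right _ _) a1)).2 _ 
        (P.Bd_mono (le_max_left _ _) hb)⟩
      rw [List.prod_append, List.prod_singleton]
      refine ⟨a3, ?_⟩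
      have a4 := close _ _ ⟨R2, a1⟩ a3 (by simpa using hb)
      have a5 := L.mul (ρ l.prod) ((ρ l.prod)⁻¹ * ρ (l.prod * b))
      rw [mul_inv_cancel_left] at a5
      simp only [List.length_append, List.length_singleton, Nat.mul_succ]
      omega
  obtain ⟨R2, C, hC⟩ := hL n c
  obtain ⟨R3, hR3⟩ := P.bd_finite ((L.fin R2).image P.i) (by
    rintro _ ⟨g, -, rfl⟩
    exact P.Bd_i g)
  obtain ⟨R4, hR4, h4⟩ := P.bd3 R1
  refine ⟨max R3 R4, C * (L.len (ρ 1) + c + 1) + n, fun D N z hz hs => ?_⟩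
  have hb : ∀ x, Rad (P.Bd R) D x → ∃ R, x ∈ P.Bd R := by
    rintro _ ⟨l, -, a, rfl⟩
    exact (rad l a).1
  obtain ⟨Y, hY, hYs⟩ := hC (L.len (ρ 1) + c * D) N (push ρ z) (by rw [bd_push, hz, map_zero])
    (hs.push ρ fun l hl => by
      refine ⟨by simpa using hl.1, fun y hy y' hy' => ?_, fun y hy => ?_⟩
      · obtain ⟨x, hx, rfl⟩ := List.mem_map.1 hy
        obtain ⟨x', hx', rfl⟩ := List.mem_map.1 hy'
        exact close _ _ (hb _ (hl.2.2 x hx)) (hb _ (hl.2.2 x' hx')) (hl.2.1 x hx x' hx')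
      · obtain ⟨x, hx, rfl⟩ := List.mem_map.1 hy
        obtain ⟨w, a, b, rfl⟩ := hl.2.2 x hx
        exact (rad w b).2.trans (Nat.add_le_add_left (Nat.mul_le_mul_left _ a) _))
  refine ⟨push P.i Y + pr id (P.i ∘ ρ) z, ?_,
    (Sup.add (N := C * (L.len (ρ 1) + c * D + 1) * N) (M := N * n) ?_ ?_).mono (fun _ h => h) ?_⟩
  · rw [map_add, bd_push, hY, push_push, bd_pr, hz, map_zero, zero_add, push_id, add_comm z,
      ← add_assoc, add_self, zero_add]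
  · refine hYs.push _ fun l hl => ⟨by simpa using hl.1, fun y hy y' hy' => ?_⟩
    obtain ⟨x, hx, rfl⟩ := List.mem_map.1 hy
    obtain ⟨x', hx', rfl⟩ := List.mem_map.1 hy'
    exact P.Bd_mono (le_max_left _ _) (hR3 _ ⟨_, hl.2 x hx x' hx', by simp⟩)
  · refine hs.pr _ _ (fun l hl => hl.1) fun l m hl hm hx => ⟨hm, fun y hy y' hy' => ?_⟩
    refine P.Bd_mono (le_max_right _ _) ?_
    have key : ∀ y ∈ m, ∃ x ∈ l, x⁻¹ * y ∈ P.Bd R1 := by
      intro y hy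
      obtain ⟨x, hx1, e | rfl⟩ := hx y hy
      · exact ⟨x, hx1, by simpa [e] using P.one_mem _⟩
      · refine ⟨x, hx1, ?_⟩
        have := (h3 1 (P.one_mem _) 1 (P.one_mem _) _ (m2 (hρ x (hb _ (hl.2.2 x hx1))))).1
        simpa using this
    obtain ⟨x, hx1, a⟩ := key y hy
    obtain ⟨x', hx1', a'⟩ := key y' hy'
    have := (h4 _ a _ (P.Bd_mono hR1 (m1 (hl.2.1 x hx1 x' hx1'))) _ a').2
    simpa [mul_assoc] using this
  · have : C * (L.len (ρ 1) + c * D + 1) + n ≤ (C * (L.len (ρ 1) + c + 1) + n) * (D + 1) := by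
      nlinarith [Nat.zero_le (C * c), Nat.zero_le (C * L.len (ρ 1) * D), Nat.zero_le (C * D),
        Nat.zero_le (n * D)]
    nlinarith

end Geo

end Pool.Agent.Lib.MP_2fb4be_al.Sol
end

-- part Pool.Agent.Lib.MP_2fb4be_al.Sol.Sub
section

/-!
Subdivision of cycles whose simplices have polynomial size in the unipotent directions.
-/

set_option autoImplicit false

namespace Pool.Agent.Lib.MP_2fb4be_al.Sol

namespace Geo

variable {G Γ K J : Type} [Group G] [Group Γ] [Field K] [Fintype J] (P : Geo G Γ K J)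

/-- Polynomial size in layer `a`, bounded otherwise. -/
def Big (a R L : ℕ) (γ : Γ) : Prop :=
  ∃ u ∈ P.Om R L, u ∈ P.U a ∧ ∃ b ∈ P.Bd R, γ = u * b ∧ (a = 0 → P.tr b = 0)

/-- Simplices of polynomial size in layer `a`. -/
def Good (a R L : ℕ) (l : List Γ) : Prop := ∀ x ∈ l, ∀ y ∈ l, P.Big a R L (x⁻¹ * y)

/-- Points over a vertex. -/
def Nr (a R L : ℕ) (l : List Γ) (x : Γ) : Prop :=
  ∃ y ∈ l, y⁻¹ * x ∈ P.Om R L ∧ y⁻¹ * x ∈ P.U a

/-- Control of the translation part. -/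
def Car (l : List Γ) (c : ℕ) (x : Γ) : Prop :=
  ∀ j (e : K) (ρ : ℝ), 0 ≤ ρ → (∀ y ∈ l, P.v j (P.tr y - e) ≤ ρ) → P.v j (P.tr x - e) ≤ c * ρ

variable {P}

theorem Big.mono {a R L R' L' : ℕ} {γ : Γ} (h : P.Big a R L γ) (h1 : R ≤ R') (h2 : L ≤ L') :
    P.Big a R' L' γ := by
  obtain ⟨u, a1, a2, b, a3, a4⟩ := h
  exact ⟨u, P.Om_mono h1 h2 a1, a2, b, P.Bd_mono h1 a3, a4⟩

theorem Good.mono {a R L R' L' : ℕ} {l m : List Γ} (h : P.Good a R L l) (h1 : R ≤ R') (h2 : L ≤ L')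
    (h3 : ∀ x ∈ m, x ∈ l) : P.Good a R' L' m :=
  fun x hx y hy => (h x (h3 x hx) y (h3 y hy)).mono h1 h2

theorem Nr.mono {a R L R' L' : ℕ} {l m : List Γ} {x : Γ} (h : P.Nr a R L l x) (h1 : R ≤ R')
    (h2 : L ≤ L') (h3 : ∀ x ∈ l, x ∈ m) : P.Nr a R' L' m x := by
  obtain ⟨y, a1, a2, a3⟩ := h
  exact ⟨y, h3 y a1, P.Om_mono h1 h2 a2, a3⟩

theorem Car.mono {l m : List Γ} {c c' : ℕ} {x : Γ} (h : P.Car l c x) (h1 : c ≤ c')
    (h3 : ∀ x ∈ l, x ∈ m) : P.Car m c' x := fun j e ρ h0 hy =>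
  (h j e ρ h0 fun y hl => hy y (h3 y hl)).trans
    (mul_le_mul_of_nonneg_right (Nat.cast_le.2 h1) h0)

theorem Car.self {l : List Γ} {c : ℕ} {x : Γ} (hx : x ∈ l) (hc : 1 ≤ c) : P.Car l c x :=
  fun _ _ _ h0 hy => (hy x hx).trans (le_mul_of_one_le_left h0 (Nat.one_le_cast.2 hc))

theorem Car.step {l : List Γ} {c : ℕ} {x x' x0 : Γ} (h : P.Car l c x) (h0 : x0 ∈ l)
    (h1 : ∀ j, P.v j (P.tr x' - P.tr x0) ≤ P.v j (P.tr x - P.tr x0)) : P.Car l (c + 2) x' := by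
  intro j e ρ hρ hy
  have a1 := h j e ρ hρ hy
  have a2 := hy x0 h0
  have a3 := (P.v j).sub_le (P.tr x') (P.tr x0) e
  have a4 := (P.v j).sub_le (P.tr x) e (P.tr x0)
  rw [(P.v j).map_sub e] at a4
  have a5 := h1 j
  push_cast
  linarith

variable (P)

theorem contr_step (a R : ℕ) : ∃ R' d, R ≤ R' ∧ 1 ≤ d ∧ ∀ L, 2 ≤ L → ∃ M, M ≤ L ^ d ∧
    (1 : Γ) ∈ P.Om R' (L ^ d) ∧
    ∀ (x0 : Γ) (l : List Γ), x0 ∈ l → P.Good a R L l → ∃ κ : ℕ → Γ → Γ,
      ∀ x, P.Nr a R L l x → κ 0 x = x ∧ x0⁻¹ * κ M x ∈ P.Bd R ∧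
        (∀ t ≤ M, P.Nr a R' (L ^ d) l (κ t x) ∧
          ∀ j, P.v j (P.tr (κ t x) - P.tr x0) ≤ P.v j (P.tr x - P.tr x0)) ∧
        ∀ y, P.Nr a R L l y → P.Big (a + 1) R L (x⁻¹ * y) → ∀ t t', t ≤ M → t' ≤ M →
          t ≤ t' + 1 → t' ≤ t + 1 → P.Big (a + 1) R' (L ^ d) ((κ t x)⁻¹ * κ t' y) := by
  classical
  obtain ⟨R1, d1, r1, e1, h1⟩ := P.step R
  obtain ⟨R2, d2, r2, e2, h2⟩ := P.step R1
  obtain ⟨R3, d3, r3, e3, h3⟩ := P.step R2
  obtain ⟨R4, d4, r4, e4, h4⟩ := P.step R3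
  obtain ⟨R5, d5, r5, e5, h5⟩ := P.step R4
  obtain ⟨Ra, ra, ha⟩ := P.bd3 R5
  obtain ⟨Rb, db, hb⟩ := P.contr Ra
  obtain ⟨R6, r6, h6'⟩ := P.bd3 (max Ra Rb)
  obtain ⟨R7, d7, r7, e7, h7⟩ := P.step R6
  obtain ⟨R8, d8, r8, e8, h8⟩ := P.step R7
  obtain ⟨R9, d9, r9, e9, h9⟩ := P.step R8
  obtain ⟨R10, d10, r10, e10, h10⟩ := P.step R9
  obtain ⟨R11, d11, r11, e11, h11⟩ := P.step R10
  have rb : Rb ≤ R6 := (le_max_right _ _).trans r6
  have ra' : Ra ≤ R6 := (le_max_left _ _).trans r6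
  refine ⟨R11, d1 * d2 * d3 * d4 * d5 * (db + 1) * d7 * d8 * d9 * d10 * d11, by omega,
    Nat.one_le_iff_ne_zero.2 (by positivity), fun L hL => ?_⟩
  simp only [pow_mul]
  set L1 := L ^ d1 with hL1
  have l1 : L ≤ L1 := le_pow_self e1
  set L2 := L1 ^ d2 with hL2
  have l2 : L1 ≤ L2 := le_pow_self e2
  set L3 := L2 ^ d3 with hL3
  have l3 : L2 ≤ L3 := le_pow_self e3
  set L4 := L3 ^ d4 with hL4
  have l4 : L3 ≤ L4 := le_pow_self e4
  set L5 := L4 ^ d5 with hL5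
  have l5 : L4 ≤ L5 := le_pow_self e5
  set L6 := L5 ^ (db + 1) with hL6
  have l6 : L5 ^ db ≤ L6 := Nat.pow_le_pow_right (by omega) (by omega)
  have l6' : L5 ≤ L6 := le_pow_self (by omega)
  set L7 := L6 ^ d7 with hL7
  have l7 : L6 ≤ L7 := le_pow_self e7
  set L8 := L7 ^ d8 with hL8
  have l8 : L7 ≤ L8 := le_pow_self e8
  set L9 := L8 ^ d9 with hL9
  have l9 : L8 ≤ L9 := le_pow_self e9
  set L10 := L9 ^ d10 with hL10
  have l10 : L9 ≤ L10 := le_pow_self e10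
  set L11 := L10 ^ d11 with hL11
  have l11 : L10 ≤ L11 := le_pow_self e11
  replace h1 := h1 L hL
  replace h2 := h2 L1 (by omega)
  replace h3 := h3 L2 (by omega)
  replace h4 := h4 L3 (by omega)
  replace h5 := h5 L4 (by omega)
  replace h7 := h7 L6 (by omega)
  replace h8 := h8 L7 (by omega)
  replace h9 := h9 L8 (by omega)
  replace h10 := h10 L9 (by omega)
  replace h11 := h11 L10 (by omega)
  rw [← hL1] at h1
  rw [← hL2] at h2
  rw [← hL3] at h3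
  rw [← hL4] at h4
  rw [← hL5] at h5
  rw [← hL7] at h7
  rw [← hL8] at h8
  rw [← hL9] at h9
  rw [← hL10] at h10
  rw [← hL11] at h11
  obtain ⟨M, hM0, hM, hv, hc⟩ := hb L5 (by omega)
  clear_value L1 L2 L3 L4 L5 L6 L7 L8 L9 L10 L11
  refine ⟨M, by omega, h11.1 1 (P.one_mem _) (Subgroup.one_mem _), fun x0 l hx0 hl => ?_⟩
  have hU0 : ∀ {c u}, u ∈ P.U c → u ∈ P.U 0 := fun h => P.U_anti (Nat.zero_le _) h
  choose! uy huy1 huy2 by' hby1 hby2 hby3 using hl x0 hx0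
  have hyy : ∀ x : Γ, ∃ y, (∃ y ∈ l, y⁻¹ * x ∈ P.U a) → y ∈ l ∧ y⁻¹ * x ∈ P.U a := by
    intro x
    by_cases h : ∃ y ∈ l, y⁻¹ * x ∈ P.U a
    · obtain ⟨y, hy⟩ := h
      exact ⟨y, fun _ => hy⟩
    · exact ⟨1, fun h' => absurd h' h⟩
  choose yy hyy using hyy
  let bb : Γ → Γ := fun x => by' (yy x)
  let uu : Γ → Γ := fun x => x0⁻¹ * x * (bb x)⁻¹
  have hM' : (M : ℚ) ≠ 0 := by positivity
  have main : ∀ x, P.Nr a R L l x → yy x ∈ l ∧ bb x ∈ P.Bd R ∧ uu x ∈ P.U a ∧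
      uu x ∈ P.Om Ra L5 := by
    rintro x ⟨y', a1, a2, a3⟩
    obtain ⟨b1, b2⟩ := hyy x ⟨y', a1, a3⟩
    obtain ⟨w, c1, c2, b, c3, c4, -⟩ := hl _ b1 _ a1
    have c5 : b ∈ P.U 0 := by
      have : b = w⁻¹ * ((yy x)⁻¹ * x) * (y'⁻¹ * x)⁻¹ := by
        rw [← mul_right_inj w, ← c4]; group
      rw [this]
      exact hU0 (mul_mem (mul_mem (inv_mem c2) b2) (inv_mem a3))
    have c6 : (yy x)⁻¹ * y' ∈ P.Om R2 L2 :=
      c4 ▸ (h2.2 _ (h1.2 _ c1).1).2.2.1 _ (h1.1 b c3 c5)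
    have c7 : (yy x)⁻¹ * x ∈ P.Om R3 L3 := by
      have := (h3.2 _ c6).2.2.1 _ (h2.2 _ (h1.2 _ a2).1).1
      simpa [mul_assoc] using this
    have c8 := ((h4.2 _ c7).2.2.2 _ (P.Bd_mono (show R ≤ R3 by omega) (hby1 _ b1))).1
    have e : uu x = uy (yy x) * (bb x * ((yy x)⁻¹ * x) * (bb x)⁻¹) := by
      simp only [uu, bb]
      rw [← mul_assoc, ← mul_assoc, ← hby2 _ b1]
      group
    refine ⟨b1, hby1 _ b1, ?_, ?_⟩
    · rw [e]
      exact mul_mem (huy2 _ b1) ((P.U_normal a).conj_mem _ b2 _)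
    · rw [e]
      exact P.Om_mono ra le_rfl ((h5.2 _ (P.Om_mono (by omega) (by omega) (huy1 _ b1))).2.2.1 _ c8)
  refine ⟨fun t x => x0 * P.pw (((M - t : ℕ) : ℚ) / M) (uu x) * bb x, fun x hx => ?_⟩
  obtain ⟨m1, m2, m3, m4⟩ := main x hx
  obtain ⟨-, -, c3, c4⟩ := hc _ m4
  have pm : ∀ t ≤ M, P.pw (((M - t : ℕ) : ℚ) / M) (uu x) ∈ P.Om R6 L6 :=
    fun t _ => P.Om_mono rb l6 (c3 _ (Nat.sub_le _ _))
  refine ⟨?_, ?_, fun t ht => ⟨⟨yy x, m1, ?_, ?_⟩, fun j => ?_⟩, ?_⟩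
  · simp only [Nat.sub_zero, div_self hM']
    rw [P.pw_one _ (hU0 m3)]
    simp only [uu]
    group
  · simpa [P.pw_zero] using m2
  · have e : (yy x)⁻¹ * (x0 * P.pw (((M - t : ℕ) : ℚ) / M) (uu x) * bb x) =
        (bb x)⁻¹ * ((uy (yy x))⁻¹ * P.pw (((M - t : ℕ) : ℚ) / M) (uu x)) * bb x := by
      have := hby2 _ m1
      rw [show uy (yy x) = x0⁻¹ * yy x * (bb x)⁻¹ by rw [this]; simp [bb]]
      group
    rw [e]
    have a1 := (h7.2 _ (P.Om_mono (show R ≤ R6 by omega) (show L ≤ L6 by omega) (huy1 _ m1))).2.1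
    have a2 := (h8.2 _ a1).2.2.1 _ (h7.2 _ (pm t ht)).1
    exact P.Om_mono (by omega) (by omega)
      ((h9.2 _ a2).2.2.2 _ (P.Bd_mono (show R ≤ R8 by omega) m2)).2
  · have e : (yy x)⁻¹ * (x0 * P.pw (((M - t : ℕ) : ℚ) / M) (uu x) * bb x) =
        (bb x)⁻¹ * ((uy (yy x))⁻¹ * P.pw (((M - t : ℕ) : ℚ) / M) (uu x)) * (bb x)⁻¹⁻¹ := by
      have := hby2 _ m1
      rw [show uy (yy x) = x0⁻¹ * yy x * (bb x)⁻¹ by rw [this]; simp [bb]]
      group
    rw [e]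
    exact (P.U_normal a).conj_mem _ (mul_mem (inv_mem (huy2 _ m1)) (P.pw_U _ _ _ m3)) _
  · have e1 : x0⁻¹ * x = uu x * bb x := by simp [uu]
    beta_reduce
    rw [P.tr_sub, P.tr_sub, mul_assoc, inv_mul_cancel_left, e1, P.tr_mul, P.tr_mul,
      P.lin_U _ (hU0 m3), P.lin_U _ (hU0 (P.pw_U _ _ _ m3)), P.tr_pw _ _ (hU0 m3), map_mul, map_mul]
    refine mul_le_mul_of_nonneg_left ?_ ((P.v j).nonneg _)
    rcases Nat.eq_zero_or_pos a with rfl | ha0
    · rw [show P.tr (bb x) = 0 from hby3 _ m1 rfl]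
      simp only [mul_zero, add_zero, map_mul]
      exact mul_le_of_le_one_left ((P.v j).nonneg _) (hv _ (Nat.sub_le _ _) j)
    · rw [P.tr_U _ (P.U_anti ha0 m3), mul_zero]
  · rintro y hy ⟨w, -, f2, b, f3, f4, -⟩ t t' ht ht' t1 t2
    obtain ⟨n1, n2, n3, n4⟩ := main y hy
    have rr : P.Bd R ⊆ P.Bd R5 := P.Bd_mono (by omega)
    obtain ⟨b', g1, g2⟩ := c4 a m3 _ n4 n3 _ (ha _ (rr m2) _ (rr f3) _ (rr n2)).1 (by
      have e : (uu x)⁻¹ * uu y * (bb x * b * (bb y)⁻¹)⁻¹ = bb x * w * (bb x)⁻¹ := by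
        rw [show w = x⁻¹ * y * b⁻¹ by rw [f4]; simp]
        simp only [uu]
        group
      rw [e]
      exact (P.U_normal _).conj_mem _ f2 _) (M - t) (M - t') (by omega) (by omega) (by omega)
      (by omega)
    have pm' : P.pw (((M - t' : ℕ) : ℚ) / M) (uu y) ∈ P.Om R6 L6 :=
      P.Om_mono rb l6 ((hc _ n4).2.2.1 _ (Nat.sub_le _ _))
    have pm1 := pm t ht
    beta_reduce
    generalize P.pw (((M - t : ℕ) : ℚ) / M) (uu x) = p at *
    generalize P.pw (((M - t' : ℕ) : ℚ) / M) (uu y) = p' at *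
    have g3 : b' ∈ P.U 0 := by
      have : b' = (p⁻¹ * p' * b'⁻¹)⁻¹ * (p⁻¹ * p') := by group
      rw [this]
      exact mul_mem (inv_mem (hU0 g2)) (mul_mem (inv_mem (P.Om_U _ _ _ pm1)) (P.Om_U _ _ _ pm'))
    have g4 := (h8.2 _ (h7.1 b' (P.Bd_mono rb g1) g3)).2.1
    have g5 := (h8.2 _ (h7.2 _ pm1).2.1).2.2.1 _ (h7.2 _ pm').1
    have g6 := (h9.2 _ g5).2.2.1 _ g4
    have g7 := ((h10.2 _ g6).2.2.2 _ (P.Bd_mono (show R ≤ R9 by omega) m2)).2
    have rr' : P.Bd R ⊆ P.Bd (max Ra Rb) := P.Bd_mono (le_max_of_le_left (by omega))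
    refine ⟨_, (h11.2 _ g7).1, ?_, (bb x)⁻¹ * b' * bb y, P.Bd_mono (show R6 ≤ R11 by omega)
      (h6' _ (rr' m2) _ (P.Bd_mono (le_max_right _ _) g1) _ (rr' n2)).2, by group,
      fun h => absurd h (Nat.succ_ne_zero _)⟩
    simpa using (P.U_normal _).conj_mem _ g2 (bb x)⁻¹

theorem subdiv (a R n : ℕ) : ∃ R' d, R ≤ R' ∧ 1 ≤ d ∧ ∀ L, 2 ≤ L → ∃ T H : List Γ → Ch Γ,
    ∀ l, l.length ≤ n → P.Good a R L l → bd (T l) = ext T (bdL l) ∧
      Sup (T l) (fun s => s.length = l.length ∧ P.Good (a + 1) R' (L ^ d) s ∧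
        ∀ x ∈ s, P.Nr a R' (L ^ d) l x ∧ P.Car l (2 * l.length + 1) x) (L ^ d) ∧
      bd (H l) = sx l + T l + ext H (bdL l) ∧
      ∀ s ∈ (H l).support, s.length = l.length + 1 ∧ ∀ x ∈ s, P.Car l (2 * l.length + 1) x := by
  classical
  induction n with
  | zero =>
    refine ⟨R, 1, le_rfl, le_rfl, fun L hL => ⟨fun _ => sx [], fun _ => 0, fun l hl _ => ?_⟩⟩
    obtain rfl := List.length_eq_zero_iff.1 (Nat.le_zero.1 hl)
    exact ⟨by simp [bdL], (Sup.sx ⟨rfl, by simp [Good], by simp⟩).mono (fun _ h => h)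
      (by simp; omega), by simp [bdL, add_self], by simp⟩
  | succ n ih =>
    obtain ⟨R1, d1, r1, e1, h1⟩ := ih
    obtain ⟨R2, d2, r2, e2, h2⟩ := P.contr_step a R1
    obtain ⟨R3, r3, h3⟩ := P.bd3 R1
    refine ⟨max R2 R3, d1 * (d2 + 1) + 2 * n + 2, by omega, by omega, fun L hL => ?_⟩
    obtain ⟨T, H, hT⟩ := h1 L hL
    set L1 := L ^ d1 with hL1
    have l1 : L ≤ L1 := le_pow_self e1
    obtain ⟨M, hM, hone, hκ⟩ := h2 L1 (by omega)
    have l2 : L1 ≤ L1 ^ d2 := le_pow_self e2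
    have hbig : (n + 1) * (n + 1) * (L1 ^ d2 * L1) ≤ L ^ (d1 * (d2 + 1) + 2 * n + 2) := by
      have a1 : n + 1 ≤ L ^ (n + 1) :=
        (Nat.lt_two_pow_self).le.trans (Nat.pow_le_pow_left hL _)
      calc _ ≤ L ^ (n + 1) * L ^ (n + 1) * (L1 ^ d2 * L1) := by gcongr
        _ = _ := by rw [hL1]; ring
    have l3 : L1 ^ d2 ≤ L ^ (d1 * (d2 + 1) + 2 * n + 2) := by
      refine le_trans ?_ hbig
      have : 1 ≤ (n + 1) * (n + 1) := Nat.one_le_iff_ne_zero.2 (by positivity)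
      have : L1 ^ d2 ≤ L1 ^ d2 * L1 := Nat.le_mul_of_pos_right _ (by omega)
      nlinarith
    generalize L ^ (d1 * (d2 + 1) + 2 * n + 2) = L3 at *
    have face : ∀ l, l.length = n + 1 → P.Good a R L l → ∀ m,
        (m.length + 1 = l.length ∧ ∀ x ∈ m, x ∈ l) → m.length ≤ n ∧ P.Good a R L m :=
      fun l hl hg m hm => ⟨by omega, hg.mono le_rfl le_rfl hm.2⟩
    have cyc : ∀ l, l.length = n + 1 → P.Good a R L l → bd (ext T (bdL l)) = 0 ∧
        bd (sx l) + bd (ext T (bdL l)) + ext T (bdL l) + bd (ext H (bdL l)) = 0 := by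
      intro l hl hg
      have b1 : bd (ext T (bdL l)) = ext T (bd (bdL l)) :=
        lin_congr (F := bd ∘ₗ ext T) (H := ext T ∘ₗ bd) fun m hm => by
          have := face l hl hg m ((sup_bdL l).2 m hm)
          simpa using (hT m this.1 this.2).1
      have b2 : bd (ext H (bdL l)) = bdL l + ext T (bdL l) + ext H (bd (bdL l)) :=
        lin_congr (F := bd ∘ₗ ext H) (H := LinearMap.id + ext T + ext H ∘ₗ bd) fun m hm => by
          have := face l hl hg m ((sup_bdL l).2 m hm)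
          simpa using (hT m this.1 this.2).2.2.1
      have b3 : bd (bdL l) = 0 := by rw [← bd_sx, bd_bd]
      rw [b3, map_zero] at b1 b2
      refine ⟨b1, ?_⟩
      rw [b1, b2, bd_sx, add_zero, add_zero, add_self]
    have new : ∀ l : List Γ, ∃ Y : Ch Γ, l.length = n + 1 → P.Good a R L l →
        bd Y = ext T (bdL l) ∧ Sup Y (fun s => s.length = l.length ∧
          P.Good (a + 1) (max R2 R3) L3 s ∧
          ∀ x ∈ s, P.Nr a (max R2 R3) L3 l x ∧ P.Car l (2 * l.length + 1) x) L3 := by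
      intro l
      by_cases hh : l.length = n + 1 ∧ P.Good a R L l
      swap
      · exact ⟨0, fun b c => absurd ⟨b, c⟩ hh⟩
      obtain ⟨hl, hg⟩ := hh
      obtain ⟨x0, hx0⟩ := List.exists_mem_of_length_pos (l := l) (by omega)
      obtain ⟨κ, hκ⟩ := hκ x0 l hx0 (hg.mono r1 l1 fun _ h => h)
      have hs : Sup (ext T (bdL l)) (fun s => s.length = n ∧ P.Good (a + 1) R1 L1 s ∧
          ∀ x ∈ s, P.Nr a R1 L1 l x ∧ P.Car l (2 * n + 1) x) (l.length * L1) :=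
        (sup_bdL l).lin _ fun m hm => by
          have := face l hl hg m hm
          rw [ext_sx]
          refine (hT m this.1 this.2).2.1.mono (fun s hs => ⟨by omega, hs.2.1, fun x hx =>
            ⟨(hs.2.2 x hx).1.mono le_rfl le_rfl hm.2, (hs.2.2 x hx).2.mono (by omega) hm.2⟩⟩) le_rfl
      obtain ⟨Y, b1, b2⟩ := fill_of_contr κ M x0 (cyc l hl hg).1 hs
        (S' := fun s => s.length = l.length ∧ P.Good (a + 1) (max R2 R3) L3 s ∧
          ∀ x ∈ s, P.Nr a (max R2 R3) L3 l x ∧ P.Car l (2 * l.length + 1) x)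
        (fun s hs => hs.1) (fun s hs x hx => (hκ x (hs.2.2 x hx).1).1)
        (fun t ht s m hs hm hx => by
          have key : ∀ y ∈ m, ∃ x ∈ s, ∃ t', t' ≤ M ∧ t ≤ t' ∧ t' ≤ t + 1 ∧ y = κ t' x := by
            intro y hy
            obtain ⟨x, hx1, e | e⟩ := hx y hy
            · exact ⟨x, hx1, t, by omega, le_rfl, by omega, e⟩
            · exact ⟨x, hx1, t + 1, by omega, by omega, le_rfl, e⟩
          refine ⟨by omega, fun y hy y' hy' => ?_, fun y hy => ?_⟩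
          · obtain ⟨x, c1, t1, c2, c3, c4, rfl⟩ := key y hy
            obtain ⟨x', c1', t2, c2', c3', c4', rfl⟩ := key y' hy'
            exact ((hκ x (hs.2.2 x c1).1).2.2.2 x' (hs.2.2 x' c1').1 (hs.2.1 x c1 x' c1') _ _ c2 c2'
              (by omega) (by omega)).mono (le_max_left _ _) l3
          · obtain ⟨x, c1, t1, c2, -, -, rfl⟩ := key y hy
            have := (hκ x (hs.2.2 x c1).1).2.2.1 t1 c2
            exact ⟨this.1.mono (le_max_left _ _) l3 fun _ h => h,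
              ((hs.2.2 x c1).2.step hx0 this.2).mono (by omega) fun _ h => h⟩)
        (fun s hs => by
          have key : ∀ y ∈ x0 :: s.map (κ M), x0⁻¹ * y ∈ P.Bd R1 := by
            intro y hy
            rcases List.mem_cons.1 hy with rfl | hy
            · simpa using P.one_mem _
            · obtain ⟨x, hx, rfl⟩ := List.mem_map.1 hy
              exact (hκ x (hs.2.2 x hx).1).2.1
          refine ⟨by simp [hs.1, hl], fun y hy y' hy' => ?_, fun y hy => ?_⟩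
          · refine ⟨1, P.Om_mono (le_max_left _ _) l3 hone, Subgroup.one_mem _, _,
              P.Bd_mono (le_max_right _ _) ?_, (one_mul _).symm,
              fun h => absurd h (Nat.succ_ne_zero _)⟩
            simpa [mul_assoc] using (h3 _ (key y hy) 1 (P.one_mem _) _ (key y' hy')).2
          · rcases List.mem_cons.1 hy with rfl | hy
            · exact ⟨⟨y, hx0, by simpa using P.Om_mono (le_max_left _ _) l3 hone,
                by simp⟩, Car.self hx0 (by omega)⟩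
            · obtain ⟨x, hx, rfl⟩ := List.mem_map.1 hy
              have := (hκ x (hs.2.2 x hx).1).2.2.1 M le_rfl
              exact ⟨this.1.mono (le_max_left _ _) l3 fun _ h => h,
                ((hs.2.2 x hx).2.step hx0 this.2).mono (by omega) fun _ h => h⟩)
      refine ⟨Y, fun _ _ => ⟨b1, b2.mono (fun _ h => h) (le_trans ?_ hbig)⟩⟩
      rw [hl]
      have c1 : M * ((n + 1) * L1 * n) ≤ L1 ^ d2 * ((n + 1) * L1 * n) := by gcongr
      have c2 : (n + 1) * L1 ≤ L1 ^ d2 * ((n + 1) * L1) :=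
        Nat.le_mul_of_pos_left _ (by omega)
      nlinarith
    choose Y hY using new
    let T' : List Γ → Ch Γ := fun l => if l.length = n + 1 then Y l else T l
    let H' : List Γ → Ch Γ := fun l => if l.length = n + 1 then
      cn (l.headD 1) (sx l + Y l + ext H (bdL l)) else H l
    have eT : ∀ l : List Γ, l.length ≤ n + 1 → ext T' (bdL l) = ext T (bdL l) := fun l hl =>
      lin_congr fun m hm => by
        have := ((sup_bdL l).2 m hm).1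
        simp only [ext_sx, T', if_neg (show ¬ m.length = n + 1 by omega)]
    have eH : ∀ l : List Γ, l.length ≤ n + 1 → ext H' (bdL l) = ext H (bdL l) := fun l hl =>
      lin_congr fun m hm => by
        have := ((sup_bdL l).2 m hm).1
        simp only [ext_sx, H', if_neg (show ¬ m.length = n + 1 by omega)]
    refine ⟨T', H', fun l hl hg => ?_⟩
    rw [eT l hl, eH l hl]
    by_cases h : l.length = n + 1
    swap
    · simp only [T', H', if_neg h]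
      obtain ⟨b1, b2, b3⟩ := hT l (by omega) hg
      exact ⟨b1, b2.mono (fun s hs => ⟨hs.1, hs.2.1.mono (by omega) (by omega) fun _ h => h,
        fun x hx => ⟨(hs.2.2 x hx).1.mono (by omega) (by omega) fun _ h => h, (hs.2.2 x hx).2⟩⟩)
        (by omega), b3⟩
    simp only [T', H', if_pos h]
    obtain ⟨b1, b2⟩ := hY l h hg
    refine ⟨b1, b2, ?_, ?_⟩
    · have := (cyc l h hg).2
      rw [(cyc l h hg).1, add_zero] at this
      have e : bd (sx l + Y l + ext H (bdL l)) = 0 := by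
        rw [map_add bd, map_add bd, b1, this]
      rw [bd_cn, e, map_zero, add_zero]
    · have hx0 : l.headD 1 ∈ l := by
        rcases l with _ | ⟨x, l⟩
        · simp at h
        · simp
      refine ((sup_self (S := fun s => s.length = l.length ∧
        ∀ x ∈ s, P.Car l (2 * l.length + 1) x) (supp_add (supp_add ?_ ?_) ?_)).cn _ ?_).2
      · exact (Sup.sx ⟨rfl, fun x hx => Car.self hx (by omega)⟩).2
      · exact fun s hs => ⟨(b2.2 s hs).1, fun x hx => ((b2.2 s hs).2.2 x hx).2⟩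
      · refine Sup.lin' (sup_bdL l) _ fun m hm s hs => ?_
        have := face l h hg m hm
        rw [ext_sx] at hs
        have c := (hT m this.1 this.2).2.2.2 s hs
        exact ⟨by omega, fun x hx => (c.2 x hx).mono (by omega) hm.2⟩
      · rintro s ⟨c1, c2⟩
        refine ⟨by simp [c1], fun x hx => ?_⟩
        rcases List.mem_cons.1 hx with rfl | hx
        · exact Car.self hx0 (by omega)
        · exact c2 x hx

/-- All vertices have nearly the same translation part at one place. -/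
def Safe (𝒜 : J → Set K) (ρ : ℝ) (l : List Γ) : Prop :=
  ∃ j, ∃ e ∈ 𝒜 j, ∀ x ∈ l, P.v j (P.tr x - e) ≤ ρ

/-- The invariant of the simplices of a cycle. -/
def Ivt (𝒜 : J → Set K) (m a R L : ℕ) (ρ : ℝ) (l : List Γ) : Prop :=
  l.length = m ∧ P.Good a R L l ∧ (∀ x ∈ l, Rad (P.Bd R) L x) ∧ P.Safe 𝒜 ρ l

theorem om_rad (R : ℕ) : ∃ R' d, R ≤ R' ∧ 1 ≤ d ∧ ∀ L, 2 ≤ L → ∀ u ∈ P.Om R L,
    Rad (P.Bd R') (L ^ d) u := by
  obtain ⟨R', d, h⟩ := P.contr R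
  refine ⟨max R R', d + 1, le_max_left _ _, by omega, fun L hL u hu => ?_⟩
  obtain ⟨M, -, h1, -, h2⟩ := h L hL
  obtain ⟨a1, a2, -⟩ := h2 u hu
  exact a2 ▸ (Rad.pow a1 M).mono (P.Bd_mono (le_max_right _ _))
    (h1.trans (Nat.pow_le_pow_right (by omega) (by omega)))

theorem layer (m a R : ℕ) : ∃ R' d, 1 ≤ d ∧ ∀ L, 2 ≤ L → ∀ (𝒜 : J → Set K) (ρ : ℝ), 0 ≤ ρ →
    ∀ z : Ch Γ, bd z = 0 → Sup z (P.Ivt 𝒜 m a R L ρ) L → ∃ z' H : Ch Γ, bd H = z + z' ∧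
      Sup z' (P.Ivt 𝒜 m (a + 1) R' (L ^ d) ((2 * m + 1 : ℕ) * ρ)) (L ^ d) ∧
      ∀ s ∈ H.support, s.length = m + 1 ∧ P.Safe 𝒜 ((2 * m + 1 : ℕ) * ρ) s := by
  obtain ⟨R1, d1, r1, e1, h1⟩ := P.subdiv a R m
  obtain ⟨R2, d2, r2, e2, h2⟩ := P.om_rad R1
  refine ⟨R2, d1 * d2 + 1, by omega, fun L hL 𝒜 ρ hρ z hz hs => ?_⟩
  obtain ⟨T, H, hT⟩ := h1 L hL
  have l1 : L ≤ L ^ d1 := le_pow_self e1
  have l2 : L ^ d1 ≤ (L ^ d1) ^ d2 := le_pow_self e2
  have l3 : L ^ (d1 * d2 + 1) = (L ^ d1) ^ d2 * L := by rw [pow_succ, pow_mul]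
  have safe : ∀ l s, P.Ivt 𝒜 m a R L ρ l → (∀ x ∈ s, P.Car l (2 * l.length + 1) x) →
      P.Safe 𝒜 ((2 * m + 1 : ℕ) * ρ) s := by
    rintro l s ⟨a1, -, -, j, e, a2, a3⟩ h
    exact ⟨j, e, a2, fun x hx => a1 ▸ h x hx j e ρ hρ a3⟩
  refine ⟨ext T z, ext H z, ?_, ?_, Sup.lin' hs _ fun l hl s hs => ?_⟩
  · have : bd (ext H z) = z + ext T z + ext H (bd z) :=
      lin_congr (F := bd ∘ₗ ext H) (H := LinearMap.id + ext T + ext H ∘ₗ bd) fun l hl => by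
        have := hs.2 l hl
        simpa using (hT l this.1.le this.2.1).2.2.1
    rw [this, hz, map_zero, add_zero]
  · refine (hs.lin (M := L ^ d1) _ fun l hl => ?_).mono (fun _ h => h) (by rw [l3]; nlinarith)
    rw [ext_sx]
    refine (hT l hl.1.le hl.2.1).2.1.mono (fun s hs => ⟨hs.1.trans hl.1,
      hs.2.1.mono r2 (by rw [l3]; nlinarith) fun _ h => h, fun x hx => ?_,
      safe l s hl fun x hx => (hs.2.2 x hx).2⟩) le_rfl
    obtain ⟨y, c1, c2, -⟩ := (hs.2.2 x hx).1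
    have := ((hl.2.2.1 y c1).mono (P.Bd_mono (r1.trans r2)) le_rfl).mul (h2 _ (by omega) _ c2)
    rw [mul_inv_cancel_left] at this
    exact this.mono le_rfl (by rw [l3]; nlinarith)
  · rw [ext_sx] at hs
    have := (hT l hl.1.le hl.2.1).2.2.2 s hs
    exact ⟨by rw [this.1, hl.1], safe l s hl this.2⟩

theorem Safe.mono {𝒜 : J → Set K} {ρ ρ' : ℝ} {l : List Γ} (h : P.Safe 𝒜 ρ l) (h1 : ρ ≤ ρ') :
    P.Safe 𝒜 ρ' l := by
  obtain ⟨j, e, a, b⟩ := h
  exact ⟨j, e, a, fun x hx => (b x hx).trans h1⟩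

theorem layers (m R a : ℕ) : ∃ R' d, 1 ≤ d ∧ ∀ L, 2 ≤ L → ∀ (𝒜 : J → Set K) (ρ : ℝ), 0 ≤ ρ →
    ∀ z : Ch Γ, bd z = 0 → Sup z (P.Ivt 𝒜 m 0 R L ρ) L → ∃ z' H : Ch Γ, bd H = z + z' ∧
      Sup z' (P.Ivt 𝒜 m a R' (L ^ d) ((2 * m + 1 : ℕ) ^ a * ρ)) (L ^ d) ∧
      ∀ s ∈ H.support, s.length = m + 1 ∧ P.Safe 𝒜 ((2 * m + 1 : ℕ) ^ a * ρ) s := by
  induction a with
  | zero =>
    exact ⟨R, 1, le_rfl, fun L _ 𝒜 ρ _ z _ hs => ⟨z, 0, by simp [add_self], by simpa using hs,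
      by simp⟩⟩
  | succ a ih =>
    obtain ⟨R1, d1, e1, h1⟩ := ih
    obtain ⟨R2, d2, e2, h2⟩ := P.layer m a R1
    refine ⟨R2, d1 * d2, Nat.one_le_iff_ne_zero.2 (by positivity), fun L hL 𝒜 ρ hρ z hz hs => ?_⟩
    obtain ⟨z1, H1, b1, b2, b3⟩ := h1 L hL 𝒜 ρ hρ z hz hs
    have hz1 : bd z1 = 0 := by
      have := bd_bd H1
      rwa [b1, map_add, hz, zero_add] at this
    obtain ⟨z2, H2, c1, c2, c3⟩ := h2 _ (hL.trans (le_pow_self e1)) 𝒜 _ (by positivity) z1 hz1 b2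
    rw [← mul_assoc, ← pow_succ'] at c2 c3
    rw [← pow_mul] at c2
    refine ⟨z2, H1 + H2, ?_, c2, supp_add (fun s hs => ⟨(b3 s hs).1, (b3 s hs).2.mono P ?_⟩) c3⟩
    · rw [map_add, b1, c1, add_assoc, ← add_assoc z1, add_self, zero_add]
    · exact mul_le_mul_of_nonneg_right
        (pow_le_pow_right₀ (Nat.one_le_cast.2 (by omega)) (by omega)) hρ

end Geo

end Pool.Agent.Lib.MP_2fb4be_al.Sol
end
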