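import Pool.Agent.Lib.MP_2fb4be_al.Sol.Size

/-! Malcev correspondence, isolators and finiteness of the index. -/

set_option autoImplicit false

noncomputable section

namespace Pool.Agent.Lib.MP_2fb4be_al.Sol

open scoped commutatorElement

namespace Mal

section grp

variable {G Q : Type} [Group G] [Group Q]

theorem pow_closure {Y : Set Q} (hY : ∀ y ∈ Y, y ∈ Subgroup.center Q) {T : Subgroup Q} {N : ℕ}
    (h : ∀ y ∈ Y, y ^ N ∈ T) {y : Q} (hy : y ∈ Subgroup.closure Y) : y ^ N ∈ T := by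
  induction hy using Subgroup.closure_induction with
  | mem y hy => exact h y hy
  | one => simp
  | mul x y _ hy h1 h2 =>
    have : Commute x y := Subgroup.mem_center_iff.1 ((Subgroup.closure_le _).2 hY hy) x
    rw [this.mul_pow]
    exact mul_mem h1 h2
  | inv x _ h1 => exact inv_pow x N ▸ inv_mem h1

theorem comm_pow_left {w g : Q} (h : ⁅w, g⁆ ∈ Subgroup.center Q) (n : ℕ) :
    ⁅w ^ n, g⁆ = ⁅w, g⁆ ^ n := by
  induction n with
  | zero => simp
  | succ n ih =>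
    rw [pow_succ', commutatorElement_mul_left_eq_conj_mul, ih,
      Subgroup.mem_center_iff.1 (pow_mem h n) w, mul_inv_cancel_right, pow_succ]

theorem comm_mul_right {w g g' : Q} (h : ⁅w, g'⁆ ∈ Subgroup.center Q) :
    ⁅w, g * g'⁆ = ⁅w, g⁆ * ⁅w, g'⁆ := by
  rw [commutatorElement_mul_right_eq_mul_conj, mul_assoc, mul_assoc, ← mul_assoc g,
    Subgroup.mem_center_iff.1 h g, mul_inv_cancel_right]

theorem comm_pow_right {w g : Q} (h : ⁅w, g⁆ ∈ Subgroup.center Q) (n : ℕ) :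
    ⁅w, g ^ n⁆ = ⁅w, g⁆ ^ n := by
  induction n with
  | zero => simp
  | succ n ih => rw [pow_succ, comm_mul_right h, ih, pow_succ]

/-- The lower central series of the whole group. -/
abbrev γ (G : Type) [Group G] (i : ℕ) : Subgroup G := (⊤ : Subgroup G).lowerCentralSeries i

/-- The projection to the quotient by a term of the lower central series. -/
abbrev π (G : Type) [Group G] (i : ℕ) : G →* G ⧸ γ G i := QuotientGroup.mk' (γ G i)

theorem comm_mem {i : ℕ} {w : G} (hw : w ∈ γ G i) (g : G) : ⁅w, g⁆ ∈ γ G (i + 1) :=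
  Subgroup.commutator_mem_commutator hw (Subgroup.mem_top g)

theorem cen {i : ℕ} {w : G} (hw : w ∈ γ G i) : π G (i + 1) w ∈ Subgroup.center _ := by
  rw [Subgroup.mem_center_iff]
  intro q
  obtain ⟨g, rfl⟩ := QuotientGroup.mk'_surjective _ q
  rw [eq_comm, ← commutatorElement_eq_one_iff_mul_comm, ← map_commutatorElement]
  exact (QuotientGroup.eq_one_iff _).2 (comm_mem hw g)

theorem layer (H : Subgroup G) {X : Set G} (hX : Subgroup.closure X = ⊤) {m : ℕ}
    (h : ∀ x ∈ X, x ^ m ∈ H) (i : ℕ) : ∀ w ∈ γ G i,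
      π G (i + 1) w ^ m ^ (i + 1) ∈ (H ⊓ γ G i).map (π G (i + 1)) := by
  induction i with
  | zero =>
    intro w _
    refine pow_closure (Y := π G 1 '' X) ?_ ?_ ?_
    · rintro _ ⟨x, -, rfl⟩
      exact cen (Subgroup.mem_top x)
    · rintro _ ⟨x, hx, rfl⟩
      exact ⟨x ^ m, ⟨h x hx, Subgroup.mem_top _⟩, by rw [map_pow, show m ^ (0 + 1) = m by simp]⟩
    · rw [← MonoidHom.map_closure, hX]
      exact ⟨w, Subgroup.mem_top _, rfl⟩
  | succ i ih =>
    intro w hw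
    have hc : ∀ v ∈ γ G i, ∀ g, ⁅π G (i + 2) v, π G (i + 2) g⁆ ∈ Subgroup.center _ :=
      fun v hv g => map_commutatorElement (π G (i + 2)) v g ▸ cen (comm_mem hv g)
    refine pow_closure (Y := π G (i + 2) ''
      {x | ∃ p ∈ γ G i, ∃ q ∈ (⊤ : Subgroup G), ⁅p, q⁆ = x}) ?_ ?_ ?_
    · rintro _ ⟨_, ⟨v, hv, g, -, rfl⟩, rfl⟩
      exact cen (comm_mem hv g)
    · rintro _ ⟨_, ⟨v, hv, g, -, rfl⟩, rfl⟩
      let f : G →* G ⧸ γ G (i + 2) := MonoidHom.mk' (fun g => ⁅π G (i + 2) v, π G (i + 2) g⁆)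
        fun g g' => by rw [map_mul, comm_mul_right (hc v hv g')]
      refine pow_closure (Y := f '' X) ?_ ?_ ?_
      · rintro _ ⟨x, -, rfl⟩
        exact hc v hv x
      · rintro _ ⟨x, hx, rfl⟩
        obtain ⟨a, ⟨ha, ha'⟩, e⟩ := ih v hv
        rw [← map_pow, QuotientGroup.mk'_eq_mk'] at e
        obtain ⟨z, hz, e⟩ := e
        refine ⟨⁅a, x ^ m⁆, ⟨?_, comm_mem ha' _⟩, ?_⟩
        · exact H.mul_mem (H.mul_mem (H.mul_mem ha (h x hx)) (H.inv_mem ha)) (H.inv_mem (h x hx))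
        · change _ = ⁅π G (i + 2) v, π G (i + 2) x⁆ ^ _
          have hz' : ⁅π G (i + 2) z, π G (i + 2) (x ^ m)⁆ = 1 := by
            rw [← map_commutatorElement]
            exact (QuotientGroup.eq_one_iff _).2 (comm_mem hz _)
          rw [pow_succ', pow_mul, ← comm_pow_right (hc v hv x), ← map_pow,
            ← comm_pow_left (hc v hv _), ← map_pow, ← e, map_mul,
            commutatorElement_mul_left_eq_conj_mul, hz', map_commutatorElement, mul_one,
            mul_inv_cancel, one_mul]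
      · rw [← MonoidHom.map_closure, hX]
        exact ⟨g, Subgroup.mem_top _, (map_commutatorElement _ _ _).symm⟩
    · rw [← MonoidHom.map_closure]
      exact ⟨w, hw, rfl⟩

theorem descend (H : Subgroup G) {X : Set G} (hX : Subgroup.closure X = ⊤) {m : ℕ} (hm : 0 < m)
    (h : ∀ x ∈ X, x ^ m ∈ H) (i : ℕ) :
    ∃ m' : ℕ, 0 < m' ∧ ∀ y : G, ∃ a ∈ H, ∃ z ∈ γ G i, a * z = y ^ m' := by
  induction i with
  | zero => exact ⟨1, one_pos, fun y => ⟨1, one_mem _, y, Subgroup.mem_top _, by simp⟩⟩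
  | succ i ih =>
    obtain ⟨n, hn, ih⟩ := ih
    refine ⟨n * m ^ (i + 1), by positivity, fun y => ?_⟩
    obtain ⟨a, ha, z, hz, e⟩ := ih y
    obtain ⟨b, ⟨hb, -⟩, e'⟩ := layer H hX h i z hz
    have hc : Commute (π G (i + 1) a) (π G (i + 1) z) := Subgroup.mem_center_iff.1 (cen hz) _
    refine ⟨a ^ m ^ (i + 1) * b, mul_mem (pow_mem ha _) hb, (QuotientGroup.mk'_eq_mk' _).1 ?_⟩
    rw [pow_mul, ← e, map_mul, e', map_pow, map_pow, map_mul, hc.mul_pow]

theorem pigeon {V : Type} [AddCommGroup V] [Module ℚ V] [FiniteDimensional ℚ V] {m : ℕ}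
    (hm : 0 < m) (v : ℕ → V) :
    ∃ i j, i ≠ j ∧ ∃ c ∈ Submodule.span ℤ (Set.range v), v i - v j = m • c := by
  classical
  have : NeZero m := ⟨hm.ne'⟩
  let n := m ^ Module.finrank ℚ V + 1
  let L := Submodule.span ℤ (Set.range fun i : Fin n => v i)
  have : Module.Finite ℤ L := Module.Finite.span_of_finite ℤ (Set.finite_range _)
  have : Module.IsTorsionFree ℤ V := Module.IsTorsionFree.trans ℚ
  let b := Module.Free.chooseBasis ℤ L
  have hb : LinearIndependent ℚ fun i => (b i : V) :=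
    (LinearIndependent.iff_fractionRing ℤ ℚ).1 (b.linearIndependent.map' L.subtype L.ker_subtype)
  let e : Fin n → L := fun i => ⟨v i, Submodule.subset_span ⟨i, rfl⟩⟩
  obtain ⟨i, j, hij, h⟩ := Fintype.exists_ne_map_eq_of_card_lt
    (fun (i : Fin n) (s : Module.Free.ChooseBasisIndex ℤ L) => (b.repr (e i) s : ZMod m)) (by
      rw [Fintype.card_fun, ZMod.card, Fintype.card_fin]
      exact Nat.lt_succ_of_le (Nat.pow_le_pow_right hm hb.fintype_card_le_finrank))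
  have hd : ∀ s, ∃ c : ℤ, b.repr (e i) s - b.repr (e j) s = m * c := fun s =>
    (ZMod.intCast_eq_intCast_iff_dvd_sub _ _ _).1 (congrFun h s).symm
  choose c hc using hd
  refine ⟨i, j, fun h => hij (Fin.ext h), (∑ s, c s • b s : L),
    Submodule.span_mono (by rintro _ ⟨i, rfl⟩; exact ⟨i, rfl⟩) (Subtype.prop _), ?_⟩
  have : e i - e j = m • ∑ s, c s • b s := by
    rw [← b.sum_repr (e i), ← b.sum_repr (e j), ← Finset.sum_sub_distrib, Finset.smul_sum]
    exact Finset.sum_congr rfl fun s _ => by rw [← sub_smul, hc, mul_smul, natCast_zsmul]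
  exact congrArg Subtype.val this

theorem fin_mod {V : Type} [AddCommGroup V] [Module ℚ V] [FiniteDimensional ℚ V] {m : ℕ}
    (hm : 0 < m) (f : G →* Multiplicative V) :
    ∃ T : Set G, T.Finite ∧ ∀ y, ∃ t ∈ T, ∃ z, f (t⁻¹ * y * (z ^ m)⁻¹) = 1 := by
  let W := (f.range.map (powMonoidHom m))
  let q : G → Multiplicative V ⧸ W := fun g => (f g : _ ⧸ W)
  have hf : (Set.range q).Finite := by
    by_contra hf
    let e := Set.Infinite.natEmbedding _ hf
    choose g hg using fun i => (e i).2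
    obtain ⟨i, j, hij, c, hc, h⟩ := pigeon hm fun i => (f (g i)).toAdd
    have hc' : Multiplicative.ofAdd c ∈ f.range :=
      (Submodule.span_le (p := f.range.toAddSubgroup'.toIntSubmodule)).2
        (by rintro _ ⟨i, rfl⟩; exact ⟨g i, rfl⟩) hc
    refine hij (e.injective (Subtype.ext ?_))
    rw [← hg, ← hg, eq_comm]
    refine QuotientGroup.eq.2 ⟨_, hc', ?_⟩
    rw [powMonoidHom_apply, ← ofAdd_nsmul, ← h, sub_eq_neg_add]
    rfl
  choose s hs using fun x : Set.range q => x.2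
  have := hf.to_subtype
  refine ⟨Set.range s, Set.finite_range s, fun y => ⟨_, ⟨⟨q y, y, rfl⟩, rfl⟩, ?_⟩⟩
  obtain ⟨_, ⟨z, rfl⟩, e⟩ := QuotientGroup.eq.1 (hs ⟨q y, y, rfl⟩)
  exact ⟨z, by rw [map_mul, map_mul, map_inv, ← e, map_inv, map_pow, powMonoidHom_apply,
    mul_inv_cancel]⟩

theorem relIndex_of_cover {N K : Subgroup G} {T : Set G} (hT : T.Finite)
    (h : ∀ y ∈ K, ∃ t ∈ T, t⁻¹ * y ∈ N) : N.relIndex K ≠ 0 := by
  choose s hs hs' using fun y : K => h y y.2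
  have := hT.to_subtype
  have : Finite (K ⧸ N.subgroupOf K) := by
    refine Finite.of_injective (fun x => (⟨s x.out, hs _⟩ : T)) fun x y e => ?_
    have e' : s x.out = s y.out := congrArg Subtype.val e
    rw [← x.out_eq', ← y.out_eq']
    refine QuotientGroup.eq.2 (Subgroup.mem_subgroupOf.2 ?_)
    have := mul_mem (inv_mem (hs' x.out)) (hs' y.out)
    rw [e'] at this
    simpa [mul_assoc] using this
  exact Subgroup.index_ne_zero_of_finite

end grp

variable {A : Type} [Ring A] [Algebra ℚ A] {I : Submodule ℚ A} {k : ℕ}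

theorem nil_Ul (h : NilI I k) {u : Aˣ} (hu : u ∈ Ul h 0) : IsNilpotent ((u : A) - 1) :=
  Ex.nil h (Ex.mem_one h hu)

theorem scale (δ : A →ₐ[ℚ] A) (hδ : ∀ g ∈ I, δ g - (2 : ℚ) • g ∈ I ^ 2) (h : NilI I k) (n : ℕ)
    {c : A} (hc : c ∈ I ^ (n + 1)) : δ c - (2 : ℚ) ^ (n + 1) • c ∈ I ^ (n + 2) := by
  induction n generalizing c with
  | zero => simpa using hδ c (by simpa using hc)
  | succ n ih =>
    rw [pow_succ'] at hc
    refine Submodule.mul_induction_on hc (fun x hx y hy => ?_) fun x y hx hy => ?_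
    · have h1 : δ y ∈ I ^ (n + 1) := by
        simpa using add_mem (h.anti (Nat.le_succ n) (ih hy))
          (Submodule.smul_mem _ ((2 : ℚ) ^ (n + 1)) hy)
      have h2 := mul_mem_pow (hδ x hx) h1
      rw [show 2 + (n + 1) = n + 1 + 2 by ring] at h2
      have h3 := add_mem h2 (Submodule.smul_mem _ (2 : ℚ) (Ex.mul_l hx (ih hy)))
      convert h3 using 1
      simp only [map_mul, sub_mul, mul_sub, smul_mul_assoc, mul_smul_comm, smul_sub, smul_smul,
        pow_succ' (2 : ℚ) (n + 1)]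
      abel
    · have := add_mem hx hy
      rw [map_add, smul_add]
      convert this using 1
      abel

theorem ex_mul_congr (h : NilI I k) {n : ℕ} {w w' p q : A} (hw : w ∈ I) (hw' : w' ∈ I)
    (hp : p ∈ I ^ (n + 1)) (hq : q ∈ I ^ (n + 1)) (hpq : p + q ∈ I ^ (n + 2)) :
    (ex (w + p) * ex (w' + q) : A) - ex w * ex w' ∈ I ^ (n + 2) := by
  have h1 := Ex.ex_congr h hw hp
  have h2 := Ex.ex_congr h hw' hq
  have h3 : (ex (w + p) : A) - ex w ∈ I ^ (n + 1) := by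
    simpa using add_mem (h.anti (Nat.le_succ n) h1) hp
  have h4 : (ex (w' + q) : A) - ex w' ∈ I ^ (n + 1) := by
    simpa using add_mem (h.anti (Nat.le_succ n) h2) hq
  have h5 := h.ex_sub le_rfl h.mul_le hw
  have h6 := h.ex_sub le_rfl h.mul_le (add_mem hw' (Ex.mem_one h hq))
  have := add_mem (add_mem (add_mem h1 h2) hpq) (add_mem (Ex.mul_l h5 h4) (Ex.mul_r h3 h6))
  convert this using 1
  noncomm_ring

theorem core (h : NilI I k) (δ : A →ₐ[ℚ] A) (hδ : ∀ g ∈ I, δ g - (2 : ℚ) • g ∈ I ^ 2)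
    (H : Subgroup Aˣ) (hH : H ≤ Ul h 0) (hq : ∀ u ∈ H, ∀ t : ℚ, pw t u ∈ H)
    (hd : ∀ u ∈ H, Units.map (δ : A →* A) u ∈ H) {v : A} (hv : v ∈ I) (hδv : δ v = (2 : ℚ) • v)
    (h0 : ∃ u ∈ H, (u : A) - ex v ∈ I ^ 2) : ex v ∈ H := by
  have hv' : ex v ∈ Ul h 0 := (h.ex_mem (by simpa using hv)).1
  have key : ∀ j, ∃ u ∈ H, (u : A) - ex v ∈ I ^ (j + 2) := fun j => by
    induction j with
    | zero => exact h0
    | succ j ih =>
      obtain ⟨u, hu, e⟩ := ih
      have hc := Ex.lg_congr h hv' e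
      rw [lg_ex (Ex.nil h hv)] at hc
      have h2 : (2 : ℚ) - 2 ^ (j + 2) ≠ 0 := by
        have : (1 : ℚ) ≤ 2 ^ j := one_le_pow₀ (by norm_num)
        rw [pow_add]
        linarith
      set ν : ℚ := (2 - 2 ^ (j + 2))⁻¹ with hν
      have h3 : 1 - 2 * ν = -(ν * 2 ^ (j + 2)) := by
        rw [hν]
        field_simp
        ring
      have h4 := scale δ hδ h (j + 1) hc
      have h5 : δ (lg u - v) ∈ I ^ (j + 2) := by
        have := add_mem (h.anti (Nat.le_succ _) h4)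
          (Submodule.smul_mem _ ((2 : ℚ) ^ (j + 1 + 1)) hc)
        rwa [sub_add_cancel] at this
      refine ⟨_, mul_mem (hq u hu (1 - 2 * ν)) (hq _ (hd u hu) ν), ?_⟩
      have h6 := ex_mul_congr h (I.smul_mem (1 - 2 * ν) hv) (I.smul_mem (ν * 2) hv)
        (Submodule.smul_mem _ (1 - 2 * ν) hc) (Submodule.smul_mem _ ν h5) (by
          have := Submodule.smul_mem _ ν h4
          rw [h3]
          convert this using 1
          rw [smul_sub ν (δ _), smul_smul, neg_smul]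
          abel)
      have h7 : ex ((1 - 2 * ν) • v) * ex ((ν * 2) • v) = ex v := by
        rw [← ex_add (((Commute.refl v).smul_left _).smul_right _) ((Ex.nil h hv).smul _)
          ((Ex.nil h hv).smul _), ← add_smul]
        congr 1
        rw [show 1 - 2 * ν + ν * 2 = 1 by ring, one_smul]
      rw [← Units.val_mul (ex _) (ex ((ν * 2) • v)), h7, ← smul_add, add_sub_cancel, mul_smul,
        ← smul_add, ← hδv, ← map_add, add_sub_cancel] at h6
      rwa [Units.val_mul, pw, pw, map_lg δ (nil_Ul h (hH hu))]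
  obtain ⟨u, hu, e⟩ := key k
  have := h.anti (Nat.le_succ k) e
  rw [h.pow_k, Submodule.mem_bot, sub_eq_zero] at this
  rwa [← Units.ext this]

theorem add_mem' (h : NilI I k) (H : Subgroup Aˣ) (hq : ∀ u ∈ H, ∀ t : ℚ, pw t u ∈ H) {a b : A}
    (ha : a ∈ I) (hb : b ∈ I) (ha' : ex a ∈ H) (hb' : ex b ∈ H) : ex (a + b) ∈ H := by
  let ev : ℚ → (ℚ → A) →ₐ[ℚ] A := fun t => Pi.evalAlgHom ℚ (fun _ => A) t
  let δ : (ℚ → A) →ₐ[ℚ] (ℚ → A) := AlgHom.pi fun t => ev (2 * t)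
  let li : A → ℚ → A := fun x t => t • x
  let C : Set (ℚ → A) := Subsemigroup.closure {li a, li b}
  let J := Submodule.span ℚ C
  have dl : ∀ x, δ (li x) = (2 : ℚ) • li x := fun x => funext fun t => mul_smul 2 t x
  have JJ : J * J ≤ J := by
    rw [Submodule.span_mul_span]
    refine Submodule.span_mono ?_
    rintro _ ⟨x, hx, y, hy, rfl⟩
    exact Subsemigroup.mul_mem _ hx hy
  have hev : ∀ t, J.map (ev t).toLinearMap ≤ I := fun t => by
    rw [Submodule.map_span, Submodule.span_le]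
    rintro _ ⟨x, hx, rfl⟩
    induction hx using Subsemigroup.closure_induction with
    | mem x hx => rcases hx with rfl | rfl <;> exact I.smul_mem t ‹_›
    | mul x y _ _ h1 h2 => exact h.mul_le (Submodule.mul_mem_mul h1 h2)
  have hJ : NilI J k := ⟨JJ, le_bot_iff.1 fun x hx => funext fun t => by
    have h1 : ev t x ∈ (J ^ (k + 1)).map (ev t).toLinearMap := ⟨x, hx, rfl⟩
    rw [Submodule.map_pow] at h1
    have h2 := pow_le_pow_left' (hev t) (k + 1) h1
    rwa [h.pow_k] at h2⟩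
  have hC : ∀ x ∈ C, δ x ∈ J ∧ δ x - (2 : ℚ) • x ∈ J ^ 2 := fun x hx => by
    induction hx using Subsemigroup.closure_induction with
    | mem x hx =>
      have h1 : δ x = (2 : ℚ) • x := by rcases hx with rfl | rfl <;> exact dl _
      rw [h1, sub_self]
      exact ⟨J.smul_mem _ (Submodule.subset_span (Subsemigroup.subset_closure hx)), zero_mem _⟩
    | mul x y hx hy h1 h2 =>
      rw [map_mul, pow_two]
      exact ⟨JJ (Submodule.mul_mem_mul h1.1 h2.1), sub_mem (Submodule.mul_mem_mul h1.1 h2.1)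
        (Submodule.smul_mem _ _ (Submodule.mul_mem_mul (Submodule.subset_span hx)
          (Submodule.subset_span hy)))⟩
  have hδ : ∀ g ∈ J, δ g - (2 : ℚ) • g ∈ J ^ 2 := fun g hg => by
    simpa using (Submodule.span_le (p := (J ^ 2).comap
      (δ.toLinearMap - (2 : ℚ) • (LinearMap.id : (ℚ → A) →ₗ[ℚ] ℚ → A)))).2
      (fun x hx => by simpa using (hC x hx).2) hg
  have hδ' : ∀ g ∈ J, δ g ∈ J := fun g hg =>
    (Submodule.span_le (p := J.comap δ.toLinearMap)).2 (fun x hx => (hC x hx).1) hg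
  have la : li a ∈ J := Submodule.subset_span (Subsemigroup.subset_closure (by simp))
  have lb : li b ∈ J := Submodule.subset_span (Subsemigroup.subset_closure (by simp))
  let H' : Subgroup (ℚ → A)ˣ := Ul hJ 0 ⊓ ⨅ t, H.comap (Units.map (ev t : (ℚ → A) →* A))
  have mH : ∀ u, u ∈ H' ↔ u ∈ Ul hJ 0 ∧ ∀ t, Units.map (ev t : (ℚ → A) →* A) u ∈ H := fun u => by
    simp only [H', Subgroup.mem_inf, Subgroup.mem_iInf, Subgroup.mem_comap]
  have hl : ∀ x ∈ I, ex x ∈ H → li x ∈ J → ex (li x) ∈ H' := fun x hx h1 h2 =>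
    (mH _).2 ⟨(hJ.ex_mem (by simpa using h2)).1, fun t => by
      have := hq _ h1 t
      rw [pw, lg_ex (Ex.nil h hx)] at this
      rwa [Ex.map_ex _ (Ex.nil hJ h2)]⟩
  have := core hJ δ hδ H' inf_le_left (fun u hu t => ?_) (fun u hu => ?_) (add_mem la lb)
    (by rw [map_add, dl, dl, smul_add]) ⟨_, mul_mem (hl a ha ha' la) (hl b hb hb' lb), ?_⟩
  · have h1 := ((mH _).1 this).2 1
    rw [Ex.map_ex _ (Ex.nil hJ (add_mem la lb))] at h1
    simpa [ev, li] using h1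
  · rw [mH] at hu ⊢
    exact ⟨(hJ.ex_mem (Submodule.smul_mem _ t (hJ.lg_mem hu.1).1)).1, fun s => by
      rw [Ex.map_pw _ (nil_Ul hJ hu.1)]
      exact hq _ (hu.2 s) t⟩
  · rw [mH] at hu ⊢
    refine ⟨?_, fun s => hu.2 (2 * s)⟩
    simpa [mem_Ul] using hδ' _ (Ex.mem_one hJ hu.1)
  · have la' : li a ∈ J ^ (0 + 1) := by simpa using la
    have lb' : li b ∈ J ^ (0 + 1) := by simpa using lb
    have h1 := (hJ.ex_mem la').2
    have h2 := (hJ.ex_mem lb').2
    have h3 := (hJ.ex_mem (add_mem la' lb')).2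
    have h4 := mul_mem_pow ((mem_Ul hJ).1 (hJ.ex_mem la').1) ((mem_Ul hJ).1 (hJ.ex_mem lb').1)
    have := sub_mem (add_mem (add_mem h1 h2) h4) h3
    convert this using 1
    rw [Units.val_mul]
    noncomm_ring

end Mal

theorem pow_mem_of_gen {Γ : Type} [Group Γ] (H : Subgroup Γ) (X : Set Γ) (c : ℕ)
    (hc : (Subgroup.closure X).lowerCentralSeries c = ⊥) (m : ℕ) (hm : 0 < m)
    (hX : ∀ x ∈ X, x ^ m ∈ H) : ∃ m' : ℕ, 0 < m' ∧ ∀ y ∈ Subgroup.closure X, y ^ m' ∈ H := by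
  obtain ⟨n, hn, h⟩ := Mal.descend (H.subgroupOf (Subgroup.closure X))
    (Subgroup.closure_preimage_eq_top X) hm (fun x hx => hX x hx) c
  refine ⟨n, hn, fun y hy => ?_⟩
  obtain ⟨a, ha, z, hz, e⟩ := h ⟨y, hy⟩
  rw [← Subgroup.top_subtype_lowerCentralSeries,
    Subgroup.map_eq_bot_iff_of_injective _ (Subgroup.subtype_injective _)] at hc
  rw [Mal.γ, hc, Subgroup.mem_bot] at hz
  rw [hz, mul_one] at e
  rw [e] at ha
  exact ha

section
variable {A : Type} [Ring A] [Algebra ℚ A]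

/-- Malcev correspondence: the logarithms of a divisible unipotent group form a subspace. -/
theorem malcev {I : Submodule ℚ A} {k : ℕ} (h : NilI I k) (H : Subgroup Aˣ) (hH : H ≤ Ul h 0)
    (hq : ∀ u ∈ H, ∀ t : ℚ, pw t u ∈ H) :
    ∃ n : Submodule ℚ A, ∀ a, a ∈ n ↔ a ∈ I ∧ ex a ∈ H := by
  have _ := hH
  refine ⟨⟨⟨⟨{a | a ∈ I ∧ ex a ∈ H}, fun ha hb =>
    ⟨add_mem ha.1 hb.1, Mal.add_mem' h H hq ha.1 hb.1 ha.2 hb.2⟩⟩,
    zero_mem _, ex_zero (A := A) ▸ one_mem _⟩, fun t a ha => ⟨I.smul_mem t ha.1, ?_⟩⟩,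
    fun _ => Iff.rfl⟩
  have := hq _ ha.2 t
  rwa [pw, lg_ex (Ex.nil h ha.1)] at this

theorem Mal.pow_gen {I : Submodule ℚ A} {k : ℕ} (h : NilI I k) (N : Subgroup Aˣ) {X : Set Aˣ}
    (hX : X ⊆ Ul h 0) {m : ℕ} (hm : 0 < m) (hp : ∀ x ∈ X, x ^ m ∈ N) :
    ∃ m' : ℕ, 0 < m' ∧ ∀ y ∈ Subgroup.closure X, y ^ m' ∈ N :=
  pow_mem_of_gen N X k (le_bot_iff.1 (h.Ul_k ▸ Ex.lcs_le h ((Subgroup.closure_le _).2 hX) k))
    m hm hp

/-- The isolator of a subgroup. -/
theorem exists_iso {I : Submodule ℚ A} {k : ℕ} (h : NilI I k) (N : Subgroup Aˣ) :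
    ∃ H : Subgroup Aˣ, (∀ u, u ∈ H ↔ u ∈ Ul h 0 ∧ ∃ m : ℕ, 0 < m ∧ u ^ m ∈ N) ∧
      ∀ u ∈ H, ∀ t : ℚ, pw t u ∈ H := by
  refine ⟨⟨⟨⟨{u | u ∈ Ul h 0 ∧ ∃ m : ℕ, 0 < m ∧ u ^ m ∈ N}, ?_⟩,
    one_mem _, 1, one_pos, by simp⟩, ?_⟩, fun _ => Iff.rfl, ?_⟩
  · rintro u v ⟨hu, m, hm, hu'⟩ ⟨hv, n, hn, hv'⟩
    obtain ⟨l, hl, e⟩ := Mal.pow_gen h N (X := {u, v}) (m := m * n)
      (by rintro _ (rfl | rfl) <;> assumption) (by positivity) (by
        rintro _ (rfl | rfl)
        · rw [pow_mul]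
          exact pow_mem hu' n
        · rw [pow_mul']
          exact pow_mem hv' m)
    exact ⟨mul_mem hu hv, l, hl, e _ (mul_mem (Subgroup.subset_closure (by simp))
      (Subgroup.subset_closure (by simp)))⟩
  · rintro u ⟨hu, m, hm, hu'⟩
    exact ⟨inv_mem hu, m, hm, inv_pow u m ▸ inv_mem hu'⟩
  · rintro u ⟨hu, m, hm, hu'⟩ t
    have h1 : pw t u ∈ Ul h 0 := (h.ex_mem (Submodule.smul_mem _ t (h.lg_mem hu).1)).1
    refine ⟨h1, m * t.den, Nat.mul_pos hm t.den_pos, ?_⟩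
    have h2 : (((m * t.den : ℕ) : ℤ) : ℚ) * t = ((m * t.num : ℤ) : ℚ) := by
      push_cast
      rw [mul_assoc, Rat.den_mul_eq_num]
    rw [← zpow_natCast, ← pw_int (Mal.nil_Ul h h1), pw_pw (Mal.nil_Ul h hu), h2,
      pw_int (Mal.nil_Ul h hu), zpow_mul, zpow_natCast]
    exact zpow_mem hu' _

theorem relIndex_ne_zero [FiniteDimensional ℚ A] {I : Submodule ℚ A} {k : ℕ} (h : NilI I k)
    (N : Subgroup Aˣ) (X : Set Aˣ) (hX : X ⊆ Ul h 0) (m : ℕ) (hm : 0 < m)
    (hp : ∀ x ∈ X, x ^ m ∈ N) : N.relIndex (Subgroup.closure X) ≠ 0 := by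
  obtain ⟨n, hn, hp'⟩ := Mal.pow_gen h N hX hm hp
  have key : ∀ i ≤ k, ∃ T : Set Aˣ, T.Finite ∧
      ∀ y ∈ Subgroup.closure X ⊓ Ul h i, ∃ t ∈ T, t⁻¹ * y ∈ N := by
    intro i hi
    induction hi using Nat.decreasingInduction with
    | self =>
      refine ⟨{1}, Set.finite_singleton _, fun y hy => ⟨1, rfl, ?_⟩⟩
      rw [h.Ul_k, inf_bot_eq, Subgroup.mem_bot] at hy
      simp [hy]
    | of_succ i _ ih =>
      obtain ⟨T, hT, ih⟩ := ih
      let f : ↥(Subgroup.closure X ⊓ Ul h i) →* Multiplicative (A ⧸ I ^ (i + 2)) :=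
        MonoidHom.mk' (fun u => Multiplicative.ofAdd ((I ^ (i + 2)).mkQ ((u.1 : A) - 1)))
          fun u v => by
            rw [← ofAdd_add, ← map_add]
            refine congrArg _ ((Submodule.Quotient.eq _).2 ?_)
            have := Ex.mul_r ((mem_Ul h).1 u.2.2) (Ex.mem_one h ((mem_Ul h).1 v.2.2))
            convert this using 1
            rw [Subgroup.coe_mul, Units.val_mul]
            noncomm_ring
      obtain ⟨T', hT', e⟩ := Mal.fin_mod hn f
      refine ⟨Set.image2 (fun t t' => t.1 * t') T' T, hT'.image2 _ hT, fun y hy => ?_⟩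
      obtain ⟨t, ht, z, e⟩ := e ⟨y, hy⟩
      have hf : ∀ u, f u = 1 → u.1 ∈ Subgroup.closure X ⊓ Ul h (i + 1) := fun u hu =>
        ⟨u.2.1, (mem_Ul h).2 ((Submodule.Quotient.mk_eq_zero _).1 hu)⟩
      obtain ⟨t', ht', e'⟩ := ih _ (hf _ e)
      refine ⟨_, Set.mem_image2_of_mem ht ht', ?_⟩
      simpa [mul_assoc] using mul_mem e' (hp' z z.2.1)
  obtain ⟨T, hT, e⟩ := key 0 (Nat.zero_le k)
  exact Mal.relIndex_of_cover hT fun y hy => e y ⟨hy, (Subgroup.closure_le _).2 hX hy⟩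

end

end Pool.Agent.Lib.MP_2fb4be_al.Sol
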