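import Mathlib
import Pool.Agent.Lib.MP_2fb4be_al.Sol.LKM

-- part Pool.Agent.Lib.MP_2fb4be_al.Sol.Defs2
section

/-!
Definitions for the construction of the ambient group and of its bounded sets.
-/

set_option autoImplicit false

noncomputable section

namespace Pool.Agent.Lib.MP_2fb4be_al.Sol

/-- Rationals whose denominator is prime to `D`. -/
def ZD (D : ℕ) : Subring ℚ where
  carrier := {t | t.den.Coprime D}
  mul_mem' := fun {a b} ha hb =>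
    Nat.Coprime.coprime_dvd_left (Rat.mul_den_dvd a b) (Nat.Coprime.mul_left ha hb)
  add_mem' := fun {a b} ha hb =>
    Nat.Coprime.coprime_dvd_left (Rat.add_den_dvd a b) (Nat.Coprime.mul_left ha hb)
  one_mem' := by simp
  zero_mem' := by simp
  neg_mem' := fun {a} ha => by simpa using ha

theorem mem_ZD {D : ℕ} {t : ℚ} : t ∈ ZD D ↔ t.den.Coprime D := Iff.rfl

/-- Coordinates with `D`-part of the denominator dividing `D ^ R` and absolute value `≤ L`. -/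
def Sz {A : Type} [AddCommGroup A] [Module ℚ A] {d : ℕ} (b : Module.Basis (Fin d) ℚ A)
    (D R L : ℕ) (x : A) : Prop :=
  ∀ i, (D : ℚ) ^ R * b.repr x i ∈ ZD D ∧ |b.repr x i| ≤ L

/-- Coordinates divisible by `D ^ E`. -/
def Sm {A : Type} [AddCommGroup A] [Module ℚ A] {d : ℕ} (b : Module.Basis (Fin d) ℚ A)
    (D E : ℕ) (x : A) : Prop :=
  ∀ i, ∃ t ∈ ZD D, b.repr x i = (D : ℚ) ^ E * t

/-- Unipotent units with a power prime to `D` in `N`. -/
def Iso {A : Type} [Ring A] [Algebra ℚ A] {I : Submodule ℚ A} {k : ℕ} (h : NilI I k)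
    (N : Subgroup Aˣ) (D : ℕ) (u : Aˣ) : Prop :=
  u ∈ Ul h 0 ∧ ∃ m : ℕ, 0 < m ∧ m.Coprime D ∧ u ^ m ∈ N

/-- The group obtained from `G` by replacing `N` by its divisible hull. -/
structure Push {G : Type} [Group G] {N : Subgroup G} (M : NilModel G N) where
  Γ : Type
  [grp : Group Γ]
  U : Subgroup M.Aˣ
  i : G →* Γ
  j : U →* Γ
  ρ : Γ →* (M.A ≃ₐ[ℚ] M.A)
  hU : ∀ u, u ∈ U ↔ Iso M.nil M.ι.range 1 u
  hpw : ∀ u ∈ U, ∀ t : ℚ, pw t u ∈ U
  j_inj : Function.Injective j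
  ρ_i : ∀ g, ρ (i g) = M.α g
  ρ_j : ∀ (u : U) (a : M.A), ρ (j u) a = (u : M.Aˣ) * a * ((u : M.Aˣ)⁻¹ : M.Aˣ)
  conj : ∀ γ (u : U), ∃ u' : U, ((u' : M.Aˣ) : M.A) = ρ γ (u : M.Aˣ) ∧ γ * j u * γ⁻¹ = j u'
  i_ι : ∀ (n : N) (u : U), (u : M.Aˣ) = M.ι n → j u = i n
  dec : ∀ γ, ∃ u g, γ = j u * i g
  mem : ∀ g u, i g = j u → g ∈ N

attribute [instance] Push.grp

namespace Push

variable {G : Type} [Group G] {N : Subgroup G} {M : NilModel G N} (P : Push M)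

/-- The linear action on the algebra. -/
def π : P.Γ →* Module.End ℚ M.A := (AlgEquiv.toLinearMapHom ℚ M.A).comp P.ρ

@[simp] theorem π_apply (γ : P.Γ) (a : M.A) : P.π γ a = P.ρ γ a := rfl

/-- The twisted action on linear maps from `K`. -/
def tw {K : Type} [Field K] [Algebra ℚ K] (χ : P.Γ →* Kˣ) :
    P.Γ →* Module.End ℚ (K →ₗ[ℚ] M.A) where
  toFun γ :=
    { toFun := fun θ => P.π γ ∘ₗ θ ∘ₗ LinearMap.mulLeft ℚ (((χ γ)⁻¹ : Kˣ) : K)
      map_add' := fun _ _ => by ext; simp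
      map_smul' := fun _ _ => by ext; simp }
  map_one' := by ext; simp
  map_mul' := fun _ _ => by ext; simp [mul_left_comm]

@[simp] theorem tw_apply {K : Type} [Field K] [Algebra ℚ K] (χ : P.Γ →* Kˣ) (γ : P.Γ)
    (θ : K →ₗ[ℚ] M.A) (y : K) : P.tw χ γ θ y = P.ρ γ (θ ((((χ γ)⁻¹ : Kˣ) : K) * y)) := rfl

/-- The filtration of the unipotent subgroup. -/
def Ua (a : ℕ) : Subgroup P.Γ := ((Ul M.nil a).comap P.U.subtype).map P.j

open Classical in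
/-- Rational powers in the unipotent subgroup. -/
def pwΓ (t : ℚ) (γ : P.Γ) : P.Γ :=
  if h : ∃ u, P.j u = γ then P.j ⟨pw t h.choose, P.hpw _ h.choose.2 t⟩ else 1

/-- Unipotent elements of size `L`. -/
def Om {d : ℕ} (b : Module.Basis (Fin d) ℚ M.A) (D R L : ℕ) : Set P.Γ :=
  {γ | ∃ u : P.U, Iso M.nil M.ι.range D u ∧ Sz b D R L ((u : M.Aˣ) - 1 : M.A) ∧ γ = P.j u}

/-- Bounded sets. -/
def Bd {d : ℕ} (b : Module.Basis (Fin d) ℚ M.A) (D : ℕ) (ℓ : Len G) (R : ℕ) : Set P.Γ :=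
  {γ | ∃ u ∈ P.Om b D R R, ∃ g, ℓ.len g ≤ R ∧ γ = u * P.i g}

/-- The properties of the bounded sets. -/
structure Box {d : ℕ} (b : Module.Basis (Fin d) ℚ M.A) (D : ℕ) (ℓ : Len G) : Prop where
  U_normal : ∀ a, (P.Ua a).Normal
  U_anti : Antitone P.Ua
  U_k : P.Ua M.k = ⊥
  U_nil : (P.Ua 0).lowerCentralSeries M.k = ⊥
  Bd_mono : Monotone (P.Bd b D ℓ)
  Bd_one : 1 ∈ P.Bd b D ℓ 0
  Bd_mul : ∀ R, ∃ R', ∀ a ∈ P.Bd b D ℓ R, a⁻¹ ∈ P.Bd b D ℓ R' ∧
    ∀ c ∈ P.Bd b D ℓ R, a * c ∈ P.Bd b D ℓ R'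
  Bd_i : ∀ g, ∃ R, P.i g ∈ P.Bd b D ℓ R
  Bd_fin : ∀ R, {g | P.i g ∈ P.Bd b D ℓ R}.Finite
  Bd_cob : ∃ R0, ∀ R, ∀ c ∈ P.Bd b D ℓ R, ∃ g, (P.i g)⁻¹ * c ∈ P.Bd b D ℓ R0
  Om_mono : ∀ {R R' L L'}, R ≤ R' → L ≤ L' → P.Om b D R L ⊆ P.Om b D R' L'
  Om_U : ∀ R L, ∀ u ∈ P.Om b D R L, u ∈ P.Ua 0
  Om_mul : ∀ R, ∃ R' e, ∀ L, 2 ≤ L →
    (∀ c ∈ P.Bd b D ℓ R, c ∈ P.Ua 0 → c ∈ P.Om b D R' (L ^ e)) ∧
    ∀ u ∈ P.Om b D R L, u⁻¹ ∈ P.Om b D R' (L ^ e) ∧
      (∀ u' ∈ P.Om b D R L, u * u' ∈ P.Om b D R' (L ^ e)) ∧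
      ∀ c ∈ P.Bd b D ℓ R, c * u * c⁻¹ ∈ P.Om b D R' (L ^ e)
  contr : ∀ R, ∃ R' e, ∀ L, 2 ≤ L → ∃ m : ℕ, 0 < m ∧ m ≤ L ^ e ∧ m.Coprime D ∧
    ∀ u ∈ P.Om b D R L, P.pwΓ (1 / m) u ∈ P.Bd b D ℓ R' ∧ P.pwΓ (1 / m) u ^ m = u ∧
      (∀ t : ℕ, t ≤ m → P.pwΓ (t / m) u ∈ P.Om b D R' (L ^ e)) ∧
      ∀ a, u ∈ P.Ua a → ∀ u' ∈ P.Om b D R L, u' ∈ P.Ua a → ∀ c ∈ P.Bd b D ℓ R,
        u⁻¹ * u' * c⁻¹ ∈ P.Ua (a + 1) → ∀ t t' : ℕ, t ≤ m → t' ≤ m → t ≤ t' + 1 → t' ≤ t + 1 →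
          ∃ c' ∈ P.Bd b D ℓ R',
            (P.pwΓ (t / m) u)⁻¹ * P.pwΓ (t' / m) u' * c'⁻¹ ∈ P.Ua (a + 1)
  pw_U : ∀ a t, ∀ u ∈ P.Ua a, P.pwΓ t u ∈ P.Ua a
  pw_zero : ∀ u, P.pwΓ 0 u = 1
  pw_one : ∀ u ∈ P.Ua 0, P.pwΓ 1 u = u

end Push

/-- A character of infinite order with a nilpotent supplement acting unipotently. -/
structure Cart {G : Type} [Group G] {N : Subgroup G} {M : NilModel G N} (P : Push M)
    (K : Type) [Field K] [Algebra ℚ K] where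
  χ : P.Γ →* Kˣ
  τ : M.A →ₗ[ℚ] K
  tr : P.Γ → K
  r : ℕ
  h : Fin r → G
  H : Subgroup P.Γ
  e : ℕ
  θ : K →ₗ[ℚ] M.A
  inf : ¬ χ.ker.FiniteIndex
  χ_j : ∀ u, χ (P.j u) = 1
  τ_sq : ∀ x ∈ M.I ^ 2, τ x = 0
  tr_j : ∀ u : P.U, tr (P.j u) = τ ((u : M.Aˣ) - 1)
  tr_mul : ∀ a b, tr (a * b) = tr a + χ a * tr b
  h_mem : ∀ a, P.i (h a) ∈ H
  tr_H : ∀ γ ∈ H, tr γ = 0
  gen : ∀ γ, ∃ m : ℕ, 0 < m ∧ ∃ q : Fin r → ℤ, χ γ ^ m = ∏ a, χ (P.i (h a)) ^ q a
  unip : ∀ u : P.U, P.j u ∈ H → ((u : M.Aˣ) - 1 : M.A) ∈ Zs P.π H ⊥ e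
  θ_I : ∀ y, θ y ∈ M.I
  θ_U : ∀ y, ex (θ y) ∈ P.U
  τ_θ : ∀ y, τ (θ y) = y
  unip_θ : θ ∈ Zs (P.tw χ) H ⊥ e

/-- A minimal family of places at which the character cannot be simultaneously large. -/
structure Places {Γ K : Type} [Group Γ] [Field K] [Algebra ℚ K] (χ : Γ →* Kˣ) (J : Type)
    [Fintype J] (D : ℕ) where
  v : J → AbsoluteValue K ℝ
  card : 2 ≤ Fintype.card J
  nonface : ∀ γ, ∃ j, v j (χ γ) ≤ 1
  face : ∀ j0, ∃ γ, ∀ j, j ≠ j0 → 1 < v j (χ γ)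
  rat : ∀ j, ∀ t ∈ ZD D, |t| ≤ 1 → v j (t : K) ≤ 1
  rat' : ∀ R : ℕ, ∃ c : ℝ, ∀ j (t : ℚ), (D : ℚ) ^ R * t ∈ ZD D → |t| ≤ R → v j (t : K) ≤ c
  approx : ∀ Λ : Set (K →ₗ[ℚ] ℚ), Λ.Finite → ∀ E : ℕ, ∃ c C : ℕ, ∀ (n : ℕ) (j : J) (T : Set K),
    T.Finite → ∃ x : K, 2 ^ n ≤ v j x ∧ (∀ j', j' ≠ j → v j' x ≤ 1) ∧
      ∀ z ∈ T, ((c * (n + 1) : ℕ) : ℝ) ≤ Real.log (v j z) → ∀ f ∈ Λ,
        (∃ t ∈ ZD D, f (z⁻¹ * x) = (D : ℚ) ^ E * t) ∧ |f (z⁻¹ * x)| ≤ C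

end Pool.Agent.Lib.MP_2fb4be_al.Sol
end
end

-- part Pool.Agent.Lib.MP_2fb4be_al.Sol.Exp
section

/-! Exponential and logarithm in nilpotent algebras. -/

set_option autoImplicit false

noncomputable section

namespace Pool.Agent.Lib.MP_2fb4be_al.Sol

open Polynomial Finset

namespace Ex

/-- The truncated series of `exp - 1`. -/
def eP (k : ℕ) : ℚ[X] := ∑ i ∈ range (k + 1), monomial (i + 1) ((i + 1).factorial : ℚ)⁻¹

theorem eP_zero (k : ℕ) : (eP k).coeff 0 = 0 := by simp [eP, coeff_monomial]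

theorem eP_one (k : ℕ) : (eP k).coeff 1 = 1 := by simp [eP, coeff_monomial]

theorem shape {P : ℚ[X]} (h0 : P.coeff 0 = 0) (h1 : P.coeff 1 = 1) :
    ∃ R, P = X * (1 + X * R) := by
  refine ⟨P.divX.divX, ?_⟩
  have e1 := X_mul_divX_add P
  have e2 := X_mul_divX_add P.divX
  rw [h0, map_zero, add_zero] at e1
  rw [coeff_divX, zero_add, h1, map_one] at e2
  rw [add_comm, e2, e1]

theorem left_inv {P : ℚ[X]} (h0 : P.coeff 0 = 0) (h1 : P.coeff 1 = 1) (j : ℕ) :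
    ∃ Q : ℚ[X], Q.coeff 0 = 0 ∧ Q.coeff 1 = 1 ∧ X ^ (j + 2) ∣ Q.comp P - X := by
  obtain ⟨R, rfl⟩ := shape h0 h1
  induction j with
  | zero => exact ⟨X, by simp, by simp, R, by rw [X_comp]; ring⟩
  | succ j ih =>
    obtain ⟨Q, q0, q1, S, hS⟩ := ih
    obtain ⟨T, hT⟩ : X ∣ S - C (S.coeff 0) * (1 + X * R) ^ (j + 2) := by
      rw [X_dvd_iff]
      simp [coeff_zero_eq_eval_zero]
    refine ⟨Q - C (S.coeff 0) * X ^ (j + 2), by simp [q0], by simp [q1, coeff_X_pow], T, ?_⟩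
    rw [sub_comp, mul_comp, C_comp, pow_comp, X_comp, sub_right_comm, hS, pow_succ _ (j + 2),
      mul_assoc, ← hT, mul_pow]
    ring

variable {A B : Type} [Ring A] [Algebra ℚ A] [Ring B] [Algebra ℚ B]

theorem aeval_pow {P : ℚ[X]} (h : P.coeff 0 = 0) {a : A} {n : ℕ} (ha : a ^ n = 0) :
    aeval a P ^ n = 0 := by
  obtain ⟨R, rfl⟩ := X_dvd_iff.2 h
  rw [← map_pow, mul_pow, map_mul, map_pow, aeval_X, ha, zero_mul]

theorem aeval_inv {P Q : ℚ[X]} {k : ℕ} (h : X ^ (k + 2) ∣ Q.comp P - X) {a : A}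
    (ha : a ^ (k + 1) = 0) : aeval (aeval a P) Q = a := by
  obtain ⟨S, hS⟩ := h
  have := congrArg (aeval a) hS
  rwa [map_sub, aeval_comp, aeval_X, map_mul, map_pow, aeval_X, pow_succ, ha, zero_mul, zero_mul,
    sub_eq_zero] at this

theorem coe_ex {a : A} (ha : IsNilpotent a) : (ex a : A) = IsNilpotent.exp a := by
  simp only [ex, dif_pos ha]

theorem ex_eq {a : A} {k : ℕ} (ha : a ^ (k + 1) = 0) : (ex a : A) = 1 + aeval a (eP k) := by
  rw [coe_ex ⟨_, ha⟩, IsNilpotent.exp_eq_sum (k := k + 2) (by rw [pow_succ, ha, zero_mul]),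
    sum_range_succ', eP, map_sum, add_comm]
  simp [aeval_monomial, Algebra.smul_def]

theorem ex_inj {a b : A} (ha : IsNilpotent a) (hb : IsNilpotent b) (h : ex a = ex b) : a = b := by
  obtain ⟨m, hm⟩ := ha
  obtain ⟨n, hn⟩ := hb
  have ha := pow_eq_zero_of_le (show m ≤ m + n + 1 by omega) hm
  have hb := pow_eq_zero_of_le (show n ≤ m + n + 1 by omega) hn
  obtain ⟨Q, -, -, hQ⟩ := left_inv (eP_zero (m + n)) (eP_one _) (m + n)
  have e := ex_eq ha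
  rw [h, ex_eq hb, add_right_inj] at e
  rw [← aeval_inv hQ ha, ← e, aeval_inv hQ hb]

theorem lg_ex {a : A} (ha : IsNilpotent a) : lg (ex a) = a := by
  have h : ∃ b : A, IsNilpotent b ∧ ex b = ex a := ⟨a, ha, rfl⟩
  rw [lg, dif_pos h]
  exact ex_inj h.choose_spec.1 ha h.choose_spec.2

theorem exists_lg (k : ℕ) : ∃ Q : ℚ[X], Q.coeff 0 = 0 ∧ ∀ (A : Type) [Ring A] [Algebra ℚ A]
    (u : Aˣ), ((u : A) - 1) ^ (k + 1) = 0 →
      ex (aeval ((u : A) - 1) Q) = u ∧ lg u = aeval ((u : A) - 1) Q := by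
  obtain ⟨Q, q0, q1, hQ⟩ := left_inv (eP_zero k) (eP_one k) k
  obtain ⟨R, -, -, hR⟩ := left_inv q0 q1 k
  refine ⟨Q, q0, fun A _ _ u hu => ?_⟩
  have h1 := aeval_pow q0 hu
  have h2 : ex (aeval ((u : A) - 1) Q) = u := by
    ext
    rw [ex_eq h1, ← aeval_inv hR (aeval_pow (eP_zero k) h1), aeval_inv hQ h1, aeval_inv hR hu,
      add_sub_cancel]
  exact ⟨h2, by rw [← lg_ex ⟨_, h1⟩, h2]⟩

omit [Algebra ℚ A] in
theorem nil_succ {a : A} (ha : IsNilpotent a) : ∃ k, a ^ (k + 1) = 0 :=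
  ha.imp fun k h => by rw [pow_succ, h, zero_mul]

theorem map_ex (φ : A →ₐ[ℚ] B) {a : A} (ha : IsNilpotent a) :
    Units.map (φ : A →* B) (ex a) = ex (φ a) := by
  ext
  rw [Units.coe_map, coe_ex ha, coe_ex (ha.map φ)]
  exact IsNilpotent.map_exp ha φ

theorem aeval_mem {W : Submodule ℚ A} (hm : W * W ≤ W) {a : A} (ha : a ∈ W) {P : ℚ[X]}
    (h : P.coeff 0 = 0) : aeval a P ∈ W := by
  have key : ∀ i, a ^ (i + 1) ∈ W := fun i => by
    induction i with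
    | zero => rwa [zero_add, pow_one]
    | succ i ih =>
      rw [pow_succ]
      exact hm (Submodule.mul_mem_mul ih ha)
  rw [aeval_eq_sum_range]
  refine Submodule.sum_mem _ fun i _ => ?_
  rcases i with _ | i
  · simp [h]
  · exact W.smul_mem _ (key i)

variable {I : Submodule ℚ A} {k : ℕ}

theorem mul_l {n : ℕ} {x y : A} (hx : x ∈ I) (hy : y ∈ I ^ n) : x * y ∈ I ^ (n + 1) := by
  rw [pow_succ']
  exact Submodule.mul_mem_mul hx hy

theorem mul_r {n : ℕ} {x y : A} (hx : x ∈ I ^ n) (hy : y ∈ I) : x * y ∈ I ^ (n + 1) := by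
  rw [pow_succ]
  exact Submodule.mul_mem_mul hx hy

theorem mem_one (h : NilI I k) {n : ℕ} {x : A} (hx : x ∈ I ^ (n + 1)) : x ∈ I := by
  simpa using h.anti (Nat.zero_le n) hx

theorem nil (h : NilI I k) {x : A} (hx : x ∈ I) : IsNilpotent x := ⟨_, h.pow_eq_zero hx⟩

theorem aeval_congr (h : NilI I k) {n : ℕ} {w p : A} (hw : w ∈ I) (hp : p ∈ I ^ (n + 1))
    (P : ℚ[X]) : aeval (w + p) P - aeval w P - P.coeff 1 • p ∈ I ^ (n + 2) := by
  have key : ∀ i, (w + p) ^ (i + 1) - w ^ (i + 1) ∈ I ^ (n + i + 1) := fun i => by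
    induction i with
    | zero => simpa using hp
    | succ i ih =>
      have e : (w + p) ^ (i + 1 + 1) - w ^ (i + 1 + 1) =
          (w + p) * ((w + p) ^ (i + 1) - w ^ (i + 1)) + p * w ^ (i + 1) := by
        rw [pow_succ' (w + p) (i + 1), pow_succ' w (i + 1)]
        noncomm_ring
      rw [e]
      refine add_mem (mul_l (add_mem hw (mem_one h hp)) ih) ?_
      have := mul_mem_pow hp (Submodule.pow_mem_pow I hw (i + 1))
      rwa [show n + 1 + (i + 1) = n + (i + 1) + 1 by ring] at this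
  induction P using Polynomial.induction_on' with
  | add P Q hP hQ =>
    have := add_mem hP hQ
    rw [map_add, map_add, coeff_add, add_smul]
    convert this using 1
    abel
  | monomial i c =>
    rw [aeval_monomial, aeval_monomial, ← Algebra.smul_def, ← Algebra.smul_def, coeff_monomial]
    rcases i with _ | _ | i
    · simp
    · simp
    · rw [if_neg (by omega), zero_smul, sub_zero, ← smul_sub]
      exact Submodule.smul_mem _ _ (h.anti (by omega) (key (i + 1)))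

theorem ex_congr (h : NilI I k) {n : ℕ} {w p : A} (hw : w ∈ I) (hp : p ∈ I ^ (n + 1)) :
    (ex (w + p) : A) - ex w - p ∈ I ^ (n + 2) := by
  have := aeval_congr h hw hp (eP k)
  rw [eP_one, one_smul] at this
  rwa [ex_eq (h.pow_eq_zero hw), ex_eq (h.pow_eq_zero (add_mem hw (mem_one h hp))),
    add_sub_add_left_eq_sub]

theorem lg_congr (h : NilI I k) {n : ℕ} {u v : Aˣ} (hv : v ∈ Ul h 0)
    (e : (u : A) - v ∈ I ^ (n + 1)) : lg u - lg v ∈ I ^ (n + 1) := by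
  obtain ⟨Q, -, hQ⟩ := exists_lg k
  have hv' := mem_one h hv
  have e1 : (u : A) - 1 = v - 1 + (u - v) := by abel
  have hu : (u : A) - 1 ∈ I := e1 ▸ add_mem hv' (mem_one h e)
  rw [(hQ A u (h.pow_eq_zero hu)).2, (hQ A v (h.pow_eq_zero hv')).2, e1]
  simpa using add_mem (h.anti (Nat.le_succ n) (aeval_congr h hv' e Q))
    (Submodule.smul_mem _ (Q.coeff 1) e)

end Ex

theorem exists_poly (k : ℕ) : ∃ P Q : ℚ[X], P.coeff 0 = 0 ∧ Q.coeff 0 = 0 ∧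
    ∀ (A : Type) [Ring A] [Algebra ℚ A],
      (∀ a : A, a ^ (k + 1) = 0 → (ex a : A) = 1 + aeval a P) ∧
      ∀ u : Aˣ, ((u : A) - 1) ^ (k + 1) = 0 → lg u = aeval ((u : A) - 1) Q := by
  obtain ⟨Q, q0, hQ⟩ := Ex.exists_lg k
  exact ⟨Ex.eP k, Q, Ex.eP_zero k, q0, fun A _ _ =>
    ⟨fun a ha => Ex.ex_eq ha, fun u hu => (hQ A u hu).2⟩⟩

section
variable {A : Type} [Ring A] [Algebra ℚ A]

theorem ex_zero : ex (0 : A) = 1 := by
  ext
  rw [Ex.coe_ex IsNilpotent.zero, IsNilpotent.exp_zero, Units.val_one]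

theorem ex_add {a b : A} (h : Commute a b) (ha : IsNilpotent a) (hb : IsNilpotent b) :
    ex (a + b) = ex a * ex b := by
  ext
  rw [Units.val_mul, Ex.coe_ex ha, Ex.coe_ex hb, Ex.coe_ex (h.isNilpotent_add ha hb),
    IsNilpotent.exp_add_of_commute h ha hb]

theorem ex_neg {a : A} (ha : IsNilpotent a) : ex (-a) = (ex a)⁻¹ := by
  rw [eq_inv_iff_mul_eq_one, ← ex_add (Commute.refl a).neg_left ha.neg ha, neg_add_cancel, ex_zero]

theorem lg_ex {a : A} (ha : IsNilpotent a) : lg (ex a) = a := Ex.lg_ex ha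

theorem ex_lg {u : Aˣ} (hu : IsNilpotent ((u : A) - 1)) : ex (lg u) = u := by
  obtain ⟨k, hk⟩ := Ex.nil_succ hu
  obtain ⟨Q, -, hQ⟩ := Ex.exists_lg k
  rw [(hQ A u hk).2, (hQ A u hk).1]

theorem lg_nil {u : Aˣ} (hu : IsNilpotent ((u : A) - 1)) : IsNilpotent (lg u) := by
  obtain ⟨k, hk⟩ := Ex.nil_succ hu
  obtain ⟨Q, q0, hQ⟩ := Ex.exists_lg k
  rw [(hQ A u hk).2]
  exact ⟨_, Ex.aeval_pow q0 hk⟩

theorem Ex.map_lg {B : Type} [Ring B] [Algebra ℚ B] (φ : A →ₐ[ℚ] B) {u : Aˣ}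
    (hu : IsNilpotent ((u : A) - 1)) : lg (Units.map (φ : A →* B) u) = φ (lg u) := by
  conv_lhs => rw [← ex_lg hu, Ex.map_ex φ (lg_nil hu)]
  exact lg_ex ((lg_nil hu).map φ)

theorem Ex.map_pw {B : Type} [Ring B] [Algebra ℚ B] (φ : A →ₐ[ℚ] B) {u : Aˣ}
    (hu : IsNilpotent ((u : A) - 1)) (t : ℚ) :
    Units.map (φ : A →* B) (pw t u) = pw t (Units.map (φ : A →* B) u) := by
  rw [pw, pw, Ex.map_ex φ ((lg_nil hu).smul t), Ex.map_lg φ hu, map_smul]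

theorem map_ex (φ : A →ₐ[ℚ] A) {a : A} (ha : IsNilpotent a) :
    Units.map (φ : A →* A) (ex a) = ex (φ a) := Ex.map_ex φ ha

theorem map_lg (φ : A →ₐ[ℚ] A) {u : Aˣ} (hu : IsNilpotent ((u : A) - 1)) :
    lg (Units.map (φ : A →* A) u) = φ (lg u) := Ex.map_lg φ hu

theorem pw_zero (u : Aˣ) : pw 0 u = 1 := by rw [pw, zero_smul, ex_zero]

theorem pw_add {u : Aˣ} (hu : IsNilpotent ((u : A) - 1)) (s t : ℚ) :
    pw (s + t) u = pw s u * pw t u := by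
  rw [pw, add_smul, ex_add (((Commute.refl _).smul_left s).smul_right t) ((lg_nil hu).smul s)
    ((lg_nil hu).smul t), pw, pw]

theorem pw_pw {u : Aˣ} (hu : IsNilpotent ((u : A) - 1)) (s t : ℚ) :
    pw s (pw t u) = pw (s * t) u := by
  rw [pw, pw, lg_ex ((lg_nil hu).smul t), smul_smul, pw]

theorem pw_int {u : Aˣ} (hu : IsNilpotent ((u : A) - 1)) (m : ℤ) : pw m u = u ^ m := by
  have h1 : pw 1 u = u := by rw [pw, one_smul, ex_lg hu]
  induction m using Int.induction_on with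
  | zero => simpa using pw_zero u
  | succ i ih => rw [zpow_add_one, ← ih, Int.cast_add, Int.cast_one, pw_add hu, h1]
  | pred i ih =>
    rw [zpow_sub_one, ← ih, eq_mul_inv_iff_mul_eq]
    conv_lhs => rw [← h1, pw_pw hu, mul_one, ← pw_add hu]
    congr 1
    push_cast
    ring

/-- `W` is any subspace of `I` closed under multiplication. -/
theorem NilI.ex_sub {I : Submodule ℚ A} {k : ℕ} (h : NilI I k) {W : Submodule ℚ A} (hW : W ≤ I)
    (hm : W * W ≤ W) {a : A} (ha : a ∈ W) : (ex a : A) - 1 ∈ W := by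
  rw [Ex.ex_eq (h.pow_eq_zero (hW ha)), add_sub_cancel_left]
  exact Ex.aeval_mem hm ha (Ex.eP_zero k)

theorem NilI.lg_sub {I : Submodule ℚ A} {k : ℕ} (h : NilI I k) {W : Submodule ℚ A} (hW : W ≤ I)
    (hm : W * W ≤ W) {u : Aˣ} (hu : (u : A) - 1 ∈ W) : lg u ∈ W := by
  obtain ⟨Q, q0, hQ⟩ := Ex.exists_lg k
  rw [(hQ A u (h.pow_eq_zero (hW hu))).2]
  exact Ex.aeval_mem hm hu q0

theorem NilI.ex_mem {I : Submodule ℚ A} {k : ℕ} (h : NilI I k) {i : ℕ} {a : A}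
    (ha : a ∈ I ^ (i + 1)) : ex a ∈ Ul h i ∧ (ex a : A) - 1 - a ∈ I ^ (i + 2) := by
  have := Ex.ex_congr h I.zero_mem ha
  rw [zero_add, ex_zero, Units.val_one] at this
  exact ⟨by simpa [mem_Ul] using add_mem (h.anti (Nat.le_succ i) this) ha, this⟩

theorem NilI.lg_mem {I : Submodule ℚ A} {k : ℕ} (h : NilI I k) {i : ℕ} {u : Aˣ}
    (hu : u ∈ Ul h i) : lg u ∈ I ^ (i + 1) ∧ lg u - ((u : A) - 1) ∈ I ^ (i + 2) := by
  have h1 : lg u ∈ I ^ (i + 1) := h.lg_sub (fun _ => Ex.mem_one h)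
    (Submodule.mul_le.2 fun _ hx _ hy => h.mul_mem hx hy) hu
  have h2 := (h.ex_mem h1).2
  rw [ex_lg (Ex.nil h (Ex.mem_one h hu))] at h2
  exact ⟨h1, by simpa using neg_mem h2⟩

theorem NilI.Ul_anti {I : Submodule ℚ A} {k : ℕ} (h : NilI I k) : Antitone (Ul h) :=
  fun _ _ hij _ hu => h.anti hij hu

theorem NilI.Ul_k {I : Submodule ℚ A} {k : ℕ} (h : NilI I k) : Ul h k = ⊥ := by
  ext u
  rw [mem_Ul, h.pow_k, Submodule.mem_bot, Subgroup.mem_bot, sub_eq_zero, Units.val_eq_one]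

theorem Ex.mul_unit {I : Submodule ℚ A} {k : ℕ} (h : NilI I k) {n : ℕ} {x : A} {u : Aˣ}
    (hx : x ∈ I ^ (n + 1)) (hu : u ∈ Ul h 0) : x * u ∈ I ^ (n + 1) := by
  simpa [mul_sub] using add_mem (h.mul_mem hx hu) hx

theorem NilI.comm_le {I : Submodule ℚ A} {k : ℕ} (h : NilI I k) (i : ℕ) :
    ⁅Ul h i, Ul h 0⁆ ≤ Ul h (i + 1) := by
  refine Subgroup.commutator_le.2 fun u hu v hv => ?_
  rw [commutatorElement_def]
  have e : ((u * v * u⁻¹ * v⁻¹ : Aˣ) : A) - 1 =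
      ((u - 1) * (v - 1) - (v - 1) * (u - 1)) * ((u⁻¹ * v⁻¹ : Aˣ) : A) := by
    have : ((u : A) - 1) * (v - 1) - (v - 1) * (u - 1) = (u * v : Aˣ) - (v * u : Aˣ) := by
      simp only [Units.val_mul]
      noncomm_ring
    rw [this, sub_mul, ← Units.val_mul, ← Units.val_mul]
    simp [mul_assoc]
  rw [mem_Ul, e]
  exact Ex.mul_unit h (sub_mem (Ex.mul_r hu (Ex.mem_one h hv)) (Ex.mul_l (Ex.mem_one h hv) hu))
    (Subgroup.mul_mem _ (inv_mem (h.Ul_anti (Nat.zero_le i) hu)) (inv_mem hv))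

theorem Ex.lcs_le {I : Submodule ℚ A} {k : ℕ} (h : NilI I k) {K : Subgroup Aˣ} (hK : K ≤ Ul h 0)
    (i : ℕ) : K.lowerCentralSeries i ≤ Ul h i := by
  induction i with
  | zero => exact hK
  | succ i ih => exact (Subgroup.commutator_mono ih hK).trans (h.comm_le i)

theorem NilI.lcs {I : Submodule ℚ A} {k : ℕ} (h : NilI I k) :
    (Ul h 0).lowerCentralSeries k = ⊥ :=
  le_bot_iff.1 (h.Ul_k ▸ Ex.lcs_le h le_rfl k)

end

end Pool.Agent.Lib.MP_2fb4be_al.Sol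
end
end

-- part Pool.Agent.Lib.MP_2fb4be_al.Sol.Size
section

/-! The calculus of sizes and the choice of the denominator. -/

set_option autoImplicit false

noncomputable section

namespace Pool.Agent.Lib.MP_2fb4be_al.Sol

open Polynomial

namespace Si

theorem inv_mem_ZD {D m : ℕ} (hm : m.Coprime D) : (m : ℚ)⁻¹ ∈ ZD D := by
  rw [mem_ZD, Rat.inv_natCast_den]
  split_ifs
  · exact Nat.coprime_one_left D
  · exact hm

theorem split (D n : ℕ) (hn : 0 < n) : ∃ a c R : ℕ, n = a * c ∧ a ∣ D ^ R ∧ c.Coprime D := by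
  induction n using Nat.strong_induction_on with
  | _ n ih =>
    by_cases hg : n.Coprime D
    · exact ⟨1, n, 0, by simp, by simp, hg⟩
    · obtain ⟨n', hn'⟩ := Nat.gcd_dvd_left n D
      have h1 : 0 < n.gcd D := Nat.gcd_pos_of_pos_left _ hn
      have h2 : 0 < n' := Nat.pos_of_mul_pos_left (hn' ▸ hn)
      have h3 : 2 ≤ n.gcd D := by
        have : n.gcd D ≠ 1 := hg
        omega
      obtain ⟨a, c, R, e, ha, hc⟩ := ih n' (by nlinarith) h2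
      refine ⟨n.gcd D * a, c, R + 1, by rw [mul_assoc, ← e, ← hn'], ?_, hc⟩
      rw [pow_succ']
      exact Nat.mul_dvd_mul (Nat.gcd_dvd_right n D) ha

theorem exists_pow (D : ℕ) (t : ℚ) : ∃ R, (D : ℚ) ^ R * t ∈ ZD D := by
  obtain ⟨a, c, R, e, ⟨q, hq⟩, hc⟩ := split D t.den t.den_pos
  refine ⟨R, ?_⟩
  have h0 : (a : ℚ) * c ≠ 0 := by
    rw [← Nat.cast_mul, ← e]
    exact Nat.cast_ne_zero.2 t.den_pos.ne'
  have : (D : ℚ) ^ R * t = q * t.num * (c : ℚ)⁻¹ := by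
    have h1 : (D : ℚ) ^ R = a * q := by exact_mod_cast hq
    have h2 : t = t.num / (a * c) := by
      rw [← Nat.cast_mul, ← e, Rat.num_div_den]
    have h3 := left_ne_zero_of_mul h0
    have h4 := right_ne_zero_of_mul h0
    rw [h1]
    conv_lhs => rw [h2]
    field_simp
  rw [this]
  exact mul_mem (mul_mem (natCast_mem _ _) (intCast_mem _ _)) (inv_mem_ZD hc)

theorem pow_mono {D R R' : ℕ} {t : ℚ} (h : (D : ℚ) ^ R * t ∈ ZD D) (h1 : R ≤ R') :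
    (D : ℚ) ^ R' * t ∈ ZD D := by
  obtain ⟨s, rfl⟩ := Nat.exists_eq_add_of_le' h1
  rw [pow_add, mul_assoc]
  exact mul_mem (pow_mem (natCast_mem _ _) _) h

theorem le_pow {L : ℕ} (hL : 2 ≤ L) (c : ℕ) : c ≤ L ^ c :=
  (Nat.lt_two_pow_self).le.trans (Nat.pow_le_pow_left hL c)

theorem add_le_pow {L : ℕ} (hL : 2 ≤ L) (e e' : ℕ) : L ^ e + L ^ e' ≤ L ^ (e + e' + 1) := by
  have h1 : L ^ e ≤ L ^ (e + e') := Nat.pow_le_pow_right (by omega) (by omega)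
  have h2 : L ^ e' ≤ L ^ (e + e') := Nat.pow_le_pow_right (by omega) (by omega)
  have h3 := Nat.mul_le_mul_left (L ^ (e + e')) hL
  rw [pow_succ]
  omega

end Si

section size

variable {A : Type} [Ring A] [Algebra ℚ A] {d : ℕ} {b : Module.Basis (Fin d) ℚ A} {D : ℕ}

theorem Sz.mono {R L R' L' : ℕ} {x : A} (h : Sz b D R L x) (h1 : R ≤ R') (h2 : L ≤ L') :
    Sz b D R' L' x := fun i =>
  ⟨Si.pow_mono (h i).1 h1, (h i).2.trans (Nat.cast_le.2 h2)⟩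

theorem Sz.zero (R L : ℕ) : Sz b D R L (0 : A) := fun i => by
  simp [zero_mem]

theorem Sz.add {R L L' : ℕ} {x y : A} (h : Sz b D R L x) (h' : Sz b D R L' y) :
    Sz b D R (L + L') (x + y) := fun i => by
  rw [map_add, Finsupp.add_apply, mul_add, Nat.cast_add]
  exact ⟨add_mem (h i).1 (h' i).1, (abs_add_le _ _).trans (add_le_add (h i).2 (h' i).2)⟩

theorem Sz.neg {R L : ℕ} {x : A} (h : Sz b D R L x) : Sz b D R L (-x) := fun i => by
  rw [map_neg, Finsupp.neg_apply, mul_neg, abs_neg]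
  exact ⟨neg_mem (h i).1, (h i).2⟩

theorem Si.smul {R L R' L' : ℕ} {x : A} (h : Sz b D R L x) {t : ℚ}
    (ht : (D : ℚ) ^ R' * t ∈ ZD D) (h1 : |t| ≤ L') : Sz b D (R' + R) (L' * L) (t • x) := fun i => by
  rw [map_smul, Finsupp.smul_apply, smul_eq_mul, abs_mul, Nat.cast_mul, pow_add,
    mul_mul_mul_comm]
  exact ⟨mul_mem ht (h i).1, mul_le_mul h1 (h i).2 (abs_nonneg _) (Nat.cast_nonneg _)⟩

theorem Sz.smul {R L : ℕ} {x : A} (h : Sz b D R L x) {t : ℚ} (ht : t ∈ ZD D) (h1 : |t| ≤ 1) :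
    Sz b D R L (t • x) := by
  simpa using Si.smul h (R' := 0) (L' := 1) (t := t) (by simpa using ht) (by simpa using h1)

theorem Sz.div {R L : ℕ} {x : A} (h : Sz b D R L x) {m : ℕ} (hm : m.Coprime D) (h1 : L ≤ m)
    {s : ℤ} (hs : |s| ≤ 1) : Sz b D R 1 (((s : ℚ) / m) • x) := fun i => by
  rw [map_smul, Finsupp.smul_apply, smul_eq_mul, mul_left_comm]
  refine ⟨mul_mem (mul_mem (intCast_mem _ _) (Si.inv_mem_ZD hm)) (h i).1, ?_⟩
  rcases Nat.eq_zero_or_pos m with rfl | h0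
  · simp
  · have h2 : (0 : ℚ) < m := Nat.cast_pos.2 h0
    have h3 : |(s : ℚ)| ≤ 1 := by exact_mod_cast hs
    have h4 : |b.repr x i| ≤ m := (h i).2.trans (Nat.cast_le.2 h1)
    rw [abs_mul, abs_div, abs_of_pos h2, div_mul_eq_mul_div, div_le_iff₀ h2, Nat.cast_one]
    exact mul_le_mul h3 h4 (abs_nonneg _) zero_le_one

theorem Si.sum {ι : Type} {R L : ℕ} (s : Finset ι) {f : ι → A} (h : ∀ i ∈ s, Sz b D R L (f i)) :
    Sz b D R (s.card * L) (∑ i ∈ s, f i) := by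
  classical
  induction s using Finset.induction_on with
  | empty => simpa using Sz.zero R 0
  | insert a s ha ih =>
    rw [Finset.sum_insert ha, Finset.card_insert_of_notMem ha, add_mul, one_mul, add_comm (_ * _)]
    exact (h a (Finset.mem_insert_self _ _)).add
      (ih fun i hi => h i (Finset.mem_insert_of_mem hi))

theorem Si.exists_one (b : Module.Basis (Fin d) ℚ A) (D : ℕ) (x : A) : ∃ R, Sz b D R R x := by
  choose R hR using fun i => Si.exists_pow D (b.repr x i)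
  refine ⟨∑ i, (R i + ⌈|b.repr x i|⌉₊), fun i => ?_⟩
  have := Finset.single_le_sum (f := fun i => R i + ⌈|b.repr x i|⌉₊)
    (fun _ _ => Nat.zero_le _) (Finset.mem_univ i)
  exact ⟨Si.pow_mono (hR i) (le_trans (Nat.le_add_right _ _) this),
    (Nat.le_ceil _).trans (Nat.cast_le.2 (le_trans (Nat.le_add_left _ _) this))⟩

theorem exists_sz (b : Module.Basis (Fin d) ℚ A) (hD : 0 < D) {s : Set A} (hs : s.Finite) :
    ∃ R, ∀ x ∈ s, Sz b D R R x := by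
  have _ := hD
  choose R hR using Si.exists_one b D
  obtain ⟨M, hM⟩ := (hs.image R).bddAbove
  exact ⟨M, fun x hx => (hR x).mono (hM ⟨x, hx, rfl⟩) (hM ⟨x, hx, rfl⟩)⟩

theorem Si.lin {f : A →ₗ[ℚ] A} {R0 L0 : ℕ} (hf : ∀ j, Sz b D R0 L0 (f (b j))) {R L : ℕ} {x : A}
    (hx : Sz b D R L x) : Sz b D (R + R0) (d * (L * L0)) (f x) := by
  have := Si.sum Finset.univ fun j _ => Si.smul (hf j) (hx j).1 (hx j).2
  rw [Finset.card_univ, Fintype.card_fin] at this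
  convert this using 1
  conv_lhs => rw [← b.sum_repr x, map_sum]
  simp only [map_smul]

theorem sz_lin (b : Module.Basis (Fin d) ℚ A) (hD : 0 < D) {s : Set (A →ₗ[ℚ] A)} (hs : s.Finite) :
    ∃ c, ∀ f ∈ s, ∀ R L x, Sz b D R L x → Sz b D (R + c) (c * L) (f x) := by
  obtain ⟨R0, h0⟩ := exists_sz b hD
    (hs.image2 (fun (f : A →ₗ[ℚ] A) j => f (b j)) (Set.finite_univ (α := Fin d)))
  refine ⟨(d + 1) * R0, fun f hf R L x hx =>
    (Si.lin (fun j => h0 _ ⟨f, hf, j, trivial, rfl⟩) hx).mono ?_ ?_⟩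
  · nlinarith [Nat.zero_le (d * R0)]
  · nlinarith [Nat.zero_le (R0 * L)]

theorem sz_mul (b : Module.Basis (Fin d) ℚ A) (hD : 0 < D) : ∃ c, ∀ R L R' L' x y,
    Sz b D R L x → Sz b D R' L' y → Sz b D (R + R' + c) (c * L * L') (x * y) := by
  obtain ⟨c, hc⟩ := sz_lin b hD (Set.finite_range fun j => LinearMap.mulLeft ℚ (b j))
  refine ⟨(d + 1) * c, fun R L R' L' x y hx hy =>
    (Si.lin (f := LinearMap.mulRight ℚ y) (fun j => hc _ ⟨j, rfl⟩ R' L' y hy) hx).mono ?_ ?_⟩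
  · nlinarith [Nat.zero_le (d * c)]
  · nlinarith [Nat.zero_le (c * L * L')]

theorem Si.pow (b : Module.Basis (Fin d) ℚ A) (hD : 0 < D) (R : ℕ) (q : A) (n : ℕ) :
    ∃ R' e, ∀ L, 2 ≤ L → ∀ a, Sz b D R L a → Sz b D R' (L ^ e) (q * a ^ n) := by
  induction n with
  | zero =>
    obtain ⟨R', h⟩ := Si.exists_one b D q
    exact ⟨R', R', fun L hL a _ => by simpa using h.mono le_rfl (Si.le_pow hL R')⟩
  | succ n ih =>
    obtain ⟨R', e, ih⟩ := ih
    obtain ⟨c, hc⟩ := sz_mul b hD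
    refine ⟨R' + R + c, c + e + 1, fun L hL a ha => ?_⟩
    rw [pow_succ a, ← mul_assoc]
    refine (hc _ _ _ _ _ _ (ih L hL a ha) ha).mono le_rfl ?_
    rw [pow_succ, pow_add]
    exact Nat.mul_le_mul_right _ (Nat.mul_le_mul_right _ (Si.le_pow hL c))

theorem Si.poly (b : Module.Basis (Fin d) ℚ A) (hD : 0 < D) (R : ℕ) (P : ℚ[X]) :
    ∃ R' e, ∀ L, 2 ≤ L → ∀ a, Sz b D R L a → Sz b D R' (L ^ e) (aeval a P) := by
  induction P using Polynomial.induction_on' with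
  | add P Q hP hQ =>
    obtain ⟨R1, e1, h1⟩ := hP
    obtain ⟨R2, e2, h2⟩ := hQ
    refine ⟨R1 + R2, e1 + e2 + 1, fun L hL a ha => ?_⟩
    rw [map_add]
    exact (((h1 L hL a ha).mono (Nat.le_add_right _ _) le_rfl).add
      ((h2 L hL a ha).mono (Nat.le_add_left _ _) le_rfl)).mono le_rfl (Si.add_le_pow hL _ _)
  | monomial n c =>
    simp only [aeval_monomial]
    exact Si.pow b hD R _ n

omit [Algebra ℚ A] in
theorem Si.mul_one_sub (u u' : Aˣ) :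
    ((u * u' : Aˣ) : A) - 1 = (u - 1) * (u' - 1) + (u - 1) + (u' - 1) := by
  rw [Units.val_mul]
  noncomm_ring

theorem Si.inv_eq {u : Aˣ} {k : ℕ} (hu : ((u : A) - 1) ^ (k + 1) = 0) :
    ((u⁻¹ : Aˣ) : A) - 1 =
      aeval ((u : A) - 1) ((∑ i ∈ Finset.range (k + 1), (-X) ^ i : ℚ[X]) - 1) := by
  have h1 := mul_neg_geom_sum (-((u : A) - 1)) (k + 1)
  rw [neg_pow, hu, mul_zero, sub_zero, sub_neg_eq_add, add_sub_cancel] at h1
  simp only [map_sub, map_sum, map_pow, map_neg, aeval_X, map_one]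
  rw [← Units.inv_eq_of_mul_eq_one_right h1]

theorem sz_grp (b : Module.Basis (Fin d) ℚ A) (hD : 0 < D) {I : Submodule ℚ A} {k : ℕ}
    (h : NilI I k) (R : ℕ) : ∃ R' e, ∀ L, 2 ≤ L →
      (∀ a ∈ I, Sz b D R L a → Sz b D R' (L ^ e) ((ex a : A) - 1)) ∧
      ∀ u ∈ Ul h 0, Sz b D R L ((u : A) - 1) → Sz b D R' (L ^ e) (lg u) ∧
        Sz b D R' (L ^ e) (((u⁻¹ : Aˣ) : A) - 1) ∧
        ∀ u' : Aˣ, Sz b D R L ((u' : A) - 1) → Sz b D R' (L ^ e) (((u * u' : Aˣ) : A) - 1) := by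
  obtain ⟨P, Q, -, -, hPQ⟩ := exists_poly k
  obtain ⟨hP, hQ⟩ := hPQ A
  obtain ⟨R1, e1, h1⟩ := Si.poly b hD R P
  obtain ⟨R2, e2, h2⟩ := Si.poly b hD R Q
  obtain ⟨R3, e3, h3⟩ := Si.poly b hD R ((∑ i ∈ Finset.range (k + 1), (-X) ^ i : ℚ[X]) - 1)
  obtain ⟨c, hc⟩ := sz_mul b hD
  refine ⟨R1 + R2 + R3 + (R + R + c), e1 + e2 + e3 + (c + 1 + 2), fun L hL => ?_⟩
  have hp : ∀ {e e' : ℕ}, e ≤ e' → L ^ e ≤ L ^ e' := fun he => Nat.pow_le_pow_right (by omega) he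
  refine ⟨fun a ha hs => ?_, fun u hu hs => ?_⟩
  · rw [hP a (h.pow_eq_zero ha), add_sub_cancel_left]
    exact (h1 L hL a hs).mono (by omega) (hp (by omega))
  have hu' := h.pow_eq_zero (Ex.mem_one h hu)
  refine ⟨?_, ?_, fun u' hs' => ?_⟩
  · rw [hQ u hu']
    exact (h2 L hL _ hs).mono (by omega) (hp (by omega))
  · rw [Si.inv_eq hu']
    exact (h3 L hL _ hs).mono (by omega) (hp (by omega))
  · rw [Si.mul_one_sub]
    refine (((hc _ _ _ _ _ _ hs hs').add (hs.mono (by omega) le_rfl)).add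
      (hs'.mono (by omega) le_rfl)).mono (by omega) (le_trans ?_ (hp (e := c + 1 + 2) (by omega)))
    have := Si.le_pow hL (c + 1)
    rw [pow_add]
    nlinarith [Nat.mul_le_mul_right (L ^ 2) this]

theorem Si.prod (b : Module.Basis (Fin d) ℚ A) (hD : 0 < D) {I : Submodule ℚ A} {k : ℕ}
    (h : NilI I k) (R a : ℕ) : ∃ R' e, ∀ L, 2 ≤ L → ∀ l : List Aˣ, l.length ≤ L →
      (∀ u ∈ l, u ∈ Ul h 0 ∧ Sz b D R L ((u : A) - 1)) →
        ∃ y, Sz b D R' (L ^ e) y ∧ ((l.prod : Aˣ) - 1 : A) - y ∈ I ^ (a + 1) := by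
  induction a with
  | zero =>
    refine ⟨0, 0, fun L _ l _ hl => ⟨0, Sz.zero _ _, ?_⟩⟩
    rw [sub_zero]
    exact Subgroup.list_prod_mem (Ul h 0) fun u hu => (hl u hu).1
  | succ a ih =>
    obtain ⟨R', e, ih⟩ := ih
    obtain ⟨c, hc⟩ := sz_mul b hD
    refine ⟨R + R' + c, c + 1 + e + 1 + 1 + 1, fun L hL l hl hs => ?_⟩
    have key : ∃ y, Sz b D (R + R' + c) (l.length * (c * L * L ^ e + L)) y ∧
        ((l.prod : Aˣ) - 1 : A) - y ∈ I ^ (a + 1 + 1) := by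
      induction l with
      | nil => exact ⟨0, Sz.zero _ _, by simp⟩
      | cons u l ihl =>
        have hl' : l.length ≤ L := le_trans (Nat.le_succ _) hl
        have hs' : ∀ v ∈ l, v ∈ Ul h 0 ∧ Sz b D R L ((v : A) - 1) :=
          fun v hv => hs v (List.mem_cons_of_mem _ hv)
        obtain ⟨hu, hu'⟩ := hs u List.mem_cons_self
        obtain ⟨y, hy, hy'⟩ := ihl hl' hs'
        obtain ⟨z, hz, hz'⟩ := ih L hL l hl' hs'
        refine ⟨y + (((u : A) - 1) * z + (u - 1)), ?_, ?_⟩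
        · rw [List.length_cons, add_mul, one_mul]
          exact hy.add ((hc _ _ _ _ _ _ hu' hz).add (hu'.mono (by omega) le_rfl))
        · have := add_mem hy' (Ex.mul_l (Ex.mem_one h hu) hz')
          convert this using 1
          rw [List.prod_cons, Units.val_mul]
          noncomm_ring
    obtain ⟨y, hy, hy'⟩ := key
    refine ⟨y, hy.mono le_rfl ?_, hy'⟩
    have h1 : c * L * L ^ e ≤ L ^ (c + 1 + e) := by
      rw [pow_add, pow_succ]
      exact Nat.mul_le_mul_right _ (Nat.mul_le_mul_right _ (Si.le_pow hL c))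
    have h2 := Si.add_le_pow hL (c + 1 + e) 1
    rw [pow_one] at h2
    rw [pow_succ' L (c + 1 + e + 1 + 1)]
    exact Nat.mul_le_mul hl (le_trans (Nat.add_le_add_right h1 _) h2)

theorem sz_prod (b : Module.Basis (Fin d) ℚ A) (hD : 0 < D) {I : Submodule ℚ A} {k : ℕ}
    (h : NilI I k) (R : ℕ) : ∃ R' e, ∀ L, 2 ≤ L → ∀ l : List Aˣ, l.length ≤ L →
      (∀ u ∈ l, u ∈ Ul h 0 ∧ Sz b D R L ((u : A) - 1)) →
        Sz b D R' (L ^ e) ((l.prod : Aˣ) - 1 : A) := by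
  obtain ⟨R', e, H⟩ := Si.prod b hD h R k
  refine ⟨R', e, fun L hL l hl hs => ?_⟩
  obtain ⟨y, hy, hy'⟩ := H L hL l hl hs
  rw [h.pow_k, Submodule.mem_bot, sub_eq_zero] at hy'
  rwa [hy']

end size

namespace Si

/-- Rationals whose denominator divides a power of `D`. -/
def ZI (D : ℕ) : Subring ℚ where
  carrier := {t | ∃ s : ℕ, t.den ∣ D ^ s}
  mul_mem' := fun {a b} ⟨s, hs⟩ ⟨s', hs'⟩ =>
    ⟨s + s', (Rat.mul_den_dvd a b).trans (pow_add D s s' ▸ Nat.mul_dvd_mul hs hs')⟩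
  add_mem' := fun {a b} ⟨s, hs⟩ ⟨s', hs'⟩ =>
    ⟨s + s', (Rat.add_den_dvd a b).trans (pow_add D s s' ▸ Nat.mul_dvd_mul hs hs')⟩
  one_mem' := ⟨0, by simp⟩
  zero_mem' := ⟨0, by simp⟩
  neg_mem' := fun {a} ⟨s, hs⟩ => ⟨s, by simpa using hs⟩

theorem ZI_mono {D D' : ℕ} (h : D ∣ D') : ZI D ≤ ZI D' :=
  fun _ ⟨s, hs⟩ => ⟨s, hs.trans (pow_dvd_pow_of_dvd h s)⟩

theorem den_one {D : ℕ} {t : ℚ} (h : t ∈ ZI D) (h' : t ∈ ZD D) : t.den = 1 := by
  obtain ⟨s, hs⟩ := h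
  exact Nat.Coprime.eq_one_of_dvd (Nat.Coprime.pow_right s h') hs

theorem fin_rat {D : ℕ} (hD : 0 < D) (R : ℕ) :
    {t : ℚ | t ∈ ZI D ∧ (D : ℚ) ^ R * t ∈ ZD D ∧ |t| ≤ R}.Finite := by
  have h0 : (0 : ℚ) < (D : ℚ) ^ R := pow_pos (Nat.cast_pos.2 hD) R
  refine ((Set.finite_Icc (-(D ^ R * R : ℕ) : ℤ) (D ^ R * R : ℕ)).image
    fun z : ℤ => (z : ℚ) / (D : ℚ) ^ R).subset ?_
  rintro t ⟨h1, h2, h3⟩
  have h4 := (Rat.den_eq_one_iff _).1 (den_one (mul_mem (pow_mem (natCast_mem _ _) R) h1) h2)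
  refine ⟨((D : ℚ) ^ R * t).num, ?_, ?_⟩
  · rw [Set.mem_Icc, ← abs_le, ← Int.cast_le (R := ℚ), Int.cast_abs, h4, abs_mul, abs_of_pos h0]
    push_cast
    exact mul_le_mul_of_nonneg_left h3 h0.le
  · simp only [h4]
    field_simp

variable {A : Type} [Ring A] [Algebra ℚ A] {d : ℕ} {b : Module.Basis (Fin d) ℚ A}

/-- All coordinates lie in the subring `Z`. -/
def InL (b : Module.Basis (Fin d) ℚ A) (Z : Subring ℚ) (x : A) : Prop := ∀ i, b.repr x i ∈ Z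

theorem InL.lin {Z : Subring ℚ} {f : A →ₗ[ℚ] A} (hf : ∀ j, InL b Z (f (b j))) {x : A}
    (hx : InL b Z x) : InL b Z (f x) := fun i => by
  have e : f x = ∑ j, b.repr x j • f (b j) := by
    conv_lhs => rw [← b.sum_repr x, map_sum]
    simp only [map_smul]
  rw [e, map_sum, Finsupp.finsetSum_apply]
  refine sum_mem fun j _ => ?_
  rw [map_smul, Finsupp.smul_apply, smul_eq_mul]
  exact mul_mem (hx j) (hf j i)

theorem InL.mul {Z : Subring ℚ} (hb : ∀ i j, InL b Z (b i * b j)) {x y : A} (hx : InL b Z x)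
    (hy : InL b Z y) : InL b Z (x * y) :=
  InL.lin (f := LinearMap.mulRight ℚ y)
    (fun i => InL.lin (f := LinearMap.mulLeft ℚ (b i)) (hb i) hy) hx

theorem InL.sub {Z : Subring ℚ} {x y : A} (hx : InL b Z x) (hy : InL b Z y) :
    InL b Z (x - y) := fun i => by
  rw [map_sub, Finsupp.sub_apply]
  exact sub_mem (hx i) (hy i)

theorem exists_ZI (b : Module.Basis (Fin d) ℚ A) {s : Set A} (hs : s.Finite) :
    ∃ D0, 0 < D0 ∧ ∀ x ∈ s, InL b (ZI D0) x := by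
  refine ⟨∏ x ∈ hs.toFinset, ∏ i, (b.repr x i).den,
    Finset.prod_pos fun x _ => Finset.prod_pos fun i _ => Rat.den_pos _, fun x hx i => ⟨1, ?_⟩⟩
  rw [pow_one]
  exact (Finset.dvd_prod_of_mem (fun i => (b.repr x i).den) (Finset.mem_univ i)).trans
    (Finset.dvd_prod_of_mem (fun x => ∏ i, (b.repr x i).den) (hs.mem_toFinset.2 hx))

theorem fin_alg {D : ℕ} (hD : 0 < D) (R : ℕ) :
    {x : A | InL b (ZI D) x ∧ Sz b D R R x}.Finite := by
  refine Set.Finite.of_finite_image (f := fun x => b.equivFun x) ?_ b.equivFun.injective.injOn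
  refine (Set.Finite.pi' fun _ : Fin d => fin_rat hD R).subset ?_
  rintro _ ⟨x, ⟨h1, h2⟩, rfl⟩ i
  exact ⟨h1 i, h2 i⟩

open scoped commutatorElement in
theorem comm_le {G : Type} [Group G] {S : Set G} (hS : Subgroup.closure S = ⊤) (K : Subgroup G)
    [K.Normal] (h : ∀ g ∈ S, ∀ g' ∈ S, ⁅g, g'⁆ ∈ K) : commutator G ≤ K := by
  have key : ∀ x y : G, Commute (QuotientGroup.mk' K x) (QuotientGroup.mk' K y) := by
    intro x y
    have hx : x ∈ Subgroup.closure S := hS ▸ Subgroup.mem_top x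
    have hy : y ∈ Subgroup.closure S := hS ▸ Subgroup.mem_top y
    induction hx, hy using Subgroup.closure_induction₂ with
    | mem x y hx hy =>
      rw [← commutatorElement_eq_one_iff_commute, ← map_commutatorElement]
      exact (QuotientGroup.eq_one_iff _).2 (h x hx y hy)
    | one_left x _ => simp
    | one_right x _ => simp
    | mul_left x y z _ _ _ h1 h2 => exact map_mul (QuotientGroup.mk' K) x y ▸ h1.mul_left h2
    | mul_right y z x _ _ _ h1 h2 => exact map_mul (QuotientGroup.mk' K) y z ▸ h1.mul_right h2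
    | inv_left x y _ _ h1 => exact map_inv (QuotientGroup.mk' K) x ▸ h1.inv_left
    | inv_right x y _ _ h1 => exact map_inv (QuotientGroup.mk' K) y ▸ h1.inv_right
  refine Subgroup.commutator_le.2 fun x _ y _ => (QuotientGroup.eq_one_iff _).1 ?_
  exact (map_commutatorElement (QuotientGroup.mk' K) x y).trans
    (commutatorElement_eq_one_iff_commute.2 (key x y))

end Si

open scoped commutatorElement in
theorem exists_D {G : Type} [Group G] [Group.FG G] (M : NilModel G (commutator G)) {d : ℕ}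
    (b : Module.Basis (Fin d) ℚ M.A) : ∃ D0, 0 < D0 ∧ ∀ D, 0 < D → D0 ∣ D → ∀ R,
      {n : commutator G | Sz b D R R ((M.ι n : M.A) - 1)}.Finite := by
  obtain ⟨S, hS, hf⟩ := Group.fg_iff.1 ‹Group.FG G›
  let c : G → G → commutator G := fun g g' =>
    ⟨⁅g, g'⁆, Subgroup.commutator_mem_commutator (Subgroup.mem_top g) (Subgroup.mem_top g')⟩
  have u : (Set.univ : Set (Fin d)).Finite := Set.finite_univ
  obtain ⟨D0, h0, H⟩ := Si.exists_ZI b (((((Set.finite_singleton 1).union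
    (u.image2 (fun i j => b i * b j) u)).union (hf.image2 (fun g j => M.α g (b j)) u)).union
    (hf.image2 (fun g j => M.α g⁻¹ (b j)) u)).union
    (hf.image2 (fun g g' => (M.ι (c g g') : M.A)) hf))
  have h1 : Si.InL b (Si.ZI D0) 1 := H _ (by simp)
  have h2 : ∀ i j, Si.InL b (Si.ZI D0) (b i * b j) := fun i j =>
    H _ (.inl (.inl (.inl (.inr ⟨i, trivial, j, trivial, rfl⟩))))
  have h3 : ∀ g x, Si.InL b (Si.ZI D0) x → Si.InL b (Si.ZI D0) (M.α g x) := by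
    intro g
    have hg : g ∈ Subgroup.closure S := hS ▸ Subgroup.mem_top g
    induction hg using Subgroup.closure_induction'' with
    | mem g hg =>
      exact fun x hx => Si.InL.lin (f := (M.α g).toLinearMap)
        (fun j => H _ (.inl (.inl (.inr ⟨g, hg, j, trivial, rfl⟩)))) hx
    | inv_mem g hg =>
      exact fun x hx => Si.InL.lin (f := (M.α g⁻¹).toLinearMap)
        (fun j => H _ (.inl (.inr ⟨g, hg, j, trivial, rfl⟩))) hx
    | one => intro x hx; simpa using hx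
    | mul g g' _ _ i1 i2 =>
      intro x hx
      rw [map_mul]
      exact i1 _ (i2 x hx)
  have hι : ∀ n : commutator G, (M.ι n : M.A) - 1 ∈ M.I := fun n => by
    rw [M.span]
    exact Submodule.subset_span ⟨n, rfl⟩
  have h4 : ∀ n : commutator G, Si.InL b (Si.ZI D0) (M.ι n : M.A) →
      Si.InL b (Si.ZI D0) (M.ι n⁻¹ : M.A) := by
    intro n hn
    have e := mul_neg_geom_sum (1 - (M.ι n : M.A)) (M.k + 1)
    rw [M.nil.pow_eq_zero (by simpa using neg_mem (hι n)), sub_zero, sub_sub_cancel] at e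
    rw [map_inv, Units.inv_eq_of_mul_eq_one_right e]
    have hj : ∀ j, Si.InL b (Si.ZI D0) ((1 - (M.ι n : M.A)) ^ j) := fun j => by
      induction j with
      | zero => rwa [pow_zero]
      | succ j ih =>
        rw [pow_succ]
        exact Si.InL.mul h2 ih (h1.sub hn)
    intro i
    rw [map_sum, Finsupp.finsetSum_apply]
    exact sum_mem fun j _ => hj j i
  let K0 : Subgroup (commutator G) :=
    { carrier := {n | Si.InL b (Si.ZI D0) (M.ι n : M.A)}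
      one_mem' := by simpa using h1
      mul_mem' := fun {x y} hx hy => by
        change Si.InL _ _ _
        rw [map_mul, Units.val_mul]
        exact Si.InL.mul h2 hx hy
      inv_mem' := fun {x} hx => h4 x hx }
  have : (K0.map (commutator G).subtype).Normal := ⟨by
    rintro _ ⟨n, hn, rfl⟩ g
    refine ⟨⟨_, Subgroup.Normal.conj_mem inferInstance n.1 n.2 g⟩, ?_, rfl⟩
    change Si.InL _ _ _
    rw [← M.conj g n _ rfl]
    exact h3 g _ hn⟩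
  have h5 := Si.comm_le hS (K0.map (commutator G).subtype) fun g hg g' hg' =>
    ⟨c g g', H _ (.inr ⟨g, hg, g', hg', rfl⟩), rfl⟩
  refine ⟨D0, h0, fun D hD hd R => ?_⟩
  refine Set.Finite.of_finite_image (f := fun n : commutator G => (M.ι n : M.A) - 1)
    ((Si.fin_alg (b := b) hD R).subset ?_) fun n _ n' _ e => M.inj (Units.ext (sub_left_injective e))
  rintro _ ⟨n, hn, rfl⟩
  obtain ⟨n', hn', e⟩ := h5 n.2
  obtain rfl : n' = n := Subtype.ext e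
  exact ⟨fun i => Si.ZI_mono hd (Si.InL.sub hn' h1 i), hn⟩

end Pool.Agent.Lib.MP_2fb4be_al.Sol
end
end
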