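import Mathlib
import Pool.Agent.Lib.MP_2fb4be_al.Sol.Size
import Pool.Agent.Lib.MP_2fb4be_al.Sol.Malcev

/-! Isolators prime to `D`: closure properties, coboundedness and openness. -/

set_option autoImplicit false

noncomputable section

namespace Pool.Agent.Lib.MP_2fb4be_al.Sol

open Polynomial

namespace La

theorem descend {G : Type} [Group G] (H : Subgroup G) {X : Set G} (hX : Subgroup.closure X = ⊤)
    {m : ℕ} (h : ∀ x ∈ X, x ^ m ∈ H) (i : ℕ) :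
    ∃ s : ℕ, ∀ y : G, ∃ a ∈ H, ∃ z ∈ Mal.γ G i, a * z = y ^ m ^ s := by
  induction i with
  | zero => exact ⟨0, fun y => ⟨1, one_mem _, y, Subgroup.mem_top _, by simp⟩⟩
  | succ i ih =>
    obtain ⟨s, ih⟩ := ih
    refine ⟨s + (i + 1), fun y => ?_⟩
    obtain ⟨a, ha, z, hz, e⟩ := ih y
    obtain ⟨b, ⟨hb, -⟩, e'⟩ := Mal.layer H hX h i z hz
    have hc : Commute (Mal.π G (i + 1) a) (Mal.π G (i + 1) z) :=
      Subgroup.mem_center_iff.1 (Mal.cen hz) _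
    refine ⟨a ^ m ^ (i + 1) * b, mul_mem (pow_mem ha _) hb, (QuotientGroup.mk'_eq_mk' _).1 ?_⟩
    rw [pow_add m s, pow_mul, ← e, map_mul, e', map_pow, map_pow, map_mul, hc.mul_pow]

theorem pow_mem_of_gen {Γ : Type} [Group Γ] (H : Subgroup Γ) (X : Set Γ) (c : ℕ)
    (hc : (Subgroup.closure X).lowerCentralSeries c = ⊥) (m : ℕ)
    (hX : ∀ x ∈ X, x ^ m ∈ H) : ∃ s : ℕ, ∀ y ∈ Subgroup.closure X, y ^ m ^ s ∈ H := by
  obtain ⟨n, h⟩ := descend (H.subgroupOf (Subgroup.closure X))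
    (Subgroup.closure_preimage_eq_top X) (fun x hx => hX x hx) c
  refine ⟨n, fun y hy => ?_⟩
  obtain ⟨a, ha, z, hz, e⟩ := h ⟨y, hy⟩
  rw [← Subgroup.top_subtype_lowerCentralSeries,
    Subgroup.map_eq_bot_iff_of_injective _ (Subgroup.subtype_injective _)] at hc
  rw [Mal.γ, hc, Subgroup.mem_bot] at hz
  rw [hz, mul_one] at e
  rw [e] at ha
  exact ha

end La

section size

variable {A : Type} [Ring A] [Algebra ℚ A] {d : ℕ} {b : Module.Basis (Fin d) ℚ A} {D : ℕ}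

variable {I : Submodule ℚ A} {k : ℕ} {h : NilI I k} {N : Subgroup Aˣ}

theorem Iso.of_mem {u : Aˣ} (hu : u ∈ Ul h 0) (hN : u ∈ N) : Iso h N D u :=
  ⟨hu, 1, one_pos, Nat.coprime_one_left D, by rwa [pow_one]⟩

theorem Iso.mul {u u' : Aˣ} (hu : Iso h N D u) (hu' : Iso h N D u') : Iso h N D (u * u') := by
  obtain ⟨hu, m, hm, cm, um⟩ := hu
  obtain ⟨hv, n, hn, cn, vn⟩ := hu'
  have hX : ({u, u'} : Set Aˣ) ⊆ Ul h 0 := by rintro _ (rfl | rfl) <;> assumption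
  obtain ⟨s, e⟩ := La.pow_mem_of_gen N {u, u'} k
    (le_bot_iff.1 (h.Ul_k ▸ Ex.lcs_le h ((Subgroup.closure_le _).2 hX) k)) (m * n) (by
      rintro _ (rfl | rfl)
      · rw [pow_mul]
        exact pow_mem um n
      · rw [pow_mul']
        exact pow_mem vn m)
  exact ⟨mul_mem hu hv, (m * n) ^ s, by positivity, (cm.mul_left cn).pow_left s,
    e _ (mul_mem (Subgroup.subset_closure (by simp)) (Subgroup.subset_closure (by simp)))⟩

theorem Iso.inv {u : Aˣ} (hu : Iso h N D u) : Iso h N D u⁻¹ := by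
  obtain ⟨hu, m, hm, cm, um⟩ := hu
  exact ⟨inv_mem hu, m, hm, cm, inv_pow u m ▸ inv_mem um⟩

theorem Iso.pw {u : Aˣ} (hu : Iso h N D u) {t : ℚ} (ht : t ∈ ZD D) : Iso h N D (pw t u) := by
  obtain ⟨hu, m, hm, cm, um⟩ := hu
  have h1 : Sol.pw t u ∈ Ul h 0 := (h.ex_mem (Submodule.smul_mem _ t (h.lg_mem hu).1)).1
  refine ⟨h1, m * t.den, Nat.mul_pos hm t.den_pos, cm.mul_left ht, ?_⟩
  have h2 : (((m * t.den : ℕ) : ℤ) : ℚ) * t = ((m * t.num : ℤ) : ℚ) := by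
    push_cast
    rw [mul_assoc, Rat.den_mul_eq_num]
  rw [← zpow_natCast, ← pw_int (Mal.nil_Ul h h1), pw_pw (Mal.nil_Ul h hu), h2,
    pw_int (Mal.nil_Ul h hu), zpow_mul, zpow_natCast]
  exact zpow_mem um _

namespace La

theorem iso_one {u : Aˣ} (hu : Iso h N D u) : Iso h N 1 u := by
  obtain ⟨hu, m, hm, -, um⟩ := hu
  exact ⟨hu, m, hm, Nat.coprime_one_right m, um⟩

theorem pw_one {u : Aˣ} (hu : Iso h N 1 u) (t : ℚ) : Iso h N 1 (pw t u) :=
  hu.pw (Nat.coprime_one_right _)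

/-- The unit `u` lies in layer `a` and has leading term `x`. -/
def Lay (h : NilI I k) (a : ℕ) (u : Aˣ) (x : A) : Prop :=
  u ∈ Ul h a ∧ (u : A) - 1 - x ∈ I ^ (a + 2)

theorem Lay.self {a : ℕ} {u : Aˣ} (hu : u ∈ Ul h a) : Lay h a u (u - 1) := ⟨hu, by simp⟩

theorem Lay.mul {a : ℕ} {u v : Aˣ} {x y : A} (hu : Lay h a u x) (hv : Lay h a v y) :
    Lay h a (u * v) (x + y) := by
  refine ⟨mul_mem hu.1 hv.1, ?_⟩
  have := add_mem (add_mem (Ex.mul_r hu.1 (Ex.mem_one h hv.1)) hu.2) hv.2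
  convert this using 1
  rw [Units.val_mul]
  noncomm_ring

theorem Lay.pw {a : ℕ} {u : Aˣ} (hu : u ∈ Ul h a) (t : ℚ) :
    Lay h a (pw t u) (t • ((u : A) - 1)) := by
  obtain ⟨h1, h2⟩ := h.lg_mem hu
  obtain ⟨h3, h4⟩ := h.ex_mem (Submodule.smul_mem _ t h1)
  refine ⟨h3, ?_⟩
  have := add_mem h4 (Submodule.smul_mem _ t h2)
  convert this using 1
  rw [Sol.pw, smul_sub t (lg u)]
  abel

theorem ind [FiniteDimensional ℚ A] (h : NilI I k) (N : Subgroup Aˣ) (P : Set Aˣ → Prop)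
    (mono : ∀ S S', S ⊆ S' → P S' → P S) (h0 : P {1})
    (step : ∀ S S' : Set Aˣ, ∀ n ∈ N, n ∈ Ul h 0 → ∀ lam : A →ₗ[ℚ] ℚ,
      (∀ w : Aˣ, w ∈ S → ∀ s t : ℚ, s + t + lam ((w : A) - 1) = 0 → pw s n * w * pw t n ∈ S') →
        P S' → P S) : P {w | Iso h N 1 w} := by
  have inner : ∀ a, P {w | Iso h N 1 w ∧ (w : A) - 1 ∈ I ^ (a + 2)} → ∀ (r : ℕ)
      (W : Submodule ℚ A), Module.finrank ℚ W = r → I ^ (a + 2) ≤ W → W ≤ I ^ (a + 1) →
        P {w | Iso h N 1 w ∧ (w : A) - 1 ∈ W} := by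
    intro a ha r
    induction r using Nat.strong_induction_on with
    | _ r ih =>
      intro W hr h1 h2
      by_cases hc : ∃ n ∈ N, (n : A) - 1 ∈ W ∧ (n : A) - 1 ∉ I ^ (a + 2)
      · obtain ⟨n, hn, hW, hn'⟩ := hc
        obtain ⟨f, hf, hf'⟩ := Submodule.exists_dual_map_eq_bot_of_notMem hn' inferInstance
        let lam : A →ₗ[ℚ] ℚ := (f ((n : A) - 1))⁻¹ • f
        have l1 : lam ((n : A) - 1) = 1 := inv_mul_cancel₀ hf
        have l2 : I ^ (a + 2) ≤ LinearMap.ker lam := fun x hx => by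
          have : f x = 0 := (Submodule.mem_bot ℚ).1 (hf' ▸ Submodule.mem_map_of_mem hx)
          simp [lam, this]
        have hna : n ∈ Ul h a := h2 hW
        have hn0 : n ∈ Ul h 0 := h.Ul_anti (Nat.zero_le a) hna
        have hlt : W ⊓ LinearMap.ker lam < W := by
          refine lt_of_le_of_ne inf_le_left fun e => ?_
          have : lam ((n : A) - 1) = 0 := (e.ge hW).2
          rw [l1] at this
          exact one_ne_zero this
        refine step _ _ n hn hn0 lam ?_ (ih _ (hr ▸ Submodule.finrank_lt_finrank_of_lt hlt) _ rfl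
          (le_inf h1 l2) (inf_le_left.trans h2))
        rintro w ⟨hw, hw'⟩ s t hst
        have hi : Iso h N 1 n := Iso.of_mem hn0 hn
        refine ⟨((pw_one hi s).mul hw).mul (pw_one hi t), ?_⟩
        have h3 := (((Lay.pw hna s).mul (Lay.self (h2 hw'))).mul (Lay.pw hna t)).2
        have h4 : s • ((n : A) - 1) + ((w : A) - 1) + t • ((n : A) - 1) ∈
            W ⊓ LinearMap.ker lam := by
          refine ⟨add_mem (add_mem (W.smul_mem s hW) hw') (W.smul_mem t hW), ?_⟩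
          change lam _ = 0
          rw [map_add, map_add, map_smul, map_smul, l1, smul_eq_mul, smul_eq_mul]
          linarith
        have := add_mem (le_inf h1 l2 h3) h4
        rwa [sub_add_cancel] at this
      · refine mono _ _ ?_ ha
        rintro w ⟨hw, hw'⟩
        refine ⟨hw, ?_⟩
        obtain ⟨hw0, m, hm, -, wm⟩ := hw
        have h3 := (Lay.pw ((mem_Ul h).2 (h2 hw')) ((m : ℤ) : ℚ)).2
        rw [pw_int (Mal.nil_Ul h hw0), zpow_natCast] at h3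
        have h4 : ((w ^ m : Aˣ) : A) - 1 ∈ I ^ (a + 2) := by
          by_contra h4
          refine hc ⟨_, wm, ?_, h4⟩
          have := add_mem (h1 h3) (W.smul_mem ((m : ℤ) : ℚ) hw')
          rwa [sub_add_cancel] at this
        have h5 := Submodule.smul_mem _ (((m : ℤ) : ℚ))⁻¹ (sub_mem h4 h3)
        rwa [sub_sub_cancel, smul_smul, inv_mul_cancel₀ (by exact_mod_cast hm.ne'),
          one_smul] at h5
  have key : ∀ a ≤ k, P {w | Iso h N 1 w ∧ (w : A) - 1 ∈ I ^ (a + 1)} := by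
    intro a ha
    induction ha using Nat.decreasingInduction with
    | self =>
      refine mono _ _ ?_ h0
      rintro w ⟨-, hw⟩
      have : w ∈ Ul h k := hw
      rwa [h.Ul_k, Subgroup.mem_bot] at this
    | of_succ a _ ih => exact inner a ih _ _ rfl (h.anti (Nat.le_succ a)) le_rfl
  refine mono _ _ ?_ (key 0 (Nat.zero_le k))
  exact fun w hw => ⟨hw, hw.1⟩

/-- Coordinates with bounded `D`-part of the denominator. -/
def Den (b : Module.Basis (Fin d) ℚ A) (D R : ℕ) (x : A) : Prop :=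
  ∀ i, (D : ℚ) ^ R * b.repr x i ∈ ZD D

theorem Den.mono {R R' : ℕ} {x : A} (hx : Den b D R x) (hR : R ≤ R') : Den b D R' x :=
  fun i => Si.pow_mono (hx i) hR

theorem of_sz {R L : ℕ} {x : A} (hx : Sz b D R L x) : Den b D R x := fun i => (hx i).1

theorem Den.sz {R : ℕ} {x : A} (hx : Den b D R x) : ∃ L, 2 ≤ L ∧ Sz b D R L x := by
  obtain ⟨L, hL⟩ := Si.exists_one b D x
  exact ⟨L + 2, by omega, fun i => ⟨hx i, (hL i).2.trans (Nat.cast_le.2 (by omega))⟩⟩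

theorem Den.smul {R : ℕ} {x : A} (hx : Den b D R x) {t : ℚ} (ht : t ∈ ZD D) :
    Den b D R (t • x) := fun i => by
  rw [map_smul, Finsupp.smul_apply, smul_eq_mul, mul_left_comm]
  exact mul_mem ht (hx i)

theorem Den.sub {R : ℕ} {x y : A} (hx : Den b D R x) (hy : Den b D R y) :
    Den b D R (x - y) := fun i => by
  rw [map_sub, Finsupp.sub_apply, mul_sub]
  exact sub_mem (hx i) (hy i)

theorem den_lin (b : Module.Basis (Fin d) ℚ A) (hD : 0 < D) (f : A →ₗ[ℚ] A) :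
    ∃ c, ∀ R x, Den b D R x → Den b D (R + c) (f x) := by
  obtain ⟨c, hc⟩ := sz_lin b hD (Set.finite_singleton f)
  refine ⟨c, fun R x hx => ?_⟩
  obtain ⟨L, -, hL⟩ := hx.sz
  exact of_sz (hc f rfl R L x hL)

theorem den_mul (b : Module.Basis (Fin d) ℚ A) (hD : 0 < D) :
    ∃ c, ∀ R R' x y, Den b D R x → Den b D R' y → Den b D (R + R' + c) (x * y) := by
  obtain ⟨c, hc⟩ := sz_mul b hD
  refine ⟨c, fun R R' x y hx hy => ?_⟩
  obtain ⟨L, -, hL⟩ := hx.sz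
  obtain ⟨L', -, hL'⟩ := hy.sz
  exact of_sz (hc _ _ _ _ _ _ hL hL')

theorem den_grp (b : Module.Basis (Fin d) ℚ A) (hD : 0 < D) (h : NilI I k) (R : ℕ) :
    ∃ R', R ≤ R' ∧ (∀ a ∈ I, Den b D R a → Den b D R' ((ex a : A) - 1)) ∧
      ∀ u ∈ Ul h 0, ∀ u' : Aˣ, Den b D R ((u : A) - 1) → Den b D R ((u' : A) - 1) →
        Den b D R' (((u * u' : Aˣ) : A) - 1) := by
  obtain ⟨R', e, H⟩ := sz_grp b hD h R
  refine ⟨R + R', Nat.le_add_right _ _, fun a ha hs => ?_, fun u hu u' hs hs' => ?_⟩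
  · obtain ⟨L, hL, hs⟩ := hs.sz
    exact (of_sz ((H L hL).1 a ha hs)).mono (Nat.le_add_left _ _)
  · obtain ⟨L, hL, hs⟩ := hs.sz
    obtain ⟨L', -, hs'⟩ := hs'.sz
    exact (of_sz (((H (L + L') (by omega)).2 u hu (hs.mono le_rfl (by omega))).2.2 u'
      (hs'.mono le_rfl (by omega)))).mono (Nat.le_add_left _ _)

theorem bd_grp (b : Module.Basis (Fin d) ℚ A) (hD : 0 < D) (h : NilI I k) (R : ℕ) :
    ∃ R', R ≤ R' ∧ (∀ a ∈ I, Sz b D R R a → Sz b D R' R' ((ex a : A) - 1)) ∧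
      ∀ u ∈ Ul h 0, ∀ u' : Aˣ, Sz b D R R ((u : A) - 1) → Sz b D R R ((u' : A) - 1) →
        Sz b D R' R' (((u * u' : Aˣ) : A) - 1) := by
  obtain ⟨R', e, H⟩ := sz_grp b hD h R
  obtain ⟨H1, H2⟩ := H (R + 2) (by omega)
  refine ⟨R + R' + (R + 2) ^ e, by omega, fun a ha hs => ?_, fun u hu u' hs hs' => ?_⟩
  · exact (H1 a ha (hs.mono le_rfl (by omega))).mono (by omega) (by omega)
  · exact ((H2 u hu (hs.mono le_rfl (by omega))).2.2 u' (hs'.mono le_rfl (by omega))).mono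
      (by omega) (by omega)

theorem cob (b : Module.Basis (Fin d) ℚ A) (hD : 0 < D) (h : NilI I k) (N : Subgroup Aˣ)
    (hN : N ≤ Ul h 0) : ∀ R, ∃ R', ∀ w ∈ {w | Iso h N 1 w}, w ∈ Ul h 0 →
      Den b D R ((w : A) - 1) → ∃ n ∈ N, Sz b D R' R' (((n⁻¹ * w : Aˣ) : A) - 1) := by
  have : FiniteDimensional ℚ A := Module.Finite.of_basis b
  refine ind h N (fun S => ∀ R, ∃ R', ∀ w ∈ S, w ∈ Ul h 0 → Den b D R ((w : A) - 1) →
    ∃ n ∈ N, Sz b D R' R' (((n⁻¹ * w : Aˣ) : A) - 1)) ?_ ?_ ?_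
  · intro S S' hS H R
    exact (H R).imp fun R' H w hw => H w (hS hw)
  · refine fun R => ⟨0, ?_⟩
    rintro _ rfl - -
    exact ⟨1, one_mem _, by simpa using Sz.zero 0 0⟩
  intro S S' n hn hn0 lam hS H R
  have hv : lg n ∈ I := Ex.mem_one h (h.lg_mem hn0).1
  have hp : ∀ t, pw t n ∈ Ul h 0 := fun t => (Lay.pw hn0 t).1
  obtain ⟨c, hc⟩ := Si.exists_one b D (lg n)
  obtain ⟨c', hc'⟩ := den_lin b hD (lam.smulRight (lg n))
  obtain ⟨R1, l1, e1, -⟩ := den_grp b hD h (R + c' + c)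
  obtain ⟨R2, l2, -, m2⟩ := den_grp b hD h R1
  obtain ⟨R3, -, -, m3⟩ := den_grp b hD h R2
  obtain ⟨R4, H⟩ := H R3
  obtain ⟨R5, -, e5, -⟩ := bd_grp b hD h (R + c' + c)
  obtain ⟨R6, -, -, m6⟩ := bd_grp b hD h (R4 + R5)
  refine ⟨R6, fun w hw hw0 hd => ?_⟩
  set t := lam ((w : A) - 1) with ht
  have d1 : Den b D (R + c' + c) (((-⌊t⌋ : ℤ) : ℚ) • lg n) :=
    ((of_sz hc).smul (intCast_mem _ _)).mono (by omega)
  have d2 : Den b D (R + c' + c) (Int.fract t • lg n) := by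
    rw [Int.fract, sub_smul]
    exact ((hc' R _ hd).mono (by omega)).sub (((of_sz hc).smul (intCast_mem _ _)).mono (by omega))
  have d3 : Den b D (R + c' + c) ((-Int.fract t) • lg n) := by
    have := d2.smul (neg_mem (one_mem _))
    rwa [smul_smul, neg_one_mul] at this
  have d4 : Sz b D (R + c' + c) (R + c' + c) (Int.fract t • lg n) := fun i => by
    refine ⟨d2 i, ?_⟩
    rw [map_smul, Finsupp.smul_apply, smul_eq_mul, abs_mul, abs_of_nonneg (Int.fract_nonneg t)]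
    exact (mul_le_of_le_one_left (abs_nonneg _) (Int.fract_lt_one t).le).trans
      ((hc i).2.trans (Nat.cast_le.2 (by omega)))
  have h1 := hS w hw ((-⌊t⌋ : ℤ) : ℚ) (-Int.fract t) (by
    rw [Int.fract]
    push_cast
    ring)
  have h2 : pw ((-⌊t⌋ : ℤ) : ℚ) n * w ∈ Ul h 0 := mul_mem (hp _) hw0
  obtain ⟨n', hn', H⟩ := H _ h1 (mul_mem h2 (hp _)) (m3 _ h2 _
    (m2 _ (hp _) _ (e1 _ (I.smul_mem _ hv) d1) (hd.mono (by omega)))
    ((e1 _ (I.smul_mem _ hv) d3).mono l2))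
  refine ⟨(n ^ (-⌊t⌋))⁻¹ * n', mul_mem (inv_mem (zpow_mem hn _)) hn', ?_⟩
  have h3 := m6 _ (mul_mem (inv_mem (hN hn')) (mul_mem h2 (hp _))) (pw (Int.fract t) n)
    (H.mono (by omega) (by omega)) ((e5 _ (I.smul_mem _ hv) d4).mono (by omega) (by omega))
  have h4 : pw (-Int.fract t) n * pw (Int.fract t) n = 1 := by
    rw [← pw_add (Mal.nil_Ul h hn0), neg_add_cancel, pw_zero]
  rwa [mul_assoc, mul_assoc, h4, mul_one, pw_int (Mal.nil_Ul h hn0), ← mul_assoc,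
    ← inv_inv (n ^ (-⌊t⌋)), ← mul_inv_rev] at h3

theorem sm_iff {E : ℕ} {x : A} : Sm b D E x ↔ ∃ y, Den b D 0 y ∧ x = (D : ℚ) ^ E • y := by
  refine ⟨fun hx => ?_, ?_⟩
  · choose t ht e using hx
    refine ⟨b.equivFun.symm t, fun i => ?_, b.ext_elem fun i => ?_⟩
    · rw [pow_zero, one_mul, ← b.equivFun_apply, LinearEquiv.apply_symm_apply]
      exact ht i
    · rw [map_smul, Finsupp.smul_apply, smul_eq_mul, ← b.equivFun_apply (b.equivFun.symm t),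
        LinearEquiv.apply_symm_apply, e]
  · rintro ⟨y, hy, rfl⟩ i
    exact ⟨_, by simpa using hy i, by simp⟩

theorem Den.sm {R E : ℕ} {y : A} (hy : Den b D R y) : Sm b D E ((D : ℚ) ^ (E + R) • y) :=
  fun i => ⟨_, hy i, by simp [pow_add, mul_assoc]⟩

theorem sm_mono {E E' : ℕ} {x : A} (hx : Sm b D E x) (hE : E' ≤ E) : Sm b D E' x := fun i => by
  obtain ⟨t, ht, e⟩ := hx i
  obtain ⟨s, rfl⟩ := Nat.exists_eq_add_of_le hE
  exact ⟨_, mul_mem (pow_mem (natCast_mem _ D) s) ht, by rw [e, pow_add, mul_assoc]⟩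

/-- Continuity at zero for the `D`-adic topology. -/
def Ct (b : Module.Basis (Fin d) ℚ A) (D : ℕ) (F : A → A) : Prop :=
  ∀ E', ∃ E, ∀ y, Sm b D E y → Sm b D E' (F y)

theorem Ct.comp {F G : A → A} (hF : Ct b D F) (hG : Ct b D G) : Ct b D fun y => F (G y) :=
  fun E => by
    obtain ⟨E1, h1⟩ := hF E
    obtain ⟨E2, h2⟩ := hG E1
    exact ⟨E2, fun y hy => h1 _ (h2 y hy)⟩

theorem Ct.add {F G : A → A} (hF : Ct b D F) (hG : Ct b D G) : Ct b D fun y => F y + G y :=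
  fun E => by
    obtain ⟨E1, h1⟩ := hF E
    obtain ⟨E2, h2⟩ := hG E
    refine ⟨E1 + E2, fun y hy i => ?_⟩
    obtain ⟨s, hs, e1⟩ := h1 y (sm_mono hy (by omega)) i
    obtain ⟨t, ht, e2⟩ := h2 y (sm_mono hy (by omega)) i
    exact ⟨s + t, add_mem hs ht, by rw [map_add, Finsupp.add_apply, e1, e2, mul_add]⟩

theorem Ct.lin (hD : 0 < D) (f : A →ₗ[ℚ] A) : Ct b D f := fun E => by
  obtain ⟨c, hc⟩ := den_lin b hD f
  refine ⟨E + (0 + c), fun x hx => ?_⟩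
  obtain ⟨y, hy, rfl⟩ := sm_iff.1 hx
  rw [map_smul]
  exact (hc 0 y hy).sm

theorem Ct.mul (hD : 0 < D) {F G : A → A} (hF : Ct b D F) (hG : Ct b D G) :
    Ct b D fun y => F y * G y := fun E => by
  obtain ⟨c, hc⟩ := den_mul b hD
  obtain ⟨E1, h1⟩ := hF (E + (0 + 0 + c))
  obtain ⟨E2, h2⟩ := hG 0
  refine ⟨E1 + E2, fun y hy => ?_⟩
  obtain ⟨x, hx, e1⟩ := sm_iff.1 (h1 y (sm_mono hy (by omega)))
  obtain ⟨z, hz, e2⟩ := sm_iff.1 (h2 y (sm_mono hy (by omega)))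
  simp only [e1, e2, pow_zero, one_smul, smul_mul_assoc]
  exact (hc _ _ _ _ hx hz).sm

theorem Ct.poly (hD : 0 < D) {P : ℚ[X]} (hP : P.coeff 0 = 0) : Ct b D fun y => aeval y P := by
  have key : ∀ Q : ℚ[X], Ct b D fun y => aeval y (Q * X) := fun Q => by
    induction Q using Polynomial.induction_on with
    | C c =>
      simp only [map_mul, aeval_C, aeval_X]
      exact Ct.lin hD (LinearMap.mulLeft ℚ (algebraMap ℚ A c))
    | add p q hp hq =>
      simp only [add_mul, map_add]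
      exact hp.add hq
    | monomial n c ih =>
      simp only [pow_succ, ← mul_assoc, map_mul _ _ X, aeval_X] at ih ⊢
      exact ih.mul hD (Ct.lin hD LinearMap.id)
  obtain ⟨Q, rfl⟩ := X_dvd_iff.2 hP
  rw [mul_comm]
  exact key Q

theorem opn (b : Module.Basis (Fin d) ℚ A) (hD : 0 < D) (h : NilI I k) (N : Subgroup Aˣ) :
    ∃ E, ∀ w ∈ {w | Iso h N 1 w}, Sm b D E ((w : A) - 1) → Iso h N D w := by
  have : FiniteDimensional ℚ A := Module.Finite.of_basis b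
  refine ind h N (fun S => ∃ E, ∀ w ∈ S, Sm b D E ((w : A) - 1) → Iso h N D w) ?_ ?_ ?_
  · intro S S' hS H
    exact H.imp fun E H w hw => H w (hS hw)
  · refine ⟨0, ?_⟩
    rintro _ rfl -
    exact Iso.of_mem (one_mem _) (one_mem _)
  rintro S S' n hn hn0 lam hS ⟨E, H⟩
  have hv : lg n ∈ I := Ex.mem_one h (h.lg_mem hn0).1
  obtain ⟨P, Q, p0, -, hP⟩ := exists_poly k
  have c1 : Ct b D fun y => aeval ((-lam).smulRight (lg n) y) P :=
    (Ct.poly hD p0).comp (Ct.lin hD _)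
  have c0 : Ct b D (LinearMap.id : A →ₗ[ℚ] A) := Ct.lin hD _
  obtain ⟨E1, h1⟩ := ((c1.mul hD c0).add c1).add c0 E
  have h5 : ∃ E2, ∀ y, Sm b D E2 y → -lam y ∈ ZD D := by
    rcases Nat.eq_zero_or_pos d with rfl | hd
    · refine ⟨0, fun y _ => ?_⟩
      have : y = 0 := b.ext_elem fun i => i.elim0
      simp [this, zero_mem]
    · obtain ⟨E2, h2⟩ := Ct.lin (b := b) hD ((-lam).smulRight (b ⟨0, hd⟩)) 0
      refine ⟨E2, fun y hy => ?_⟩
      obtain ⟨t, ht, e⟩ := h2 y hy ⟨0, hd⟩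
      have e' : -lam y = t := by simpa using e
      rwa [e']
  obtain ⟨E2, h2⟩ := h5
  refine ⟨E1 + E2, fun w hw hs => ?_⟩
  have h3 := hS w hw (-lam ((w : A) - 1)) 0 (by ring)
  rw [pw_zero, mul_one] at h3
  have h4 := H _ h3 (by
    have := h1 _ (sm_mono hs (by omega))
    rw [Si.mul_one_sub, pw, (hP A).1 _ (h.pow_eq_zero (I.smul_mem _ hv)), add_sub_cancel_left]
    exact this)
  have := ((Iso.of_mem hn0 hn).pw (h2 _ (sm_mono hs (by omega)))).inv.mul h4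
  rwa [inv_mul_cancel_left] at this

end La

theorem iso_cob (b : Module.Basis (Fin d) ℚ A) (hD : 0 < D) (h : NilI I k) (N : Subgroup Aˣ)
    (hN : N ≤ Ul h 0) : ∃ R0, ∀ u, Iso h N D u → ∃ n ∈ N,
      Sz b D R0 R0 (((n⁻¹ * u : Aˣ) : A) - 1) := by
  obtain ⟨R, -, hR, -⟩ := La.den_grp b hD h 0
  obtain ⟨R0, H⟩ := La.cob b hD h N hN R
  refine ⟨R0, fun u hu => ?_⟩
  obtain ⟨hu0, m, hm, cm, um⟩ := id hu
  have hn := Mal.nil_Ul h hu0
  have hv : lg u ∈ I := Ex.mem_one h (h.lg_mem hu0).1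
  obtain ⟨E, hE⟩ := Si.exists_one b D (lg u)
  obtain ⟨s, r, e⟩ : IsCoprime (m : ℤ) ((D ^ E : ℕ) : ℤ) :=
    Nat.isCoprime_iff_coprime.2 (cm.pow_right E)
  have e1 : pw ((r * (D ^ E : ℕ) : ℤ) : ℚ) u = ((u ^ m) ^ s)⁻¹ * u := by
    rw [pw_int hn, eq_inv_mul_iff_mul_eq, ← zpow_natCast, ← zpow_mul, ← zpow_add, mul_comm (m : ℤ) s, e,
      zpow_one]
  have d1 : La.Den b D 0 (((r * (D ^ E : ℕ) : ℤ) : ℚ) • lg u) := fun i => by
    rw [map_smul, Finsupp.smul_apply, smul_eq_mul, pow_zero, one_mul]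
    push_cast
    rw [mul_assoc]
    exact mul_mem (intCast_mem _ _) (hE i).1
  have h1 := La.pw_one (La.iso_one hu) ((r * (D ^ E : ℕ) : ℤ) : ℚ)
  obtain ⟨n, hn', H⟩ := H _ h1 h1.1 (hR _ (I.smul_mem _ hv) d1)
  refine ⟨(u ^ m) ^ s * n, mul_mem (zpow_mem um s) hn', ?_⟩
  rwa [e1, ← mul_assoc, ← mul_inv_rev] at H

theorem iso_open (b : Module.Basis (Fin d) ℚ A) (hD : 0 < D) (h : NilI I k) (N : Subgroup Aˣ)
    (hN : N ≤ Ul h 0) : ∃ E, ∀ y ∈ I, Iso h N 1 (ex y) → Sm b D E y → Iso h N D (ex y) := by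
  have _ := hN
  obtain ⟨E, H⟩ := La.opn b hD h N
  obtain ⟨P, Q, p0, -, hP⟩ := exists_poly k
  obtain ⟨E1, h1⟩ := La.Ct.poly (b := b) hD p0 E
  refine ⟨E1, fun y hy hi hs => H _ hi ?_⟩
  rw [(hP A).1 _ (h.pow_eq_zero hy), add_sub_cancel_left]
  exact h1 y hs

end size

end Pool.Agent.Lib.MP_2fb4be_al.Sol
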