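import Mathlib
import Pool.Agent.Lib.MP_2fb4be_al.Sol.LKM
import Pool.Agent.Lib.MP_f0c981_al.Bar


-- part Pool.Agent.Lib.MP_2fb4be_al.Sol.Zs
section

/-!
Unipotent actions: the filtration `Zs`.
-/

set_option autoImplicit false

noncomputable section

namespace Pool.Agent.Lib.MP_2fb4be_al.Sol

section basic

variable {H M M' : Type} [AddCommGroup M] [Module ℚ M] [AddCommGroup M'] [Module ℚ M']
  {ρ : H → Module.End ℚ M} {ρ' : H → Module.End ℚ M'} {S S' : Set H} {W W' : Submodule ℚ M}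

@[simp] theorem Zs_zero : Zs ρ S W 0 = W := rfl

theorem mem_Zs_succ {l : ℕ} {x : M} :
    x ∈ Zs ρ S W (l + 1) ↔ ∀ h ∈ S, ρ h x - x ∈ Zs ρ S W l := by
  simp [Zs, Submodule.mem_iInf]

theorem Zs_mono_left (hS : S' ⊆ S) (hW : W ≤ W') (l : ℕ) : Zs ρ S W l ≤ Zs ρ S' W' l := by
  induction l with
  | zero => exact hW
  | succ l ih => exact fun x hx => mem_Zs_succ.2 fun h hh => ih (mem_Zs_succ.1 hx h (hS hh))

/-- Invariance of a subspace. -/
def Inv (ρ : H → Module.End ℚ M) (S : Set H) (W : Submodule ℚ M) : Prop :=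
  ∀ h ∈ S, ∀ x ∈ W, ρ h x ∈ W

theorem Inv.bot : Inv ρ S ⊥ := fun h _ x hx => by
  rw [Submodule.mem_bot] at hx ⊢
  rw [hx, map_zero]

theorem Inv.inf (h1 : Inv ρ S W) (h2 : Inv ρ S W') : Inv ρ S (W ⊓ W') :=
  fun h hh x hx => ⟨h1 h hh x hx.1, h2 h hh x hx.2⟩

theorem Inv.mono (h1 : Inv ρ S W) (hS : S' ⊆ S) : Inv ρ S' W := fun h hh => h1 h (hS hh)

theorem Zs_le_succ (hW : Inv ρ S W) (l : ℕ) : Zs ρ S W l ≤ Zs ρ S W (l + 1) := by
  induction l with
  | zero => exact fun x hx => mem_Zs_succ.2 fun h hh => sub_mem (hW h hh x hx) hx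
  | succ l ih => exact fun x hx => mem_Zs_succ.2 fun h hh => ih (mem_Zs_succ.1 hx h hh)

theorem Zs_mono (hW : Inv ρ S W) : Monotone (Zs ρ S W) :=
  monotone_nat_of_le_succ (Zs_le_succ hW)

theorem le_Zs (hW : Inv ρ S W) (l : ℕ) : W ≤ Zs ρ S W l := Zs_mono hW (Nat.zero_le l)

theorem Zs_inv (hW : Inv ρ S W) (l : ℕ) : Inv ρ S (Zs ρ S W l) := by
  intro h hh x hx
  cases l with
  | zero => exact hW h hh x hx
  | succ l => simpa using add_mem (Zs_le_succ hW l (mem_Zs_succ.1 hx h hh)) hx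

theorem Zs_add (a b : ℕ) : Zs ρ S (Zs ρ S W a) b = Zs ρ S W (a + b) := by
  induction b with
  | zero => rfl
  | succ b ih =>
    ext x
    rw [← add_assoc, mem_Zs_succ, mem_Zs_succ, ih]

theorem Zs_trans {W'' : Submodule ℚ M} {a b : ℕ} (h1 : W ≤ Zs ρ S W' a) (h2 : W' ≤ Zs ρ S W'' b) :
    W ≤ Zs ρ S W'' (b + a) := by
  rw [← Zs_add]
  exact h1.trans (Zs_mono_left le_rfl h2 a)

theorem inf_Zs_le {V : Submodule ℚ M} (hV : Inv ρ S V) (l : ℕ) :
    V ⊓ Zs ρ S W l ≤ Zs ρ S (V ⊓ W) l := by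
  induction l with
  | zero => exact le_rfl
  | succ l ih =>
    exact fun x hx => mem_Zs_succ.2 fun h hh =>
      ih ⟨sub_mem (hV h hh x hx.1) hx.1, mem_Zs_succ.1 hx.2 h hh⟩

theorem Zs_comap (f : M →ₗ[ℚ] M') (hf : ∀ h ∈ S, ∀ x, f (ρ h x) = ρ' h (f x))
    (V : Submodule ℚ M') (l : ℕ) : Zs ρ S (V.comap f) l = (Zs ρ' S V l).comap f := by
  induction l with
  | zero => rfl
  | succ l ih =>
    ext x
    rw [Submodule.mem_comap, mem_Zs_succ, mem_Zs_succ]
    refine forall₂_congr fun h hh => ?_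
    rw [ih, Submodule.mem_comap, map_sub, hf h hh]

theorem mem_Zs_single {g : H} {l : ℕ} {x : M} :
    x ∈ Zs ρ {g} W l ↔ ((ρ g - 1) ^ l) x ∈ W := by
  induction l generalizing x with
  | zero => simp
  | succ l ih => simp [mem_Zs_succ, ih, pow_succ]

theorem Zs_comp {H' : Type} (φ : H' → H) (T : Set H') (l : ℕ) :
    Zs (fun h => ρ (φ h)) T W l = Zs ρ (φ '' T) W l := by
  induction l with
  | zero => rfl
  | succ l ih =>
    ext x
    simp [mem_Zs_succ, ih]

theorem Zs_bilin {M'' : Type} [AddCommGroup M''] [Module ℚ M''] {ρ'' : H → Module.End ℚ M''}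
    (β : M →ₗ[ℚ] M' →ₗ[ℚ] M'') (hβ : ∀ h ∈ S, ∀ x y, ρ'' h (β x y) = β (ρ h x) (ρ' h y))
    {X0 X1 : Submodule ℚ M} {Y0 Y1 : Submodule ℚ M'} {Z1 : Submodule ℚ M''}
    (hX0 : Inv ρ S X0) (hY0 : Inv ρ' S Y0) (hY1 : Inv ρ' S Y1) (hZ1 : Inv ρ'' S Z1)
    (h1 : ∀ x ∈ X1, ∀ y ∈ Y0, β x y ∈ Z1) (h2 : ∀ x ∈ X0, ∀ y ∈ Y1, β x y ∈ Z1) (n : ℕ) :
    ∀ a b, a + b = n → ∀ x ∈ X0, ∀ y ∈ Y0, x ∈ Zs ρ S X1 a → y ∈ Zs ρ' S Y1 b →
      β x y ∈ Zs ρ'' S Z1 n := by
  induction n with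
  | zero =>
    intro a b hab x _ y hy hx' _
    obtain rfl : a = 0 := by omega
    exact h1 x hx' y hy
  | succ n ih =>
    intro a b hab x hx y hy hx' hy'
    cases a with
    | zero => exact le_Zs hZ1 _ (h1 x hx' y hy)
    | succ a =>
      cases b with
      | zero => exact le_Zs hZ1 _ (h2 x hx y hy')
      | succ b =>
        refine mem_Zs_succ.2 fun h hh => ?_
        have e : ρ'' h (β x y) - β x y = β (ρ h x - x) (ρ' h y) + β x (ρ' h y - y) := by
          rw [hβ h hh]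
          simp
        rw [e]
        exact add_mem (ih a (b + 1) (by omega) _ (sub_mem (hX0 h hh x hx) hx) _ (hY0 h hh y hy)
            (mem_Zs_succ.1 hx' h hh) (Zs_inv hY1 _ h hh y hy'))
          (ih (a + 1) b (by omega) _ hx _ (sub_mem (hY0 h hh y hy) hy) hx'
            (mem_Zs_succ.1 hy' h hh))

theorem orbit_sum (hS : S.Finite) (e : ℕ) : ∀ x ∈ Zs ρ S ⊥ e, ∃ X : Set M, X.Finite ∧
    ∀ w : List H, (∀ h ∈ w, h ∈ S) → ∃ l : List M, l.length ≤ (w.length + 1) ^ e ∧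
      (∀ y ∈ l, y ∈ X) ∧ (w.map ρ).prod x = l.sum := by
  induction e with
  | zero =>
    intro x hx
    refine ⟨∅, Set.finite_empty, fun w _ => ⟨[], by simp, by simp, ?_⟩⟩
    rw [show x = 0 from hx]
    simp
  | succ e ih =>
    intro x hx
    choose! X hX hXw using fun h hh => ih _ (mem_Zs_succ.1 hx h hh)
    refine ⟨insert x (⋃ h ∈ S, X h), (hS.biUnion hX).insert x, fun w hw => ?_⟩
    suffices key : ∃ l : List M, l.length ≤ 1 + w.length * (w.length + 1) ^ e ∧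
        (∀ y ∈ l, y ∈ insert x (⋃ h ∈ S, X h)) ∧ (w.map ρ).prod x = l.sum by
      obtain ⟨l, h1, h2⟩ := key
      refine ⟨l, h1.trans ?_, h2⟩
      have : 1 ≤ (w.length + 1) ^ e := Nat.one_le_pow _ _ (by omega)
      rw [pow_succ]
      nlinarith
    induction w using List.reverseRecOn with
    | nil => exact ⟨[x], by simp, by simp, by simp⟩
    | append_singleton w h ihw =>
      have hh : h ∈ S := hw h (by simp)
      have hw' : ∀ g ∈ w, g ∈ S := fun g hg => hw g (by simp [hg])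
      obtain ⟨l1, a1, a2, a3⟩ := ihw hw'
      obtain ⟨l2, b1, b2, b3⟩ := hXw h hh w hw'
      refine ⟨l1 ++ l2, ?_, fun y hy => ?_, ?_⟩
      · have : (w.length + 1) ^ e ≤ (w.length + 1 + 1) ^ e := Nat.pow_le_pow_left (by omega) e
        simp only [List.length_append, List.length_singleton]
        nlinarith
      · rcases List.mem_append.1 hy with hy | hy
        · exact a2 y hy
        · exact Or.inr (Set.mem_biUnion hh (b2 y hy))
      · rw [List.sum_append, ← a3, ← b3, ← map_add]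
        simp

theorem fitting [FiniteDimensional ℚ M] (f : Module.End ℚ M) (hW : ∀ x ∈ W, f x ∈ W) :
    ∃ N, ∀ m, ∀ y ∈ W, ∃ y0 ∈ W, ∃ y1 ∈ W, (f ^ N) y0 = 0 ∧ y = y0 + (f ^ m) y1 := by
  obtain ⟨N, hN⟩ := Filter.eventually_atTop.1
    ((f.restrict hW).eventually_isCompl_ker_pow_range_pow.and
      (f.restrict hW).eventually_iSup_ker_pow_eq)
  refine ⟨N, fun m y hy => ?_⟩
  have h1 := (hN (N + m) (by omega)).1.sup_eq_top
  obtain ⟨a, ha, b, ⟨c, rfl⟩, e⟩ := Submodule.mem_sup.1 (h1 ▸ Submodule.mem_top (x := (⟨y, hy⟩ : W)))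
  rw [← (hN (N + m) (by omega)).2, (hN N le_rfl).2, LinearMap.mem_ker,
    Module.End.pow_restrict N hW] at ha
  refine ⟨a, a.2, (f ^ N) c, Module.End.pow_apply_mem_of_forall_mem N hW _ c.2,
    congrArg Subtype.val ha, ?_⟩
  have := congrArg Subtype.val e
  rw [Module.End.pow_restrict (N + m) hW] at this
  rw [← Module.End.mul_apply, ← pow_add, add_comm m N]
  exact this.symm

theorem lift_gen [FiniteDimensional ℚ M] (f : Module.End ℚ M) (hW : ∀ x ∈ W, f x ∈ W) :
    ∃ N, ∀ l x, (f ^ l) x ∈ W → ∃ y ∈ W, (f ^ (N + l)) (x - y) = 0 := by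
  obtain ⟨N, hN⟩ := fitting f hW
  refine ⟨N, fun l x hx => ?_⟩
  obtain ⟨y0, -, y1, h1, h2, h3⟩ := hN l _ hx
  refine ⟨y1, h1, ?_⟩
  rw [pow_add, Module.End.mul_apply, map_sub, h3, add_sub_cancel_right, h2]

end basic

section alg

variable {A H : Type} [Ring A] [Algebra ℚ A] {I : Submodule ℚ A} {k : ℕ}

theorem mul_mem_succ {i : ℕ} {x y : A} (hx : x ∈ I ^ (i + 1)) (hy : y ∈ I ^ (0 + 1)) :
    x * y ∈ I ^ (i + 2) := mul_mem_pow (i := i + 1) (j := 1) hx hy

theorem inv_pow {ρ : H → Module.End ℚ A} {S : Set H}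
    (hm : ∀ h ∈ S, ∀ x y, ρ h (x * y) = ρ h x * ρ h y) (hI : Inv ρ S I) (i : ℕ) :
    Inv ρ S (I ^ (i + 1)) := by
  induction i with
  | zero => simpa using hI
  | succ i ih =>
    intro h hh x hx
    rw [pow_succ] at hx ⊢
    refine Submodule.mul_induction_on hx (fun a ha b hb => ?_) fun a b ha hb => ?_
    · rw [hm h hh]
      exact Submodule.mul_mem_mul (ih h hh a ha) (hI h hh b hb)
    · rw [map_add]
      exact add_mem ha hb

theorem unip_pow {ρ : H → Module.End ℚ A} {S : Set H}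
    (hm : ∀ h ∈ S, ∀ x y, ρ h (x * y) = ρ h x * ρ h y) (hI : Inv ρ S I) {e : ℕ}
    (h : I ≤ Zs ρ S (I ^ 2) e) (i : ℕ) : I ^ (i + 1) ≤ Zs ρ S (I ^ (i + 2)) ((i + 1) * e) := by
  induction i with
  | zero => simpa using h
  | succ i ih =>
    rw [pow_succ I (i + 1), Submodule.mul_le]
    intro x hx y hy
    exact Zs_bilin (LinearMap.mul ℚ A) hm (inv_pow hm hI i) hI (inv_pow hm hI 1)
      (inv_pow hm hI (i + 2)) (X1 := I ^ (i + 2))
      (fun a ha b hb => by
        have := mul_mem_pow ha (show b ∈ I ^ 1 by simpa using hb)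
        exact this)
      (fun a ha b hb => mul_mem_pow (j := 2) ha hb) _ _ _ (by ring) x hx y hy (ih hx) (h hy)

theorem NilI.conj_sub (h : NilI I k) {u : Aˣ} (hu : u ∈ Ul h 0) {i : ℕ} {x : A}
    (hx : x ∈ I ^ (i + 1)) : u * x * (u⁻¹ : Aˣ) - x ∈ I ^ (i + 2) := by
  have h1 : (u : A) - 1 ∈ I ^ 1 := hu
  have h2 : ((u⁻¹ : Aˣ) : A) - 1 ∈ I ^ 1 := (Ul h 0).inv_mem hu
  have e : u * x * (u⁻¹ : Aˣ) - x = (u - 1) * x * ((u⁻¹ : Aˣ) - 1) + (u - 1) * x +
      x * ((u⁻¹ : Aˣ) - 1) := by noncomm_ring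
  have a1 : ((u : A) - 1) * x ∈ I ^ (i + 2) := by
    have := mul_mem_pow h1 hx
    rwa [show 1 + (i + 1) = i + 2 by ring] at this
  rw [e]
  exact add_mem (add_mem (h.mul_mem a1 h2) a1) (mul_mem_succ hx h2)

/-- Units congruent to `1` modulo a subspace between two consecutive powers. -/
def UF (h : NilI I k) {i : ℕ} (F : Submodule ℚ A) (h1 : I ^ (i + 2) ≤ F) (h2 : F ≤ I ^ (i + 1)) :
    Subgroup Aˣ where
  carrier := {u | (u : A) - 1 ∈ F}
  one_mem' := by simp
  mul_mem' := fun {u v} hu hv => by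
    have e : ((u * v : Aˣ) : A) - 1 = (u - 1) * (v - 1) + (u - 1) + (v - 1) := by
      rw [Units.val_mul]; noncomm_ring
    change _ ∈ F
    rw [e]
    exact add_mem (add_mem (h1 (mul_mem_succ (h2 hu) (h.anti (Nat.zero_le i) (h2 hv)))) hu) hv
  inv_mem' := fun {u} hu => by
    have hu0 : u ∈ Ul h 0 := h.anti (Nat.zero_le i) (h2 hu)
    have e : ((u⁻¹ : Aˣ) : A) - 1 = -((u - 1) * ((u⁻¹ : Aˣ) - 1)) - (u - 1) := by
      rw [mul_sub, sub_mul, Units.mul_inv]; noncomm_ring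
    change _ ∈ F
    rw [e]
    exact sub_mem (neg_mem (h1 (mul_mem_succ (h2 hu) ((Ul h 0).inv_mem hu0)))) hu

end alg

namespace NilModel

open scoped commutatorElement

variable {G : Type} [Group G] {N : Subgroup G} (M : NilModel G N)

theorem ι_mem (n : N) : M.ι n ∈ Ul M.nil 0 := by
  rw [mem_Ul, zero_add, pow_one, M.span]
  exact Submodule.subset_span ⟨n, rfl⟩

theorem inv_I [hN : N.Normal] (S : Set G) : Inv (fun g => (M.α g).toLinearMap) S M.I := by
  intro g _ x hx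
  rw [M.span] at hx ⊢
  induction hx using Submodule.span_induction with
  | mem y hy =>
    obtain ⟨n, rfl⟩ := hy
    refine Submodule.subset_span ⟨⟨g * n * g⁻¹, hN.conj_mem _ n.2 g⟩, ?_⟩
    simp only [AlgEquiv.toLinearMap_apply, map_sub, map_one]
    rw [M.conj g n ⟨g * n * g⁻¹, hN.conj_mem _ n.2 g⟩ rfl]
  | zero => simp
  | add x y _ _ a b => rw [map_add]; exact add_mem a b
  | smul a x _ b => rw [map_smul]; exact Submodule.smul_mem _ a b

theorem comm_step [hN : N.Normal] {i : ℕ} {F F' : Submodule ℚ M.A} (h1 : M.I ^ (i + 2) ≤ F)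
    (h2 : F ≤ M.I ^ (i + 1)) (h1' : M.I ^ (i + 2) ≤ F') (h2' : F' ≤ M.I ^ (i + 1))
    (S T : Subgroup G) (hT : T ≤ ((UF M.nil F h1 h2).comap M.ι).map N.subtype)
    (hS : ∀ g ∈ S, ∀ x ∈ F, M.α g x - x ∈ F') :
    ⁅T, S⁆ ≤ ((UF M.nil F' h1' h2').comap M.ι).map N.subtype := by
  rw [Subgroup.commutator_comm, Subgroup.commutator_le]
  intro g hg t ht
  obtain ⟨n, hn, rfl⟩ := hT ht
  let n' : N := ⟨g * n * g⁻¹, hN.conj_mem _ n.2 g⟩
  refine ⟨n' * n⁻¹, ?_, rfl⟩
  change ((M.ι (n' * n⁻¹) : M.Aˣ) : M.A) - 1 ∈ F'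
  have a1 := hS g hg _ hn
  rw [map_sub, map_one, M.conj g n n' rfl] at a1
  have e : ((M.ι (n' * n⁻¹) : M.Aˣ) : M.A) - 1 = (M.ι n' - 1 - (M.ι n - 1)) +
      (M.ι n' - 1 - (M.ι n - 1)) * (((M.ι n)⁻¹ : M.Aˣ) - 1) := by
    rw [map_mul, map_inv, Units.val_mul, sub_sub_sub_cancel_right, mul_sub, sub_mul,
      Units.mul_inv]
    noncomm_ring
  rw [e]
  exact add_mem a1 (h1' (mul_mem_succ (h2' a1) ((Ul M.nil 0).inv_mem (M.ι_mem n))))

theorem α_sub (n : N) {i : ℕ} {x : M.A} (hx : x ∈ M.I ^ (i + 1)) :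
    M.α n x - x ∈ M.I ^ (i + 2) := by
  rw [M.inner]
  exact M.nil.conj_sub (M.ι_mem n) hx

theorem bot_of_k (T : Subgroup G) (h1 : M.I ^ (M.k + 2) ≤ M.I ^ (M.k + 1))
    (hT : T ≤ ((UF M.nil (M.I ^ (M.k + 1)) h1 le_rfl).comap M.ι).map N.subtype) : T = ⊥ := by
  rw [eq_bot_iff]
  intro t ht
  obtain ⟨n, hn, rfl⟩ := hT ht
  have h2 : (M.ι n : M.A) - 1 ∈ M.I ^ (M.k + 1) := hn
  rw [M.nil.pow_k, Submodule.mem_bot, sub_eq_zero] at h2
  have : n = 1 := M.inj (by rw [map_one]; exact Units.ext h2)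
  simp [this]

theorem nilpotent_of_unip [hN : N.Normal] (B : Subgroup G) (hB : ⁅B, B⁆ ≤ N) (e : ℕ)
    (h : M.I ≤ Zs (fun g => (M.α g).toLinearMap) B (M.I ^ 2) e) :
    Group.IsNilpotent ↥(B ⊔ N) := by
  set ρ : G → Module.End ℚ M.A := fun g => (M.α g).toLinearMap with hρ
  have hm : ∀ (S : Set G), ∀ g ∈ S, ∀ x y, ρ g (x * y) = ρ g x * ρ g y :=
    fun S g _ x y => map_mul (M.α g) x y
  have hI : ∀ (S : Set G) i, Inv ρ S (M.I ^ (i + 1)) := fun S => inv_pow (hm S) (M.inv_I S)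
  have hdec : ∀ g ∈ B ⊔ N, ∃ b ∈ B, ∃ n : N, g = b * n := by
    intro g hg
    have : g ∈ ((B ⊔ N : Subgroup G) : Set G) := hg
    rw [Subgroup.mul_normal] at this
    obtain ⟨b, hb, n, hn, rfl⟩ := this
    exact ⟨b, hb, ⟨n, hn⟩, rfl⟩
  have h' : M.I ≤ Zs ρ (B ⊔ N : Subgroup G) (M.I ^ 2) e := by
    suffices key : ∀ l, M.I ⊓ Zs ρ B (M.I ^ 2) l ≤ Zs ρ (B ⊔ N : Subgroup G) (M.I ^ 2) l from
      (le_inf le_rfl h).trans (key e)
    intro l
    induction l with
    | zero => exact inf_le_right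
    | succ l ih =>
      intro x hx
      refine mem_Zs_succ.2 fun g hg => ?_
      obtain ⟨b, hb, n, rfl⟩ := hdec g hg
      have e1 : ρ (b * n) x - x = ρ b (M.α n x - x) + (ρ b x - x) := by simp [hρ]
      rw [e1]
      exact add_mem (le_Zs (hI _ 1) l (hI B 1 b hb _ (M.α_sub n (i := 0) (by simpa using hx.1))))
        (ih ⟨sub_mem (M.inv_I B b hb x hx.1) hx.1, mem_Zs_succ.1 hx.2 b hb⟩)
  have hp := unip_pow (hm _) (M.inv_I _) h'
  have an : ∀ i, M.I ^ (i + 2) ≤ M.I ^ (i + 1) := fun i => M.nil.anti (Nat.le_succ i)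
  have key : ∀ i, ∃ c, (B ⊔ N).lowerCentralSeries c ≤
      ((UF M.nil (M.I ^ (i + 1)) (an i) le_rfl).comap M.ι).map N.subtype := by
    intro i
    induction i with
    | zero =>
      refine ⟨1, Subgroup.commutator_le.2 fun x hx y hy => ?_⟩
      obtain ⟨b, hb, n, rfl⟩ := hdec x hx
      obtain ⟨b', hb', n', rfl⟩ := hdec y hy
      have h1 : ⁅b * n, b' * n'⁆ ∈ N := by
        have h2 := (QuotientGroup.eq_one_iff (N := N) _).2
          (hB (Subgroup.commutator_mem_commutator hb hb'))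
        rw [← QuotientGroup.eq_one_iff (N := N), ← QuotientGroup.mk'_apply,
          map_commutatorElement] at *
        simpa [(QuotientGroup.eq_one_iff (N := N) _).2 n.2,
          (QuotientGroup.eq_one_iff (N := N) _).2 n'.2] using h2
      exact ⟨⟨_, h1⟩, M.ι_mem _, rfl⟩
    | succ i ih =>
      obtain ⟨c, hc⟩ := ih
      have hF : ∀ l, M.I ^ (i + 2) ≤ M.I ^ (i + 1) ⊓ Zs ρ (B ⊔ N : Subgroup G) (M.I ^ (i + 2)) l :=
        fun l => le_inf (an i) (le_Zs (hI _ (i + 1)) l)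
      have k2 : ∀ d l, l + d = (i + 1) * e → (B ⊔ N).lowerCentralSeries (c + d) ≤
          ((UF M.nil _ (hF l) inf_le_left).comap M.ι).map N.subtype := by
        intro d
        induction d with
        | zero =>
          intro l hl
          refine hc.trans (Subgroup.map_mono fun n hn => ⟨hn, ?_⟩)
          rw [show l = (i + 1) * e by omega]
          exact hp i hn
        | succ d ihd =>
          intro l hl
          exact M.comm_step _ _ _ _ _ _ (ihd (l + 1) (by omega)) fun g hg x hx =>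
            ⟨sub_mem (hI _ i g hg x hx.1) hx.1, mem_Zs_succ.1 hx.2 g hg⟩
      exact ⟨_, (k2 _ 0 (zero_add _)).trans (Subgroup.map_mono fun n hn => hn.2)⟩
  obtain ⟨c, hc⟩ := key M.k
  exact Subgroup.isNilpotent_of_lowerCentralSeries_eq_bot (M.bot_of_k _ _ hc)

theorem lcs : N.lowerCentralSeries M.k = ⊥ := by
  have an : ∀ i, M.I ^ (i + 2) ≤ M.I ^ (i + 1) := fun i => M.nil.anti (Nat.le_succ i)
  have key : ∀ i, N.lowerCentralSeries i ≤
      ((UF M.nil (M.I ^ (i + 1)) (an i) le_rfl).comap M.ι).map N.subtype := by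
    intro i
    induction i with
    | zero => exact fun n hn => ⟨⟨n, hn⟩, M.ι_mem _, rfl⟩
    | succ i ih =>
      rw [Subgroup.lowerCentralSeries_succ, Subgroup.commutator_comm, Subgroup.commutator_le]
      intro g hg t ht
      obtain ⟨n, hn, rfl⟩ := ih ht
      let m : N := ⟨g, hg⟩
      refine ⟨m * n * m⁻¹ * n⁻¹, ?_, rfl⟩
      change ((M.ι (m * n * m⁻¹ * n⁻¹) : M.Aˣ) : M.A) - 1 ∈ M.I ^ (i + 2)
      have a1 := M.nil.conj_sub (M.ι_mem m) (show (M.ι n : M.A) - 1 ∈ _ from hn)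
      have e : ((M.ι (m * n * m⁻¹ * n⁻¹) : M.Aˣ) : M.A) - 1 =
          (M.ι m * (M.ι n - 1) * ((M.ι m)⁻¹ : M.Aˣ) - (M.ι n - 1)) +
          (M.ι m * (M.ι n - 1) * ((M.ι m)⁻¹ : M.Aˣ) - (M.ι n - 1)) * (((M.ι n)⁻¹ : M.Aˣ) - 1) := by
        simp only [map_mul, map_inv, Units.val_mul, mul_sub, sub_mul, mul_one, Units.mul_inv,
          one_mul]
        noncomm_ring
      rw [e]
      exact add_mem a1 (M.nil.mul_mem a1 ((Ul M.nil 0).inv_mem (M.ι_mem n)))
  exact M.bot_of_k _ _ (key M.k)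

end NilModel

end Pool.Agent.Lib.MP_2fb4be_al.Sol
end
end

-- part Pool.Agent.Lib.MP_2fb4be_al.Sol.CommL
section

/-!
Commuting operators: the characters of a representation that is commutative on a subquotient.
-/

set_option autoImplicit false

noncomputable section

namespace Pool.Agent.Lib.MP_2fb4be_al.Sol

namespace Cm

theorem stab {H M : Type} [AddCommGroup M] [Module ℚ M] [FiniteDimensional ℚ M]
    {ρ : H → Module.End ℚ M} {S : Set H} {W : Submodule ℚ M} (hW : Inv ρ S W) (n : ℕ) :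
    Zs ρ S W n ≤ Zs ρ S W (Module.finrank ℚ M) := by
  have h1 : ∀ l, Zs ρ S W l = Zs ρ S W (l + 1) → ∀ m, Zs ρ S W (l + m) = Zs ρ S W l := by
    intro l hl m
    induction m with
    | zero => rfl
    | succ m ih =>
      rw [hl]
      ext x
      rw [← add_assoc, mem_Zs_succ, mem_Zs_succ, ih]
  have h2 : ∀ l, (∃ l' ≤ l, Zs ρ S W l' = Zs ρ S W (l' + 1)) ∨
      l + 1 ≤ Module.finrank ℚ (Zs ρ S W (l + 1)) := by
    intro l
    induction l with
    | zero =>
      by_cases h : Zs ρ S W 0 = Zs ρ S W (0 + 1)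
      · exact Or.inl ⟨0, le_rfl, h⟩
      · have := Submodule.finrank_lt_finrank_of_lt (lt_of_le_of_ne (Zs_le_succ hW 0) h)
        exact Or.inr (by omega)
    | succ l ih =>
      rcases ih with ⟨l', h, h'⟩ | ih
      · exact Or.inl ⟨l', by omega, h'⟩
      · by_cases h : Zs ρ S W (l + 1) = Zs ρ S W (l + 1 + 1)
        · exact Or.inl ⟨l + 1, le_rfl, h⟩
        · have := Submodule.finrank_lt_finrank_of_lt (lt_of_le_of_ne (Zs_le_succ hW (l + 1)) h)
          exact Or.inr (by omega)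
  rcases h2 (Module.finrank ℚ M) with ⟨l, hl, h⟩ | h
  · calc Zs ρ S W n ≤ Zs ρ S W (l + n) := Zs_mono hW (by omega)
      _ = Zs ρ S W l := h1 l h n
      _ ≤ _ := Zs_mono hW hl
  · have := Submodule.finrank_le (Zs ρ S W (Module.finrank ℚ M + 1))
    omega

theorem functional {R W : Type} [CommRing R] [AddCommGroup W] [Module R W] [Module.Finite R W]
    (hf : ∀ r : R, (∀ x : W, r • x = 0) → r = 0) (p : Ideal R) [hp : p.IsMaximal] :
    ∃ τ : W →ₗ[R] R ⧸ p, Function.Surjective τ := by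
  have hne : p • (⊤ : Submodule R W) ≠ ⊤ := by
    intro h
    obtain ⟨r, hr, hr'⟩ := Submodule.exists_sub_one_mem_and_smul_eq_zero_of_fg_of_le_smul p
      (⊤ : Submodule R W) Module.Finite.fg_top h.ge
    have : r = 0 := hf r fun x => hr' x trivial
    rw [this, zero_sub, neg_mem_iff] at hr
    exact hp.ne_top ((Ideal.eq_top_iff_one p).2 hr)
  obtain ⟨M, hM, hle⟩ := (eq_top_or_exists_le_coatom (p • (⊤ : Submodule R W))).resolve_left hne
  have hs : IsSimpleModule R (W ⧸ M) := isSimpleModule_iff_isCoatom.2 hM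
  obtain ⟨q, hq, ⟨e⟩⟩ := isSimpleModule_iff_quot_maximal.1 hs
  have hpq : p = q := by
    refine hp.eq_of_le hq.ne_top fun r hr => ?_
    obtain ⟨x, hx⟩ := (e.surjective.comp (Submodule.mkQ_surjective M)) (Ideal.Quotient.mk q 1)
    have h1 : M.mkQ (r • x) = 0 := by
      rw [Submodule.mkQ_apply, Submodule.Quotient.mk_eq_zero]
      exact hle (Submodule.smul_mem_smul hr trivial)
    have h2 : r • (Ideal.Quotient.mk q 1) = 0 := by
      rw [← hx, Function.comp_apply, ← map_smul, ← map_smul, h1, map_zero]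
    rw [← Ideal.Quotient.eq_zero_iff_mem]
    rw [← h2]
    change _ = Ideal.Quotient.mk q (r * 1)
    rw [mul_one]
  subst hpq
  exact ⟨e.toLinearMap ∘ₗ M.mkQ, e.surjective.comp (Submodule.mkQ_surjective M)⟩

theorem ratLin {W : Type} [AddCommGroup W] [Module ℚ W] (K : Type) [Field K] [NumberField K]
    (f : W →+ K) : ∃ τ : W →ₗ[ℚ] K, ∀ x, τ x = f x := ⟨f.toRatLinearMap, fun _ => rfl⟩

theorem core0 {Γ R W : Type} [Group Γ] [CommRing R] [Algebra ℚ R] [FiniteDimensional ℚ R]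
    [AddCommGroup W] [Module ℚ W] [FiniteDimensional ℚ W] [Module R W] [IsScalarTower ℚ R W]
    (hf : ∀ r : R, (∀ x : W, r • x = 0) → r = 0) (s : Γ →* R) (σ : Γ →* Module.End ℚ W)
    (hσ : ∀ γ x, σ γ x = s γ • x) :
    ∃ (𝒦 : Set (Subgroup Γ)) (e : ℕ), 𝒦.Finite ∧
      (∀ (B : Subgroup Γ) (g : Γ), (∀ κ ∈ 𝒦, g ∈ κ → B ≤ κ) → ∀ l, ∀ x : W,
        ((σ g - 1) ^ l : Module.End ℚ W) x = 0 → x ∈ Zs σ B ⊥ e) ∧
      ∀ κ ∈ 𝒦, ∃ (K : Type) (_ : Field K) (_ : NumberField K) (χ : Γ →* Kˣ) (τ : W →ₗ[ℚ] K),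
        κ = χ.ker ∧ Function.Surjective τ ∧ ∀ γ x, τ (σ γ x) = χ γ * τ x := by
  have : IsArtinianRing R := IsArtinianRing.of_finite ℚ R
  have : IsNoetherianRing R := isNoetherian_of_tower ℚ (inferInstance : IsNoetherian ℚ R)
  have : Module.Finite R W := Module.Finite.of_restrictScalars_finite ℚ R W
  let χ : ∀ p : Ideal R, Γ →* (R ⧸ p)ˣ := fun p =>
    ((Ideal.Quotient.mk p : R →* R ⧸ p).comp s).toHomUnits
  have hχ : ∀ p γ, ((χ p γ : (R ⧸ p)ˣ) : R ⧸ p) = Ideal.Quotient.mk p (s γ) := fun _ _ => rfl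
  have hker : ∀ p γ, γ ∈ (χ p).ker ↔ s γ - 1 ∈ p := by
    intro p γ
    rw [MonoidHom.mem_ker, ← Units.val_eq_one, hχ, ← Ideal.Quotient.eq, map_one]
  refine ⟨(fun p => (χ p).ker) '' {p | p.IsMaximal}, Module.finrank ℚ W,
    (IsArtinianRing.setOfPred_isMaximal_finite R).image _, ?_, ?_⟩
  · intro B g hB l x hx
    have hpow : ∀ l (x : W), ((σ g - 1) ^ l : Module.End ℚ W) x = (s g - 1) ^ l • x := by
      intro l
      induction l with
      | zero => simp
      | succ l ih =>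
        intro x
        rw [pow_succ, Module.End.mul_apply, ih, pow_succ, mul_smul, LinearMap.sub_apply, hσ,
          sub_smul, one_smul, Module.End.one_apply]
    let J : Ideal R := LinearMap.ker (LinearMap.toSpanSingleton R W x)
    have hJ : ∀ r, r ∈ J ↔ r • x = 0 := fun r => Iff.rfl
    have hb : ∀ b ∈ B, s b - 1 ∈ J.radical := by
      intro b hb
      rw [Ideal.radical_eq_sInf, Submodule.mem_sInf]
      rintro p ⟨h1, h2⟩
      have h3 : s g - 1 ∈ p := h2.mem_of_pow_mem l (h1 ((hJ _).2 (by rw [← hpow, hx])))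
      have h4 : Ideal.IsMaximal p := IsArtinianRing.isMaximal_of_isPrime p
      exact (hker p b).1 (hB _ ⟨p, h4, rfl⟩ ((hker p g).2 h3) hb)
    obtain ⟨n, hn⟩ := Ideal.exists_radical_pow_le_of_fg J (IsNoetherian.noetherian _)
    have key : ∀ n, ∀ y : W, (∀ a ∈ J.radical ^ n, a • y = 0) → y ∈ Zs σ B ⊥ n := by
      intro n
      induction n with
      | zero =>
        intro y hy
        simpa using hy 1 (by simp)
      | succ n ih =>
        intro y hy
        rw [mem_Zs_succ]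
        intro b hb'
        refine ih _ fun a ha => ?_
        have := hy (a * (s b - 1)) (by rw [pow_succ]; exact Ideal.mul_mem_mul ha (hb b hb'))
        rwa [mul_smul, sub_smul, one_smul, ← hσ] at this
    exact stab Inv.bot n (key n x fun a ha => (hJ a).1 (hn ha))
  · rintro _ ⟨p, hp, rfl⟩
    have : p.IsMaximal := hp
    let : Field (R ⧸ p) := Ideal.Quotient.field p
    have : NumberField (R ⧸ p) := NumberField.of_module_finite ℚ (R ⧸ p)
    obtain ⟨τ, hτ⟩ := functional hf p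
    obtain ⟨τ', hτ'⟩ := ratLin (R ⧸ p) τ.toAddMonoidHom
    refine ⟨R ⧸ p, inferInstance, inferInstance, χ p, τ', rfl, fun y => ?_, fun γ x => ?_⟩
    · obtain ⟨x, hx⟩ := hτ y
      exact ⟨x, (hτ' x).trans hx⟩
    rw [hτ', hτ']
    change τ (σ γ x) = Ideal.Quotient.mk p (s γ) * τ x
    rw [hσ, map_smul]
    rfl

theorem core {Γ W : Type} [Group Γ] [AddCommGroup W] [Module ℚ W] [FiniteDimensional ℚ W]
    (σ : Γ →* Module.End ℚ W) (hc : ∀ γ δ, σ γ * σ δ = σ δ * σ γ) :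
    ∃ (𝒦 : Set (Subgroup Γ)) (e : ℕ), 𝒦.Finite ∧
      (∀ (B : Subgroup Γ) (g : Γ), (∀ κ ∈ 𝒦, g ∈ κ → B ≤ κ) → ∀ l, ∀ x : W,
        ((σ g - 1) ^ l : Module.End ℚ W) x = 0 → x ∈ Zs σ B ⊥ e) ∧
      ∀ κ ∈ 𝒦, ∃ (K : Type) (_ : Field K) (_ : NumberField K) (χ : Γ →* Kˣ) (τ : W →ₗ[ℚ] K),
        κ = χ.ker ∧ Function.Surjective τ ∧ ∀ γ x, τ (σ γ x) = χ γ * τ x := by
  let R := Algebra.adjoin ℚ (Set.range σ)
  have : IsMulCommutative R := Algebra.isMulCommutative_adjoin ℚ (by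
    rintro _ ⟨γ, rfl⟩ _ ⟨δ, rfl⟩
    exact hc γ δ)
  let : CommRing R := { (inferInstance : Ring R) with mul_comm := fun a b => mul_comm' a b }
  let s : Γ →* R := σ.codRestrict R fun γ => Algebra.subset_adjoin ⟨γ, rfl⟩
  exact core0 (R := R) (fun r hr => Subtype.ext (LinearMap.ext hr)) s σ fun _ _ => rfl

end Cm

theorem comm_lemma {Γ V : Type} [Group Γ] [AddCommGroup V] [Module ℚ V] [FiniteDimensional ℚ V]
    (π : Γ →* Module.End ℚ V) (F F' : Submodule ℚ V) (hle : F' ≤ F)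
    (hF : Inv π Set.univ F) (hF' : Inv π Set.univ F')
    (hc : ∀ γ δ, ∀ x ∈ F, π γ (π δ x) - π δ (π γ x) ∈ F') :
    ∃ (𝒦 : Set (Subgroup Γ)) (e : ℕ), 𝒦.Finite ∧
      (∀ (B : Subgroup Γ) (g : Γ), (∀ κ ∈ 𝒦, g ∈ κ → B ≤ κ) → ∀ l, ∀ x ∈ F,
        ((π g - 1) ^ l : Module.End ℚ V) x ∈ F' → x ∈ Zs π B F' e) ∧
      ∀ κ ∈ 𝒦, ∃ (K : Type) (_ : Field K) (_ : NumberField K) (χ : Γ →* Kˣ) (τ : V →ₗ[ℚ] K),
        κ = χ.ker ∧ (∀ x ∈ F', τ x = 0) ∧ (∀ y, ∃ x ∈ F, τ x = y) ∧
          ∀ γ, ∀ x ∈ F, τ (π γ x) = χ γ * τ x := by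
  let π1 : Γ →* Module.End ℚ F :=
    Representation.subrepresentation π F fun g x hx => hF g trivial x hx
  have h1 : ∀ γ (x : F), F.subtype (π1 γ x) = π γ (F.subtype x) := fun _ _ => rfl
  let Q : Submodule ℚ F := F'.comap F.subtype
  let σ : Γ →* Module.End ℚ (F ⧸ Q) :=
    Representation.quotient π1 Q fun g x hx => hF' g trivial x hx
  have h2 : ∀ γ (x : F), Q.mkQ (π1 γ x) = σ γ (Q.mkQ x) := fun _ _ => rfl
  obtain ⟨𝒦, e, hfin, hZ, hK⟩ := Cm.core σ (by
    intro γ δ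
    refine LinearMap.ext fun x => ?_
    obtain ⟨x, rfl⟩ := Q.mkQ_surjective x
    rw [Module.End.mul_apply, Module.End.mul_apply, ← h2, ← h2, ← h2, ← h2, Submodule.mkQ_apply,
      Submodule.mkQ_apply, Submodule.Quotient.eq]
    exact hc γ δ x x.2)
  refine ⟨𝒦, e, hfin, fun B g hB l x hx hl => ?_, fun κ hκ => ?_⟩
  · have a1 : (⟨x, hx⟩ : F) ∈ Zs π1 {g} Q l := by
      rw [Zs_comap F.subtype (fun h _ => h1 h)]
      exact mem_Zs_single.2 hl
    have hQ : Q = (⊥ : Submodule ℚ (F ⧸ Q)).comap Q.mkQ := by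
      rw [Submodule.comap_bot, Submodule.ker_mkQ]
    rw [hQ, Zs_comap Q.mkQ (fun h _ => h2 h)] at a1
    have a2 := hZ B g hB l _ (mem_Zs_single.1 a1)
    have a3 : (⟨x, hx⟩ : F) ∈ Zs π1 B Q e := by
      rw [hQ, Zs_comap Q.mkQ (fun h _ => h2 h)]
      exact a2
    rw [Zs_comap F.subtype (fun h _ => h1 h)] at a3
    exact a3
  · obtain ⟨K, iK, iK', χ, τ, e1, e2, e3⟩ := hK κ hκ
    obtain ⟨τ', hτ'⟩ := LinearMap.exists_extend (τ ∘ₗ Q.mkQ)
    have ht : ∀ x : F, τ' x = τ (Q.mkQ x) := fun x => LinearMap.congr_fun hτ' x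
    refine ⟨K, iK, iK', χ, τ', e1, fun x hx => ?_, fun y => ?_, fun γ x hx => ?_⟩
    · have : Q.mkQ ⟨x, hle hx⟩ = 0 := (Submodule.Quotient.mk_eq_zero Q).2 hx
      rw [ht ⟨x, hle hx⟩, this, map_zero]
    · obtain ⟨x, rfl⟩ := e2 y
      obtain ⟨x, rfl⟩ := Q.mkQ_surjective x
      exact ⟨x, x.2, ht x⟩
    · rw [ht ⟨x, hx⟩, ← e3, ← h2]
      exact ht (π1 γ ⟨x, hx⟩)

end Pool.Agent.Lib.MP_2fb4be_al.Sol
end
end

-- part Pool.Agent.Lib.MP_2fb4be_al.Sol.KBase
section

/-!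
Equivariant maps out of the bar complex, prisms, and the finiteness given by a combing.
-/

set_option autoImplicit false

noncomputable section

namespace Pool.Agent.Lib.MP_2fb4be_al.Sol.K

open Finsupp hiding cons
open Filter Pool.Agent.Lib.MP_f0c981_al

variable {k : Type} [CommRing k] {G : Type} [Group G]

/-- A differential module with a group action. -/
structure DM (k G : Type) [CommRing k] [Group G] (D : Type) [AddCommGroup D] [Module k D] where
  ρ : Representation k G D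
  d : D →ₗ[k] D
  ρ_d : ∀ γ x, d (ρ γ x) = ρ γ (d x)
  dd : ∀ x, d (d x) = 0

/-- The bar complex as a differential module. -/
def barD (k G : Type) [CommRing k] [Group G] : DM k G (B k G) where
  ρ := act k G G
  d := bd
  ρ_d := fun _ x => bd_lmap _ x
  dd := bd_bd

@[simp] lemma barD_d : (barD k G).d = bd := rfl

@[simp] lemma barD_ρ : (barD k G).ρ = act k G G := rfl

lemma bd_act (γ : G) (x : B k G) : bd (act k G G γ x) = act k G G γ (bd x) := bd_lmap _ x

variable {D : Type} [AddCommGroup D] [Module k D]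

/-- Equivariance of a map out of the bar complex. -/
def Eqv (ρ : Representation k G D) (f : B k G →ₗ[k] D) : Prop :=
  ∀ γ x, f (act k G G γ x) = ρ γ (f x)

lemma lift (ρ : Representation k G D) (R : List G → D → Prop)
    (hR : ∀ (γ : G) l y, R l y → R (l.map (γ • ·)) (ρ γ y)) (hex : ∀ l, ∃ y, R l y) :
    ∃ θ : B k G →ₗ[k] D, Eqv ρ θ ∧ ∀ l, l ≠ [] → R l (θ (single l 1)) := by
  choose y hy using hex
  let F : List G → D := fun l => match l with
    | [] => 0
    | g :: l => ρ g (y ((g :: l).map (g⁻¹ • ·)))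
  refine ⟨linearCombination k F, fun γ x => ?_, fun l hl => ?_⟩
  · induction x using Finsupp.induction_linear with
    | zero => simp
    | add x y h1 h2 => simp only [map_add, h1, h2]
    | single l r =>
      rw [act_single, linearCombination_single, linearCombination_single, map_smul]
      congr 1
      cases l with
      | nil => simp [F]
      | cons g l =>
        simp only [F, List.map_cons, smul_eq_mul, map_mul, Module.End.mul_apply, List.map_map]
        congr 4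
        · group
        · congr 1
          funext a
          simp [mul_assoc]
  · obtain ⟨g, l, rfl⟩ := List.exists_cons_of_ne_nil hl
    rw [linearCombination_single, one_smul]
    have := hR g _ _ (hy ((g :: l).map (g⁻¹ • ·)))
    rw [List.map_map] at this
    have e : ((fun x : G => g • x) ∘ fun x : G => g⁻¹ • x) = id := by
      funext a
      simp
    rwa [e, List.map_id] at this

lemma ne_nil_of_length {S : Type} {l : List S} {n : ℕ} (h : l.length = n + 1) : l ≠ [] := by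
  rintro rfl
  simp at h

/-- Inductive construction of chain maps and homotopies. -/
lemma extend (E : DM k G D) (W : ℕ → Submodule k D) (hρ : ∀ n γ, ∀ y ∈ W n, E.ρ γ y ∈ W n)
    (hW : ∀ n, ∀ y ∈ W n, E.d y = 0 → ∃ x ∈ W (n + 1), E.d x = y) (u : k) (n0 : ℕ)
    (c θ0 : B k G →ₗ[k] D) (c1 : Eqv E.ρ c)
    (c2 : ∀ n, n0 ≤ n → ∀ x ∈ gr k G (n + 1), c x ∈ W n)
    (c3 : ∀ n, n0 ≤ n → ∀ x ∈ gr k G (n + 2), E.d (c x) + u • c (bd x) = 0)
    (d1 : Eqv E.ρ θ0) (d2 : ∀ x ∈ gr k G n0, θ0 x ∈ W n0)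
    (d3 : ∀ x ∈ gr k G (n0 + 1), E.d (c x + u • θ0 (bd x)) = 0) :
    ∃ θ : B k G →ₗ[k] D, Eqv E.ρ θ ∧ (∀ x ∈ gr k G n0, θ x = θ0 x) ∧
      (∀ n, n0 ≤ n → ∀ x ∈ gr k G n, θ x ∈ W n) ∧
      ∀ n, n0 ≤ n → ∀ x ∈ gr k G (n + 1), E.d (θ x) = c x + u • θ (bd x) := by
  let Q : ℕ → (B k G →ₗ[k] D) → Prop := fun j F =>
    Eqv E.ρ F ∧ (∀ x ∈ gr k G (n0 + j), F x ∈ W (n0 + j)) ∧
      ∀ x ∈ gr k G (n0 + j + 1), E.d (c x + u • F (bd x)) = 0
  have step : ∀ j F, Q j F → ∃ F', Q (j + 1) F' ∧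
      ∀ x ∈ gr k G (n0 + j + 1), E.d (F' x) = c x + u • F (bd x) := by
    rintro j F ⟨e1, e2, e3⟩
    obtain ⟨θ, h1, h2⟩ := lift E.ρ (fun l y => l.length = n0 + j + 1 →
        y ∈ W (n0 + j + 1) ∧ E.d y = c (single l 1) + u • F (bd (single l 1)))
      (fun γ l y h hl => by
        rw [List.length_map] at hl
        refine ⟨hρ _ _ _ (h hl).1, ?_⟩
        rw [E.ρ_d, (h hl).2, ← act_single, c1, bd_act, e1, map_add, map_smul])
      fun l => by
        by_cases hl : l.length = n0 + j + 1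
        · have hx := single_mem_gr (k := k) hl 1
          obtain ⟨y, h1, h2⟩ := hW (n0 + j) _
            (add_mem (c2 _ (Nat.le_add_right _ _) _ hx)
              (Submodule.smul_mem _ u (e2 _ (bd_gr hx)))) (e3 _ hx)
          exact ⟨y, fun _ => ⟨h1, h2⟩⟩
        · exact ⟨0, fun h => absurd h hl⟩
    have h3 : ∀ x ∈ gr k G (n0 + j + 1), E.d (θ x) = c x + u • F (bd x) := fun x hx =>
      gr_ext (E.d ∘ₗ θ) (c + u • F ∘ₗ bd)
        (fun l hl => (h2 l (ne_nil_of_length hl) hl).2) hx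
    refine ⟨θ, ⟨h1, fun x hx => gr_map θ _ (fun l hl => (h2 l (ne_nil_of_length hl) hl).1) hx,
      fun x hx => ?_⟩, h3⟩
    rw [map_add, map_smul, h3 _ (bd_gr hx), bd_bd, map_zero, smul_zero, add_zero]
    exact c3 _ (Nat.le_add_right _ _) x hx
  choose st h1 h2 using step
  let T : ∀ j, {F // Q j F} := fun j =>
    Nat.rec ⟨θ0, d1, d2, d3⟩ (fun j F => ⟨st j F.1 F.2, h1 j F.1 F.2⟩) j
  obtain ⟨θ, hθ⟩ := glue (k := k) (S := G) fun n => (T (n - n0)).1
  refine ⟨θ, fun γ => ext_gr (θ ∘ₗ act k G G γ) (E.ρ γ ∘ₗ θ) fun n x hx => ?_, fun x hx => ?_,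
    fun n hn x hx => ?_, fun n hn x hx => ?_⟩
  · simp only [LinearMap.comp_apply]
    rw [hθ n _ (act_gr γ hx), hθ n x hx, (T (n - n0)).2.1]
  · rw [hθ n0 x hx, Nat.sub_self]
    rfl
  · obtain ⟨j, rfl⟩ := Nat.exists_eq_add_of_le hn
    rw [hθ _ x hx, Nat.add_sub_cancel_left]
    exact (T j).2.2.1 x hx
  · obtain ⟨j, rfl⟩ := Nat.exists_eq_add_of_le hn
    rw [hθ _ x hx, hθ _ _ (bd_gr hx), Nat.add_sub_cancel_left, add_assoc,
      Nat.add_sub_cancel_left]
    exact h2 j (T j).1 (T j).2 x hx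

section prism

variable {S S' : Type}

/-- The prism over a list. -/
def prL (φ ψ : S → S') : List S → B k S'
  | [] => 0
  | x :: l => cons (φ x) (single (ψ x :: l.map ψ) 1 - prL φ ψ l)

/-- The prism operator. -/
def pr (φ ψ : S → S') : B k S →ₗ[k] B k S' := linearCombination k (prL φ ψ)

lemma pr_single (φ ψ : S → S') (l : List S) (r : k) : pr φ ψ (single l r) = r • prL φ ψ l := by
  simp [pr]

@[simp] lemma pr_nil (φ ψ : S → S') (r : k) : pr φ ψ (single [] r) = 0 := by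
  simp [pr_single, prL]

lemma pr_cons (φ ψ : S → S') (a : S) (x : B k S) :
    pr φ ψ (cons a x) = cons (φ a) (cons (ψ a) (lmap ψ x) - pr φ ψ x) := by
  induction x using Finsupp.induction_linear with
  | zero => simp
  | add x y h1 h2 => simp only [map_add, h1, h2, map_sub]; abel
  | single l r =>
    rw [cons_single, pr_single, pr_single, prL, ← map_smul, smul_sub]
    simp

lemma bd_pr (φ ψ : S → S') (x : B k S) :
    bd (pr φ ψ x) + pr φ ψ (bd x) = lmap ψ x - lmap φ x := by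
  induction x using Finsupp.induction_linear with
  | zero => simp
  | add x y h1 h2 =>
    simp only [map_add]
    rw [add_add_add_comm, h1, h2]
    abel
  | single l r =>
    induction l with
    | nil => simp
    | cons a l ih =>
      rw [← cons_single]
      generalize (single l r : B k S) = x at ih
      simp only [pr_cons, bd_cons, map_sub, lmap_cons, eq_sub_of_add_eq ih, bd_lmap]
      abel

lemma pr_nat {U U' : Type} (φ ψ : S → S') (φ' ψ' : U → U') (α : S → U) (β : S' → U')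
    (h1 : ∀ x, φ' (α x) = β (φ x)) (h2 : ∀ x, ψ' (α x) = β (ψ x)) (x : B k S) :
    pr φ' ψ' (lmap α x) = lmap β (pr φ ψ x) := by
  induction x using Finsupp.induction_linear with
  | zero => simp
  | add x y h1 h2 => simp only [map_add, h1, h2]
  | single l r =>
    induction l with
    | nil => simp
    | cons a l ih =>
      rw [← cons_single, lmap_cons, pr_cons, pr_cons, ih, lmap_cons, h1, h2]
      simp [Function.comp_def, h2]

lemma pr_gr (φ ψ : S → S') {n : ℕ} {x : B k S} (hx : x ∈ gr k S n) :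
    pr φ ψ x ∈ gr k S' (n + 1) := by
  induction n generalizing x with
  | zero => exact gr_map _ _ (fun l hl => by rw [List.length_eq_zero_iff.1 hl]; simp) hx
  | succ n ih =>
    refine gr_map _ _ (fun l hl => ?_) hx
    obtain ⟨a, l, rfl⟩ := List.exists_cons_of_length_eq_add_one hl
    have h := single_mem_gr (k := k) (l := l) (n := n) (by simpa using hl) 1
    rw [← cons_single, pr_cons]
    exact cons_gr _ (sub_mem (cons_gr _ (lmap_gr _ h)) (ih h))

lemma sup_map {M : Type} [AddCommGroup M] [Module k M] {s : Set (List S)} (f : B k S →ₗ[k] M)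
    (W : Submodule k M) (h : ∀ l ∈ s, f (single l 1) ∈ W) {x : B k S}
    (hx : x ∈ supported k k s) : f x ∈ W := by
  rw [supported_eq_span_single] at hx
  have : Submodule.span k ((fun i => single i (1 : k)) '' s) ≤ W.comap f :=
    Submodule.span_le.2 (by rintro _ ⟨l, hl, rfl⟩; exact h l hl)
  exact this hx

lemma prL_sup (φ ψ : S → S') (A : Set S') (l : List S) (h1 : ∀ x ∈ l, φ x ∈ A)
    (h2 : ∀ x ∈ l, ψ x ∈ A) :
    prL φ ψ l ∈ supported k k {l' | l'.length = l.length + 1 ∧ ∀ y ∈ l', y ∈ A} := by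
  induction l with
  | nil => exact zero_mem _
  | cons a l ih =>
    refine sup_map (s := {l' | l'.length = l.length + 1 ∧ ∀ y ∈ l', y ∈ A}) (cons (φ a)) _
      (fun l' hl' => ?_) (sub_mem ?_ (ih (fun x hx => h1 x (List.mem_cons_of_mem _ hx))
        fun x hx => h2 x (List.mem_cons_of_mem _ hx)))
    · rw [cons_single]
      refine single_mem_supported k _ ⟨by simp [hl'.1], fun y hy => ?_⟩
      rcases List.mem_cons.1 hy with rfl | hy
      · exact h1 a List.mem_cons_self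
      · exact hl'.2 y hy
    · refine single_mem_supported k _ ⟨by simp, fun y hy => ?_⟩
      rw [← List.map_cons] at hy
      obtain ⟨x, hx, rfl⟩ := List.mem_map.1 hy
      exact h2 x hx

end prism

/-- Chains on lists of length `n` and mesh at most `R`. -/
def Wm (k : Type) [CommRing k] (L : Len G) (n R : ℕ) : Submodule k (B k G) :=
  supported k k {l | l.length = n ∧ ∀ x ∈ l, ∀ y ∈ l, L.len (x⁻¹ * y) ≤ R}

lemma Wm_gr (L : Len G) {n R : ℕ} {x : B k G} (hx : x ∈ Wm k L n R) : x ∈ gr k G n :=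
  sup_map LinearMap.id _ (fun _ hl => single_mem_gr hl.1 1) hx

lemma Wm_act (L : Len G) {n R : ℕ} (γ : G) {x : B k G} (hx : x ∈ Wm k L n R) :
    act k G G γ x ∈ Wm k L n R := by
  refine sup_map (act k G G γ) _ (fun l hl => ?_) hx
  rw [act_single]
  refine single_mem_supported k _ ⟨by simp [hl.1], fun x hx y hy => ?_⟩
  obtain ⟨a, ha, rfl⟩ := List.mem_map.1 hx
  obtain ⟨b, hb, rfl⟩ := List.mem_map.1 hy
  simpa [mul_assoc] using hl.2 a ha b hb

lemma fill (L : Len G) (p : ℕ → G → G) (C : ℕ) (h0 : ∀ g, p 0 g = 1)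
    (h1 : ∀ t g, L.len ((p t g)⁻¹ * p (t + 1) g) ≤ C)
    (h2 : ∀ R, ∃ R', ∀ t g h, L.len (g⁻¹ * h) ≤ R → L.len ((p t g)⁻¹ * p t h) ≤ R')
    (h3 : ∀ g t, C * (L.len g + 1) ≤ t → p t g = g) (R : ℕ) :
    ∃ R', ∀ n, ∀ y ∈ Wm k L n R, bd y = 0 → ∃ x ∈ Wm k L (n + 1) R', bd x = y := by
  obtain ⟨R1, hR⟩ := h2 R
  refine ⟨R1 + C, fun n y hy hc => ?_⟩
  have hT : ∀ᶠ T in atTop, lmap (p T) y = y := by
    clear hy hc
    induction y using Finsupp.induction_linear with
    | zero => simp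
    | add x y a b => filter_upwards [a, b] with T a b using by rw [map_add, a, b]
    | single l r =>
      have : ∀ᶠ T in atTop, l.map (p T) = l := by
        induction l with
        | nil => simp
        | cons g l ih =>
          filter_upwards [ih, eventually_ge_atTop (C * (L.len g + 1))] with T a b
          rw [List.map_cons, a, h3 g T b]
      filter_upwards [this] with T a using by rw [lmap_single, a]
  obtain ⟨T, hT⟩ := hT.exists
  have hsum : ∀ T, bd (∑ t ∈ Finset.range T, pr (p t) (p (t + 1)) y) =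
      lmap (p T) y - lmap (p 0) y := by
    intro T
    induction T with
    | zero => simp
    | succ T ih =>
      have := bd_pr (p T) (p (T + 1)) y
      rw [hc, map_zero, add_zero] at this
      rw [Finset.sum_range_succ, map_add, ih, this]
      abel
  refine ⟨∑ t ∈ Finset.range T, pr (p t) (p (t + 1)) y + cons 1 (lmap (p 0) y),
    add_mem (sum_mem fun t _ => ?_) ?_, ?_⟩
  · refine sup_map (pr (p t) (p (t + 1))) _ (fun l hl => ?_) hy
    rw [pr_single, one_smul]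
    refine supported_mono ?_ (prL_sup (p t) (p (t + 1))
      {z | ∃ x ∈ l, z = p t x ∨ z = p (t + 1) x} l (fun x hx => ⟨x, hx, Or.inl rfl⟩)
      fun x hx => ⟨x, hx, Or.inr rfl⟩)
    rintro l' ⟨e1, e2⟩
    refine ⟨by rw [e1, hl.1], fun x hx y hy => ?_⟩
    have key : ∀ a ∈ l, ∀ b ∈ l, L.len ((p t a)⁻¹ * p (t + 1) b) ≤ R1 + C := by
      intro a ha b hb
      have e : (p t a)⁻¹ * p (t + 1) b = ((p t a)⁻¹ * p t b) * ((p t b)⁻¹ * p (t + 1) b) := by
        group
      rw [e]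
      exact (L.mul _ _).trans (add_le_add (hR t a b (hl.2 a ha b hb)) (h1 t b))
    obtain ⟨a, ha, rfl | rfl⟩ := e2 x hx <;> obtain ⟨b, hb, rfl | rfl⟩ := e2 y hy
    · exact (hR t a b (hl.2 a ha b hb)).trans (Nat.le_add_right _ _)
    · exact key a ha b hb
    · rw [← L.inv, mul_inv_rev, inv_inv]
      exact key b hb a ha
    · exact (hR _ a b (hl.2 a ha b hb)).trans (Nat.le_add_right _ _)
  · refine sup_map (cons 1 ∘ₗ lmap (p 0)) _ (fun l hl => ?_) hy
    rw [LinearMap.comp_apply, lmap_single, cons_single]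
    refine single_mem_supported k _ ⟨by simp [hl.1], fun x hx y hy => ?_⟩
    have key : ∀ z ∈ (1 : G) :: l.map (p 0), z = 1 := by
      intro z hz
      rcases List.mem_cons.1 hz with rfl | hz
      · rfl
      · obtain ⟨x, _, rfl⟩ := List.mem_map.1 hz
        exact h0 x
    rw [key x hx, key y hy, inv_one, mul_one, L.one]
    exact Nat.zero_le _
  · rw [map_add, hsum, hT, bd_cons, bd_lmap, hc]
    simp

/-- The bar complex is homotopy equivalent to a complex of finite type. -/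
def FinType (k G : Type) [CommRing k] [Group G] : Prop :=
  ∃ r σ : B k G →ₗ[k] B k G, Eqv (act k G G) r ∧ Eqv (act k G G) σ ∧
    (∀ n, ∀ x ∈ gr k G n, r x ∈ gr k G n) ∧ (∀ n, ∀ x ∈ gr k G n, σ x ∈ gr k G (n + 1)) ∧
    (∀ n, ∀ x ∈ gr k G (n + 1), bd (r x) = r (bd x)) ∧
    (∀ n, ∀ x ∈ gr k G (n + 1), x - r x = bd (σ x) + σ (bd x)) ∧
    ∀ n, ∃ X : Set (B k G), X.Finite ∧ (∀ x ∈ X, x ∈ gr k G (n + 1)) ∧
      ∀ W : Submodule k (B k G), (∀ γ, ∀ x ∈ X, act k G G γ x ∈ W) →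
        ∀ x ∈ gr k G (n + 1), r x ∈ W

lemma finite_lists {S : Type} {A : Set S} (hA : A.Finite) (n : ℕ) :
    {l : List S | l.length = n ∧ ∀ x ∈ l, x ∈ A}.Finite := by
  have := hA.to_subtype
  refine ((List.finite_length_eq A n).image (List.map Subtype.val)).subset ?_
  rintro l ⟨h1, h2⟩
  exact ⟨l.attachWith _ h2, by simpa using h1, List.attachWith_map_subtype_val h2⟩

lemma finType (hG : Combable G) : FinType k G := by
  obtain ⟨L, p, C, h0, h1, h2, h3⟩ := hG
  choose F hF using fill (k := k) L p C h0 h1 h2 h3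
  let R : ℕ → ℕ := fun n => F^[n] 0
  obtain ⟨r, r1, r2, r3, r4⟩ := extend (barD k G) (fun n => Wm k L n (R n))
    (fun n γ y hy => Wm_act L γ hy)
    (fun n y hy hc => by
      simpa only [R, Function.iterate_succ_apply', barD_d] using hF (R n) n y hy hc)
    1 0 0 LinearMap.id (fun _ _ => by simp) (fun _ _ _ _ => zero_mem _) (fun _ _ _ _ => by simp)
    (fun _ _ => rfl)
    (fun x hx => gr_map LinearMap.id _ (fun l hl => by
      rw [List.length_eq_zero_iff.1 hl]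
      exact single_mem_supported k _ ⟨rfl, by simp⟩) hx)
    (fun x _ => by simpa using bd_bd x)
  have r5 : ∀ n, ∀ x ∈ gr k G n, r x ∈ gr k G n := fun n x hx =>
    Wm_gr L (r3 n (Nat.zero_le _) x hx)
  have r6 : ∀ n, ∀ x ∈ gr k G (n + 1), bd (r x) = r (bd x) := fun n x hx => by
    simpa using r4 n (Nat.zero_le _) x hx
  obtain ⟨σ, s1, s2, s3, s4⟩ := extend (barD k G) (fun n => gr k G (n + 1))
    (fun n γ y hy => act_gr γ hy) (fun n y hy hc => bar_exact (k := k) (G := G) 1 _ y hy hc)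
    (-1) 0 (LinearMap.id - r) 0
    (fun γ x => by
      simp only [LinearMap.sub_apply, LinearMap.id_apply, map_sub, r1 γ x]
      rfl)
    (fun n _ x hx => sub_mem hx (r5 _ x hx))
    (fun n _ x hx => by
      change bd (x - r x) + (-1 : k) • (bd x - r (bd x)) = 0
      rw [map_sub, r6 _ x hx]
      simp)
    (fun _ _ => by simp) (fun _ _ => zero_mem _)
    (fun x hx => by
      change bd (x - r x + (-1 : k) • 0) = 0
      rw [smul_zero, add_zero, map_sub, r6 _ x hx, r2 _ (bd_gr hx)]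
      simp)
  refine ⟨r, σ, r1, s1, r5, fun n => s3 n (Nat.zero_le _), r6, fun n x hx => ?_, fun n => ?_⟩
  · have : bd (σ x) = x - r x + (-1 : k) • σ (bd x) := s4 n (Nat.zero_le _) x hx
    rw [this]
    simp
  · refine ⟨_, (finite_lists (L.fin (R (n + 1))) (n + 1)).image fun l => single l (1 : k), ?_,
      fun W hW x hx => sup_map LinearMap.id W (fun l hl => ?_) (r3 _ (Nat.zero_le _) x hx)⟩
    · rintro _ ⟨l, hl, rfl⟩
      exact single_mem_gr hl.1 1
    · obtain ⟨g, l', e⟩ := List.exists_cons_of_length_eq_add_one hl.1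
      have := hW g _ ⟨l.map (g⁻¹ • ·), ⟨by simp [hl.1], fun x hx => by
        obtain ⟨y, hy, rfl⟩ := List.mem_map.1 hx
        exact hl.2 g (by simp [e]) y hy⟩, rfl⟩
      simpa [Function.comp_def] using this

end Pool.Agent.Lib.MP_2fb4be_al.Sol.K
end
end

-- part Pool.Agent.Lib.MP_2fb4be_al.Sol.StructA
section

/-!
A maximal nilpotent normal subgroup contains the derived subgroup of a subgroup of finite index.
-/

set_option autoImplicit false

noncomputable section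

namespace Pool.Agent.Lib.MP_2fb4be_al.Sol

namespace St

variable {G : Type} [Group G]

/-- An abelian torsion subgroup is finite if the finite subgroups have bounded order. -/
theorem finite_of_bdd {m : ℕ} (hm : 0 < m) (h2 : ∀ F : Subgroup G, Finite F → Nat.card F ∣ m)
    (T : Subgroup G) (hc : ∀ x ∈ T, ∀ y ∈ T, x * y = y * x) (ht : ∀ x ∈ T, IsOfFinOrder x) :
    Finite T := by
  by_contra hi
  obtain ⟨s, hs, hn⟩ := Set.Infinite.exists_subset_card_eq (s := (T : Set G)) hi (m + 1)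
  have h1 : Subgroup.closure (s : Set G) ≤ T := (Subgroup.closure_le T).mpr hs
  let _ : CommGroup (Subgroup.closure (s : Set G)) :=
    { mul_comm := fun x y => Subtype.ext (hc x (h1 x.2) y (h1 y.2)) }
  have h3 : Finite (Subgroup.closure (s : Set G)) := CommGroup.finite_of_fg_isMulTorsion _
    fun x => (Subgroup.subtype_injective _).isOfFinOrder_iff.mp (ht x (h1 x.2))
  have h4 := Nat.le_of_dvd hm (h2 _ h3)
  have h5 := Nat.card_le_card_of_injective
    (Set.inclusion (Subgroup.subset_closure (k := (s : Set G)))) (Set.inclusion_injective _)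
  rw [Nat.card_coe_set_eq, Set.ncard_coe_finset, hn] at h5
  exact absurd (h5.trans h4) (by omega)

theorem center_tf (h1 : ∀ T : Subgroup G, T.Normal → Finite T → T = ⊥) {m : ℕ} (hm : 0 < m)
    (h2 : ∀ F : Subgroup G, Finite F → Nat.card F ∣ m) (N : Subgroup G) (hN : N.Normal) :
    ∀ z ∈ Subgroup.center N, IsOfFinOrder z → z = 1 := by
  let T : Subgroup G :=
    { carrier := {x | x ∈ N ∧ (∀ y ∈ N, Commute x y) ∧ IsOfFinOrder x}
      mul_mem' := fun {x x'} hx hx' => ⟨N.mul_mem hx.1 hx'.1,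
        fun y hy => (hx.2.1 y hy).mul_left (hx'.2.1 y hy),
        (hx.2.1 x' hx'.1).isOfFinOrder_mul hx.2.2 hx'.2.2⟩
      one_mem' := ⟨N.one_mem, fun y _ => Commute.one_left y, IsOfFinOrder.one⟩
      inv_mem' := fun {x} hx => ⟨N.inv_mem hx.1, fun y hy => (hx.2.1 y hy).inv_left, hx.2.2.inv⟩ }
  have hT : T.Normal := ⟨fun x hx g => ⟨hN.conj_mem x hx.1 g, fun y hy => by
    have := (hx.2.1 _ (hN.conj_mem' y hy g)).map (MulAut.conj g)
    simpa [mul_assoc] using this, (MulAut.conj g).toMonoidHom.isOfFinOrder hx.2.2⟩⟩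
  have e := h1 T hT (finite_of_bdd hm h2 T (fun x hx y hy => hx.2.1 y hy.1) fun x hx => hx.2.2)
  intro z hz ho
  refine Subtype.ext (Subgroup.mem_bot.mp (e ▸ (⟨z.2, fun y hy => ?_, ?_⟩ : (z : G) ∈ T)))
  · exact congrArg Subtype.val (Subgroup.mem_center_iff.mp hz ⟨y, hy⟩).symm
  · exact N.subtype.isOfFinOrder ho

theorem lcs_chain {c : Set (Subgroup G)} (hc : IsChain (· ≤ ·) c) (hne : c.Nonempty) (j : ℕ) :
    ∀ x ∈ (sSup c).lowerCentralSeries j, ∃ N ∈ c, x ∈ N.lowerCentralSeries j := by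
  have := hne.to_subtype
  induction j with
  | zero => exact fun x hx => (Subgroup.mem_sSup_of_directedOn hne hc.directedOn).mp hx
  | succ j ih =>
    have hd : Directed (· ≤ ·) fun N : c => (N : Subgroup G).lowerCentralSeries (j + 1) :=
      fun N N' => by
        obtain ⟨M, hM, h4, h5⟩ := hc.directedOn N N.2 N' N'.2
        exact ⟨⟨M, hM⟩, Subgroup.lowerCentralSeries_mono _ h4, Subgroup.lowerCentralSeries_mono _ h5⟩
    have h1 : (sSup c).lowerCentralSeries (j + 1) ≤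
        ⨆ N : c, (N : Subgroup G).lowerCentralSeries (j + 1) := by
      refine Subgroup.commutator_le.mpr fun x hx y hy => ?_
      obtain ⟨N, hN, h2⟩ := ih x hx
      obtain ⟨N', hN', h3⟩ := (Subgroup.mem_sSup_of_directedOn hne hc.directedOn).mp hy
      obtain ⟨M, hM, h4, h5⟩ := hc.directedOn N hN N' hN'
      exact Subgroup.mem_iSup_of_mem ⟨M, hM⟩ (Subgroup.commutator_mem_commutator
        (Subgroup.lowerCentralSeries_mono _ h4 h2) (h5 h3))
    intro x hx
    obtain ⟨N, hN⟩ := (Subgroup.mem_iSup_of_directed hd).mp (h1 hx)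
    exact ⟨N, N.2, hN⟩

theorem exists_max {k : ℕ} : ∃ F : Subgroup G,
    Maximal (fun N : Subgroup G => N.Normal ∧ N.lowerCentralSeries k = ⊥) F := by
  have h0 : (⊥ : Subgroup G).lowerCentralSeries k = ⊥ :=
    le_bot_iff.mp ((⊥ : Subgroup G).lowerCentralSeries_antitone (Nat.zero_le k))
  refine (zorn_le_nonempty₀ {N : Subgroup G | N.Normal ∧ N.lowerCentralSeries k = ⊥}
    (fun c hc hch y hy => ⟨sSup c, ⟨⟨fun x hx g => ?_⟩, eq_bot_iff.mpr fun x hx => ?_⟩,
      fun z hz => le_sSup hz⟩) ⊥ ⟨inferInstance, h0⟩).imp fun F hF => hF.2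
  · obtain ⟨N, hN, h1⟩ := (Subgroup.mem_sSup_of_directedOn ⟨y, hy⟩ hch.directedOn).mp hx
    exact le_sSup hN ((hc hN).1.conj_mem x h1 g)
  · obtain ⟨N, hN, h1⟩ := lcs_chain hch ⟨y, hy⟩ k x hx
    rwa [(hc hN).2] at h1

/-- The conjugation action as a linear representation. -/
def rep {N : Subgroup G} (M : NilModel G N) : G →* Module.End ℚ M.A where
  toFun g := (M.α g).toLinearMap
  map_one' := by rw [map_one]; rfl
  map_mul' g g' := by rw [map_mul]; rfl

theorem struct_of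
    (hinj : ∀ {h : ℕ} {M N : Type} [Group M] [Group N], PolyQ h N → ∀ f : M →* N,
      Function.Injective f → PolyQ h M)
    (hrank : ∀ n : ℕ, ∃ h, ∀ (N : Type) [Group N] [Group.IsNilpotent N],
      (∀ z ∈ Subgroup.center N, IsOfFinOrder z → z = 1) →
      (∀ φ : Multiplicative (Fin n → ℤ) →* N, ¬ Function.Injective φ) → PolyQ h N)
    (hjen : ∀ h : ℕ, ∃ k, ∀ (G : Type) [Group G] (N : Subgroup G) [N.Normal]
      [Group.IsNilpotent N], PolyQ h N → ∃ M : NilModel G N, M.k = k)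
    (G : Type) [Group G] [Group.IsSolvable G]
    (h1 : ∀ T : Subgroup G, T.Normal → Finite T → T = ⊥)
    (h2 : ∃ m : ℕ, 0 < m ∧ ∀ F : Subgroup G, Finite F → Nat.card F ∣ m)
    (h3 : ∃ n : ℕ, ∀ φ : Multiplicative (Fin n → ℤ) →* G, ¬ Function.Injective φ) :
    ∃ H : Subgroup G, H.FiniteIndex ∧ Nonempty (NilModel H (commutator H)) := by
  obtain ⟨m, hm, h2⟩ := h2
  obtain ⟨n, h3⟩ := h3
  obtain ⟨h, hh⟩ := hrank n
  obtain ⟨k, hk⟩ := hjen h
  have hq : ∀ N : Subgroup G, N.Normal → Group.IsNilpotent N → PolyQ h N := fun N hN _ =>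
    hh N (center_tf h1 hm h2 N hN) fun φ hφ =>
      h3 (N.subtype.comp φ) (N.subtype_injective.comp hφ)
  obtain ⟨F, ⟨hF, hF'⟩, hmax⟩ := exists_max (G := G) (k := k)
  have hn : Group.IsNilpotent F := (Subgroup.isNilpotent_iff_lowerCentralSeries F).mpr ⟨k, hF'⟩
  obtain ⟨M, -⟩ := hk G F (hq F hF hn)
  obtain ⟨H, hH, e, he⟩ := lkm G M.A (rep M)
  have h4 : ⁅H.normalCore, H.normalCore⁆ ≤ F := by
    refine Lkm.solv_ind (· ≤ F) _ inferInstance bot_le fun B hB h5 h6 => ?_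
    have h7 := M.nilpotent_of_unip B h6 e (le_top.trans (he.ge.trans (Zs_mono_left
      (h5.trans (Subgroup.commutator_mono H.normalCore_le H.normalCore_le)) bot_le e)))
    obtain ⟨M', hM'⟩ := hk G (B ⊔ F) (hq _ inferInstance h7)
    exact le_sup_left.trans (hmax ⟨inferInstance, hM' ▸ M'.lcs⟩ le_sup_right)
  have h5 : ∀ x : commutator H.normalCore, ((x : H.normalCore) : G) ∈ F := fun x =>
    h4 (by
      rw [← Subgroup.map_subtype_commutator]
      exact ⟨x, x.2, rfl⟩)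
  let f : commutator H.normalCore →* F :=
    (H.normalCore.subtype.comp (commutator H.normalCore).subtype).codRestrict F h5
  have hf : Function.Injective f := fun x y e =>
    Subtype.ext (Subtype.ext (congrArg (fun z : F => (z : G)) e))
  have h6 : Group.IsNilpotent (commutator H.normalCore) :=
    Subgroup.isNilpotent_of_ker_le_center f (by rw [(MonoidHom.ker_eq_bot_iff f).mpr hf]; exact bot_le)
  obtain ⟨M', -⟩ := hk H.normalCore (commutator H.normalCore) (hinj (hq F hF hn) f hf)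
  exact ⟨H.normalCore, inferInstance, ⟨M'⟩⟩

end St

end Pool.Agent.Lib.MP_2fb4be_al.Sol
end
end
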