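import Mathlib
import Pool.Agent.Lib.MP_2fb4be_al.Sol.Size
import Pool.Agent.Lib.MP_2fb4be_al.Sol.StructA
import Pool.Agent.Lib.MP_2fb4be_al.Sol.Malcev

import Pool.Agent.Lib.MP_2fb4be_al.Sol.Lat

/-! The bounded sets of the ambient group. -/

set_option autoImplicit false

noncomputable section

namespace Pool.Agent.Lib.MP_2fb4be_al.Sol

namespace Bx

section cg

variable {A : Type} [Ring A] [Algebra ℚ A] {I : Submodule ℚ A} {k : ℕ} {h : NilI I k} {a : ℕ}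

/-- `u` lies in layer `a` and `u - 1` is congruent to `x` modulo the next layer. -/
def Cg (h : NilI I k) (a : ℕ) (u : Aˣ) (x : A) : Prop :=
  u ∈ Ul h a ∧ (u : A) - 1 - x ∈ I ^ (a + 2)

theorem Cg.self {u : Aˣ} (hu : u ∈ Ul h a) : Cg h a u ((u : A) - 1) := ⟨hu, by simp⟩

theorem Cg.mul {u v : Aˣ} {x y : A} (hu : Cg h a u x) (hv : Cg h a v y) :
    Cg h a (u * v) (x + y) := by
  refine ⟨mul_mem hu.1 hv.1, ?_⟩
  have e : ((u * v : Aˣ) : A) - 1 - (x + y) =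
      (u - 1) * (v - 1) + ((u - 1 - x) + (v - 1 - y)) := by
    rw [Units.val_mul]; noncomm_ring
  rw [e]
  exact add_mem (mul_mem_succ hu.1 (h.Ul_anti (Nat.zero_le a) hv.1)) (add_mem hu.2 hv.2)

theorem Cg.inv {u : Aˣ} {x : A} (hu : Cg h a u x) : Cg h a u⁻¹ (-x) := by
  refine ⟨inv_mem hu.1, ?_⟩
  have e : ((u⁻¹ : Aˣ) : A) - 1 - -x = -((u - 1) * ((u⁻¹ : Aˣ) - 1)) - (u - 1 - x) := by
    rw [mul_sub, sub_mul, Units.mul_inv]; noncomm_ring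
  rw [e]
  exact sub_mem (neg_mem (mul_mem_succ hu.1 (h.Ul_anti (Nat.zero_le a) (inv_mem hu.1)))) hu.2

theorem Cg.pw {u : Aˣ} {x : A} (hu : Cg h a u x) (t : ℚ) : Cg h a (pw t u) (t • x) := by
  have h1 := h.lg_mem hu.1
  have h2 := h.ex_mem (Submodule.smul_mem _ t h1.1)
  refine ⟨h2.1, ?_⟩
  have e : ((Sol.pw t u : Aˣ) : A) - 1 - t • x = ((ex (t • lg u) : A) - 1 - t • lg u) +
      t • ((lg u - ((u : A) - 1)) + ((u : A) - 1 - x)) := by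
    rw [Sol.pw, sub_add_sub_cancel, smul_sub]; abel
  rw [e]
  exact add_mem h2.2 (Submodule.smul_mem _ t (add_mem h1.2 hu.2))

theorem Cg.iff {u : Aˣ} {x : A} (hu : Cg h a u x) : u ∈ Ul h (a + 1) ↔ x ∈ I ^ (a + 2) := by
  rw [mem_Ul]
  constructor
  · intro h1
    simpa using sub_mem h1 hu.2
  · intro h1
    simpa using add_mem hu.2 h1

theorem div_mem {D m : ℕ} (hm : m.Coprime D) (s : ℤ) : (s : ℚ) / m ∈ ZD D := by
  rw [mem_ZD]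
  refine Nat.Coprime.coprime_dvd_left ?_ hm
  have := Rat.den_dvd s m
  rw [Rat.divInt_eq_div] at this
  exact_mod_cast this

theorem le_pow {c L : ℕ} (hL : 2 ≤ L) : c + 1 ≤ L ^ c :=
  (Nat.lt_two_pow_self (n := c)).trans_le (Nat.pow_le_pow_left hL c)

theorem two_le {L : ℕ} (hL : 2 ≤ L) (e : ℕ) : 2 ≤ L ^ (e + 1) :=
  hL.trans (Nat.le_self_pow (by omega) L)

theorem pow_mono {L e e' : ℕ} (hL : 2 ≤ L) (he : e ≤ e') : L ^ e ≤ L ^ e' :=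
  Nat.pow_le_pow_right (by omega) he

end cg

variable {G : Type} [Group G] {N : Subgroup G} {M : NilModel G N} (P : Push M)

theorem iso_U {D : ℕ} {u : M.Aˣ} (hu : Iso M.nil M.ι.range D u) : u ∈ P.U := by
  obtain ⟨h1, m, hm, -, h2⟩ := hu
  exact (P.hU u).2 ⟨h1, m, hm, by simp, h2⟩

theorem U_le (u : P.U) : (u : M.Aˣ) ∈ Ul M.nil 0 := ((P.hU u).1 u.2).1

theorem iso_ι (D : ℕ) (n : N) : Iso M.nil M.ι.range D (M.ι n) :=
  Iso.of_mem (M.ι_mem n) ⟨n, rfl⟩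

theorem mem_Ua {a : ℕ} {γ : P.Γ} :
    γ ∈ P.Ua a ↔ ∃ u : P.U, (u : M.Aˣ) ∈ Ul M.nil a ∧ P.j u = γ := Iff.rfl

theorem j_mem_Ua {a : ℕ} {u : P.U} : P.j u ∈ P.Ua a ↔ (u : M.Aˣ) ∈ Ul M.nil a :=
  ⟨fun ⟨_, h1, h2⟩ => P.j_inj h2 ▸ h1, fun h1 => ⟨u, h1, rfl⟩⟩

theorem ρ_mem [N.Normal] (γ : P.Γ) {a : ℕ} {x : M.A} (hx : x ∈ M.I ^ (a + 1)) :
    P.ρ γ x ∈ M.I ^ (a + 1) := by
  obtain ⟨u, g, rfl⟩ := P.dec γ
  have h1 : M.α g x ∈ M.I ^ (a + 1) :=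
    inv_pow (S := Set.univ) (fun g _ x y => map_mul (M.α g) x y) (M.inv_I Set.univ) a g
      trivial x hx
  rw [map_mul, AlgEquiv.mul_apply, P.ρ_i, P.ρ_j]
  simpa using add_mem (M.nil.anti (Nat.le_succ a) (M.nil.conj_sub (U_le P u) h1)) h1

theorem Ua_normal [N.Normal] (a : ℕ) : (P.Ua a).Normal := by
  refine ⟨?_⟩
  rintro _ ⟨u, hu, rfl⟩ γ
  obtain ⟨u', h1, h2⟩ := P.conj γ u
  refine ⟨u', ?_, h2.symm⟩
  have := ρ_mem P γ (x := ((u : M.Aˣ) : M.A) - 1) hu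
  rw [map_sub, map_one] at this
  change ((u' : M.Aˣ) : M.A) - 1 ∈ M.I ^ (a + 1)
  rwa [h1]

theorem Ua_anti : Antitone P.Ua := fun _ _ hab =>
  Subgroup.map_mono (Subgroup.comap_mono (M.nil.Ul_anti hab))

theorem Ua_k : P.Ua M.k = ⊥ := by
  rw [Push.Ua, M.nil.Ul_k, eq_bot_iff]
  rintro _ ⟨u, hu, rfl⟩
  have : u = 1 := Subtype.ext hu
  simp [this]

open scoped commutatorElement in
theorem Ua_lcs (i : ℕ) : (P.Ua 0).lowerCentralSeries i ≤ P.Ua i := by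
  induction i with
  | zero => exact le_rfl
  | succ i ih =>
    refine (Subgroup.commutator_mono ih le_rfl).trans (Subgroup.commutator_le.2 ?_)
    rintro _ ⟨u, hu, rfl⟩ _ ⟨v, hv, rfl⟩
    refine ⟨⁅u, v⁆, ?_, map_commutatorElement _ _ _⟩
    exact M.nil.comm_le i (Subgroup.commutator_mem_commutator hu hv)

theorem pwΓ_j (t : ℚ) (u : P.U) : P.pwΓ t (P.j u) = P.j ⟨pw t u, P.hpw _ u.2 t⟩ := by
  have h : ∃ v, P.j v = P.j u := ⟨u, rfl⟩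
  have e : h.choose = u := P.j_inj h.choose_spec
  rw [Push.pwΓ, dif_pos h]
  simp only [e]

theorem i_eq (n : N) : P.i n = P.j ⟨M.ι n, iso_U P (iso_ι 1 n)⟩ := (P.i_ι n _ rfl).symm

variable {d : ℕ} {b : Module.Basis (Fin d) ℚ M.A} {D : ℕ}

theorem Om_mono {R R' L L' : ℕ} (h1 : R ≤ R') (h2 : L ≤ L') : P.Om b D R L ⊆ P.Om b D R' L' :=
  fun _ ⟨u, a1, a2, a3⟩ => ⟨u, a1, a2.mono h1 h2, a3⟩

theorem one_mem_Om (R L : ℕ) : 1 ∈ P.Om b D R L :=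
  ⟨1, Iso.of_mem (one_mem _) (one_mem _), by simpa using Sz.zero R L, (map_one _).symm⟩

theorem conj_Om [hN : N.Normal] (hD : 0 < D) (ℓ : Len G) (R : ℕ) : ∃ c, ∀ g, ℓ.len g ≤ R →
    ∀ R1 L, ∀ γ ∈ P.Om b D R1 L, P.i g * γ * (P.i g)⁻¹ ∈ P.Om b D (R1 + c) (c * L) := by
  obtain ⟨c, hc⟩ := sz_lin b hD ((ℓ.fin R).image fun g => (M.α g).toLinearMap)
  refine ⟨c, fun g hg R1 L => ?_⟩
  rintro _ ⟨u, ⟨-, m, hm, hmD, n, hn⟩, h2, rfl⟩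
  obtain ⟨u', h3, h4⟩ := P.conj (P.i g) u
  rw [P.ρ_i] at h3
  refine ⟨u', ⟨U_le P u', m, hm, hmD, ⟨g * n * g⁻¹, hN.conj_mem _ n.2 g⟩, ?_⟩, ?_, h4⟩
  · ext
    rw [← M.conj g n _ rfl, hn, Units.val_pow_eq_pow_val, Units.val_pow_eq_pow_val, h3, map_pow]
  · have := hc _ ⟨g, hg, rfl⟩ _ _ _ h2
    rwa [AlgEquiv.toLinearMap_apply, map_sub, map_one, ← h3] at this

variable (b D) in
/-- Families of unipotent elements of polynomial size. -/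
def PB (F : ℕ → Set P.Γ) : Prop := ∃ R e, ∀ L, 2 ≤ L → F L ⊆ P.Om b D R (L ^ e)

variable {P}

theorem PB.mono {F F' : ℕ → Set P.Γ} (h : PB P b D F) (h' : ∀ L, 2 ≤ L → F' L ⊆ F L) :
    PB P b D F' := by
  obtain ⟨R, e, h⟩ := h
  exact ⟨R, e, fun L hL => (h' L hL).trans (h L hL)⟩

theorem PB.om (R : ℕ) : PB P b D fun L => P.Om b D R L := ⟨R, 1, fun L _ => by simp⟩

theorem PB.const (R : ℕ) : PB P b D fun _ => P.Om b D R R :=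
  ⟨R, R, fun _ hL => Om_mono P le_rfl ((Nat.le_succ R).trans (le_pow hL))⟩

theorem PB.bdd {S : Set P.Γ} (h : PB P b D fun _ => S) : ∃ R, S ⊆ P.Om b D R R := by
  obtain ⟨R, e, h⟩ := h
  exact ⟨R + 2 ^ e, (h 2 le_rfl).trans (Om_mono P (Nat.le_add_right _ _) (Nat.le_add_left _ _))⟩

theorem PB.union {F F' : ℕ → Set P.Γ} (h : PB P b D F) (h' : PB P b D F') :
    PB P b D fun L => F L ∪ F' L := by
  obtain ⟨R, e, h⟩ := h
  obtain ⟨R', e', h'⟩ := h'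
  exact ⟨R + R', e + e', fun L hL => Set.union_subset
    ((h L hL).trans (Om_mono P (by omega) (pow_mono hL (by omega))))
    ((h' L hL).trans (Om_mono P (by omega) (pow_mono hL (by omega))))⟩

theorem PB.grp (hD : 0 < D) {F : ℕ → Set P.Γ} (h : PB P b D F) :
    PB P b D fun L => {γ | γ⁻¹ ∈ F L ∨ ∃ x ∈ F L, ∃ y ∈ F L, γ = x * y} := by
  obtain ⟨R, e, h⟩ := h
  obtain ⟨R', e', h'⟩ := sz_grp b hD M.nil R
  refine ⟨R', (e + 1) * e', fun L hL γ hγ => ?_⟩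
  have h1 : F L ⊆ P.Om b D R (L ^ (e + 1)) :=
    (h L hL).trans (Om_mono P le_rfl (pow_mono hL (by omega)))
  have h2 := (h' _ (two_le hL e)).2
  rw [pow_mul]
  rcases hγ with hγ | ⟨x, hx, y, hy, rfl⟩
  · obtain ⟨u, a1, a2, a3⟩ := h1 hγ
    exact ⟨u⁻¹, a1.inv, (h2 u a1.1 a2).2.1, by rw [map_inv, ← a3, inv_inv]⟩
  · obtain ⟨u, a1, a2, rfl⟩ := h1 hx
    obtain ⟨v, b1, b2, rfl⟩ := h1 hy
    exact ⟨u * v, a1.mul b1, (h2 u a1.1 a2).2.2 v b2, (map_mul _ _ _).symm⟩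

theorem PB.inv (hD : 0 < D) {F : ℕ → Set P.Γ} (h : PB P b D F) :
    PB P b D fun L => {γ | ∃ x ∈ F L, γ = x⁻¹} :=
  (h.grp hD).mono fun _ _ _ ⟨x, hx, e⟩ => Or.inl (by rwa [e, inv_inv])

theorem PB.mul (hD : 0 < D) {F F' : ℕ → Set P.Γ} (h : PB P b D F) (h' : PB P b D F') :
    PB P b D fun L => {γ | ∃ x ∈ F L, ∃ y ∈ F' L, γ = x * y} :=
  ((h.union h').grp hD).mono fun _ _ _ ⟨x, hx, y, hy, e⟩ =>
    Or.inr ⟨x, Or.inl hx, y, Or.inr hy, e⟩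

theorem PB.conj [N.Normal] (hD : 0 < D) (ℓ : Len G) (R : ℕ) {F : ℕ → Set P.Γ}
    (h : PB P b D F) :
    PB P b D fun L => {γ | ∃ x ∈ F L, ∃ g, ℓ.len g ≤ R ∧ γ = P.i g * x * (P.i g)⁻¹} := by
  obtain ⟨R1, e, h⟩ := h
  obtain ⟨c, hc⟩ := conj_Om P (b := b) hD ℓ R
  refine ⟨R1 + c, c + e, fun L hL => ?_⟩
  rintro _ ⟨x, hx, g, hg, rfl⟩
  refine Om_mono P le_rfl ?_ (hc g hg _ _ x (h L hL hx))
  rw [pow_add]
  exact Nat.mul_le_mul_right _ ((Nat.le_succ c).trans (le_pow hL))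

theorem PB.pw (hD : 0 < D) {F : ℕ → Set P.Γ} (h : PB P b D F) :
    PB P b D fun L => {γ | ∃ x ∈ F L, ∃ t ∈ ZD D, |t| ≤ 1 ∧ γ = P.pwΓ t x} := by
  obtain ⟨R, e, h⟩ := h
  obtain ⟨R1, e1, h1⟩ := sz_grp b hD M.nil R
  obtain ⟨R2, e2, h2⟩ := sz_grp b hD M.nil R1
  refine ⟨R2, ((e + 1) * e1 + 1) * e2, fun L hL => ?_⟩
  rintro _ ⟨x, hx, t, ht, ht1, rfl⟩
  obtain ⟨u, a1, a2, rfl⟩ := h L hL hx
  have a3 := ((h1 _ (two_le hL e)).2 u a1.1 (a2.mono le_rfl (pow_mono hL (by omega)))).1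
  rw [← pow_mul] at a3
  have a4 := (h2 _ (two_le hL ((e + 1) * e1))).1 (t • lg (u : M.Aˣ))
    (Ex.mem_one M.nil (Submodule.smul_mem _ t (M.nil.lg_mem a1.1).1))
    ((a3.smul ht ht1).mono le_rfl (pow_mono hL (by omega)))
  rw [← pow_mul] at a4
  exact ⟨_, a1.pw ht, a4, pwΓ_j P t u⟩

theorem PB.fin (hD : 0 < D) (ℓ : Len G) (R : ℕ) :
    PB P b D fun _ => {γ | ∃ n : N, ℓ.len n ≤ R ∧ γ = P.i n} := by
  have h1 : {n : N | ℓ.len n ≤ R}.Finite :=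
    (ℓ.fin R).preimage (f := fun n : N => (n : G)) Subtype.val_injective.injOn
  obtain ⟨R1, h2⟩ := exists_sz b hD (h1.image fun n => (M.ι n : M.A) - 1)
  refine (PB.const R1).mono fun _ _ => ?_
  rintro _ ⟨n, hn, rfl⟩
  exact ⟨_, iso_ι D n, h2 _ ⟨n, hn, rfl⟩, i_eq P n⟩

theorem PB.bd (hD : 0 < D) (ℓ : Len G) (R : ℕ) :
    PB P b D fun _ => {γ | γ ∈ P.Bd b D ℓ R ∧ γ ∈ P.Ua 0} := by
  refine ((PB.const R).mul hD (PB.fin hD ℓ R)).mono fun _ _ => ?_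
  rintro _ ⟨⟨x, hx, g, hg, rfl⟩, w, -, hw⟩
  obtain ⟨u, -, -, hu⟩ := id hx
  have : g ∈ N := P.mem g (u⁻¹ * w) (by rw [map_mul, map_inv, hw, hu, inv_mul_cancel_left])
  exact ⟨x, hx, _, ⟨⟨g, this⟩, hg, rfl⟩, rfl⟩

theorem Om_Bd (ℓ : Len G) (R : ℕ) : P.Om b D R R ⊆ P.Bd b D ℓ R :=
  fun x hx => ⟨x, hx, 1, by simp [ℓ.one], by simp⟩

theorem small (hD : 0 < D) (R : ℕ) : ∃ R' e, ∀ L, 2 ≤ L → ∀ m : ℕ, m.Coprime D → L ^ e ≤ m →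
    ∀ u ∈ P.Om b D R L, ∀ s : ℤ, |s| ≤ 1 → P.pwΓ ((s : ℚ) / m) u ∈ P.Om b D R' R' := by
  obtain ⟨R1, e1, h1⟩ := sz_grp b hD M.nil R
  obtain ⟨R2, e2, h2⟩ := sz_grp b hD M.nil R1
  refine ⟨R2 + 2 ^ e2, e1, fun L hL m hm hLm => ?_⟩
  rintro _ ⟨u, a1, a2, rfl⟩ s hs
  have a3 := (((h1 L hL).2 u a1.1 a2).1.div hm hLm hs).mono le_rfl one_le_two
  have a4 := (h2 2 le_rfl).1 _
    (Ex.mem_one M.nil (Submodule.smul_mem _ ((s : ℚ) / m) (M.nil.lg_mem a1.1).1)) a3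
  exact ⟨_, a1.pw (div_mem hm s), a4.mono (Nat.le_add_right _ _) (Nat.le_add_left _ _),
    pwΓ_j P _ u⟩

theorem frac {m t : ℕ} (hm : 0 < m) (hD : m.Coprime D) (ht : t ≤ m) :
    (t : ℚ) / m ∈ ZD D ∧ |(t : ℚ) / m| ≤ 1 := by
  refine ⟨by simpa using div_mem hD t, ?_⟩
  rw [abs_of_nonneg (by positivity), div_le_one (by exact_mod_cast hm)]
  exact_mod_cast ht

theorem layer {a : ℕ} {u u' c : P.Γ} (hu : u ∈ P.Ua a) (hu' : u' ∈ P.Ua a) (hc : c ∈ P.Ua a)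
    (h : u⁻¹ * u' * c⁻¹ ∈ P.Ua (a + 1)) (t t' : ℚ) :
    (P.pwΓ t u)⁻¹ * P.pwΓ t' u' * (P.pwΓ t' c * P.pwΓ (t' - t) u)⁻¹ ∈ P.Ua (a + 1) := by
  obtain ⟨u, hu, rfl⟩ := hu
  obtain ⟨u', hu', rfl⟩ := hu'
  obtain ⟨c, hc, rfl⟩ := hc
  have a1 := Cg.self (h := M.nil) hu
  have a2 := Cg.self (h := M.nil) hu'
  have a3 := Cg.self (h := M.nil) hc
  rw [← map_inv, ← map_inv, ← map_mul, ← map_mul, j_mem_Ua] at h
  have a4 := ((a1.inv.mul a2).mul a3.inv).iff.1 h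
  rw [pwΓ_j, pwΓ_j, pwΓ_j, pwΓ_j, ← map_mul, ← map_inv, ← map_inv, ← map_mul, ← map_mul,
    j_mem_Ua]
  refine (((a1.pw t).inv.mul (a2.pw t')).mul ((a3.pw t').mul (a1.pw (t' - t))).inv).iff.2 ?_
  convert Submodule.smul_mem _ t' a4 using 1
  module

end Bx

open Bx in
theorem exists_box {G : Type} [Group G] {N : Subgroup G} [N.Normal] {M : NilModel G N}
    (P : Push M) {d : ℕ} (b : Module.Basis (Fin d) ℚ M.A) {D : ℕ} (hD : 0 < D) (ℓ : Len G)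
    (hfin : ∀ R, {n : N | Sz b D R R ((M.ι n : M.A) - 1)}.Finite) : P.Box b D ℓ := by
  have mono : Monotone (P.Bd b D ℓ) := fun R R' h _ ⟨u, hu, g, hg, e⟩ =>
    ⟨u, Om_mono P h h hu, g, hg.trans h, e⟩
  refine ⟨Ua_normal P, Ua_anti P, Ua_k P, le_bot_iff.1 (Ua_k P ▸ Ua_lcs P M.k), mono,
    Om_Bd ℓ 0 (one_mem_Om P 0 0), fun R => ?_, fun g => ?_, fun R => ?_, ?_,
    fun h1 h2 => Om_mono P h1 h2, fun R L _ ⟨u, _, _, e⟩ => ⟨u, U_le P u, e.symm⟩, fun R => ?_,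
    fun R => ?_, ?_, fun u => ?_, ?_⟩
  · have c := PB.const (P := P) (b := b) (D := D) R
    obtain ⟨R1, h1⟩ := (((c.inv hD).conj hD ℓ R).union (c.mul hD (c.conj hD ℓ R))).bdd
    refine ⟨R1 + 2 * R, ?_⟩
    rintro _ ⟨u, hu, g, hg, rfl⟩
    refine ⟨⟨_, Om_mono P (by omega) (by omega) (h1 (Or.inl ⟨_, ⟨u, hu, rfl⟩, g⁻¹,
      by rwa [ℓ.inv], rfl⟩)), g⁻¹, by rw [ℓ.inv]; omega, by simp⟩, ?_⟩
    rintro _ ⟨v, hv, g', hg', rfl⟩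
    refine ⟨_, Om_mono P (by omega) (by omega) (h1 (Or.inr ⟨u, hu, _, ⟨v, hv, g, hg, rfl⟩, rfl⟩)),
      g * g', (ℓ.mul g g').trans (by omega), by simp [mul_assoc]⟩
  · exact ⟨ℓ.len g, 1, one_mem_Om P _ _, g, le_rfl, (one_mul _).symm⟩
  · refine (((hfin R).prod (ℓ.fin R)).image fun p => (p.1 : G) * p.2).subset ?_
    rintro g ⟨_, ⟨u, -, hu, rfl⟩, g0, hg0, e⟩
    have e1 : P.i (g * g0⁻¹) = P.j u := by rw [map_mul, map_inv, e, mul_inv_cancel_right]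
    have hn := P.mem _ _ e1
    have e2 := P.j_inj (e1.symm.trans (i_eq P ⟨_, hn⟩))
    rw [e2] at hu
    exact ⟨(⟨_, hn⟩, g0), ⟨hu, hg0⟩, by simp⟩
  · obtain ⟨R0, h0⟩ := iso_cob b hD M.nil M.ι.range (by rintro _ ⟨n, rfl⟩; exact M.ι_mem n)
    refine ⟨R0, fun R => ?_⟩
    rintro _ ⟨x, hx, g, -, rfl⟩
    obtain ⟨c, hc⟩ := conj_Om P (b := b) hD ℓ (ℓ.len g⁻¹)
    obtain ⟨u, a1, -, a2⟩ := hc g⁻¹ le_rfl _ _ x hx
    obtain ⟨_, ⟨n, rfl⟩, a3⟩ := h0 u a1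
    refine ⟨g * n, Om_Bd ℓ R0 ⟨(⟨M.ι n, iso_U P (iso_ι 1 n)⟩ : P.U)⁻¹ * u,
      (iso_ι D n).inv.mul a1, a3, ?_⟩⟩
    rw [map_mul P.j, map_inv P.j, ← i_eq, ← a2]
    simp [mul_assoc]
  · have o := PB.om (P := P) (b := b) (D := D) R
    have c := PB.const (P := P) (b := b) (D := D) R
    obtain ⟨R', e, h⟩ := (((PB.bd hD ℓ R).union (o.inv hD)).union (o.mul hD o)).union
      ((c.mul hD (o.conj hD ℓ R)).mul hD (c.inv hD))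
    refine ⟨R', e, fun L hL => ⟨fun x hx hx' => h L hL (Or.inl (Or.inl (Or.inl ⟨hx, hx'⟩))),
      fun u hu => ⟨h L hL (Or.inl (Or.inl (Or.inr ⟨u, hu, rfl⟩))),
        fun v hv => h L hL (Or.inl (Or.inr ⟨u, hu, v, hv, rfl⟩)), ?_⟩⟩⟩
    rintro _ ⟨w, hw, g, hg, rfl⟩
    exact h L hL (Or.inr ⟨_, ⟨w, hw, _, ⟨u, hu, g, hg, rfl⟩, rfl⟩, _, ⟨w, hw, rfl⟩,
      by simp [mul_assoc]⟩)
  · obtain ⟨R1, e1, h1⟩ := small (P := P) (b := b) hD R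
    obtain ⟨R2, e2, h2⟩ := (PB.om (P := P) (b := b) (D := D) R).pw hD
    obtain ⟨R3, h3⟩ := (((PB.bd (P := P) (b := b) hD ℓ R).pw hD).mul hD (PB.const R1)).bdd
    refine ⟨R1 + R2 + R3, D + e1 + e2, fun L hL => ?_⟩
    have hm : (D * L ^ e1 + 1).Coprime D := by simp
    have hL1 : 0 < L ^ e1 := by positivity
    have hm1 : L ^ e1 ≤ D * L ^ e1 + 1 := (Nat.le_mul_of_pos_left _ hD).trans (Nat.le_succ _)
    refine ⟨D * L ^ e1 + 1, by positivity, ?_, hm, fun u hu => ⟨?_, ?_, fun t ht => ?_, ?_⟩⟩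
    · calc D * L ^ e1 + 1 ≤ (D + 1) * L ^ e1 := by nlinarith
        _ ≤ L ^ D * L ^ e1 := Nat.mul_le_mul_right _ (le_pow hL)
        _ ≤ _ := by rw [← pow_add]; exact pow_mono hL (by omega)
    · refine mono (show R1 ≤ _ by omega) (Om_Bd ℓ R1 ?_)
      simpa using h1 L hL _ hm hm1 u hu 1 (by simp)
    · obtain ⟨v, -, -, rfl⟩ := hu
      have hv := Mal.nil_Ul M.nil (U_le P v)
      rw [pwΓ_j, ← map_pow]
      congr 1
      apply Subtype.ext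
      have hv' := Mal.nil_Ul M.nil ((Cg.self (U_le P v)).pw (1 / ((D * L ^ e1 + 1 : ℕ) : ℚ))).1
      rw [SubgroupClass.coe_pow, ← zpow_natCast, ← pw_int hv', pw_pw hv, Int.cast_natCast,
        mul_one_div_cancel (by positivity), pw, one_smul, ex_lg hv]
    · have := frac (by positivity) hm ht
      exact Om_mono P (by omega) (pow_mono hL (by omega))
        (h2 L hL ⟨u, hu, _, this.1, this.2, rfl⟩)
    · intro a ha u' _ ha' c hc hh t t' _ ht' h4 h5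
      have hca : c ∈ P.Ua a := by
        have := mul_mem (inv_mem (Ua_anti P (Nat.le_succ a) hh)) (mul_mem (inv_mem ha) ha')
        simpa [mul_assoc] using this
      have := frac (by positivity) hm ht'
      refine ⟨_, mono (show R3 ≤ _ by omega) (Om_Bd ℓ R3 (h3 ⟨_, ⟨c,
        ⟨hc, Ua_anti P (Nat.zero_le a) hca⟩, _, this.1, this.2, rfl⟩, _, ?_, rfl⟩)),
        layer ha ha' hca hh _ _⟩
      have e := h1 L hL _ hm hm1 u hu ((t' : ℤ) - t) (by rw [abs_le]; omega)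
      rwa [Int.cast_sub, sub_div, Int.cast_natCast, Int.cast_natCast] at e
  · rintro a t _ ⟨u, hu, rfl⟩
    rw [pwΓ_j, j_mem_Ua]
    exact ((Cg.self (h := M.nil) hu).pw t).1
  · by_cases h : ∃ v, P.j v = u
    · obtain ⟨v, rfl⟩ := h
      rw [pwΓ_j, ← map_one P.j]
      congr 1
      exact Subtype.ext (pw_zero _)
    · rw [Push.pwΓ, dif_neg h]
  · rintro _ ⟨u, -, rfl⟩
    rw [pwΓ_j]
    congr 1
    apply Subtype.ext
    change pw 1 (u : M.Aˣ) = u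
    rw [pw, one_smul, ex_lg (Mal.nil_Ul M.nil (U_le P u))]

end Pool.Agent.Lib.MP_2fb4be_al.Sol
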