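import Mathlib
import Pool.Agent.Lib.MP_2fb4be_al.NF
import Pool.Agent.Lib.MP_2fb4be_al.Sol.Size
import Pool.Agent.Lib.MP_2fb4be_al.Sol.StructA
import Pool.Agent.Lib.MP_2fb4be_al.Sol.Malcev

-- part Pool.Agent.Lib.MP_2fb4be_al.Sol.Places
section

/-!
A minimal family of places of a number field at which a character of infinite order cannot be
simultaneously large.
-/

set_option autoImplicit false
set_option linter.unusedSectionVars false

noncomputable section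

namespace Pool.Agent.Lib.MP_2fb4be_al.Sol

open NumberField IsDedekindDomain

namespace Pl

variable {K : Type} [Field K] [NumberField K]

theorem fp_of_int (w : FinitePlace K) {x : K} (hx : IsIntegral ℤ x) : w x ≤ 1 :=
  fp_int w ⟨x, hx⟩

theorem fp_intc (w : FinitePlace K) (n : ℤ) : w (n : K) ≤ 1 := by
  simpa using fp_int w (n : 𝓞 K)

theorem fp_nat (w : FinitePlace K) (n : ℕ) : w (n : K) ≤ 1 := by
  simpa using fp_int w (n : 𝓞 K)

theorem fp_coprime (w : FinitePlace K) {D m : ℕ} (hw : w (D : K) < 1) (hm : m.Coprime D) :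
    w (m : K) = 1 := by
  refine le_antisymm (fp_nat w m) ?_
  have e : (1 : K) = (m : K) * (Nat.gcdA m D : ℤ) + (D : K) * (Nat.gcdB m D : ℤ) := by
    have h := Nat.gcd_eq_gcd_ab m D
    rw [hm.gcd_eq_one] at h
    exact_mod_cast congrArg (fun z : ℤ => (z : K)) h
  have h1 := FinitePlace.add_le w ((m : K) * (Nat.gcdA m D : ℤ)) ((D : K) * (Nat.gcdB m D : ℤ))
  rw [← e, map_one, map_mul, map_mul] at h1
  have a1 := fp_intc w (Nat.gcdA m D)
  have a2 := fp_intc w (Nat.gcdB m D)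
  have a3 := apply_nonneg w (m : K)
  have a4 := apply_nonneg w (D : K)
  rcases le_max_iff.1 h1 with h2 | h2
  · nlinarith
  · nlinarith

theorem fp_dvd (w : FinitePlace K) {D M k : ℕ} (hw : ¬ w (D : K) < 1) (h : M ∣ D ^ k) :
    w (M : K) = 1 := by
  obtain ⟨c, hc⟩ := h
  have h1 : w (D : K) = 1 := le_antisymm (fp_nat w D) (not_lt.1 hw)
  have h2 : w (M : K) * w (c : K) = 1 := by
    rw [← map_mul, ← Nat.cast_mul, ← hc, Nat.cast_pow, map_pow, h1, one_pow]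
  have a1 := fp_nat w M
  have a2 := fp_nat w c
  have a3 := apply_nonneg w (M : K)
  nlinarith

theorem split (D M : ℕ) (hM : 0 < M) :
    ∃ M1 m k : ℕ, M = M1 * m ∧ M1 ∣ D ^ k ∧ m.Coprime D := by
  induction M using Nat.strong_induction_on with
  | _ M ih =>
    by_cases h : M.Coprime D
    · exact ⟨1, M, 0, by simp, by simp, h⟩
    · obtain ⟨M', hM'⟩ := Nat.gcd_dvd_left M D
      have h1 : 0 < Nat.gcd M D := Nat.gcd_pos_of_pos_left D hM
      have h2 : 1 < Nat.gcd M D := lt_of_le_of_ne h1 (fun e => h e.symm)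
      have h3 : 0 < M' := Nat.pos_of_mul_pos_left (hM' ▸ hM)
      obtain ⟨M1, m, k, e, hd, hc⟩ := ih M' (by nlinarith) h3
      refine ⟨Nat.gcd M D * M1, m, k + 1, by rw [mul_assoc, ← e, ← hM'], ?_, hc⟩
      rw [pow_succ']
      exact mul_dvd_mul (Nat.gcd_dvd_right M D) hd

theorem exists_nat_int (x : K) : ∃ M : ℕ, 0 < M ∧ IsIntegral ℤ ((M : K) * x) := by
  have hx : IsAlgebraic ℤ x :=
    (IsFractionRing.isAlgebraic_iff ℤ ℚ K).2 (Algebra.IsAlgebraic.isAlgebraic x)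
  obtain ⟨y, hy, hi⟩ := hx.exists_integral_multiple
  refine ⟨y.natAbs, Int.natAbs_pos.2 hy, ?_⟩
  rw [zsmul_eq_mul] at hi
  rcases Int.natAbs_eq y with e | e
  · rwa [e, Int.cast_natCast] at hi
  · rw [e, Int.cast_neg, Int.cast_natCast, neg_mul] at hi
    simpa using hi.neg

theorem tr_ZD {D : ℕ} {y : K} (h : ∀ w : FinitePlace K, w (D : K) < 1 → w y ≤ 1) :
    Algebra.trace ℚ K y ∈ ZD D := by
  obtain ⟨M, hM, hi⟩ := exists_nat_int y
  obtain ⟨M1, m, k, e, hd, hc⟩ := split D M hM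
  have hm : 0 < m := Nat.pos_of_mul_pos_left (e ▸ hM)
  have h1 : IsIntegral ℤ ((m : K) * y) := int_of_fp fun w => by
    by_cases hw : w (D : K) < 1
    · rw [map_mul]
      exact mul_le_one₀ (fp_nat w m) (apply_nonneg _ _) (h w hw)
    · have := fp_of_int w hi
      rwa [e, Nat.cast_mul, mul_assoc, map_mul, fp_dvd w hw hd, one_mul] at this
  obtain ⟨a, ha⟩ := IsIntegrallyClosed.isIntegral_iff.1 (Algebra.isIntegral_trace (L := ℚ) h1)
  have h2 : Algebra.trace ℚ K y = (a : ℚ) / m := by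
    rw [eq_div_iff (Nat.cast_ne_zero.2 hm.ne'), mul_comm, ← smul_eq_mul, ← map_smul,
      Nat.cast_smul_eq_nsmul, nsmul_eq_mul, ← ha]
    simp
  rw [h2, mem_ZD]
  refine Nat.Coprime.coprime_dvd_left ?_ hc
  have := Rat.den_dvd a m
  rw [Rat.divInt_eq_div, Int.cast_natCast] at this
  exact_mod_cast this

theorem tr_abs {y : K} (h : ∀ w : InfinitePlace K, w y ≤ 1) :
    |Algebra.trace ℚ K y| ≤ Module.finrank ℚ K := by
  have h1 := trace_eq_sum_embeddings (K := ℚ) (L := K) ℂ (x := y)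
  have h2 : ‖algebraMap ℚ ℂ (Algebra.trace ℚ K y)‖ ≤ Module.finrank ℚ K := by
    rw [h1]
    refine (norm_sum_le _ _).trans ?_
    refine (Finset.sum_le_card_nsmul _ _ 1 fun σ _ => ?_).trans ?_
    · exact (InfinitePlace.le_iff_le y 1).1 h (σ : K →+* ℂ)
    · rw [Finset.card_univ, AlgHom.card, nsmul_eq_mul, mul_one]
  rw [eq_ratCast, Complex.norm_ratCast] at h2
  exact_mod_cast h2

theorem weak {ι : Type} [Finite ι] {v : ι → AbsoluteValue K ℝ} (h : ∀ i, (v i).IsNontrivial)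
    (hv : Pairwise fun i j => ¬ (v i).IsEquiv (v j)) (u : ι → K) {ε : ℝ} (hε : 0 < ε) :
    ∃ x : K, ∀ i, v i (x - u i) ≤ ε := by
  classical
  have := Fintype.ofFinite ι
  obtain ⟨z, hz⟩ := Metric.denseRange_iff.1 (AbsoluteValue.denseRange_algebraMap_pi h hv)
    (fun i => (WithAbs.equiv (v i)).symm (u i)) ε hε
  refine ⟨z, fun i => ?_⟩
  have := (dist_le_pi_dist _ _ i).trans hz.le
  rw [dist_comm, dist_eq_norm] at this
  exact this

theorem big {ι : Type} [Finite ι] {v : ι → AbsoluteValue K ℝ} (h : ∀ i, (v i).IsNontrivial)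
    (hv : Pairwise fun i j => ¬ (v i).IsEquiv (v j)) {δ : ℝ} (hδ : 0 < δ) :
    ∃ c : ℕ, ∀ (n : ℕ) (i : ι) (T : Set K), T.Finite → ∃ x : K, 2 ^ n ≤ v i x ∧
      (∀ j, j ≠ i → v j x ≤ 1) ∧
      ∀ z ∈ T, ((c * (n + 1) : ℕ) : ℝ) ≤ Real.log (v i z) → ∀ j, v j (z⁻¹ * x) ≤ δ := by
  classical
  have h1 : ∀ i, ∃ a : K, 2 ≤ v i a := fun i => by
    obtain ⟨a, ha⟩ := (h i).exists_abv_gt_one
    obtain ⟨n, hn⟩ := pow_unbounded_of_one_lt 2 ha
    exact ⟨a ^ n, by rw [map_pow]; exact hn.le⟩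
  choose a ha using h1
  obtain ⟨B, hB⟩ := (Set.finite_range fun i => v i (a i)).bddAbove
  have hB' : ∀ i, v i (a i) ≤ B := fun i => hB ⟨i, rfl⟩
  set δ' := min δ 1 with hδ'
  have d0 : 0 < δ' := lt_min hδ one_pos
  have d1 : δ' ≤ 1 := min_le_right _ _
  have d2 : δ' ≤ δ := min_le_left _ _
  obtain ⟨c, hc⟩ := exists_nat_ge (B * (2 / δ'))
  refine ⟨c, fun n i T hT => ?_⟩
  have d3 : 2 ≤ 2 / δ' := by
    rw [le_div_iff₀ d0]
    linarith
  have hA := ha i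
  have hAB := hB' i
  obtain ⟨ε, e0, e1, e2⟩ : ∃ ε : ℝ, 0 < ε ∧ ε ≤ 1 ∧ ∀ z ∈ T, ∀ j, z ≠ 0 → ε ≤ δ * v j z := by
    have key : ∀ r : ℝ, 0 < r → ∀ᶠ ε in nhdsWithin (0 : ℝ) (Set.Ioi 0), ε ≤ r := fun r hr =>
      Filter.Eventually.filter_mono nhdsWithin_le_nhds (eventually_le_nhds hr)
    have k1 : ∀ᶠ ε in nhdsWithin (0 : ℝ) (Set.Ioi 0),
        ∀ z ∈ T, ∀ j, z ≠ 0 → ε ≤ δ * v j z := by
      rw [Filter.eventually_all_finite hT]
      intro z _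
      rw [Filter.eventually_all]
      intro j
      by_cases hz : z = 0
      · simp [hz]
      · exact (key _ (mul_pos hδ ((v j).pos hz))).mono fun ε hε _ => hε
    exact (eventually_mem_nhdsWithin.and ((key 1 one_pos).and k1)).exists
  obtain ⟨x, hx⟩ := weak h hv (fun j => if j = i then a i ^ (n + 1) else 0) e0
  have x1 : v i (x - a i ^ (n + 1)) ≤ 1 := by simpa using (hx i).trans e1
  have x2 : ∀ j, j ≠ i → v j x ≤ ε := fun j hj => by simpa [hj] using hx j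
  have p1 : (2 : ℝ) ^ (n + 1) ≤ v i (a i) ^ (n + 1) := pow_le_pow_left₀ (by norm_num) hA _
  have p2 : (1 : ℝ) ≤ 2 ^ n := one_le_pow₀ (by norm_num)
  have t1 : v i (a i) ^ (n + 1) ≤ v i x + 1 := by
    have := (v i).sub_le_add x (x - a i ^ (n + 1))
    rw [sub_sub_cancel, map_pow] at this
    linarith
  have t2 : v i x ≤ 1 + v i (a i) ^ (n + 1) := by
    have := (v i).add_le (x - a i ^ (n + 1)) (a i ^ (n + 1))
    rw [sub_add_cancel, map_pow] at this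
    linarith
  rw [pow_succ] at p1
  refine ⟨x, by linarith, fun j hj => (x2 j hj).trans e1, fun z hz hl j => ?_⟩
  by_cases z0 : z = 0
  · simpa [z0] using hδ.le
  have vz := (v j).pos z0
  rw [map_mul, map_inv₀, inv_mul_le_iff₀ vz, mul_comm]
  by_cases hj : j = i
  · subst hj
    rw [Real.le_log_iff_exp_le vz, Nat.cast_mul, mul_comm, Real.exp_nat_mul] at hl
    have q1 : v j (a j) * (2 / δ') ≤ Real.exp c := by
      have := Real.add_one_le_exp (c : ℝ)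
      have := mul_le_mul_of_nonneg_right hAB (show 0 ≤ 2 / δ' by positivity)
      linarith
    have q2 : (v j (a j) * (2 / δ')) ^ (n + 1) ≤ v j z :=
      (pow_le_pow_left₀ (by positivity) q1 _).trans hl
    have q3 : 2 / δ' ≤ (2 / δ') ^ (n + 1) := le_self_pow₀ (by linarith) (Nat.succ_ne_zero n)
    rw [mul_pow] at q2
    have q4 : v j (a j) ^ (n + 1) * (2 / δ') ≤ v j z :=
      (mul_le_mul_of_nonneg_left q3 (by positivity)).trans q2
    rw [← mul_div_assoc, div_le_iff₀ d0] at q4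
    have q5 := mul_le_mul_of_nonneg_left d2 vz.le
    linarith
  · exact (x2 j hj).trans (e2 z hz j z0)

/-- The infinite places and the finite places dividing `D`. -/
abbrev PP (K : Type) [Field K] [NumberField K] (D : ℕ) : Type :=
  InfinitePlace K ⊕ {w : FinitePlace K // w (D : K) < 1}

/-- The absolute value of a place. -/
def av {D : ℕ} : PP K D → AbsoluteValue K ℝ := Sum.elim (fun w => w.1) (fun w => w.1.1)

theorem av_inl {D : ℕ} (w : InfinitePlace K) (x : K) : av (Sum.inl w : PP K D) x = w x := rfl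

theorem av_inr {D : ℕ} (w : {w : FinitePlace K // w (D : K) < 1}) (x : K) :
    av (Sum.inr w : PP K D) x = w.1 x := rfl

theorem fin_set {D : ℕ} (hD : 0 < D) : {w : FinitePlace K | w (D : K) < 1}.Finite :=
  (FinitePlace.hasFiniteMulSupport (Nat.cast_ne_zero.2 hD.ne' : (D : K) ≠ 0)).subset
    fun _ hw => ne_of_lt hw

theorem fin_PP {D : ℕ} (hD : 0 < D) : Finite (PP K D) := by
  have : Finite {w : FinitePlace K // w (D : K) < 1} := (fin_set hD).to_subtype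
  infer_instance

theorem av_nontriv {D : ℕ} (hD : 0 < D) (p : PP K D) : (av p).IsNontrivial := by
  rcases p with w | w
  · exact w.isNontrivial
  · exact ⟨D, Nat.cast_ne_zero.2 hD.ne', w.2.ne⟩

theorem av_pair {D : ℕ} (hD : 0 < D) :
    Pairwise fun p q : PP K D => ¬ (av p).IsEquiv (av q) := by
  have mixed : ∀ (w : InfinitePlace K) (w' : {w : FinitePlace K // w (D : K) < 1}),
      ¬ (av (Sum.inl w : PP K D)).IsEquiv (av (Sum.inr w' : PP K D)) := fun w w' h => by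
    have h1 := (h.lt_one_iff (x := (D : K))).2 w'.2
    rw [av_inl, InfinitePlace.map_natCast] at h1
    have : (1 : ℝ) ≤ D := by exact_mod_cast hD
    linarith
  rintro (w | w) (w' | w') hne h
  · exact hne (congrArg Sum.inl ((InfinitePlace.eq_iff_isEquiv (K := K)).2 h))
  · exact mixed w w' h
  · exact mixed w' w h.symm
  · refine hne (congrArg Sum.inr (Subtype.ext (FinitePlace.maximalIdeal_injective
      (HeightOneSpectrum.ext (Ideal.ext fun x => ?_)))))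
    have := h.lt_one_iff (x := (x : K))
    rw [av_inr, av_inr, ← FinitePlace.norm_embedding_eq, ← FinitePlace.norm_embedding_eq] at this
    exact (FinitePlace.norm_lt_one_iff_mem K _ x).symm.trans
      (this.trans (FinitePlace.norm_lt_one_iff_mem K _ x))

theorem fp_ZD (w : FinitePlace K) {D : ℕ} (hw : w (D : K) < 1) {t : ℚ} (ht : t ∈ ZD D) :
    w (t : K) ≤ 1 := by
  rw [Rat.cast_def, map_div₀, fp_coprime w hw ht, div_one]
  exact fp_intc w _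

theorem ip_rat (w : InfinitePlace K) (t : ℚ) : w (t : K) = ((|t| : ℚ) : ℝ) := by
  rw [InfinitePlace.map_ratCast, ← Rat.norm_cast_real, Real.norm_eq_abs, Rat.cast_abs]

theorem av_rat {D : ℕ} (p : PP K D) {t : ℚ} (ht : t ∈ ZD D) (h1 : |t| ≤ 1) :
    av p (t : K) ≤ 1 := by
  rcases p with w | w
  · rw [av_inl, ip_rat]
    exact_mod_cast h1
  · exact fp_ZD w.1 w.2 ht

theorem av_rat' {D : ℕ} (hD : 0 < D) (R : ℕ) : ∃ c : ℝ, ∀ (p : PP K D) (t : ℚ),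
    (D : ℚ) ^ R * t ∈ ZD D → |t| ≤ R → av p (t : K) ≤ c := by
  have := fin_PP (K := K) hD
  obtain ⟨B, hB⟩ := (Set.finite_range fun p : PP K D => (av p (D : K) ^ R)⁻¹).bddAbove
  refine ⟨max R B, ?_⟩
  rintro (w | w) t ht h1
  · rw [av_inl, ip_rat]
    exact le_max_of_le_left (by exact_mod_cast h1)
  · refine le_max_of_le_right (le_trans ?_ (hB ⟨Sum.inr w, rfl⟩))
    have h2 := fp_ZD w.1 w.2 ht
    have h3 : 0 < w.1 (D : K) := FinitePlace.pos_iff.2 (Nat.cast_ne_zero.2 hD.ne')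
    push_cast at h2
    rw [map_mul, map_pow] at h2
    change w.1 (t : K) ≤ (w.1 (D : K) ^ R)⁻¹
    rw [← one_div, le_div_iff₀ (pow_pos h3 R)]
    linarith

theorem small {D : ℕ} (hD : 0 < D) (Λ : Set (K →ₗ[ℚ] ℚ)) (hΛ : Λ.Finite) (E : ℕ) :
    ∃ δ : ℝ, 0 < δ ∧ ∀ y : K, (∀ p : PP K D, av p y ≤ δ) → ∀ f ∈ Λ,
      (∃ t ∈ ZD D, f y = (D : ℚ) ^ E * t) ∧ |f y| ≤ (D ^ E * Module.finrank ℚ K : ℕ) := by
  have := fin_PP (K := K) hD
  have h1 : ∀ f : K →ₗ[ℚ] ℚ, ∃ a : K, ∀ y, f y = (D : ℚ) ^ E * Algebra.trace ℚ K (a * y) := by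
    intro f
    obtain ⟨a, ha⟩ := ((Algebra.traceForm ℚ K).toDual (traceForm_nondegenerate ℚ K)).surjective
      (((D : ℚ) ^ E)⁻¹ • f)
    refine ⟨a, fun y => ?_⟩
    have := congrArg (fun g : Module.Dual ℚ K => g y) ha
    simp only [LinearMap.BilinForm.toDual_def, Algebra.traceForm_apply, LinearMap.smul_apply,
      smul_eq_mul] at this
    rw [this, mul_inv_cancel_left₀ (pow_ne_zero _ (Nat.cast_ne_zero.2 hD.ne'))]
  choose a ha using h1
  obtain ⟨B, hB⟩ := (hΛ.biUnion fun f _ =>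
    Set.finite_range fun p : PP K D => av p (a f)).bddAbove
  refine ⟨1 / max B 1, by positivity, fun y hy f hf => ?_⟩
  have h2 : ∀ p : PP K D, av p (a f * y) ≤ 1 := fun p => by
    have b1 : av p (a f) ≤ max B 1 :=
      le_max_of_le_left (hB (Set.mem_biUnion hf ⟨p, rfl⟩))
    have b2 := hy p
    rw [le_div_iff₀ (by positivity)] at b2
    rw [map_mul]
    have := mul_le_mul_of_nonneg_left b1 ((av p).nonneg y)
    linarith
  refine ⟨⟨_, tr_ZD fun w hw => h2 (Sum.inr ⟨w, hw⟩), ha f y⟩, ?_⟩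
  rw [ha f y, abs_mul, abs_of_nonneg (by positivity : (0 : ℚ) ≤ (D : ℚ) ^ E)]
  push_cast
  exact mul_le_mul_of_nonneg_left (tr_abs fun w => h2 (Sum.inl w)) (by positivity)

theorem exists_D {Γ : Type} [Group Γ] (χ : Γ →* Kˣ) (S : Set Kˣ) (hS : S.Finite)
    (hχ : χ.range = Subgroup.closure S) (D0 : ℕ) (h0 : 0 < D0) :
    ∃ D, 0 < D ∧ D0 ∣ D ∧ ∀ w : FinitePlace K, ¬ w (D : K) < 1 → ∀ γ, w (χ γ : K) = 1 := by
  classical
  choose M hM hi using exists_nat_int (K := K)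
  refine ⟨D0 * ∏ s ∈ hS.toFinset, (M (s : K) * M ((s⁻¹ : Kˣ) : K)),
    Nat.mul_pos h0 (Finset.prod_pos fun s _ => Nat.mul_pos (hM _) (hM _)), dvd_mul_right _ _,
    fun w hw γ => ?_⟩
  have h1 : ∀ s ∈ S, w (s : K) = 1 := fun s hs => by
    have d : M (s : K) * M ((s⁻¹ : Kˣ) : K) ∣
        (D0 * ∏ s ∈ hS.toFinset, (M (s : K) * M ((s⁻¹ : Kˣ) : K))) ^ 1 := by
      rw [pow_one]
      exact (Finset.dvd_prod_of_mem _ (hS.mem_toFinset.2 hs)).mul_left _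
    have a1 := fp_of_int w (hi (s : K))
    have a2 := fp_of_int w (hi ((s⁻¹ : Kˣ) : K))
    rw [map_mul, fp_dvd w hw ((dvd_mul_right _ _).trans d), one_mul] at a1
    rw [map_mul, fp_dvd w hw ((dvd_mul_left _ _).trans d), one_mul] at a2
    have a3 : w (s : K) * w ((s⁻¹ : Kˣ) : K) = 1 := by rw [← map_mul, Units.mul_inv, map_one]
    have a4 := apply_nonneg w (s : K)
    nlinarith
  have h2 : χ γ ∈ Subgroup.closure S := hχ ▸ ⟨γ, rfl⟩
  generalize χ γ = u at h2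
  induction h2 using Subgroup.closure_induction with
  | mem s hs => exact h1 s hs
  | one => simp
  | mul x y _ _ hx hy => rw [Units.val_mul, map_mul, hx, hy, mul_one]
  | inv x _ hx => rw [Units.val_inv_eq_inv_val, map_inv₀, hx, inv_one]

theorem prod_one {D : ℕ} (hD : 0 < D) {x : K} (hx : x ≠ 0)
    (h1 : ∀ w : FinitePlace K, ¬ w (D : K) < 1 → w x = 1) (h2 : ∀ p : PP K D, 1 ≤ av p x)
    (p : PP K D) : av p x = 1 := by
  classical
  have hp := prod_abs_eq_one hx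
  rw [finprod_eq_prod_of_mulSupport_subset (s := (fin_set (K := K) hD).toFinset) _ (fun w hw => by
    by_contra hn
    exact hw (h1 w (by simpa using hn)))] at hp
  have p1 : ∀ w ∈ (Finset.univ : Finset (InfinitePlace K)), 1 ≤ w x ^ w.mult :=
    fun w _ => one_le_pow₀ (h2 (Sum.inl w))
  have p2 : ∀ w ∈ (fin_set (K := K) hD).toFinset, 1 ≤ w x :=
    fun w hw => h2 (Sum.inr ⟨w, by simpa using hw⟩)
  have q1 := Finset.one_le_prod p1
  have q2 := Finset.one_le_prod p2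
  rcases p with w | ⟨w, hw⟩
  · have := eq_one_of_prod _ _ p1 (by nlinarith) w (Finset.mem_univ w)
    exact (pow_eq_one_iff_of_nonneg (apply_nonneg _ _) w.mult_ne_zero).1 this
  · exact eq_one_of_prod _ _ p2 (by nlinarith) w (by simpa using hw)

theorem exists_nontriv {Γ : Type} [Group Γ] (χ : Γ →* Kˣ) (hinf : ¬ χ.ker.FiniteIndex) {D : ℕ}
    (h1 : ∀ w : FinitePlace K, ¬ w (D : K) < 1 → ∀ γ, w (χ γ : K) = 1) :
    ∃ (p : PP K D) (γ : Γ), av p (χ γ : K) ≠ 1 := by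
  by_contra hno
  push Not at hno
  apply hinf
  have h2 : (χ.range : Set Kˣ).Finite := by
    refine Set.Finite.of_finite_image (f := fun u : Kˣ => (u : K))
      ((Embeddings.finite_of_norm_le K ℂ 1).subset ?_) Units.val_injective.injOn
    rintro _ ⟨_, ⟨γ, rfl⟩, rfl⟩
    refine ⟨int_of_fp fun w => ?_, (InfinitePlace.le_iff_le _ _).1 fun w =>
      (hno (Sum.inl w) γ).le⟩
    by_cases hw : w (D : K) < 1
    · exact (hno (Sum.inr ⟨w, hw⟩) γ).le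
    · exact (h1 w hw γ).le
  have : Finite χ.range := h2.to_subtype
  infer_instance

theorem min_nonface {Γ ι : Type} [Group Γ] [Finite ι] (χ : Γ →* Kˣ) (v : ι → AbsoluteValue K ℝ)
    (h1 : ∃ (i : ι) (γ : Γ), v i (χ γ : K) ≠ 1)
    (h2 : ∀ γ, (∀ i, 1 ≤ v i (χ γ : K)) → ∀ i, v i (χ γ : K) = 1) :
    ∃ F : Finset ι, 2 ≤ F.card ∧ (∀ γ, ∃ i ∈ F, v i (χ γ : K) ≤ 1) ∧
      ∀ i0 ∈ F, ∃ γ, ∀ i ∈ F, i ≠ i0 → 1 < v i (χ γ : K) := by
  classical
  have := Fintype.ofFinite ι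
  let Q : Finset ι → Prop := fun F =>
    (∀ i ∈ F, ∃ γ, v i (χ γ : K) ≠ 1) ∧ ∀ γ, ∃ i ∈ F, v i (χ γ : K) ≤ 1
  have hQ : ∃ n, ∃ F, Q F ∧ F.card = n := by
    refine ⟨_, Finset.univ.filter fun i => ∃ γ, v i (χ γ : K) ≠ 1,
      ⟨fun i hi => (Finset.mem_filter.1 hi).2, fun γ => ?_⟩, rfl⟩
    by_contra hno
    push Not at hno
    obtain ⟨i, hi⟩ := h1
    refine (hno i (by simpa using hi)).ne' (h2 γ (fun j => ?_) i)
    by_cases hj : ∃ γ, v j (χ γ : K) ≠ 1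
    · exact (hno j (by simpa using hj)).le
    · push Not at hj
      exact (hj γ).ge
  obtain ⟨F, hF, hc⟩ := Nat.find_spec hQ
  have hmin : ∀ F', Q F' → F.card ≤ F'.card := fun F' h => hc ▸ Nat.find_min' hQ ⟨F', h, rfl⟩
  refine ⟨F, ?_, hF.2, fun i0 hi0 => ?_⟩
  · by_contra hlt
    have h3 : F.card ≤ 1 := by omega
    obtain ⟨i, hi, -⟩ := hF.2 1
    obtain ⟨γ, hγ⟩ := hF.1 i hi
    obtain ⟨j, hj, a1⟩ := hF.2 γ
    obtain ⟨j', hj', a2⟩ := hF.2 γ⁻¹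
    rw [Finset.card_le_one.1 h3 j hj i hi] at a1
    rw [Finset.card_le_one.1 h3 j' hj' i hi, map_inv, Units.val_inv_eq_inv_val, map_inv₀,
      inv_le_one₀ ((v i).pos (χ γ).ne_zero)] at a2
    exact hγ (le_antisymm a1 a2)
  · by_contra hno
    push Not at hno
    have := hmin (F.erase i0) ⟨fun i hi => hF.1 i (Finset.mem_of_mem_erase hi), fun γ => by
      obtain ⟨i, hi, hne, hle⟩ := hno γ
      exact ⟨i, Finset.mem_erase.2 ⟨hne, hi⟩, hle⟩⟩
    exact absurd (Finset.card_erase_lt_of_mem hi0) (not_lt.2 this)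

end Pl

theorem exists_places {Γ K : Type} [Group Γ] [Field K] [NumberField K] (χ : Γ →* Kˣ)
    (S : Set Kˣ) (hS : S.Finite) (hχ : χ.range = Subgroup.closure S)
    (hinf : ¬ χ.ker.FiniteIndex) (D0 : ℕ) (h0 : 0 < D0) :
    ∃ D, 0 < D ∧ D0 ∣ D ∧ ∃ (J : Type) (_ : Fintype J), Nonempty (Places χ J D) := by
  obtain ⟨D, hD, hd, h1⟩ := Pl.exists_D χ S hS hχ D0 h0
  have := Pl.fin_PP (K := K) hD
  obtain ⟨F, hc, hn, hf⟩ := Pl.min_nonface χ (Pl.av (K := K) (D := D))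
    (Pl.exists_nontriv χ hinf h1)
    (fun γ h => Pl.prod_one hD (χ γ).ne_zero (fun w hw => h1 w hw γ) h)
  refine ⟨D, hD, hd, F, inferInstance, ⟨⟨fun j => Pl.av j.1, by simpa using hc, fun γ => ?_,
    fun j0 => ?_, fun j t ht h => Pl.av_rat j.1 ht h, fun R => ?_, fun Λ hΛ E => ?_⟩⟩⟩
  · obtain ⟨i, hi, h⟩ := hn γ
    exact ⟨⟨i, hi⟩, h⟩
  · obtain ⟨γ, h⟩ := hf j0.1 j0.2
    exact ⟨γ, fun j hj => h j.1 j.2 fun e => hj (Subtype.ext e)⟩
  · obtain ⟨c, h⟩ := Pl.av_rat' (K := K) hD R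
    exact ⟨c, fun j => h j.1⟩
  · obtain ⟨δ, hδ, h2⟩ := Pl.small hD Λ hΛ E
    obtain ⟨c, h3⟩ := Pl.big (Pl.av_nontriv (K := K) hD) (Pl.av_pair hD) hδ
    refine ⟨c, D ^ E * Module.finrank ℚ K, fun n j T hT => ?_⟩
    obtain ⟨x, a1, a2, a3⟩ := h3 n j.1 T hT
    exact ⟨x, a1, fun j' hj => a2 j'.1 fun e => hj (Subtype.ext e),
      fun z hz hl => h2 _ (a3 z hz hl)⟩

end Pool.Agent.Lib.MP_2fb4be_al.Sol
end
end

-- part Pool.Agent.Lib.MP_2fb4be_al.Sol.Cartan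
section

-- part Pool.Agent.Lib.MP_2fb4be_al.Sol.Push
section

/-!
The ambient group obtained by replacing the nilpotent normal subgroup by its divisible hull.
-/

set_option autoImplicit false

noncomputable section

namespace Pool.Agent.Lib.MP_2fb4be_al.Sol

namespace Pu

/-- Conjugation by a unit. -/
def cj {A : Type} [Ring A] [Algebra ℚ A] : Aˣ →* (A ≃ₐ[ℚ] A) where
  toFun u :=
    { toFun := fun a => u * a * (u⁻¹ : Aˣ)
      invFun := fun a => (u⁻¹ : Aˣ) * a * u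
      left_inv := fun a => by simp [mul_assoc]
      right_inv := fun a => by simp [mul_assoc]
      map_mul' := fun a b => by simp [mul_assoc]
      map_add' := fun a b => by simp [mul_add, add_mul]
      commutes' := fun r => by
        rw [← Algebra.commutes, mul_assoc, Units.mul_inv, mul_one] }
  map_one' := by ext; simp
  map_mul' u v := by ext; simp [mul_assoc]

theorem cj_apply {A : Type} [Ring A] [Algebra ℚ A] (u : Aˣ) (a : A) :
    cj u a = u * a * (u⁻¹ : Aˣ) := rfl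

variable {G : Type} [Group G] {N : Subgroup G} (M : NilModel G N)

/-- The action on units. -/
def ac (g : G) : M.Aˣ →* M.Aˣ := Units.map (M.α g : M.A →* M.A)

theorem ac_val (g : G) (u : M.Aˣ) : (ac M g u : M.A) = M.α g u := rfl

theorem ac_mul (g h : G) (u : M.Aˣ) : ac M (g * h) u = ac M g (ac M h u) :=
  Units.ext (by simp [ac_val])

theorem ac_one (u : M.Aˣ) : ac M 1 u = u := Units.ext (by simp [ac_val])

theorem ac_N (n : N) (u : M.Aˣ) : ac M n u = M.ι n * u * (M.ι n)⁻¹ :=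
  Units.ext (by rw [ac_val, M.inner]; rfl)

theorem ac_ι [hN : N.Normal] (g : G) (n : N) :
    ac M g (M.ι n) = M.ι ⟨g * n * g⁻¹, hN.conj_mem _ n.2 g⟩ :=
  Units.ext (M.conj g n _ rfl)

theorem ac_iso [N.Normal] (g : G) {u : M.Aˣ} (hu : Iso M.nil M.ι.range 1 u) :
    Iso M.nil M.ι.range 1 (ac M g u) := by
  obtain ⟨h0, m, hm, hc, n, hn⟩ := hu
  refine ⟨?_, m, hm, hc, ?_⟩
  · have h1 : (u : M.A) - 1 ∈ M.I := by simpa [mem_Ul] using h0
    have := M.inv_I Set.univ g trivial _ h1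
    simpa [mem_Ul, ac_val] using this
  · rw [← map_pow, ← hn, ac_ι]
    exact ⟨_, rfl⟩

variable {M}

/-- The action on the divisible hull. -/
def phi [N.Normal] (U : Subgroup M.Aˣ) (hU : ∀ u, u ∈ U ↔ Iso M.nil M.ι.range 1 u) :
    G →* MulAut U where
  toFun g :=
    { toFun := fun u => ⟨ac M g u, (hU _).2 (ac_iso M g ((hU _).1 u.2))⟩
      invFun := fun u => ⟨ac M g⁻¹ u, (hU _).2 (ac_iso M g⁻¹ ((hU _).1 u.2))⟩
      left_inv := fun u => Subtype.ext (by simp [← ac_mul, ac_one])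
      right_inv := fun u => Subtype.ext (by simp [← ac_mul, ac_one])
      map_mul' := fun u v => Subtype.ext (by simp) }
  map_one' := by ext u; simp [ac_one]
  map_mul' g h := by ext u; simp [ac_mul]

theorem phi_val [N.Normal] (U : Subgroup M.Aˣ) (hU : ∀ u, u ∈ U ↔ Iso M.nil M.ι.range 1 u)
    (g : G) (u : U) : (phi U hU g u : M.Aˣ) = ac M g u := rfl

theorem phi_symm [N.Normal] (U : Subgroup M.Aˣ) (hU : ∀ u, u ∈ U ↔ Iso M.nil M.ι.range 1 u)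
    (g : G) (u : U) : ((phi U hU g).symm u : M.Aˣ) = ac M g⁻¹ u := rfl

/-- The antidiagonal copy of `N`. -/
def Dl [N.Normal] (U : Subgroup M.Aˣ) (hU : ∀ u, u ∈ U ↔ Iso M.nil M.ι.range 1 u) :
    Subgroup (U ⋊[phi U hU] G) where
  carrier := {x | ∃ n : N, x.right = n ∧ (x.left : M.Aˣ) = (M.ι n)⁻¹}
  one_mem' := ⟨1, rfl, by simp⟩
  mul_mem' := by
    rintro x y ⟨n, h1, h2⟩ ⟨n', h1', h2'⟩
    refine ⟨n * n', by simp [h1, h1'], ?_⟩
    rw [SemidirectProduct.mul_left, Subgroup.coe_mul, phi_val, h1, h2, h2', ac_N, map_mul]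
    group
  inv_mem' := by
    rintro x ⟨n, h1, h2⟩
    refine ⟨n⁻¹, by simp [h1], ?_⟩
    rw [SemidirectProduct.inv_left, phi_val, h1, Subgroup.coe_inv, h2, ← Subgroup.coe_inv, ac_N,
      map_inv]
    group

theorem Dl_normal [hN : N.Normal] (U : Subgroup M.Aˣ)
    (hU : ∀ u, u ∈ U ↔ Iso M.nil M.ι.range 1 u) : (Dl U hU).Normal := by
  refine ⟨?_⟩
  rintro x ⟨n, h1, h2⟩ y
  refine ⟨⟨y.right * n * y.right⁻¹, hN.conj_mem _ n.2 _⟩, by simp [h1], ?_⟩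
  rw [SemidirectProduct.mul_left, SemidirectProduct.mul_left, SemidirectProduct.inv_left,
    Subgroup.coe_mul, Subgroup.coe_mul, phi_val, phi_val, phi_val, h2, ← ac_mul,
    SemidirectProduct.mul_right, h1, map_inv, ac_ι]
  have := ac_N M ⟨y.right * n * y.right⁻¹, hN.conj_mem _ n.2 _⟩ (y.left⁻¹ : U)
  rw [this, Subgroup.coe_inv]
  group

/-- The action of the semidirect product on the algebra. -/
def rho [N.Normal] (U : Subgroup M.Aˣ) (hU : ∀ u, u ∈ U ↔ Iso M.nil M.ι.range 1 u) :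
    U ⋊[phi U hU] G →* (M.A ≃ₐ[ℚ] M.A) :=
  SemidirectProduct.lift (cj.comp U.subtype) M.α (by
    intro g
    ext u a
    have : M.α g (M.α g⁻¹ a) = a := by rw [← AlgEquiv.mul_apply, ← map_mul]; simp
    simp [cj_apply, phi_val, ← map_inv, ac_val, this])

theorem ι_mem_U (U : Subgroup M.Aˣ) (hU : ∀ u, u ∈ U ↔ Iso M.nil M.ι.range 1 u) (n : N) :
    M.ι n ∈ U := (hU _).2 ⟨M.ι_mem n, 1, one_pos, by simp, by simp⟩

end Pu

open Pu SemidirectProduct in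
theorem exists_push {G : Type} [Group G] {N : Subgroup G} [N.Normal] (M : NilModel G N) :
    Nonempty (Push M) := by
  obtain ⟨U, hU0, hpw⟩ := exists_iso M.nil M.ι.range
  have hU : ∀ u, u ∈ U ↔ Iso M.nil M.ι.range 1 u := fun u => by
    rw [hU0, Iso]
    simp
  have := Dl_normal U hU
  have hk : ∀ x ∈ Dl U hU, rho U hU x = 1 := by
    rintro x ⟨n, h1, h2⟩
    rw [← inl_left_mul_inr_right x, map_mul, rho, lift_inl, lift_inr, h1]
    ext a
    change cj (x.left : M.Aˣ) (M.α n a) = a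
    rw [cj_apply, h2, M.inner]
    simp [mul_assoc]
  let q := QuotientGroup.mk' (Dl U hU)
  have hq : ∀ x y, q x = q y ↔ x⁻¹ * y ∈ Dl U hU := fun x y => QuotientGroup.eq
  have hc : ∀ (g : G) (u : U), q (inr g) * q (inl u) * (q (inr g))⁻¹ = q (inl (phi U hU g u)) := by
    intro g u
    rw [inl_aut, map_mul, map_mul, map_inv, map_inv]
  refine ⟨{ Γ := (U ⋊[phi U hU] G) ⧸ Dl U hU
            U := U
            i := q.comp inr
            j := q.comp inl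
            ρ := QuotientGroup.lift _ (rho U hU) hk
            hU := hU
            hpw := hpw
            j_inj := ?_
            ρ_i := fun g => ?_
            ρ_j := fun u a => ?_
            conj := ?_
            i_ι := ?_
            dec := ?_
            mem := ?_ }⟩
  · rw [injective_iff_map_eq_one]
    intro u hu
    obtain ⟨n, h1, h2⟩ := (QuotientGroup.eq_one_iff _).1 hu
    have : n = 1 := Subtype.ext h1.symm
    rw [this, map_one, inv_one] at h2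
    exact Subtype.ext h2
  · change rho U hU (inr g) = _
    rw [rho, lift_inr]
  · change rho U hU (inl u) a = _
    rw [rho, lift_inl]
    rfl
  · intro γ u
    obtain ⟨x, rfl⟩ := QuotientGroup.mk'_surjective (Dl U hU) γ
    refine ⟨x.left * phi U hU x.right u * x.left⁻¹, ?_, ?_⟩
    · change _ = rho U hU x _
      conv_rhs => rw [← inl_left_mul_inr_right x, map_mul, rho, lift_inl, lift_inr]
      rfl
    · change q x * q (inl u) * (q x)⁻¹ = q (inl _)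
      conv_lhs => rw [← inl_left_mul_inr_right x]
      rw [map_mul, map_mul, map_mul, map_mul, map_mul, ← hc, map_inv, map_inv]
      group
  · intro n u h
    change q (inl u) = q (inr n)
    rw [hq]
    exact ⟨n, by simp, by simp [h]⟩
  · intro γ
    obtain ⟨x, rfl⟩ := QuotientGroup.mk'_surjective (Dl U hU) γ
    refine ⟨x.left, x.right, ?_⟩
    change q x = q (inl _) * q (inr _)
    rw [← map_mul, inl_left_mul_inr_right]
  · intro g u h
    obtain ⟨n, h1, -⟩ := (hq (inl u) (inr g)).1 h.symm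
    have : g = n := by simpa using h1
    rw [this]
    exact n.2

theorem Push.pow_mem {G : Type} [Group G] {N : Subgroup G} [N.Normal] {M : NilModel G N}
    (P : Push M) (γ : P.Γ) : ∃ m : ℕ, 0 < m ∧ γ ^ m ∈ P.i.range := by
  obtain ⟨u, g, rfl⟩ := P.dec γ
  obtain ⟨h0, m, hm, -, n, hn⟩ := (P.hU _).1 u.2
  let X : Set M.Aˣ := Set.range fun g' => Pu.ac M g' u
  have hX : X ⊆ Ul M.nil 0 := by
    rintro _ ⟨g', rfl⟩
    exact (Pu.ac_iso M g' ((P.hU _).1 u.2)).1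
  have hp : ∀ x ∈ X, x ^ m ∈ M.ι.range := by
    rintro _ ⟨g', rfl⟩
    change Pu.ac M g' u ^ m ∈ _
    rw [← map_pow, ← hn, Pu.ac_ι]
    exact ⟨_, rfl⟩
  have hr := relIndex_ne_zero M.nil M.ι.range X hX m hm hp
  have key : ∀ s : ℕ, ∃ v : P.U, (v : M.Aˣ) ∈ Subgroup.closure X ∧
      (P.j u * P.i g) ^ s = P.j v * P.i (g ^ s) := by
    intro s
    induction s with
    | zero => exact ⟨1, one_mem _, by simp⟩
    | succ s ih =>
      obtain ⟨v, hv, e⟩ := ih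
      obtain ⟨u', h1, h2⟩ := P.conj (P.i (g ^ s)) u
      refine ⟨v * u', mul_mem hv (Subgroup.subset_closure ⟨g ^ s, Units.ext ?_⟩), ?_⟩
      · rw [h1, P.ρ_i]
        rfl
      · rw [pow_succ, e, map_mul, ← h2, pow_succ, map_mul]
        group
  choose v hv e using key
  have : Finite (Subgroup.closure X ⧸ M.ι.range.subgroupOf (Subgroup.closure X)) :=
    Subgroup.index_ne_zero_iff_finite.1 hr
  have main : ∀ s t, s < t → (v s : M.Aˣ)⁻¹ * v t ∈ M.ι.range →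
      ∃ m : ℕ, 0 < m ∧ (P.j u * P.i g) ^ m ∈ P.i.range := by
    rintro s t hst ⟨n', hn'⟩
    refine ⟨t - s, by omega, (g ^ s)⁻¹ * n' * g ^ t, ?_⟩
    have h1 := P.i_ι n' ((v s)⁻¹ * v t) hn'.symm
    rw [pow_sub _ hst.le]
    have h2 : (P.j u * P.i g) ^ t * ((P.j u * P.i g) ^ s)⁻¹ =
        ((P.j u * P.i g) ^ s)⁻¹ * (P.j u * P.i g) ^ t :=
      ((Commute.pow_pow_self _ t s).inv_right).eq
    rw [h2, e, e, map_mul, map_mul, ← h1, map_mul, map_inv, map_inv]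
    group
  obtain ⟨s, t, hst, h⟩ := Finite.exists_ne_map_eq_of_infinite fun s : ℕ =>
    ((⟨v s, hv s⟩ : Subgroup.closure X) :
      Subgroup.closure X ⧸ M.ι.range.subgroupOf (Subgroup.closure X))
  rcases lt_or_gt_of_ne hst with hl | hl
  · have h' := QuotientGroup.eq.1 h
    exact main s t hl h'
  · have h' := QuotientGroup.eq.1 h.symm
    exact main t s hl h'

theorem Push.comm_mem {G : Type} [Group G] {M : NilModel G (commutator G)} (P : Push M)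
    (γ δ : P.Γ) : ∃ u, γ * δ * γ⁻¹ * δ⁻¹ = P.j u := by
  have hn : P.j.range.Normal := ⟨by
    rintro _ ⟨u, rfl⟩ γ
    obtain ⟨u', -, h⟩ := P.conj γ u
    exact ⟨u', h.symm⟩⟩
  let q := QuotientGroup.mk' P.j.range
  have hj : ∀ u, q (P.j u) = 1 := fun u => (QuotientGroup.eq_one_iff _).2 ⟨u, rfl⟩
  obtain ⟨u, g, rfl⟩ := P.dec γ
  obtain ⟨v, h, rfl⟩ := P.dec δ
  have hm : g * h * g⁻¹ * h⁻¹ ∈ commutator G :=
    Subgroup.commutator_mem_commutator (Subgroup.mem_top g) (Subgroup.mem_top h)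
  have h1 := P.i_ι ⟨_, hm⟩ ⟨_, Pu.ι_mem_U P.U P.hU ⟨_, hm⟩⟩ rfl
  have h2 : q (P.i (g * h * g⁻¹ * h⁻¹)) = 1 := by
    rw [← hj, h1]
  have h3 : q (P.j u * P.i g * (P.j v * P.i h) * (P.j u * P.i g)⁻¹ * (P.j v * P.i h)⁻¹) = 1 := by
    simp only [map_mul, map_inv, hj, one_mul] at h2 ⊢
    exact h2
  obtain ⟨w, hw⟩ := (QuotientGroup.eq_one_iff _).1 h3
  exact ⟨w, hw.symm⟩

end Pool.Agent.Lib.MP_2fb4be_al.Sol
end
end

-- part Pool.Agent.Lib.MP_2fb4be_al.Sol.Cartan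
section

/-! The Cartan subgroup step. -/

set_option autoImplicit false

noncomputable section

namespace Pool.Agent.Lib.MP_2fb4be_al.Sol

namespace Ca

section lin

variable {Γ V : Type} [Group Γ] [AddCommGroup V] [Module ℚ V]

/-- The generalised kernel. -/
def E (f : Module.End ℚ V) : Submodule ℚ V where
  carrier := {x | ∃ l : ℕ, (f ^ l) x = 0}
  zero_mem' := ⟨0, by simp⟩
  add_mem' := by
    rintro x y ⟨l, hl⟩ ⟨m, hm⟩
    refine ⟨l + m, ?_⟩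
    rw [map_add]
    nth_rewrite 1 [add_comm l m]
    rw [pow_add, pow_add, Module.End.mul_apply, Module.End.mul_apply, hl, hm, map_zero, map_zero,
      add_zero]
  smul_mem' := by
    rintro c x ⟨l, hl⟩
    exact ⟨l, by rw [map_smul, hl, smul_zero]⟩

theorem E_of {f : Module.End ℚ V} {x : V} (h : f x ∈ E f) : x ∈ E f := by
  obtain ⟨l, hl⟩ := h
  exact ⟨l + 1, by rw [pow_succ, Module.End.mul_apply, hl]⟩

theorem E_map {V' : Type} [AddCommGroup V'] [Module ℚ V'] {f : Module.End ℚ V}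
    {f' : Module.End ℚ V'} (φ : V →ₗ[ℚ] V') (h : ∀ x, φ (f x) = f' (φ x)) {x : V}
    (hx : x ∈ E f) : φ x ∈ E f' := by
  obtain ⟨l, hl⟩ := hx
  refine ⟨l, ?_⟩
  have : ∀ (l : ℕ) (x : V), φ ((f ^ l) x) = (f' ^ l) (φ x) := by
    intro l
    induction l with
    | zero => simp
    | succ l ih => intro x; simp [pow_succ, ih, h]
  rw [← this, hl, map_zero]

theorem E_bilin {V' V'' : Type} [AddCommGroup V'] [Module ℚ V'] [AddCommGroup V''] [Module ℚ V'']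
    {f : Module.End ℚ V} {f' : Module.End ℚ V'} {f'' : Module.End ℚ V''}
    (β : V →ₗ[ℚ] V' →ₗ[ℚ] V'') (hβ : ∀ x y, f'' (β x y) = β (f x) (f' y)) {x : V} {y : V'}
    (hx : x ∈ E (f - 1)) (hy : y ∈ E (f' - 1)) : β x y ∈ E (f'' - 1) := by
  obtain ⟨a, ha⟩ := hx
  obtain ⟨b, hb⟩ := hy
  have := Zs_bilin (ρ := fun _ : Unit => f) (ρ' := fun _ => f') (ρ'' := fun _ => f'') (S := {()})
    β (fun _ _ => hβ) (X0 := ⊤) (X1 := ⊥) (Y0 := ⊤) (Y1 := ⊥) (Z1 := ⊥)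
    (fun _ _ _ _ => trivial) (fun _ _ _ _ => trivial) Inv.bot Inv.bot
    (fun x hx y _ => by rw [(Submodule.mem_bot ℚ).1 hx]; simp)
    (fun x _ y hy => by rw [(Submodule.mem_bot ℚ).1 hy]; simp) (a + b) a b rfl x trivial y trivial
    (mem_Zs_single.2 ha) (mem_Zs_single.2 hb)
  exact ⟨a + b, mem_Zs_single.1 this⟩

theorem pow_sub_mem {f : Module.End ℚ V} {W : Submodule ℚ V} (h : ∀ x ∈ W, f x ∈ W) (l : ℕ)
    {x : V} (hx : x ∈ W) : ((f - 1) ^ l) x ∈ W :=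
  Module.End.pow_apply_mem_of_forall_mem l (fun y hy => sub_mem (h y hy) hy) x hx

theorem inv_of_inv [FiniteDimensional ℚ V] (π : Γ →* Module.End ℚ V) {W : Submodule ℚ V} {γ : Γ}
    (h : ∀ x ∈ W, π γ⁻¹ x ∈ W) : ∀ x ∈ W, π γ x ∈ W := by
  have hi : ∀ x, π γ (π γ⁻¹ x) = x := fun x => by
    rw [← Module.End.mul_apply, ← map_mul, mul_inv_cancel, map_one, Module.End.one_apply]
  have hinj : Function.Injective ((π γ⁻¹).restrict h) := fun x y hxy =>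
    Subtype.ext (by rw [← hi x, ← hi y]; exact congrArg (π γ) (congrArg Subtype.val hxy))
  intro x hx
  obtain ⟨y, hy⟩ := LinearMap.surjective_of_injective hinj ⟨x, hx⟩
  have : π γ⁻¹ y = x := congrArg Subtype.val hy
  rw [← this, hi]
  exact y.2

/-- A filtered module on whose layers the set `J` acts trivially. -/
structure Fil (π : Γ →* Module.End ℚ V) (J : Set Γ) (F : ℕ → Submodule ℚ V) (k : ℕ) : Prop where
  inv : ∀ i, Inv π Set.univ (F i)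
  le : ∀ i, F (i + 1) ≤ F i
  bot : F k = ⊥
  triv : ∀ w ∈ J, ∀ i, ∀ x ∈ F i, π w x - x ∈ F (i + 1)

variable {π : Γ →* Module.End ℚ V} {J : Set Γ} {F : ℕ → Submodule ℚ V} {k : ℕ}

theorem down {Q : ℕ → Prop} (hk : Q k) (h : ∀ i < k, Q (i + 1) → Q i) : Q 0 :=
  Nat.decreasingInduction (fun i hi => h i hi) hk (Nat.zero_le k)

theorem M0_inv (h : Fil π J F k) (g : Γ) : ∀ x ∈ F 0 ⊓ E (π g - 1), π g x ∈ F 0 ⊓ E (π g - 1) :=
  fun x hx => ⟨h.inv 0 g trivial x hx.1, E_map (π g) (fun x => by simp) hx.2⟩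

theorem Fil.conj [FiniteDimensional ℚ V] (h : Fil π J F k) {g γ : Γ}
    (hw : γ * g * γ⁻¹ * g⁻¹ ∈ J)
    (hp : ∀ x ∈ F 0 ⊓ E (π g - 1), π (γ * g * γ⁻¹ * g⁻¹) x ∈ F 0 ⊓ E (π g - 1)) :
    (∀ x ∈ F 0 ⊓ E (π g - 1), π γ x ∈ F 0 ⊓ E (π g - 1)) ∧
      ∀ x ∈ F 0 ⊓ E (π g - 1), π γ⁻¹ x ∈ F 0 ⊓ E (π g - 1) := by
  have key : ∀ x ∈ F 0 ⊓ E (π g - 1), x ∈ F 0 → x ∈ E (π (γ * g * γ⁻¹) - 1) := by
    refine down (k := k) (Q := fun i => ∀ x ∈ F 0 ⊓ E (π g - 1), x ∈ F i →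
      x ∈ E (π (γ * g * γ⁻¹) - 1)) (fun x _ hx => ?_) fun i _ ih => ?_
    · rw [h.bot, Submodule.mem_bot] at hx
      rw [hx]
      exact zero_mem _
    · have : ∀ l : ℕ, ∀ x ∈ F 0 ⊓ E (π g - 1), x ∈ F i → ((π g - 1) ^ l) x ∈ F (i + 1) →
          x ∈ E (π (γ * g * γ⁻¹) - 1) := by
        intro l
        induction l with
        | zero => exact fun x hx _ h1 => ih x hx (by simpa using h1)
        | succ l ihl =>
          intro x hx hi h1
          refine E_of ?_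
          have e : (π (γ * g * γ⁻¹) - 1) x =
              (π g x - x) + (π (γ * g * γ⁻¹ * g⁻¹) (π g x) - π g x) := by
            rw [← Module.End.mul_apply, ← map_mul, inv_mul_cancel_right]
            simp
          have h2 := M0_inv h g x hx
          rw [e]
          refine add_mem (ihl _ (sub_mem h2 hx) (sub_mem (h.inv i g trivial x hi) hi) ?_)
            (ih _ (sub_mem (hp _ h2) h2) (h.triv _ hw i _ (h.inv i g trivial x hi)))
          rwa [pow_succ, Module.End.mul_apply] at h1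
      intro x hx hi
      obtain ⟨l, hl⟩ := hx.2
      exact this l x hx hi (by rw [hl]; exact zero_mem _)
  have k2 : ∀ x ∈ F 0 ⊓ E (π g - 1), π γ⁻¹ x ∈ F 0 ⊓ E (π g - 1) := fun x hx =>
    ⟨h.inv 0 _ trivial x hx.1, E_map (π γ⁻¹) (fun y => by
      simp only [LinearMap.sub_apply, map_sub, Module.End.one_apply, ← Module.End.mul_apply,
        ← map_mul, ← mul_assoc, inv_mul_cancel, one_mul]) (key x hx hx.1)⟩
  exact ⟨inv_of_inv π k2, k2⟩

theorem Fil.comm (h : Fil π J F k) (hJ : ∀ γ δ, γ * δ * γ⁻¹ * δ⁻¹ ∈ J) (i : ℕ) (γ δ : Γ) :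
    ∀ x ∈ F i, π γ (π δ x) - π δ (π γ x) ∈ F (i + 1) := by
  intro x hx
  have := h.triv _ (hJ γ δ) i _ (h.inv i δ trivial _ (h.inv i γ trivial x hx))
  simp only [← Module.End.mul_apply, ← map_mul, ← mul_assoc, inv_mul_cancel_right] at this ⊢
  exact this

theorem Fil.unip [FiniteDimensional ℚ V] (h : Fil π J F k)
    (hJ : ∀ γ δ, γ * δ * γ⁻¹ * δ⁻¹ ∈ J) : ∃ 𝒦 : Set (Subgroup Γ), 𝒦.Finite ∧
      ∀ (B : Subgroup Γ) (g : Γ), (∀ κ ∈ 𝒦, g ∈ κ → B ≤ κ) → Inv π B (F 0 ⊓ E (π g - 1)) →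
        ∃ e, ∀ e', e ≤ e' → F 0 ⊓ E (π g - 1) ≤ Zs π B ⊥ e' := by
  choose 𝒦 e h1 h2 _ using fun i =>
    comm_lemma π (F i) (F (i + 1)) (h.le i) (h.inv i) (h.inv (i + 1)) (h.comm hJ i)
  refine ⟨⋃ i ∈ Set.Iio k, 𝒦 i, (Set.finite_Iio k).biUnion fun i _ => h1 i, fun B g hB hI => ?_⟩
  have key : ∃ e, (F 0 ⊓ E (π g - 1)) ⊓ F 0 ≤ Zs π B ⊥ e := by
    refine down (k := k) (Q := fun i => ∃ e, (F 0 ⊓ E (π g - 1)) ⊓ F i ≤ Zs π B ⊥ e)
      ⟨0, by rw [h.bot]; exact inf_le_right⟩ fun i hi ⟨e', he'⟩ => ⟨e' + e i, Zs_trans ?_ he'⟩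
    refine le_trans (inf_le_inf_left _ ?_ |>.trans' (le_inf inf_le_left le_rfl))
      (inf_Zs_le hI (e i))
    intro x hx
    obtain ⟨l, hl⟩ := hx.1.2
    exact h2 i B g (fun κ hκ => hB κ (Set.mem_biUnion hi hκ)) l x hx.2 (by rw [hl]; exact zero_mem _)
  obtain ⟨e, he⟩ := key
  exact ⟨e, fun e' hle => (le_inf le_rfl inf_le_left).trans (he.trans (Zs_mono Inv.bot hle))⟩

theorem choose_g {𝒦 : Set (Subgroup Γ)} (h : 𝒦.Finite) : ∃ (B : Subgroup Γ) (g : Γ),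
    B.FiniteIndex ∧ ∀ κ ∈ 𝒦, (κ.FiniteIndex → B ≤ κ) ∧ (g ∈ κ → κ.FiniteIndex) := by
  obtain ⟨s, hs⟩ := (h.subset (Set.sep_subset 𝒦 fun κ => κ.FiniteIndex)).exists_finset_coe
  obtain ⟨t, ht⟩ := (h.subset (Set.sep_subset 𝒦 fun κ => ¬ κ.FiniteIndex)).exists_finset_coe
  have hs' : ∀ κ, κ ∈ s ↔ κ ∈ 𝒦 ∧ κ.FiniteIndex := fun κ => by rw [← Finset.mem_coe, hs]; rfl
  have ht' : ∀ κ, κ ∈ t ↔ κ ∈ 𝒦 ∧ ¬ κ.FiniteIndex := fun κ => by rw [← Finset.mem_coe, ht]; rfl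
  have h1 : ∃ g : Γ, ∀ κ ∈ 𝒦, g ∈ κ → κ.FiniteIndex := by
    by_contra! hc
    obtain ⟨κ, hκ, h2⟩ := Subgroup.exists_finiteIndex_of_leftCoset_cover (H := fun κ => κ)
      (g := fun _ => (1 : Γ)) (s := t) (by
        refine Set.eq_univ_of_forall fun g => ?_
        obtain ⟨κ, a, b, c⟩ := hc g
        simp only [Set.mem_iUnion]
        exact ⟨κ, (ht' κ).2 ⟨a, c⟩, g, b, one_mul g⟩)
    exact ((ht' κ).1 hκ).2 h2
  obtain ⟨g, hg⟩ := h1
  exact ⟨⨅ κ ∈ s, κ, g, Subgroup.finiteIndex_iInf' (fun κ => κ) fun κ hκ => ((hs' κ).1 hκ).2,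
    fun κ hκ => ⟨fun hf => iInf₂_le κ ((hs' κ).2 ⟨hκ, hf⟩), hg κ hκ⟩⟩

end lin

section alg

variable {A : Type} [Ring A] [Algebra ℚ A] {I : Submodule ℚ A} {k : ℕ}

theorem nil0 (h : NilI I k) {u : Aˣ} (hu : u ∈ Ul h 0) : IsNilpotent ((u : A) - 1) :=
  Mal.nil_Ul h hu

theorem mem0 (h : NilI I k) {u : Aˣ} : u ∈ Ul h 0 ↔ (u : A) - 1 ∈ I := by
  rw [mem_Ul, zero_add, pow_one]

/-- Units congruent to one modulo a multiplicatively closed subspace. -/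
def UW (h : NilI I k) (W : Submodule ℚ A) (h1 : W ≤ I) (h2 : W * W ≤ W) : Subgroup Aˣ where
  carrier := {u | (u : A) - 1 ∈ W}
  one_mem' := by simp
  mul_mem' := fun {u v} hu hv => by
    have e : ((u * v : Aˣ) : A) - 1 = (u - 1) * (v - 1) + (u - 1) + (v - 1) := by
      rw [Units.val_mul]; noncomm_ring
    change _ ∈ W
    rw [e]
    exact add_mem (add_mem (h2 (Submodule.mul_mem_mul hu hv)) hu) hv
  inv_mem' := fun {u} hu => by
    have hn : IsNilpotent ((u : A) - 1) := Ex.nil h (h1 hu)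
    have := h.ex_sub h1 h2 (neg_mem (h.lg_sub h1 h2 hu))
    rwa [ex_neg (lg_nil hn), ex_lg hn] at this

/-- `u` lies in layer `a` and has leading term `y`. -/
def Lead (h : NilI I k) (a : ℕ) (u : Aˣ) (y : A) : Prop :=
  u ∈ Ul h a ∧ (u : A) - 1 - y ∈ I ^ (a + 2)

variable {h : NilI I k} {a : ℕ} {u v : Aˣ} {y z : A}

theorem Lead.mul (h1 : Lead h a u y) (h2 : Lead h a v z) : Lead h a (u * v) (y + z) := by
  refine ⟨mul_mem h1.1 h2.1, ?_⟩
  have e : ((u * v : Aˣ) : A) - 1 - (y + z) =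
      (u - 1) * (v - 1) + (u - 1 - y) + (v - 1 - z) := by rw [Units.val_mul]; noncomm_ring
  rw [e]
  exact add_mem (add_mem (mul_mem_succ h1.1 (h.Ul_anti (Nat.zero_le a) h2.1)) h1.2) h2.2

theorem Lead.self (hu : u ∈ Ul h a) : Lead h a u (u - 1) := ⟨hu, by simp⟩

theorem Lead.congr (h1 : Lead h a u y) (e : y - z ∈ I ^ (a + 2)) : Lead h a u z :=
  ⟨h1.1, by simpa using add_mem h1.2 e⟩

theorem Lead.inv (h1 : Lead h a u y) : Lead h a u⁻¹ (-y) := by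
  have := (h1.mul (Lead.self (inv_mem h1.1))).2
  refine ⟨inv_mem h1.1, ?_⟩
  rw [mul_inv_cancel] at this
  convert neg_mem this using 1
  simp only [Units.val_one]
  abel

theorem Lead.conj (h1 : Lead h a u y) (hv : v ∈ Ul h 0) : Lead h a (v⁻¹ * u * v) y := by
  have e : ((v⁻¹ * u * v : Aˣ) : A) - 1 = (v⁻¹ : Aˣ) * ((u : A) - 1) * ((v⁻¹)⁻¹ : Aˣ) := by
    simp [mul_sub, sub_mul]
  have h2 := h.conj_sub (inv_mem hv) (show (u : A) - 1 ∈ I ^ (a + 1) from h1.1)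
  rw [← e] at h2
  refine ⟨?_, by convert add_mem h2 h1.2 using 1; abel⟩
  simpa [mem_Ul] using add_mem (h.anti (Nat.le_succ a) h2) h1.1

theorem Lead.ex (hy : y ∈ I ^ (a + 1)) : Lead h a (ex y) y := h.ex_mem hy

theorem Lead.lg (hu : u ∈ Ul h a) : Lead h a u (lg u) :=
  ⟨hu, by simpa using neg_mem (h.lg_mem hu).2⟩

theorem Lead.succ (h1 : Lead h a u 0) : u ∈ Ul h (a + 1) := by simpa [mem_Ul] using h1.2

/-- The action of an automorphism on units. -/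
def act (φ : A ≃ₐ[ℚ] A) : Aˣ →* Aˣ := Units.map (φ.toAlgHom : A →* A)

@[simp] theorem coe_act (φ : A ≃ₐ[ℚ] A) (u : Aˣ) : (act φ u : A) = φ u := rfl

theorem act_ex (φ : A ≃ₐ[ℚ] A) (hy : IsNilpotent y) : act φ (ex y) = ex (φ y) :=
  map_ex φ.toAlgHom hy

variable {φ : A ≃ₐ[ℚ] A}

theorem E_mul {x y : A} (hx : x ∈ E (φ.toLinearMap - 1)) (hy : y ∈ E (φ.toLinearMap - 1)) :
    x * y ∈ E (φ.toLinearMap - 1) :=
  E_bilin (LinearMap.mul ℚ A) (fun x y => map_mul φ x y) hx hy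

theorem E_one : (1 : A) ∈ E (φ.toLinearMap - 1) := ⟨1, by simp⟩

theorem W_mul (h : NilI I k) (φ : A ≃ₐ[ℚ] A) :
    (I ⊓ E (φ.toLinearMap - 1)) * (I ⊓ E (φ.toLinearMap - 1)) ≤ I ⊓ E (φ.toLinearMap - 1) :=
  Submodule.mul_le.2 fun _ hx _ hy => ⟨h.mul_le (Submodule.mul_mem_mul hx.1 hy.1), E_mul hx.2 hy.2⟩

/-- The unipotent units in the generalised eigenspace. -/
def U0 (h : NilI I k) (φ : A ≃ₐ[ℚ] A) : Subgroup Aˣ :=
  UW h (I ⊓ E (φ.toLinearMap - 1)) inf_le_left (W_mul h φ)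

theorem mem_U0 : u ∈ U0 h φ ↔ (u : A) - 1 ∈ I ⊓ E (φ.toLinearMap - 1) := Iff.rfl

theorem U0_le (hu : u ∈ U0 h φ) : u ∈ Ul h 0 := (mem0 h).2 hu.1

theorem U0_E (hu : u ∈ U0 h φ) : (u : A) ∈ E (φ.toLinearMap - 1) := by
  simpa using add_mem hu.2 E_one

theorem act_U0 (hφ : ∀ i, ∀ x ∈ I ^ (i + 1), φ x ∈ I ^ (i + 1)) (hu : u ∈ U0 h φ) :
    act φ u ∈ U0 h φ := by
  rw [mem_U0, coe_act, ← map_one φ, ← map_sub]
  exact ⟨by simpa using hφ 0 _ (U0_le hu), E_map φ.toLinearMap (fun x => by simp) hu.2⟩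

theorem step4 [FiniteDimensional ℚ A] (hφ : ∀ i, ∀ x ∈ I ^ (i + 1), φ x ∈ I ^ (i + 1)) :
    ∀ u ∈ Ul h 0, u * (act φ u)⁻¹ ∈ U0 h φ → u ∈ U0 h φ := by
  refine down (k := k) (Q := fun a => ∀ u ∈ Ul h a, u * (act φ u)⁻¹ ∈ U0 h φ → u ∈ U0 h φ)
    (fun u hu _ => ?_) fun a _ ih u hu hw => ?_
  · rw [h.Ul_k, Subgroup.mem_bot] at hu
    rw [hu]
    exact one_mem _
  obtain ⟨l, hl⟩ := hw.2
  obtain ⟨N, hN⟩ := lift_gen (W := I ^ (a + 2)) (φ.toLinearMap - 1)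
    fun x hx => sub_mem (hφ _ x hx) hx
  set w := u * (act φ u)⁻¹ with hw'
  have e : (φ.toLinearMap - 1) ((u : A) - 1) = -((w : A) - 1) - ((w : A) - 1) * φ (u - 1) := by
    have : (u : A) = w * φ u := by rw [← coe_act, ← Units.val_mul, hw', inv_mul_cancel_right]
    simp only [LinearMap.sub_apply, AlgEquiv.toLinearMap_apply, map_sub, map_one,
      Module.End.one_apply]
    rw [sub_mul, mul_sub, ← this]
    noncomm_ring
  obtain ⟨y, hy, h0⟩ := hN (l + 1) ((u : A) - 1) (by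
    rw [pow_succ _ l, Module.End.mul_apply, e, map_sub, map_neg, hl, neg_zero, zero_sub]
    exact neg_mem (pow_sub_mem (hφ _) l (Ex.mul_l hw.1 (hφ _ _ hu))))
  have hx : (u : A) - 1 - y ∈ I ^ (a + 1) := sub_mem hu (h.anti (Nat.le_succ a) hy)
  have h1 : ex ((u : A) - 1 - y) ∈ U0 h φ :=
    h.ex_sub inf_le_left (W_mul h φ) ⟨Ex.mem_one h hx, _, h0⟩
  have h2 := (((Lead.ex (h := h) hx).inv.mul (Lead.self hu)).congr (z := 0) (by simpa using hy)).succ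
  have h3 := ih _ h2 (by
    rw [map_mul, map_inv, mul_inv_rev, inv_inv, mul_assoc, ← mul_assoc u]
    exact mul_mem (inv_mem h1) (mul_mem hw (act_U0 hφ h1)))
  simpa using mul_mem h1 h3

theorem step5 [FiniteDimensional ℚ A] (hφ : ∀ i, ∀ x ∈ I ^ (i + 1), φ x ∈ I ^ (i + 1))
    {U : Subgroup Aˣ} (hU : U ≤ Ul h 0) {n : Submodule ℚ A} (hn : ∀ a, a ∈ n ↔ a ∈ I ∧ ex a ∈ U)
    (hs : ∀ u ∈ U, act φ u ∈ U) (hu : u ∈ U) : ∃ v ∈ U, v * u * (act φ v)⁻¹ ∈ U0 h φ := by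
  have key : ∀ a, ∃ v ∈ U, ∃ w ∈ U0 h φ, ∃ u' ∈ U, u' ∈ Ul h a ∧ v * u * (act φ v)⁻¹ = w * u' := by
    intro a
    induction a with
    | zero => exact ⟨1, one_mem _, 1, one_mem _, u, hu, hU hu, by simp⟩
    | succ a ih =>
      obtain ⟨v, hv, w, hw, u', hu', ha, e⟩ := ih
      have hφn : ∀ x ∈ n, φ x ∈ n := fun x hx => (hn _).2 ⟨by
        simpa using hφ 0 x (by simpa using ((hn x).1 hx).1), by
        rw [← act_ex φ (Ex.nil h ((hn x).1 hx).1)]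
        exact hs _ ((hn x).1 hx).2⟩
      obtain ⟨N, hN⟩ := fitting (W := n ⊓ I ^ (a + 1)) (φ.toLinearMap - 1)
        fun x hx => sub_mem ⟨hφn x hx.1, hφ _ x hx.2⟩ hx
      obtain ⟨y0, h0, y1, h1, e0, e1⟩ := hN 1 (lg u') ⟨(hn _).2 ⟨Ex.mem_one h (h.lg_mem ha).1, by
        rwa [ex_lg (nil0 h (hU hu'))]⟩, (h.lg_mem ha).1⟩
      have a0 := ((hn _).1 h0.1)
      have a1 := ((hn _).1 h1.1)
      have hwU : w ∈ U := by
        have : w = v * u * (act φ v)⁻¹ * u'⁻¹ := by rw [e, mul_inv_cancel_right]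
        rw [this]
        exact mul_mem (mul_mem (mul_mem hv hu) (inv_mem (hs v hv))) (inv_mem hu')
      refine ⟨ex y1 * v, mul_mem a1.2 hv, w * ex y0,
        mul_mem hw (h.ex_sub inf_le_left (W_mul h φ) ⟨a0.1, N, e0⟩),
        (ex y0)⁻¹ * (w⁻¹ * ex y1 * w) * u' * (act φ (ex y1))⁻¹,
        mul_mem (mul_mem (mul_mem (inv_mem a0.2) (mul_mem (mul_mem (inv_mem hwU) a1.2) hwU)) hu')
          (inv_mem (hs _ a1.2)), ?_, ?_⟩
      · rw [act_ex φ (Ex.nil h a1.1)]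
        refine (((((Lead.ex h0.2).inv.mul ((Lead.ex h1.2).conj (U0_le hw))).mul (Lead.lg ha)).mul
          (Lead.ex (hφ _ _ h1.2)).inv).congr ?_).succ
        rw [e1]
        convert zero_mem (I ^ (a + 2))
        simp only [pow_one, LinearMap.sub_apply, AlgEquiv.toLinearMap_apply, Module.End.one_apply]
        abel
      · rw [map_mul, mul_inv_rev, mul_assoc (ex y1), mul_assoc (ex y1), ← mul_assoc (v * u), e]
        group
  obtain ⟨v, hv, w, hw, u', -, ha, e⟩ := key k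
  rw [h.Ul_k, Subgroup.mem_bot] at ha
  exact ⟨v, hv, by rwa [e, ha, mul_one]⟩

end alg

section push

variable {G : Type} [Group G] {M : NilModel G (commutator G)} (P : Push M)

theorem U_le : P.U ≤ Ul M.nil 0 := fun u hu => ((P.hU u).1 hu).1

theorem ι_U (n : commutator G) : M.ι n ∈ P.U :=
  (P.hU _).2 ⟨M.ι_mem n, 1, one_pos, Nat.coprime_one_right 1, n, (pow_one _).symm⟩

theorem ρ_j_sub (u : P.U) {i : ℕ} {x : M.A} (hx : x ∈ M.I ^ (i + 1)) :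
    P.ρ (P.j u) x - x ∈ M.I ^ (i + 2) := by
  rw [P.ρ_j]
  exact M.nil.conj_sub (U_le P u.2) hx

theorem ρ_mem (γ : P.Γ) (i : ℕ) : ∀ x ∈ M.I ^ (i + 1), P.ρ γ x ∈ M.I ^ (i + 1) := by
  refine inv_pow (ρ := P.π) (S := Set.univ) (fun g _ x y => map_mul (P.ρ g) x y)
    (fun γ _ x hx => ?_) i γ trivial
  obtain ⟨u, g, rfl⟩ := P.dec γ
  have h1 : P.ρ (P.i g) x ∈ M.I := by
    rw [P.ρ_i]
    exact M.inv_I Set.univ g trivial x hx
  have h2 := Ex.mem_one M.nil (ρ_j_sub P u (i := 0) (by simpa using h1))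
  simpa using add_mem h2 h1

theorem ρ_I (γ : P.Γ) {x : M.A} (hx : x ∈ M.I) : P.ρ γ x ∈ M.I := by
  simpa using ρ_mem P γ 0 x (by simpa using hx)

theorem act_U (γ : P.Γ) : ∀ u ∈ P.U, act (P.ρ γ) u ∈ P.U := by
  intro u hu
  obtain ⟨u', h1, -⟩ := P.conj γ ⟨u, hu⟩
  rw [show act (P.ρ γ) u = u' from Units.ext h1.symm]
  exact u'.2

/-- The action on the unipotent subgroup. -/
def cj (γ : P.Γ) (u : P.U) : P.U := ⟨act (P.ρ γ) u, act_U P γ u u.2⟩

theorem j_cj (γ : P.Γ) (u : P.U) : P.j (cj P γ u) = γ * P.j u * γ⁻¹ := by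
  obtain ⟨u', h1, h2⟩ := P.conj γ u
  rw [h2]
  exact congrArg P.j (Subtype.ext (Units.ext h1.symm))

theorem hJ (γ δ : P.Γ) : γ * δ * γ⁻¹ * δ⁻¹ ∈ Set.range P.j :=
  (P.comm_mem γ δ).imp fun _ h => h.symm

theorem filA : Fil P.π (Set.range P.j) (fun i => M.I ^ (i + 1)) M.k where
  inv := fun i γ _ => ρ_mem P γ i
  le := fun i => M.nil.anti (Nat.le_succ i)
  bot := M.nil.pow_k
  triv := by
    rintro _ ⟨u, rfl⟩ i x hx
    exact ρ_j_sub P u hx

/-- Linear maps with values in a subspace. -/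
def Hom (K : Type) [Field K] [Algebra ℚ K] {A : Type} [AddCommGroup A] [Module ℚ A]
    (W : Submodule ℚ A) : Submodule ℚ (K →ₗ[ℚ] A) where
  carrier := {θ | ∀ y, θ y ∈ W}
  zero_mem' := fun _ => zero_mem W
  add_mem' := fun h h' y => add_mem (h y) (h' y)
  smul_mem' := fun c _ h y => W.smul_mem c (h y)

variable {K : Type} [Field K] [Algebra ℚ K] {χ : P.Γ →* Kˣ}

theorem filH (hχ : ∀ u, χ (P.j u) = 1) :
    Fil (P.tw χ) (Set.range P.j) (fun i => Hom K (M.I ^ (i + 1))) M.k where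
  inv := fun i γ _ θ h y => ρ_mem P γ i _ (h _)
  le := fun i θ h y => M.nil.anti (Nat.le_succ i) (h y)
  bot := by
    rw [M.nil.pow_k, eq_bot_iff]
    exact fun θ h => LinearMap.ext fun y => h y
  triv := by
    rintro _ ⟨u, rfl⟩ i θ h y
    simpa [hχ] using ρ_j_sub P u (h y)

/-- The commutator with `g`. -/
def cm (g γ : P.Γ) : P.U := (P.comm_mem γ g).choose

theorem j_cm (g γ : P.Γ) : P.j (cm P g γ) = γ * g * γ⁻¹ * g⁻¹ := (P.comm_mem γ g).choose_spec.symm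

theorem cm_mul (g a b : P.Γ) : cm P g (a * b) = cj P a (cm P g b) * cm P g a :=
  P.j_inj (by rw [map_mul, j_cj, j_cm, j_cm, j_cm]; group)

theorem cm_j (g : P.Γ) (u : P.U) : cm P g (P.j u) = u * (cj P g u)⁻¹ :=
  P.j_inj (by rw [map_mul, map_inv, j_cj, j_cm]; group)

theorem cm_j_mul (g γ : P.Γ) (u : P.U) : cm P g (P.j u * γ) = u * cm P g γ * (cj P g u)⁻¹ :=
  P.j_inj (by rw [map_mul, map_mul, map_inv, j_cj, j_cm, j_cm]; group)

theorem cm_inv (g a : P.Γ) : cm P g a⁻¹ = cj P a⁻¹ (cm P g a)⁻¹ :=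
  P.j_inj (by rw [j_cj, map_inv, j_cm, j_cm]; group)

theorem presA {g γ : P.Γ} (h : (cm P g γ : M.Aˣ) ∈ U0 M.nil (P.ρ g)) :
    (∀ x ∈ M.I ^ (0 + 1) ⊓ E (P.π g - 1), P.π γ x ∈ M.I ^ (0 + 1) ⊓ E (P.π g - 1)) ∧
      ∀ x ∈ M.I ^ (0 + 1) ⊓ E (P.π g - 1), P.π γ⁻¹ x ∈ M.I ^ (0 + 1) ⊓ E (P.π g - 1) := by
  refine (filA P).conj (hJ P γ g) fun x hx => ⟨ρ_mem P _ 0 x hx.1, ?_⟩
  rw [← j_cm, Push.π_apply, P.ρ_j]
  exact E_mul (φ := P.ρ g) (E_mul (U0_E h) hx.2) (U0_E (inv_mem h))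

theorem presH [FiniteDimensional ℚ K] (hχ : ∀ u, χ (P.j u) = 1) {g γ : P.Γ}
    (h : (cm P g γ : M.Aˣ) ∈ U0 M.nil (P.ρ g)) :
    ∀ θ ∈ Hom K (M.I ^ (0 + 1)) ⊓ E (P.tw χ g - 1),
      P.tw χ γ θ ∈ Hom K (M.I ^ (0 + 1)) ⊓ E (P.tw χ g - 1) := by
  refine ((filH P hχ).conj (hJ P γ g) fun θ hθ => ⟨fun y => ρ_mem P _ 0 _ (hθ.1 _), ?_⟩).1
  have h1 := E_bilin (f := P.π g) (f' := P.tw χ g) (f'' := P.tw χ g)
    ((LinearMap.llcomp ℚ K M.A M.A).comp (LinearMap.mul ℚ M.A))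
    (fun x θ => by ext; simp) (U0_E h) hθ.2
  have h2 := E_bilin (f := P.π g) (f' := P.tw χ g) (f'' := P.tw χ g)
    ((LinearMap.llcomp ℚ K M.A M.A).comp (LinearMap.mul ℚ M.A).flip)
    (fun x θ => by ext; simp) (U0_E (inv_mem h)) h1
  refine (congrArg (· ∈ E (P.tw χ g - 1)) ?_).mpr h2
  ext y
  simp [← j_cm, hχ, P.ρ_j]

theorem cj_U0 {g γ : P.Γ} (h : ∀ x ∈ M.I ^ (0 + 1) ⊓ E (P.π g - 1),
    P.π γ x ∈ M.I ^ (0 + 1) ⊓ E (P.π g - 1)) {u : P.U} (hu : (u : M.Aˣ) ∈ U0 M.nil (P.ρ g)) :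
    (cj P γ u : M.Aˣ) ∈ U0 M.nil (P.ρ g) := by
  have := h _ ⟨U0_le hu, hu.2⟩
  rw [Push.π_apply, map_sub, map_one, zero_add, pow_one] at this
  exact this

/-- The Cartan subgroup attached to `g`. -/
def C (g : P.Γ) : Subgroup P.Γ where
  carrier := {γ | (cm P g γ : M.Aˣ) ∈ U0 M.nil (P.ρ g)}
  one_mem' := by
    have : cm P g 1 = 1 := P.j_inj (by rw [j_cm, map_one]; group)
    change (cm P g 1 : M.Aˣ) ∈ U0 M.nil (P.ρ g)
    rw [this]
    exact one_mem _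
  mul_mem' := fun {a b} ha hb => by
    change (cm P g (a * b) : M.Aˣ) ∈ U0 M.nil (P.ρ g)
    rw [cm_mul]
    exact mul_mem (cj_U0 P (presA P ha).1 hb) ha
  inv_mem' := fun {a} ha => by
    change (cm P g a⁻¹ : M.Aˣ) ∈ U0 M.nil (P.ρ g)
    rw [cm_inv]
    exact cj_U0 P (presA P ha).2 (inv_mem ha)

theorem exists_n : ∃ n : Submodule ℚ M.A, ∀ a, a ∈ n ↔ a ∈ M.I ∧ ex a ∈ P.U :=
  malcev M.nil P.U (U_le P) P.hpw

theorem C_cover (g γ : P.Γ) : ∃ v, P.j v * γ ∈ C P g := by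
  obtain ⟨n, hn⟩ := exists_n P
  obtain ⟨v, hv, h⟩ := step5 (ρ_mem P g) (U_le P) hn (act_U P g) (cm P g γ).2
  refine ⟨⟨v, hv⟩, ?_⟩
  change (cm P g (P.j ⟨v, hv⟩ * γ) : M.Aˣ) ∈ U0 M.nil (P.ρ g)
  rw [cm_j_mul]
  exact h

theorem C_j {g : P.Γ} {u : P.U} (h : P.j u ∈ C P g) : (u : M.Aˣ) ∈ U0 M.nil (P.ρ g) := by
  change (cm P g (P.j u) : M.Aˣ) ∈ U0 M.nil (P.ρ g) at h
  rw [cm_j] at h
  exact step4 (ρ_mem P g) _ (U_le P u.2) h

variable {τ : M.A →ₗ[ℚ] K}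

theorem τ_mul (h0 : ∀ x ∈ M.I ^ 2, τ x = 0) (u v : P.U) :
    τ (((u * v : P.U) : M.Aˣ) - 1) = τ ((u : M.Aˣ) - 1) + τ ((v : M.Aˣ) - 1) := by
  have := h0 _ ((Lead.self (U_le P u.2)).mul (Lead.self (U_le P v.2))).2
  rwa [map_sub, map_add, sub_eq_zero] at this

theorem τ_inv (h0 : ∀ x ∈ M.I ^ 2, τ x = 0) (u : P.U) :
    τ (((u⁻¹ : P.U) : M.Aˣ) - 1) = - τ ((u : M.Aˣ) - 1) := by
  have := h0 _ (Lead.self (U_le P u.2)).inv.2
  rwa [map_sub, map_neg, sub_eq_zero] at this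

theorem τ_cj (h1 : ∀ γ, ∀ x ∈ M.I, τ (P.ρ γ x) = χ γ * τ x) (γ : P.Γ) (u : P.U) :
    τ ((cj P γ u : M.Aˣ) - 1) = χ γ * τ ((u : M.Aˣ) - 1) := by
  rw [← h1 γ _ ((mem0 M.nil).1 (U_le P u.2)), map_sub (P.ρ γ), map_one]
  rfl

theorem τ_E (h1 : ∀ γ, ∀ x ∈ M.I, τ (P.ρ γ x) = χ γ * τ x) {g : P.Γ} (hg : χ g ≠ 1) {x : M.A}
    (hx : x ∈ M.I ⊓ E ((P.ρ g).toLinearMap - 1)) : τ x = 0 := by
  obtain ⟨hx, l, hl⟩ := hx
  induction l generalizing x with
  | zero => rw [show x = 0 by simpa using hl, map_zero]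
  | succ l ih =>
    rw [pow_succ, Module.End.mul_apply] at hl
    have := ih (sub_mem (ρ_I P g hx) hx) hl
    rw [map_sub, h1 g x hx, ← sub_one_mul, mul_eq_zero, sub_eq_zero] at this
    exact this.resolve_left fun h => hg (Units.ext h)

theorem exists_θ [FiniteDimensional ℚ K] (h0 : ∀ x ∈ M.I ^ 2, τ x = 0)
    (h1 : ∀ γ, ∀ x ∈ M.I, τ (P.ρ γ x) = χ γ * τ x) (h2 : ∀ y, ∃ x ∈ M.I, τ x = y) (g : P.Γ) :
    ∃ θ : K →ₗ[ℚ] M.A, (∀ y, θ y ∈ M.I ∧ ex (θ y) ∈ P.U) ∧ (∀ y, τ (θ y) = y) ∧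
      θ ∈ E (P.tw χ g - 1) := by
  obtain ⟨n, hn⟩ := exists_n P
  have hρ : ∀ x ∈ n, P.ρ g x ∈ n := fun x hx => (hn _).2 ⟨ρ_I P g ((hn x).1 hx).1, by
    rw [← act_ex _ (Ex.nil M.nil ((hn x).1 hx).1)]
    exact act_U P g _ ((hn x).1 hx).2⟩
  have hs : LinearMap.range (τ.domRestrict n) = ⊤ := by
    rw [LinearMap.range_domRestrict, eq_top_iff]
    intro y _
    obtain ⟨x, hx, rfl⟩ := h2 y
    refine (show M.I ≤ (n.map τ).comap τ from ?_) hx
    rw [M.span, Submodule.span_le]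
    rintro _ ⟨m, rfl⟩
    have a := M.nil.lg_mem (M.ι_mem m)
    refine ⟨lg (M.ι m), (hn _).2 ⟨Ex.mem_one M.nil a.1, ?_⟩, ?_⟩
    · rw [ex_lg (nil0 M.nil (M.ι_mem m))]
      exact ι_U P m
    · have := h0 _ a.2
      rwa [map_sub, sub_eq_zero] at this
  obtain ⟨s, hs⟩ := (τ.domRestrict n).exists_rightInverse_of_surjective hs
  have hs' : ∀ y, τ (s y) = y := fun y => LinearMap.congr_fun hs y
  obtain ⟨N, hN⟩ := lift_gen (W := Hom K (n ⊓ LinearMap.ker τ)) (P.tw χ g - 1)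
    fun θ hθ => sub_mem (fun y => ⟨hρ _ (hθ _).1, by
      rw [SetLike.mem_coe, LinearMap.mem_ker, Push.tw_apply, h1 g _ ((hn _).1 (hθ _).1).1,
        show τ _ = 0 from (hθ _).2, mul_zero]⟩) hθ
  obtain ⟨θ, hθ, e⟩ := hN 1 (n.subtype ∘ₗ s) fun y => ⟨by
    simpa using sub_mem (hρ _ (s _).2) (s y).2, by
    simp [h1 g _ ((hn _).1 (s _).2).1, hs']⟩
  refine ⟨_, fun y => (hn _).1 (sub_mem (s y).2 (hθ y).1), fun y => ?_, _, e⟩
  simp [hs', show τ (θ y) = 0 from (hθ y).2]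

omit [Algebra ℚ K] in
theorem exists_h [Group.FG G] (hχ : ∀ u, χ (P.j u) = 1) (g : P.Γ) (B : Subgroup P.Γ)
    [hB : B.FiniteIndex] : ∃ (r : ℕ) (h : Fin r → G), (∀ a, P.i (h a) ∈ C P g ⊓ B) ∧
      ∀ γ, ∃ m : ℕ, 0 < m ∧ ∃ q : Fin r → ℤ, χ γ ^ m = ∏ a, χ (P.i (h a)) ^ q a := by
  classical
  obtain ⟨S, hS, hf⟩ := Group.fg_iff.1 (inferInstance : Group.FG G)
  obtain ⟨r, f, rfl⟩ := hf.fin_embedding
  have key : ∀ x : G, ∃ y, ∃ m : ℕ, 0 < m ∧ P.i y ∈ C P g ⊓ B ∧ χ (P.i x) ^ m = χ (P.i y) := by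
    intro x
    obtain ⟨v, hv⟩ := C_cover P g (P.i x)
    obtain ⟨m, hm, y, hy⟩ := P.pow_mem (P.j v * P.i x)
    obtain ⟨m', hm', -, h⟩ := Subgroup.exists_pow_mem_of_index_ne_zero hB.index_ne_zero (P.i y)
    refine ⟨y ^ m', m * m', Nat.mul_pos hm hm', ?_, ?_⟩
    · rw [map_pow]
      exact ⟨pow_mem (hy ▸ pow_mem hv m) m', h⟩
    · rw [map_pow, hy, map_pow, map_pow, map_mul, hχ, one_mul, pow_mul]
  choose y m h1 h2 h3 using key
  refine ⟨r, fun a => y (f a), fun a => h2 _, fun γ => ?_⟩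
  obtain ⟨u, x, rfl⟩ := P.dec γ
  rw [map_mul, hχ, one_mul]
  have hx : x ∈ Subgroup.closure (Set.range f) := hS ▸ Subgroup.mem_top x
  induction hx using Subgroup.closure_induction with
  | mem x hx =>
    obtain ⟨a, rfl⟩ := hx
    refine ⟨_, h1 (f a), Pi.single a 1, ?_⟩
    rw [h3, Finset.prod_eq_single a (fun b _ hb => by simp [hb]) (by simp)]
    simp
  | one => exact ⟨1, one_pos, 0, by simp⟩
  | mul x x' _ _ ih ih' =>
    obtain ⟨m, hm, q, e⟩ := ih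
    obtain ⟨m', hm', q', e'⟩ := ih'
    refine ⟨m * m', Nat.mul_pos hm hm', fun a => q a * m' + q' a * m, ?_⟩
    rw [map_mul, map_mul, mul_pow, pow_mul, e, mul_comm m, pow_mul, e', ← Finset.prod_pow,
      ← Finset.prod_pow, ← Finset.prod_mul_distrib]
    simp [zpow_add, zpow_mul]
  | inv x _ ih =>
    obtain ⟨m, hm, q, e⟩ := ih
    exact ⟨m, hm, -q, by simp [e]⟩

theorem cart [Group.FG G] [FiniteDimensional ℚ K] (hinf : ¬ χ.ker.FiniteIndex)
    (h0 : ∀ x ∈ M.I ^ 2, τ x = 0) (h1 : ∀ γ, ∀ x ∈ M.I, τ (P.ρ γ x) = χ γ * τ x)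
    (h2 : ∀ y, ∃ x ∈ M.I, τ x = y) : Nonempty (Cart P K) := by
  have hχ : ∀ u, χ (P.j u) = 1 := fun u => by
    obtain ⟨x, hx, e⟩ := h2 1
    have := h0 _ (ρ_j_sub P u (i := 0) (by simpa using hx))
    rw [map_sub, h1 _ x hx, e, mul_one, sub_eq_zero] at this
    exact Units.ext this
  obtain ⟨𝒦, a1, a2⟩ := (filA P).unip (hJ P)
  obtain ⟨𝒦', b1, b2⟩ := (filH P hχ).unip (hJ P)
  obtain ⟨B, g, hB, hg⟩ := choose_g ((a1.union b1).insert χ.ker)
  have hg1 : χ g ≠ 1 := fun h => hinf ((hg _ (Set.mem_insert _ _)).2 h)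
  have hg2 : (1 : K) - χ g ≠ 0 := fun h => hg1 (Units.ext (sub_eq_zero.1 h).symm)
  have hle : ∀ κ ∈ 𝒦 ∪ 𝒦', g ∈ κ → C P g ⊓ B ≤ κ := fun κ hκ h =>
    inf_le_right.trans ((hg κ (Set.mem_insert_of_mem _ hκ)).1 ((hg κ (.inr hκ)).2 h))
  obtain ⟨e, he⟩ := a2 _ g (fun κ hκ => hle κ (.inl hκ)) fun γ hγ => (presA P hγ.1).1
  obtain ⟨e', he'⟩ := b2 _ g (fun κ hκ => hle κ (.inr hκ)) fun γ hγ => presH P hχ hγ.1
  obtain ⟨θ, t1, t2, t3⟩ := exists_θ P h0 h1 h2 g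
  obtain ⟨r, h, r1, r2⟩ := exists_h P hχ g B
  exact ⟨{
    χ := χ
    τ := τ
    tr := fun γ => τ ((cm P g γ : M.Aˣ) - 1) / (1 - χ g)
    r := r
    h := h
    H := C P g ⊓ B
    e := e + e'
    θ := θ
    inf := hinf
    χ_j := hχ
    τ_sq := h0
    tr_j := fun u => by
      rw [cm_j, τ_mul P h0, τ_inv P h0, τ_cj P h1, div_eq_iff hg2]
      ring
    tr_mul := fun a b => by
      rw [cm_mul, τ_mul P h0, τ_cj P h1]
      ring
    h_mem := r1
    tr_H := fun γ hγ => by rw [τ_E P h1 hg1 hγ.1, zero_div]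
    gen := r2
    unip := fun u hu => he _ (Nat.le_add_right _ _) ⟨U0_le (C_j P hu.1), (C_j P hu.1).2⟩
    θ_I := fun y => (t1 y).1
    θ_U := fun y => (t1 y).2
    τ_θ := t2
    unip_θ := he' _ (Nat.le_add_left _ _) ⟨fun y => by simpa using (t1 y).1, t3⟩ }⟩

end push

end Ca

theorem exists_cart {G : Type} [Group G] [Group.FG G] {M : NilModel G (commutator G)}
    (P : Push M) : (∃ H : Subgroup G, H.FiniteIndex ∧ Group.IsNilpotent H) ∨
      ∃ (K : Type) (_ : Field K) (_ : NumberField K), Nonempty (Cart P K) := by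
  have hf := Ca.filA P
  obtain ⟨𝒦, e, h1, h2, h3⟩ := comm_lemma P.π _ _ (hf.le 0) (hf.inv 0) (hf.inv 1)
    (hf.comm (Ca.hJ P) 0)
  by_cases hc : ∀ κ ∈ 𝒦, κ.FiniteIndex
  · obtain ⟨B, g, hB, hg⟩ := Ca.choose_g h1
    have : (B.comap P.i).FiniteIndex := ⟨by
      rw [Subgroup.index_comap]
      exact Subgroup.FiniteIndex.index_ne_zero (H := B.subgroupOf _)⟩
    refine .inl ⟨B.comap P.i ⊔ commutator G, Subgroup.finiteIndex_of_le le_sup_left,
      M.nilpotent_of_unip _ (Subgroup.commutator_mono le_top le_top) e fun x hx => ?_⟩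
    have h4 := h2 B 1 (fun κ hκ _ => (hg κ hκ).1 (hc κ hκ)) 1 x (by simpa using hx) (by simp)
    have e1 : (fun g => (M.α g).toLinearMap) = fun g => P.π (P.i g) := by
      funext g
      ext x
      simp [P.ρ_i]
    rw [e1, Zs_comp]
    exact Zs_mono_left (Set.image_preimage_subset _ _) le_rfl e h4
  · push Not at hc
    obtain ⟨κ, hκ, hi⟩ := hc
    obtain ⟨K, _, _, χ, τ, rfl, a, b, c⟩ := h3 κ hκ
    exact .inr ⟨K, inferInstance, inferInstance, Ca.cart P hi a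
      (fun γ x hx => c γ x (by simpa using hx)) fun y => by simpa using b y⟩

end Pool.Agent.Lib.MP_2fb4be_al.Sol
end
end
end
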