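import Mathlib

/-!
A common left multiple of the elements `X j + 1` in the group algebra mod 2 of a nilpotent group
whose image in the group algebra of the abelian quotient does not vanish.
-/

set_option autoImplicit false

noncomputable section

namespace Pool.Agent.Lib.MP_2fb4be_al.Sol.Cy

open Finsupp commutatorElement

variable {F : Type} [Group F]

theorem two {α : Type} (v : α →₀ ZMod 2) : v + v = 0 := by
  ext l
  simp [CharTwo.add_self_eq_zero]

/-- Left multiplication by `y + 1`. -/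
def Lm (y : F) : Module.End (ZMod 2) (F →₀ ZMod 2) := lmapDomain (ZMod 2) (ZMod 2) (y * ·) + 1

theorem Lm_apply (y : F) (v : F →₀ ZMod 2) : Lm y v = mapDomain (y * ·) v + v := rfl

/-- The products of operators `y + 1` with `y` in `A`. -/
def Mo (A : Set F) : Submonoid (Module.End (ZMod 2) (F →₀ ZMod 2)) := Submonoid.closure (Lm '' A)

theorem Mo.ind {A : Set F} {p : (F →₀ ZMod 2) → Prop} (h : ∀ y ∈ A, ∀ v, p v → p (Lm y v))
    {u : Module.End (ZMod 2) (F →₀ ZMod 2)} (hu : u ∈ Mo A) : ∀ v, p v → p (u v) := by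
  induction hu using Submonoid.closure_induction with
  | mem x hx =>
    obtain ⟨y, hy, rfl⟩ := hx
    exact h y hy
  | one => exact fun v hv => hv
  | mul x y _ _ hx hy => exact fun v hv => hx _ (hy v hv)

/-- The support lies in `Ω`. -/
def On (Ω : Set F) (v : F →₀ ZMod 2) : Prop := ∀ g ∈ v.support, g ∈ Ω

theorem On.map {Ω : Set F} {v : F →₀ ZMod 2} (h : On Ω v) {y : F} (hy : ∀ g ∈ Ω, y * g ∈ Ω) :
    On Ω (mapDomain (y * ·) v) := by
  classical
  intro g hg
  obtain ⟨g', h1, rfl⟩ := Finset.mem_image.mp (mapDomain_support hg)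
  exact hy _ (h g' h1)

theorem On.Lm {Ω : Set F} {v : F →₀ ZMod 2} (h : On Ω v) {y : F} (hy : ∀ g ∈ Ω, y * g ∈ Ω) :
    On Ω (Lm y v) := by
  classical
  intro g hg
  rcases Finset.mem_union.mp (support_add hg) with h1 | h1
  · exact h.map hy g h1
  · exact h g h1

/-- The sums over the left cosets of the cyclic group generated by `x` vanish. -/
def In (x : F) (v : F →₀ ZMod 2) : Prop :=
  ∀ ρ : F → F, (∀ g, ρ (g * x) = ρ g) → mapDomain ρ v = 0

theorem In.add {x : F} {v w : F →₀ ZMod 2} (h : In x v) (h' : In x w) : In x (v + w) :=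
  fun ρ hρ => by rw [mapDomain_add, h ρ hρ, h' ρ hρ, add_zero]

theorem In.map {x : F} {v : F →₀ ZMod 2} (h : In x v) (y : F) : In x (mapDomain (y * ·) v) :=
  fun ρ hρ => by
    rw [← mapDomain_comp]
    exact h _ fun g => by simp only [Function.comp_apply, ← mul_assoc, hρ]

theorem In.mo {x : F} {v : F →₀ ZMod 2} (h : In x v) {A : Set F}
    {u : Module.End (ZMod 2) (F →₀ ZMod 2)} (hu : u ∈ Mo A) : In x (u v) :=
  Mo.ind (p := In x) (fun y _ _ hv => (hv.map y).add hv) hu v h

/-- Killing the classes of a partition one after the other. -/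
theorem split {Q : Type} (x : F) (A Ω : Set F) (κ : F → Q)
    (h1 : ∀ y ∈ A, ∀ g ∈ Ω, y * g ∈ Ω ∧ κ (y * g) = κ g)
    (h2 : ∀ c v, On {g | g ∈ Ω ∧ κ g = c} v → ∃ u ∈ Mo A, In x (u v))
    (v : F →₀ ZMod 2) (hv : On Ω v) : ∃ u ∈ Mo A, In x (u v) := by
  classical
  have key : ∀ t : Finset Q, ∀ v, On {g | g ∈ Ω ∧ κ g ∈ t} v → ∃ u ∈ Mo A, In x (u v) := by
    intro t
    induction t using Finset.induction_on with
    | empty =>
      intro v hv
      have : v = 0 := support_eq_empty.mp (Finset.eq_empty_of_forall_notMem fun g hg => by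
        simpa using (hv g hg).2)
      exact ⟨1, one_mem _, fun ρ _ => by rw [this, map_zero, mapDomain_zero]⟩
    | insert c t _ ih =>
      intro v hv
      obtain ⟨u, hu, e⟩ := h2 c (v.filter (κ · = c)) fun g hg => by
        rw [support_filter, Finset.mem_filter] at hg
        exact ⟨(hv g hg.1).1, hg.2⟩
      obtain ⟨u', hu', e'⟩ := ih (u (v.filter fun g => ¬ κ g = c))
        (Mo.ind (p := On {g | g ∈ Ω ∧ κ g ∈ t}) (fun y hy v hv => hv.Lm fun g hg =>
          ⟨(h1 y hy g hg.1).1, by rw [(h1 y hy g hg.1).2]; exact hg.2⟩) hu _ fun g hg => by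
            rw [support_filter, Finset.mem_filter] at hg
            exact ⟨(hv g hg.1).1, (Finset.mem_insert.mp (hv g hg.1).2).resolve_left hg.2⟩)
      refine ⟨u' * u, mul_mem hu' hu, ?_⟩
      rw [← filter_add_filter_not v (κ · = c), map_add]
      exact (e.mo hu').add e'
  exact key (v.support.image κ) v fun g hg => ⟨hv g hg, Finset.mem_image_of_mem _ hg⟩

/-- Every element is killed modulo the cosets of `x` by a product of operators `y + 1`, `y`
conjugate to `x`. -/
theorem kill [Group.IsNilpotent F] (H : Subgroup F) {x : F} (hx : x ∈ H) (v : F →₀ ZMod 2)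
    (hv : On H v) : ∃ u ∈ Mo {y | y ∈ H ∧ IsConj x y}, In x (u v) := by
  obtain ⟨n, hn⟩ := Subgroup.nilpotent_iff_lowerCentralSeries.mp ‹_›
  let γ := Subgroup.lowerCentralSeries (⊤ : Subgroup F)
  have key : ∀ d l, l + d = n → ∀ (y0 : F) v, On {g | g ∈ H ∧ y0⁻¹ * (g * x * g⁻¹) ∈ γ l} v →
      ∃ u ∈ Mo {y | (y ∈ H ∧ IsConj x y) ∧ y0⁻¹ * y ∈ γ l}, In x (u v) := by
    intro d
    induction d with
    | zero =>
      intro l hl y0 v hv
      have h0 : ∀ g ∈ v.support, y0 = g * x * g⁻¹ := fun g hg => by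
        have := (hv g hg).2
        rw [show γ l = ⊥ from (show l = n from hl) ▸ hn, Subgroup.mem_bot] at this
        exact inv_mul_eq_one.mp this
      rcases v.support.eq_empty_or_nonempty with e | ⟨g, hg⟩
      · exact ⟨1, one_mem _, fun ρ _ => by rw [support_eq_empty.mp e, map_zero, mapDomain_zero]⟩
      · refine ⟨Lm y0, Submonoid.subset_closure ⟨y0, ⟨⟨?_, ?_⟩, by simp⟩, rfl⟩, fun ρ hρ => ?_⟩
        · rw [h0 g hg]
          exact mul_mem (mul_mem (hv g hg).1 hx) (inv_mem (hv g hg).1)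
        · exact isConj_iff.mpr ⟨g, (h0 g hg).symm⟩
        · rw [Lm_apply, mapDomain_add, ← mapDomain_comp,
            mapDomain_congr (g := ρ) fun g hg => by simp [h0 g hg, hρ], two]
    | succ d ih =>
      intro l hl y0 v hv
      have hle : γ (l + 1) ≤ γ l := Subgroup.lowerCentralSeries_antitone _ (Nat.le_succ l)
      refine split x _ _ (fun g => ((g * x * g⁻¹ : F) : F ⧸ γ (l + 1))) (fun y hy g hg => ?_)
        (fun c v hv => ?_) v hv
      · have h1 : y⁻¹ * (g * x * g⁻¹) ∈ γ l := by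
          have := mul_mem (inv_mem hy.2) hg.2
          rwa [mul_inv_rev, inv_inv, mul_assoc, mul_inv_cancel_left] at this
        have h2 : (g * x * g⁻¹)⁻¹ * (y * g * x * (y * g)⁻¹) ∈ γ (l + 1) := by
          have e : (g * x * g⁻¹)⁻¹ * (y * g * x * (y * g)⁻¹) = ⁅(y⁻¹ * (g * x * g⁻¹))⁻¹, y⁆ := by
            rw [commutatorElement_def]
            group
          rw [e]
          exact Subgroup.commutator_mem_commutator (inv_mem h1) (Subgroup.mem_top y)
        refine ⟨⟨mul_mem hy.1.1 hg.1, ?_⟩, (QuotientGroup.eq.mpr h2).symm⟩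
        have := mul_mem hg.2 (hle h2)
        rwa [mul_assoc, mul_inv_cancel_left] at this
      · rcases v.support.eq_empty_or_nonempty with e | ⟨g, hg⟩
        · exact ⟨1, one_mem _, fun ρ _ => by
            rw [support_eq_empty.mp e, map_zero, mapDomain_zero]⟩
        · obtain ⟨u, hu, e⟩ := ih (l + 1) (by omega) (g * x * g⁻¹) v fun g' hg' =>
            ⟨(hv g' hg').1.1, QuotientGroup.eq.mp ((hv g hg).2.trans (hv g' hg').2.symm)⟩
          refine ⟨u, Submonoid.closure_mono (Set.image_mono fun y hy => And.intro hy.1 ?_) hu, e⟩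
          have := mul_mem (hv g hg).1.2 (hle hy.2)
          rwa [mul_assoc, mul_inv_cancel_left] at this
  obtain ⟨u, hu, e⟩ := key n 0 (zero_add n) 1 v fun g hg => ⟨hv g hg, Subgroup.mem_top _⟩
  exact ⟨u, Submonoid.closure_mono (Set.image_mono fun y hy => hy.1) hu, e⟩

theorem Lm_ne {J : Type} {t : Multiplicative (J → ℤ)} {j : J} (ht : t.toAdd j = 1)
    {w : Multiplicative (J → ℤ) →₀ ZMod 2} (hw : w ≠ 0) : Lm t w ≠ 0 := fun h => by
  obtain ⟨p, hp, hm⟩ := w.support.exists_max_image (fun p => p.toAdd j)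
    (support_nonempty_iff.mpr hw)
  have h1 : mapDomain (t * ·) w = w := by
    rw [← add_zero (mapDomain (t * ·) w), ← two w, ← add_assoc, ← Lm_apply, h, zero_add]
  have h2 : w (t * p) = w p := by
    conv_lhs => rw [← h1]
    exact mapDomain_apply (mul_right_injective t) w p
  have := hm (t * p) (by rw [mem_support_iff, h2]; exact mem_support_iff.mp hp)
  rw [toAdd_mul, Pi.add_apply, ht] at this
  omega

theorem map_Lm {G : Type} [Group G] (a : F →* G) (y : F) (v : F →₀ ZMod 2) :
    mapDomain a (mapDomain (y * ·) v) = mapDomain (a y * ·) (mapDomain a v) := by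
  rw [← mapDomain_comp, ← mapDomain_comp]
  exact mapDomain_congr fun g _ => map_mul a y g

theorem exists_xi {J : Type} [Group.IsNilpotent F] [Fintype J] [DecidableEq J] (X : J → F)
    (a : F →* Multiplicative (J → ℤ)) (ha : ∀ j, a (X j) = Multiplicative.ofAdd (Pi.single j 1)) :
    ∃ ξ : F →₀ ZMod 2, On (Subgroup.closure (Set.range X)) ξ ∧ (∀ j, In (X j) ξ) ∧
      mapDomain a ξ 1 = 1 := by
  let H := Subgroup.closure (Set.range X)
  have key : ∀ s : Finset J, ∃ v : F →₀ ZMod 2, On H v ∧ (∀ j ∈ s, In (X j) v) ∧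
      mapDomain a v ≠ 0 := by
    intro s
    induction s using Finset.induction_on with
    | empty =>
      refine ⟨single 1 1, fun g hg => ?_, by simp, by simp⟩
      rw [Finset.mem_singleton.mp (support_single_subset hg)]
      exact one_mem H
    | insert j s _ ih =>
      obtain ⟨v, h1, h2, h3⟩ := ih
      obtain ⟨u, hu, e⟩ := kill H (Subgroup.subset_closure ⟨j, rfl⟩ : X j ∈ H) v h1
      refine ⟨u v, Mo.ind (p := On H) (fun y hy v hv => hv.Lm fun g hg => mul_mem hy.1 hg) hu v h1,
        fun i hi => ?_, Mo.ind (p := fun v => mapDomain a v ≠ 0) (fun y hy v hv => ?_) hu v h3⟩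
      · rcases Finset.mem_insert.mp hi with rfl | hi
        · exact e
        · exact (h2 i hi).mo hu
      · rw [Lm_apply, mapDomain_add, map_Lm, ← Lm_apply]
        refine Lm_ne (j := j) ?_ hv
        rw [← isConj_iff_eq.mp (a.map_isConj hy.2), ha]
        simp
  obtain ⟨v, h1, h2, h3⟩ := key Finset.univ
  obtain ⟨t, ht⟩ := support_nonempty_iff.mpr h3
  obtain ⟨g, hg, rfl⟩ := Finset.mem_image.mp (mapDomain_support ht)
  refine ⟨mapDomain (g⁻¹ * ·) v, h1.map fun g' hg' => mul_mem (inv_mem (h1 g hg)) hg',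
    fun j => (h2 j (Finset.mem_univ j)).map _, ?_⟩
  rw [map_Lm, ← inv_mul_cancel (a g), map_inv, mapDomain_apply (mul_right_injective _)]
  have : ∀ b : ZMod 2, b ≠ 0 → b = 1 := by decide
  exact this _ (mem_support_iff.mp ht)

end Pool.Agent.Lib.MP_2fb4be_al.Sol.Cy
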