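import Mathlib
import Pool.Agent.Lib.MP_2fb4be_al.Comb
import Pool.Agent.Lib.MP_2fb4be_al.Sol.Ore

-- part Pool.Agent.Lib.MP_2fb4be_al.Sol.Cells
section

/-!
Cells indexed by the faces of a cube: bounded cells in cosets of the group, and large cells in
the lattice.
-/

set_option autoImplicit false

noncomputable section

namespace Pool.Agent.Lib.MP_2fb4be_al.Sol.Cy

open Finsupp

section general
variable {X Y J : Type}

/-- All simplices of the chain satisfy `S`. -/
def All (c : Ch X) (S : List X → Prop) : Prop := ∀ l ∈ c.support, S l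

theorem All.sup {c : Ch X} {S : List X → Prop} (h : All c S) : Sup c S c.support.card :=
  ⟨le_rfl, h⟩

theorem All.sum {ι : Type} (s : Finset ι) {c : ι → Ch X} {S : List X → Prop}
    (h : ∀ i ∈ s, All (c i) S) : All (∑ i ∈ s, c i) S := fun l hl => by
  obtain ⟨i, hi, h1⟩ := mem_support_finsetSum l hl
  exact h i hi l h1

theorem lin_congr {F H : Ch X →ₗ[ZMod 2] Ch Y} {c : Ch X} {S : List X → Prop} (hc : All c S)
    (h : ∀ l, S l → F (sx l) = H (sx l)) : F c = H c := by
  conv_lhs => rw [← c.sum_single]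
  conv_rhs => rw [← c.sum_single]
  rw [Finsupp.sum, map_sum, map_sum]
  refine Finset.sum_congr rfl fun l hl => ?_
  rw [(zmod2 _).resolve_left (mem_support_iff.1 hl)]
  exact h l (hc l hl)

theorem sup_bdL (l : List X) :
    Sup (bdL l) (fun m => m.length + 1 = l.length ∧ ∀ y ∈ m, y ∈ l) l.length := by
  induction l with
  | nil => exact Sup.zero _ _
  | cons x l ih =>
    rw [bdL, List.length_cons, add_comm l.length 1]
    refine Sup.add (Sup.sx ⟨add_comm _ _, fun y hy => List.mem_cons_of_mem _ hy⟩) (ih.cn _ ?_)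
    rintro m ⟨h1, h2⟩
    refine ⟨by simp; omega, fun y hy => ?_⟩
    rcases List.mem_cons.1 hy with rfl | hy
    · simp
    · exact List.mem_cons_of_mem _ (h2 y hy)

theorem sum_sym [DecidableEq J] (S : Finset J) (g : J → J → Ch X) (hg : ∀ i j, g i j = g j i) :
    ∑ j ∈ S, ∑ i ∈ S.erase j, g i j = 0 := by
  induction S using Finset.induction_on with
  | empty => simp
  | insert a S ha ih =>
    have e : ∑ j ∈ S, ∑ i ∈ (insert a S).erase j, g i j =
        ∑ j ∈ S, (g j a + ∑ i ∈ S.erase j, g i j) := Finset.sum_congr rfl fun j hj => by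
      rw [Finset.erase_insert_of_ne (by rintro rfl; exact ha hj),
        Finset.sum_insert fun h => ha (Finset.mem_of_mem_erase h), hg]
    rw [Finset.sum_insert ha, Finset.erase_insert ha, e, Finset.sum_add_distrib, ih, add_zero,
      add_self]

theorem bd_faces [DecidableEq J] {E : Finset J → Ch X} {S : Finset J}
    (h : ∀ j ∈ S, bd (E (S.erase j)) = ∑ i ∈ S.erase j, E ((S.erase j).erase i)) :
    bd (∑ j ∈ S, E (S.erase j)) = 0 := by
  rw [map_sum, Finset.sum_congr rfl h]
  exact sum_sym S _ fun i j => by rw [Finset.erase_right_comm]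

theorem exists_rec [DecidableEq J] (c : Ch X) (K : Finset J → Ch X → Ch X) :
    ∃ E : Finset J → Ch X, E ∅ = c ∧
      ∀ S : Finset J, S.Nonempty → E S = K S (∑ j ∈ S, E (S.erase j)) := by
  let E : ℕ → Finset J → Ch X := fun n =>
    Nat.rec (fun _ => c) (fun _ E S => K S (∑ j ∈ S, E (S.erase j))) n
  refine ⟨fun S => E S.card S, rfl, fun S hS => ?_⟩
  obtain ⟨n, hn⟩ := Nat.exists_eq_succ_of_ne_zero hS.card_pos.ne'
  simp only [hn]
  exact congrArg (K S) (Finset.sum_congr rfl fun j hj => by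
    rw [Finset.card_erase_of_mem hj, hn]; rfl)

/-- Cone over a simplex with apex depending on the first vertex. -/
def coneL (ρ : X → X) : List X → Ch X
  | [] => 0
  | x :: l => sx (ρ x :: x :: l)

/-- Cone with apex depending on the first vertex. -/
def cone (ρ : X → X) : Ch X →ₗ[ZMod 2] Ch X := ext (coneL ρ)

theorem cone_sx (ρ : X → X) (x : X) (l : List X) : cone ρ (sx (x :: l)) = sx (ρ x :: x :: l) :=
  ext_sx _ _

theorem bd_cone_pt (ρ : X → X) {c : Ch X} (h : All c fun l => l.length = 1) :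
    bd (cone ρ c) = c + push ρ c :=
  lin_congr (F := bd ∘ₗ cone ρ) (H := LinearMap.id + push ρ) h fun l hl => by
    obtain ⟨x, rfl⟩ := List.length_eq_one_iff.mp hl
    simp [cone_sx, bdL]

theorem bd_cone (ρ : X → X) {c : Ch X}
    (h : All c fun l => 2 ≤ l.length ∧ ∀ x ∈ l, ∀ y ∈ l, ρ x = ρ y) :
    bd (cone ρ c) = c + cone ρ (bd c) :=
  lin_congr (F := bd ∘ₗ cone ρ) (H := LinearMap.id + cone ρ ∘ₗ bd) h fun l hl => by
    rcases l with _ | ⟨x, l⟩
    · simp at hl
    have e : cone ρ (bdL (x :: l)) = cn (ρ x) (bdL (x :: l)) :=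
      lin_congr (sup_bdL (x :: l)).2 fun m hm => by
        rcases m with _ | ⟨y, m⟩
        · have := hl.1
          rw [← hm.1] at this
          simp at this
        · rw [cone_sx, cn_sx, hl.2 x (by simp) y (hm.2 y (by simp))]
    simp only [LinearMap.comp_apply, cone_sx, bd_sx, LinearMap.add_apply, LinearMap.id_apply, e]
    rw [bdL]

/-- Finitely supported functions as chains of points. -/
def pts : (X →₀ ZMod 2) →ₗ[ZMod 2] Ch X := lmapDomain (ZMod 2) (ZMod 2) fun x => [x]

theorem pts_single (x : X) (b : ZMod 2) : pts (single x b) = b • sx [x] := by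
  simp [pts, sx]

theorem all_pts (v : X →₀ ZMod 2) : All (pts v) fun l => ∃ x ∈ v.support, l = [x] := by
  classical
  intro l hl
  obtain ⟨x, hx, rfl⟩ := Finset.mem_image.mp (mapDomain_support hl)
  exact ⟨x, hx, rfl⟩

theorem push_pts (ρ : X → Y) (v : X →₀ ZMod 2) : push ρ (pts v) = pts (mapDomain ρ v) := by
  induction v using Finsupp.induction_linear with
  | zero => simp
  | add f g hf hg => rw [mapDomain_add, map_add, map_add, map_add, hf, hg]
  | single x b => simp [pts_single]

theorem bd_pts (ρ : X → Y) (v : X →₀ ZMod 2) (h : mapDomain ρ v = 0) : bd (pts v) = 0 := by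
  have key : ∀ v : X →₀ ZMod 2,
      bd (pts v) = (mapDomain (fun _ => ()) (mapDomain ρ v) ()) • sx [] := fun v => by
    induction v using Finsupp.induction_linear with
    | zero => simp
    | add f g hf hg =>
      rw [mapDomain_add, mapDomain_add, map_add, map_add, hf, hg, Finsupp.add_apply, add_smul]
    | single x b => simp [pts_single, bdL]
  rw [key, h]
  simp

end general

section group
variable {F J : Type} [Group F]

/-- The chosen representative of a left coset. -/
def rep (H : Subgroup F) (g : F) : F := (QuotientGroup.mk g : F ⧸ H).out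

theorem rep_mem (H : Subgroup F) (g : F) : (rep H g)⁻¹ * g ∈ H :=
  QuotientGroup.eq.mp (QuotientGroup.out_eq' _)

theorem rep_eq {H : Subgroup F} {g g' : F} (h : g⁻¹ * g' ∈ H) : rep H g = rep H g' := by
  rw [rep, QuotientGroup.eq.mpr h, rep]

/-- A simplex of dimension `S.card` in a coset of the group generated by the `X j`, `j ∈ S`. -/
def Cos (X : J → F) (S : Finset J) (n : ℕ) (l : List F) : Prop :=
  l.length = n ∧ ∀ x ∈ l, x ∈ Subgroup.closure (Set.range X) ∧
    ∀ y ∈ l, x⁻¹ * y ∈ Subgroup.closure (X '' S)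

theorem exists_E [DecidableEq J] [Nonempty J] (X : J → F) (ξ : F →₀ ZMod 2)
    (h1 : On (Subgroup.closure (Set.range X)) ξ) (h2 : ∀ j, In (X j) ξ) :
    ∃ E : Finset J → Ch F, E ∅ = pts ξ ∧ ∀ S, All (E S) (Cos X S (S.card + 1)) ∧
      bd (E S) = ∑ j ∈ S, E (S.erase j) := by
  obtain ⟨E, e0, e1⟩ := exists_rec (pts ξ)
    fun (S : Finset J) c => cone (rep (Subgroup.closure (X '' S))) c
  refine ⟨E, e0, fun S => ?_⟩
  induction S using Finset.strongInduction with
  | H S ih =>
    rcases S.eq_empty_or_nonempty with rfl | hS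
    · rw [e0]
      refine ⟨fun l hl => ?_, bd_pts _ ξ (h2 (Classical.arbitrary J) (fun _ => 1) fun _ => rfl)⟩
      obtain ⟨x, hx, rfl⟩ := all_pts ξ l hl
      exact ⟨rfl, by simpa using h1 x hx⟩
    have hle : Subgroup.closure (X '' S) ≤ Subgroup.closure (Set.range X) :=
      Subgroup.closure_mono (Set.image_subset_range _ _)
    have hc : All (∑ j ∈ S, E (S.erase j)) (Cos X S S.card) := All.sum _ fun j hj l hl => by
      obtain ⟨a1, a2⟩ := (ih _ (Finset.erase_ssubset hj)).1 l hl
      exact ⟨by rw [a1, Finset.card_erase_add_one hj], fun x hx => ⟨(a2 x hx).1, fun y hy =>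
        Subgroup.closure_mono (Set.image_mono (Finset.erase_subset j S)) ((a2 x hx).2 y hy)⟩⟩
    have hb := bd_faces fun j hj => (ih _ (Finset.erase_ssubset hj)).2
    rw [e1 S hS]
    constructor
    · refine (hc.sup.lin (M := 1) _ fun l hl => ?_).2
      rcases l with _ | ⟨x, l⟩
      · exact absurd hl.1.symm hS.card_pos.ne'
      rw [cone_sx]
      have a0 := rep_mem (Subgroup.closure (X '' S)) x
      have a1 : ∀ y ∈ x :: l, (rep (Subgroup.closure (X '' S)) x)⁻¹ * y ∈
          Subgroup.closure (X '' S) := fun y hy => by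
        have := mul_mem a0 ((hl.2 x (by simp)).2 y hy)
        rwa [mul_assoc, mul_inv_cancel_left] at this
      refine Sup.sx ⟨by rw [← hl.1]; rfl, fun y hy => ?_⟩
      rcases List.mem_cons.1 hy with rfl | hy
      · refine ⟨?_, fun z hz => ?_⟩
        · simpa using mul_mem (hl.2 x (by simp)).1 (inv_mem (hle a0))
        · rcases List.mem_cons.1 hz with rfl | hz
          · simp
          · exact a1 z hz
      · refine ⟨(hl.2 y hy).1, fun z hz => ?_⟩
        rcases List.mem_cons.1 hz with rfl | hz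
        · simpa using inv_mem (a1 y hy)
        · exact (hl.2 y hy).2 z hz
    · by_cases h : S.card = 1
      · rw [bd_cone_pt _ fun l hl => (hc l hl).1.trans h]
        obtain ⟨j, rfl⟩ := Finset.card_eq_one.mp h
        rw [Finset.sum_singleton, Finset.erase_singleton, e0, push_pts, h2 j _ fun g =>
          (rep_eq (by simp)).symm, map_zero, add_zero]
      · rw [bd_cone _ fun l hl => ⟨by have := hS.card_pos; rw [(hc l hl).1]; omega,
          fun x hx y hy => rep_eq (((hc l hl).2 x hx).2 y hy)⟩, hb, map_zero, add_zero]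

end group

section lattice
variable {J : Type} {r : ℕ}

/-- A contraction of the box of radius `B` that moves in the direction `q`. -/
def hom (B : ℕ) (q : Fin r → ℤ) (t : ℕ) (y : Fin r → ℤ) : Fin r → ℤ :=
  fun i => max (-(B - t : ℤ)) (min (B - t : ℤ) (y i)) + t * q i

/-- The filling given by the contraction. -/
def fill (B : ℕ) (q : Fin r → ℤ) (c : Ch (Fin r → ℤ)) : Ch (Fin r → ℤ) :=
  ∑ t ∈ Finset.range B, pr (hom B q t) (hom B q (t + 1)) c + cn (B • q) (push (hom B q B) c)

theorem bd_sum_pr {X Y : Type} (φ : ℕ → X → Y) {c : Ch X} (hc : bd c = 0) (n : ℕ) :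
    bd (∑ t ∈ Finset.range n, pr (φ t) (φ (t + 1)) c) = push (φ 0) c + push (φ n) c := by
  induction n with
  | zero => simp [add_self]
  | succ n ih =>
    rw [Finset.sum_range_succ, map_add, ih, bd_pr, hc, map_zero, zero_add, add_assoc,
      ← add_assoc (push (φ n) c), add_self, zero_add]

theorem bd_fill {B : ℕ} (q : Fin r → ℤ) {c : Ch (Fin r → ℤ)} (hc : bd c = 0)
    (h : All c fun l => ∀ x ∈ l, ∀ i, |x i| ≤ B) : bd (fill B q c) = c := by
  rw [fill, map_add, bd_sum_pr _ hc, bd_cn, bd_push, hc, map_zero, map_zero, add_zero, add_assoc,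
    add_self, add_zero]
  refine lin_congr (H := LinearMap.id) h fun l hl => ?_
  rw [push_sx, LinearMap.id_apply, List.map_congr_left (g := id) fun x hx => funext fun i => ?_,
    List.map_id]
  have := abs_le.mp (hl x hx i)
  simp only [hom, id]
  omega

/-- A small simplex in a box and deep in a cone. -/
def Rg (lam : J → (Fin r → ℤ) →+ ℝ) (U : Finset J) (T B μ n : ℕ) (l : List (Fin r → ℤ)) : Prop :=
  l.length = n ∧ (∀ x ∈ l, ∀ y ∈ l, ∀ i, |x i - y i| ≤ μ) ∧
    ∀ x ∈ l, (∀ i, |x i| ≤ B) ∧ ∀ j ∉ U, (T : ℝ) ≤ lam j x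

theorem Rg.mono {lam : J → (Fin r → ℤ) →+ ℝ} {U U' : Finset J} {T B μ n B' μ' : ℕ}
    {l : List (Fin r → ℤ)} (h : Rg lam U T B μ n l) (hU : U ⊆ U') (hB : B ≤ B') (hμ : μ ≤ μ') :
    Rg lam U' T B' μ' n l :=
  ⟨h.1, fun x hx y hy i => (h.2.1 x hx y hy i).trans (by exact_mod_cast hμ), fun x hx =>
    ⟨fun i => ((h.2.2 x hx).1 i).trans (by exact_mod_cast hB),
      fun j hj => (h.2.2 x hx).2 j fun e => hj (hU e)⟩⟩

theorem exists_lip (φ : (Fin r → ℤ) →+ ℝ) :
    ∃ Λ : ℝ, 1 ≤ Λ ∧ ∀ (t : ℕ) (v : Fin r → ℤ), (∀ i, |v i| ≤ t) → -(t * Λ) ≤ φ v := by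
  refine ⟨1 + ∑ i, |φ (Pi.single i 1)|, le_add_of_nonneg_right (by positivity), fun t v hv => ?_⟩
  have e : φ v = ∑ i, v i * φ (Pi.single i 1) := by
    conv_lhs => rw [← Finset.univ_sum_single v, map_sum]
    refine Finset.sum_congr rfl fun i _ => ?_
    rw [← zsmul_eq_mul, ← map_zsmul, ← Pi.single_smul, smul_eq_mul, mul_one]
  have h1 : |φ v| ≤ t * ∑ i, |φ (Pi.single i 1)| := by
    rw [e, Finset.mul_sum]
    refine (Finset.abs_sum_le_sum_abs _ _).trans (Finset.sum_le_sum fun i _ => ?_)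
    rw [abs_mul]
    exact mul_le_mul_of_nonneg_right (by exact_mod_cast hv i) (abs_nonneg _)
  have h2 := (abs_le.mp h1).1
  have h3 : (0 : ℝ) ≤ t := Nat.cast_nonneg t
  linarith

/-- The direction `q` increases `φ` faster than unit steps decrease it. -/
def Dir (φ : (Fin r → ℤ) →+ ℝ) (q : Fin r → ℤ) : Prop :=
  1 ≤ φ q ∧ ∀ (t : ℕ) (v : Fin r → ℤ), (∀ i, |v i| ≤ t) → -(t * φ q) ≤ φ v

theorem sup_fill {lam : J → (Fin r → ℤ) →+ ℝ} {U : Finset J} {T B μ n N Q : ℕ} {q : Fin r → ℤ}
    (hq : ∀ j ∉ U, Dir (lam j) q) (hQ : ∀ i, |q i| ≤ Q) (hT : T ≤ B) {c : Ch (Fin r → ℤ)}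
    (h : Sup c (Rg lam U T B μ n) N) :
    Sup (fill B q c) (Rg lam U T (B * (1 + Q)) (μ + (1 + Q)) (n + 1)) (N * (n * B + 1)) := by
  have k1 : ∀ t ≤ B, ∀ i, |(t : ℤ) * q i| ≤ B * Q := fun t ht i => by
    rw [abs_mul, Nat.abs_cast]
    exact mul_le_mul (by exact_mod_cast ht) (hQ i) (abs_nonneg _) (by positivity)
  have k2 : ∀ t ≤ B, ∀ x : Fin r → ℤ, ((∀ i, |x i| ≤ B) ∧ ∀ j ∉ U, (T : ℝ) ≤ lam j x) →
      (∀ i, |hom B q t x i| ≤ (B * (1 + Q) : ℕ)) ∧ ∀ j ∉ U, (T : ℝ) ≤ lam j (hom B q t x) := by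
    intro t ht x hx
    refine ⟨fun i => ?_, fun j hj => ?_⟩
    · have := abs_le.mp (k1 t ht i)
      rw [abs_le, hom]
      push_cast
      rw [mul_add, mul_one]
      omega
    · have e : hom B q t x = x + (hom B q t x - t • q - x) + t • q := by abel
      have h1 := (hq j hj).2 t (hom B q t x - t • q - x) fun i => by
        have := abs_le.mp (hx.1 i)
        rw [Pi.sub_apply, Pi.sub_apply, Pi.smul_apply, nsmul_eq_mul, hom, abs_le]
        omega
      rw [e, map_add, map_add, map_nsmul, nsmul_eq_mul t (lam j q)]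
      linarith [hx.2 j hj]
  have k3 : ∀ y, hom B q B y = B • q := fun y => funext fun i => by simp [hom]
  have := (Sup.sum (Finset.range B) (S := Rg lam U T (B * (1 + Q)) (μ + (1 + Q)) (n + 1))
    fun t ht => h.pr (hom B q t) (hom B q (t + 1)) (fun l hl => hl.1) fun l m hl h1 h2 =>
      ⟨h1, fun x hx y hy i => ?_, fun x hx => ?_⟩).add
    ((h.push (S' := fun l => l.length = n ∧ ∀ x ∈ l, x = B • q) (hom B q B) fun l hl =>
      ⟨by rw [List.length_map, hl.1], fun x hx => ?_⟩).cn (B • q) fun l hl => ?_)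
  · refine this.mono (fun _ h => h) (le_of_eq ?_)
    rw [Finset.card_range]
    ring
  · obtain ⟨x', hx', e⟩ := h2 x hx
    obtain ⟨y', hy', e'⟩ := h2 y hy
    have a1 := abs_le.mp (hl.2.1 x' hx' y' hy' i)
    have a2 := abs_le.mp (hQ i)
    have a3 := Finset.mem_range.mp ht
    rcases e with rfl | rfl <;> rcases e' with rfl | rfl <;> simp only [hom, abs_le] <;>
      push_cast <;> simp -failIfUnchanged only [add_mul, one_mul] <;> omega
  · obtain ⟨x', hx', e⟩ := h2 x hx
    have a3 := Finset.mem_range.mp ht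
    rcases e with rfl | rfl
    · exact k2 t a3.le x' (hl.2.2 x' hx')
    · exact k2 (t + 1) a3 x' (hl.2.2 x' hx')
  · obtain ⟨y, -, rfl⟩ := List.mem_map.mp hx
    exact k3 y
  · have e : ∀ x ∈ B • q :: l, x = B • q := fun x hx =>
      (List.mem_cons.mp hx).elim id (hl.2 x)
    refine ⟨by rw [List.length_cons, hl.1], fun x hx y hy i => ?_, fun x hx => ⟨fun i => ?_,
      fun j hj => ?_⟩⟩
    · rw [e x hx, e y hy, sub_self, abs_zero]
      positivity
    · have := abs_le.mp (k1 B le_rfl i)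
      rw [e x hx, Pi.smul_apply, nsmul_eq_mul, abs_le]
      push_cast
      rw [mul_add, mul_one]
      omega
    · rw [e x hx, map_nsmul, nsmul_eq_mul]
      exact le_trans (by exact_mod_cast hT) (le_mul_of_one_le_right (by positivity) (hq j hj).1)

theorem exists_dir [Fintype J] (lam : J → (Fin r → ℤ) →+ ℝ)
    (hface : ∀ j0, ∃ q, ∀ j, j ≠ j0 → 0 < lam j q) (U : Finset J) :
    ∃ q, U.Nonempty → ∀ j ∉ U, Dir (lam j) q := by
  rcases U.eq_empty_or_nonempty with rfl | ⟨j0, hj0⟩
  · exact ⟨0, by simp⟩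
  obtain ⟨q, hq⟩ := hface j0
  choose Λ h1 h2 using fun j => exists_lip (lam j)
  choose K hK using fun j => exists_nat_ge (Λ j / lam j q)
  refine ⟨(∑ j, K j) • q, fun _ j hj => ?_⟩
  have h3 := hq j (by rintro rfl; exact hj hj0)
  have h4 : Λ j ≤ lam j ((∑ j, K j) • q) := by
    rw [map_nsmul, nsmul_eq_mul, ← div_le_iff₀ h3]
    exact (hK j).trans (Nat.cast_le.mpr
      (Finset.single_le_sum (fun _ _ => Nat.zero_le _) (Finset.mem_univ j)))
  exact ⟨(h1 j).trans h4, fun t v hv => le_trans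
    (neg_le_neg (mul_le_mul_of_nonneg_left h4 (Nat.cast_nonneg t))) (h2 j t v hv)⟩

theorem exists_D [Fintype J] [DecidableEq J] (lam : J → (Fin r → ℤ) →+ ℝ)
    (hface : ∀ j0, ∃ q, ∀ j, j ≠ j0 → 0 < lam j q) :
    ∃ C : ℕ, ∀ T : ℕ, ∃ D : Finset J → Ch (Fin r → ℤ), D ∅ = sx [] ∧ ∀ U,
      Sup (D U) (Rg lam U T (C * (T + 1)) C U.card) (C * (T + 1) ^ C) ∧
      bd (D U) = ∑ j ∈ U, D (U.erase j) := by
  choose q hq using exists_dir lam hface
  let Q := ∑ U, ∑ i, (q U i).natAbs
  have hQ : ∀ U i, |q U i| ≤ Q := fun U i => by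
    rw [← Int.natCast_natAbs, Nat.cast_le]
    exact (Finset.single_le_sum (f := fun i => (q U i).natAbs) (fun _ _ => Nat.zero_le _)
      (Finset.mem_univ i)).trans (Finset.single_le_sum (f := fun U => ∑ i, (q U i).natAbs)
        (fun _ _ => Nat.zero_le _) (Finset.mem_univ U))
  let m := Fintype.card J
  let c := (m + 1) * ((m + 1) * (1 + Q) ^ m)
  have hc : 1 ≤ c := Nat.pos_of_ne_zero (by positivity)
  refine ⟨c ^ m + (1 + Q) ^ m + m * (1 + Q) + m, fun T => ?_⟩
  obtain ⟨D, e0, e1⟩ := exists_rec (sx [])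
    fun (U : Finset J) c => fill ((T + 1) * (1 + Q) ^ (U.card - 1)) (q U) c
  have hm : ∀ U : Finset J, U.card ≤ m := fun U => U.card_le_univ
  have hp : ∀ U : Finset J, (1 + Q) ^ U.card ≤ (1 + Q) ^ m := fun U =>
    Nat.pow_le_pow_right (by omega) U.card_le_univ
  have key : ∀ U : Finset J, Sup (D U) (Rg lam U T ((T + 1) * (1 + Q) ^ U.card)
      (U.card * (1 + Q)) U.card) ((c * (T + 1)) ^ U.card) ∧
      bd (D U) = ∑ j ∈ U, D (U.erase j) := by
    intro U
    induction U using Finset.strongInduction with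
    | H U ih =>
      rcases U.eq_empty_or_nonempty with rfl | hU
      · rw [e0]
        exact ⟨Sup.sx ⟨rfl, by simp, by simp⟩, by simp [bdL]⟩
      obtain ⟨n, hn⟩ := Nat.exists_eq_succ_of_ne_zero hU.card_pos.ne'
      have h1 := Sup.sum U (S := Rg lam U T ((T + 1) * (1 + Q) ^ n) (n * (1 + Q)) n)
        (N := (c * (T + 1)) ^ n) fun j hj => by
          have := (ih _ (Finset.erase_ssubset hj)).1
          rw [Finset.card_erase_of_mem hj, hn] at this
          exact this.mono (fun l hl => hl.mono (Finset.erase_subset _ _) le_rfl le_rfl) le_rfl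
      have hb := bd_faces fun j hj => (ih _ (Finset.erase_ssubset hj)).2
      have h2 := hp U
      have h3 := hm U
      rw [e1 U hU]
      rw [hn] at h1 h2 h3 ⊢
      refine ⟨(sup_fill (hq U hU) (hQ U) ?_ h1).mono (fun l hl => hl.mono subset_rfl ?_ ?_) ?_,
        bd_fill _ hb fun l hl x hx => ((h1.2 l hl).2.2 x hx).1⟩
      · exact (Nat.le_succ T).trans (Nat.le_mul_of_pos_right _ (by positivity))
      · rw [pow_succ, mul_assoc]
      · rw [Nat.succ_mul]
      · have h4 : (1 + Q) ^ n ≤ (1 + Q) ^ m := Nat.pow_le_pow_right (by omega) (by omega)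
        have h5 : 1 ≤ (T + 1) * (1 + Q) ^ m := Nat.pos_of_ne_zero (by positivity)
        have h6 : n * ((T + 1) * (1 + Q) ^ n) ≤ m * ((T + 1) * (1 + Q) ^ m) :=
          Nat.mul_le_mul (by omega) (Nat.mul_le_mul_left _ h4)
        calc _ ≤ (m + 1) * (c * (T + 1)) ^ n * (m * ((T + 1) * (1 + Q) ^ m) +
              (T + 1) * (1 + Q) ^ m) :=
            Nat.mul_le_mul (Nat.mul_le_mul_right _ (by omega)) (Nat.add_le_add h6 h5)
          _ = _ := by rw [pow_succ]; simp only [c]; ring
  refine ⟨D, e0, fun U => ⟨(key U).1.mono (fun l hl => hl.mono subset_rfl ?_ ?_) ?_, (key U).2⟩⟩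
  · rw [mul_comm]
    exact Nat.mul_le_mul_right _ ((hp U).trans (by omega))
  · exact (Nat.mul_le_mul_right _ (hm U)).trans (by omega)
  · rw [mul_pow]
    exact Nat.mul_le_mul ((Nat.pow_le_pow_right hc (hm U)).trans (by omega))
      (Nat.pow_le_pow_right (by omega) ((hm U).trans (by omega)))

end lattice

end Pool.Agent.Lib.MP_2fb4be_al.Sol.Cy
end
end

-- part Pool.Agent.Lib.MP_2fb4be_al.Sol.Cycle
section

/-!
The shuffle product of the two families of cells is a cycle that pairs nontrivially with the cup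
product of the coordinate cocycles.
-/

set_option autoImplicit false

noncomputable section

namespace Pool.Agent.Lib.MP_2fb4be_al.Sol

open Finsupp

namespace Cy

section product
variable {X Y : Type}

/-- The coefficient of the empty simplex. -/
def e0 : Ch X →ₗ[ZMod 2] ZMod 2 := lapply []

@[simp] theorem e0_nil : e0 (sx ([] : List X)) = 1 := by simp [e0, sx]

@[simp] theorem e0_cons (x : X) (l : List X) : e0 (sx (x :: l)) = 0 := by simp [e0, sx]

@[simp] theorem e0_cn (x : X) (c : Ch X) : e0 (cn x c) = 0 :=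
  ch_ind (p := fun c => e0 (cn x c) = 0) (by simp) (by simp) (fun c d h1 h2 => by simp [h1, h2]) c

theorem e0_eq_zero {c : Ch X} (h : All c fun l => l ≠ []) : e0 c = 0 := by
  by_contra e
  exact h [] (mem_support_iff.mpr e) rfl

/-- Shuffle product of two simplices. -/
def PL : List X → List Y → Ch (X × Y)
  | [], _ => 0
  | _ :: _, [] => 0
  | x :: a, y :: b =>
    cn (x, y) (PL a (y :: b) + PL (x :: a) b + (e0 (sx a) * e0 (sx b)) • sx [])
termination_by a b => a.length + b.length

/-- Shuffle product of chains. -/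
def P : Ch X →ₗ[ZMod 2] Ch Y →ₗ[ZMod 2] Ch (X × Y) :=
  linearCombination (ZMod 2) fun a => ext (PL a)

theorem P_sx (a : List X) (b : List Y) : P (sx a) (sx b) = PL a b := by
  have : P (sx a) = ext (PL (Y := Y) a) := by simp [P, sx]
  rw [this, ext_sx]

theorem PL_nil (a : List X) : PL a ([] : List Y) = 0 := by cases a <;> rw [PL]

theorem P_nil (α : Ch X) : P α (sx ([] : List Y)) = 0 :=
  ch_ind (p := fun α => P α (sx ([] : List Y)) = 0) (by simp) (fun a => by rw [P_sx, PL_nil])
    (fun c d h1 h2 => by simp [h1, h2]) α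

theorem nil_P (β : Ch Y) : P (sx ([] : List X)) β = 0 :=
  ch_ind (p := fun β => P (sx ([] : List X)) β = 0) (by simp) (fun a => by rw [P_sx, PL])
    (fun c d h1 h2 => by simp [h1, h2]) β

theorem bi_ind {p : Ch X → Ch Y → Prop} (h0 : ∀ β, p 0 β) (h0' : ∀ α, p α 0)
    (h1 : ∀ a b, p (sx a) (sx b)) (h2 : ∀ α α' β, p α β → p α' β → p (α + α') β)
    (h3 : ∀ α β β', p α β → p α β' → p α (β + β')) (α : Ch X) (β : Ch Y) : p α β :=
  ch_ind (p := fun α => p α β) (h0 β)
    (fun a => ch_ind (p := p (sx a)) (h0' _) (h1 a) (h3 _) β) (fun c d => h2 c d β) α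

theorem P_cn (x : X) (y : Y) (α : Ch X) (β : Ch Y) : P (cn x α) (cn y β) =
    cn (x, y) (P α (cn y β) + P (cn x α) β + (e0 α * e0 β) • sx []) := by
  refine bi_ind (p := fun α β => P (cn x α) (cn y β) =
    cn (x, y) (P α (cn y β) + P (cn x α) β + (e0 α * e0 β) • sx [])) (by simp) (by simp)
    (fun a b => ?_) (fun α α' β h h' => ?_) (fun α β β' h h' => ?_) α β
  · simp only [cn_sx, P_sx]
    rw [PL]
  · simp only [map_add, LinearMap.add_apply, h, h', add_mul, add_smul]
    abel
  · simp only [map_add, h, h', mul_add, add_smul]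
    abel

theorem bd_PL (a : List X) (b : List Y) : bd (P (sx a) (sx b)) =
    P (bdL a) (sx b) + P (sx a) (bdL b) + (e0 (bdL a) * e0 (bdL b)) • sx [] := by
  induction a generalizing b with
  | nil => simp [nil_P, bdL]
  | cons x a iha =>
    induction b with
    | nil => simp [P_nil, bdL]
    | cons y b ihb =>
      have h1 := iha (y :: b)
      have h2 := P_cn x y (bdL a) (sx b)
      have h3 := P_cn x y (sx a) (bdL b)
      have h4 := P_cn x y (sx a) (sx b)
      have h5 := add_self (cn (x, y) (P (sx a) (sx b)))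
      simp only [cn_sx] at h2 h3 h4
      rw [h4, bd_cn]
      simp only [bdL, map_add, LinearMap.add_apply, e0_cn, add_zero, map_smul, bd_sx, smul_zero]
        at h1 ihb h2 h3 ⊢
      rw [h1, ihb, h2, h3, ← sub_eq_zero, ← h5]
      simp only [map_add, map_smul]
      abel

theorem bd_P (α : Ch X) (β : Ch Y) :
    bd (P α β) = P (bd α) β + P α (bd β) + (e0 (bd α) * e0 (bd β)) • sx [] := by
  refine bi_ind (p := fun α β => bd (P α β) =
    P (bd α) β + P α (bd β) + (e0 (bd α) * e0 (bd β)) • sx []) (by simp) (by simp)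
    (fun a b => by simpa only [bd_sx] using bd_PL a b) (fun α α' β h h' => ?_)
    (fun α β β' h h' => ?_) α β
  · simp only [map_add, LinearMap.add_apply, h, h', add_mul, add_smul]
    abel
  · simp only [map_add, h, h', mul_add, add_smul]
    abel

theorem sup_PL (a : List X) (b : List Y) :
    Sup (PL a b) (fun l => l.length + 1 = a.length + b.length ∧ ∀ z ∈ l, z.1 ∈ a ∧ z.2 ∈ b)
      (3 ^ (a.length + b.length)) := by
  induction a generalizing b with
  | nil => rw [PL]; exact Sup.zero _ _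
  | cons x a iha =>
    induction b with
    | nil => rw [PL]; exact Sup.zero _ _
    | cons y b ihb =>
      rw [PL]
      have h3 : Sup ((e0 (sx a) * e0 (sx b)) • sx ([] : List (X × Y)))
          (fun l => l.length = a.length + b.length ∧ ∀ z ∈ l, z.1 ∈ x :: a ∧ z.2 ∈ y :: b) 1 := by
        rcases a with _ | ⟨x', a⟩
        · rcases b with _ | ⟨y', b⟩
          · simpa using Sup.sx (by simp)
          · simpa using Sup.zero _ _
        · simpa using Sup.zero _ _
      have h4 := (((iha (y :: b)).mono (fun l hl => ⟨by simpa [← add_assoc] using hl.1, fun z hz =>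
        ⟨List.mem_cons_of_mem _ (hl.2 z hz).1, (hl.2 z hz).2⟩⟩) le_rfl).add
        (ihb.mono (fun l hl => ⟨by simpa [add_right_comm] using hl.1, fun z hz =>
          ⟨(hl.2 z hz).1, List.mem_cons_of_mem _ (hl.2 z hz).2⟩⟩) le_rfl)).add h3
      refine Sup.mono (h4.cn _ fun l hl => And.intro ?_ fun z hz => ?_) (fun _ h => h) ?_
      · simp only [List.length_cons, hl.1]
        omega
      · rcases List.mem_cons.mp hz with rfl | hz
        · simp
        · exact hl.2 z hz
      · simp only [List.length_cons]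
        have : 0 < 3 ^ (a.length + b.length) := by positivity
        rw [show a.length + 1 + (b.length + 1) = a.length + b.length + 2 by ring,
          show a.length + 1 + b.length = a.length + b.length + 1 by ring, ← add_assoc, pow_succ,
          pow_add _ _ 2]
        omega

theorem sup_P {α : Ch X} {β : Ch Y} {S1 : List X → Prop} {S2 : List Y → Prop}
    {S : List (X × Y) → Prop} {N1 N2 n : ℕ} (h1 : Sup α S1 N1) (h2 : Sup β S2 N2)
    (hn : ∀ a b, S1 a → S2 b → a.length + b.length = n + 1)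
    (h : ∀ a b l, S1 a → S2 b → l.length = n → (∀ z ∈ l, z.1 ∈ a ∧ z.2 ∈ b) → S l) :
    Sup (P α β) S (N1 * (N2 * 3 ^ (n + 1))) :=
  h1.lin (P.flip β) fun a ha => h2.lin (P (sx a)) fun b hb => by
    rw [P_sx, ← hn a b ha hb]
    exact (sup_PL a b).mono (fun l hl => h a b l ha hb (by have := hn a b ha hb; omega) hl.2) le_rfl

theorem push_PL (x : X) (a : List X) (y : Y) : push Prod.fst (PL (x :: a) [y]) = sx (x :: a) := by
  induction a generalizing x with
  | nil => simp [PL]
  | cons x' a ih => rw [PL, PL_nil, push_cn]; simp [ih]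

theorem push_P {α : Ch X} {β : Ch Y} (h1 : All α fun l => l ≠ []) (h2 : All β fun l => l.length = 1)
    (h3 : bd β = sx []) : push Prod.fst (P α β) = α :=
  lin_congr (F := push Prod.fst ∘ₗ P.flip β) (H := LinearMap.id) h1 fun a ha => by
    obtain ⟨x, a, rfl⟩ := List.exists_cons_of_ne_nil ha
    have := lin_congr (F := push Prod.fst ∘ₗ P (sx (x :: a)))
      (H := (e0 ∘ₗ bd).smulRight (sx (x :: a))) h2 fun b hb => by
        obtain ⟨y, rfl⟩ := List.length_eq_one_iff.mp hb
        simp [P_sx, push_PL, bdL]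
    simpa [h3] using this

theorem sum_faces {J A : Type} [Fintype J] [DecidableEq J] [AddCommMonoid A]
    (f : Finset J → Finset J → A) :
    ∑ S : Finset J, ∑ j ∈ S, f (S.erase j) Sᶜ = ∑ S : Finset J, ∑ j ∈ Sᶜ, f S (Sᶜ.erase j) := by
  rw [Finset.sum_sigma', Finset.sum_sigma']
  refine Finset.sum_nbij' (fun p => ⟨p.1.erase p.2, p.2⟩) (fun p => ⟨insert p.2 p.1, p.2⟩)
    (by simp) (by simp) ?_ ?_ ?_
  · rintro ⟨S, j⟩ h
    simp only [Finset.mem_sigma, Finset.mem_univ, true_and] at h
    simp [Finset.insert_erase h]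
  · rintro ⟨S, j⟩ h
    simp only [Finset.mem_sigma, Finset.mem_univ, true_and, Finset.mem_compl] at h
    simp [Finset.erase_insert h]
  · rintro ⟨S, j⟩ h
    simp only [Finset.mem_sigma, Finset.mem_univ, true_and] at h
    simp [Finset.compl_erase, h]

theorem bd_Z {J : Type} [Fintype J] [DecidableEq J] {E : Finset J → Ch X} {D : Finset J → Ch Y}
    (h0 : ∀ S, All (E S) fun l => l ≠ []) (hE : ∀ S, bd (E S) = ∑ j ∈ S, E (S.erase j))
    (hD : ∀ S, bd (D S) = ∑ j ∈ S, D (S.erase j)) : bd (∑ S, P (E S) (D Sᶜ)) = 0 := by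
  have h1 : ∀ S, e0 (bd (E S)) = 0 := fun S =>
    e0_eq_zero (by rw [hE]; exact All.sum _ fun j _ => h0 _)
  simp only [map_sum, bd_P, h1, zero_mul, zero_smul, add_zero]
  simp only [hE, hD, map_sum, LinearMap.sum_apply, Finset.sum_add_distrib]
  rw [sum_faces fun S U => P (E S) (D U), add_self]

end product

section pairing
variable {J : Type}

/-- Iterated cap product with the coboundaries of the coordinates. -/
def caps : List J → Ch (J → Bool) →ₗ[ZMod 2] Ch (J → Bool)
  | [] => LinearMap.id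
  | j :: L => cap (fun x => x j) ∘ₗ caps L

theorem bd_caps (L : List J) (c : Ch (J → Bool)) : bd (caps L c) = caps L (bd c) := by
  induction L with
  | nil => rfl
  | cons j L ih =>
    rw [caps, LinearMap.comp_apply, LinearMap.comp_apply, bd_cap, ← ih]
    simp [cap, bd_bd]

theorem caps_sx (L : List J) (l : List (J → Bool)) (h : L.length < l.length) :
    caps L (sx l) = 0 ∨ caps L (sx l) = sx (l.drop L.length) ∧
      ∀ j ∈ L, ∃ x ∈ l, ∃ y ∈ l, x j ≠ y j := by
  induction L with
  | nil => exact Or.inr ⟨rfl, by simp⟩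
  | cons j L ih =>
    rw [List.length_cons] at h
    rw [caps, LinearMap.comp_apply]
    rcases ih (by omega) with e | ⟨e, h1⟩
    · rw [e, map_zero]
      exact Or.inl rfl
    · rw [e, List.drop_eq_getElem_cons (by omega), List.drop_eq_getElem_cons h, cap_sx]
      split_ifs with h2
      · exact Or.inl rfl
      · refine Or.inr ⟨by rw [List.length_cons, List.drop_eq_getElem_cons h], fun i hi => ?_⟩
        rcases List.mem_cons.mp hi with rfl | hi
        · exact ⟨_, List.getElem_mem _, _, List.getElem_mem _, h2⟩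
        · exact h1 i hi

theorem caps_eq_zero (L : List J) {c : Ch (J → Bool)}
    (h : All c fun l => L.length < l.length ∧ ∃ j ∈ L, ∀ x ∈ l, ∀ y ∈ l, x j = y j) :
    caps L c = 0 :=
  lin_congr (H := 0) h fun l ⟨h1, j, hj, h2⟩ => (caps_sx L l h1).elim id fun e => by
    obtain ⟨x, hx, y, hy, h3⟩ := e.2 j hj
    exact absurd (h2 x hx y hy) h3

variable [Fintype J] [DecidableEq J]

/-- All coordinates outside `S` are true. -/
def out (S : Finset J) (x : J → Bool) : Bool := decide (∀ j ∉ S, x j = true)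

theorem peel {E : Finset J → Ch (J → Bool)} (hE : ∀ S, bd (E S) = ∑ j ∈ S, E (S.erase j))
    (h : ∀ S, All (E S) fun l => l.length = S.card + 1 ∧ ∀ j ∉ S, ∀ x ∈ l, ∀ y ∈ l, x j = y j)
    (L : List J) (hL : L.Nodup) :
    bd (mf (out L.toFinset) (caps L (E L.toFinset))) = bd (mf (out ∅) (E ∅)) := by
  induction L with
  | nil => rfl
  | cons j L ih =>
    obtain ⟨hj, hL'⟩ := List.nodup_cons.mp hL
    have hj' : j ∉ L.toFinset := by simpa using hj
    have hc : (insert j L.toFinset).card = L.length + 1 := by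
      rw [Finset.card_insert_of_notMem hj', List.toFinset_card_of_nodup hL']
    have h1 : All (caps L (E (insert j L.toFinset))) fun l => l.length = 2 ∧
        ∀ i ∉ insert j L.toFinset, ∀ x ∈ l, ∀ y ∈ l, x i = y i :=
      ((h _).sup.lin (M := 1) _ fun l hl => by
        rcases caps_sx L l (by omega) with e | ⟨e, -⟩
        · rw [e]
          exact Sup.zero _ _
        · rw [e]
          exact Sup.sx ⟨by rw [List.length_drop]; omega, fun i hi x hx y hy =>
            hl.2 i hi x (List.mem_of_mem_drop hx) y (List.mem_of_mem_drop hy)⟩).2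
    have h2 : ∀ x, out L.toFinset x = (out (insert j L.toFinset) x && x j) := fun x => by
      rw [Bool.eq_iff_iff]
      simp only [out, Bool.and_eq_true, decide_eq_true_eq, Finset.mem_insert, not_or]
      exact ⟨fun e => ⟨fun i hi => e i hi.2, e j hj'⟩, fun e i hi =>
        if hij : i = j then hij ▸ e.2 else e.1 i ⟨hij, hi⟩⟩
    have h3 := lin_congr (F := bd ∘ₗ mf (out (insert j L.toFinset)) ∘ₗ cap fun x => x j)
      (H := bd ∘ₗ mf (out L.toFinset) ∘ₗ bd) h1 fun l hl => by
        obtain ⟨x, y, rfl⟩ := List.length_eq_two.mp hl.1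
        have e : out (insert j L.toFinset) x = out (insert j L.toFinset) y := by
          rw [Bool.eq_iff_iff]
          simp only [out, decide_eq_true_eq]
          exact forall₂_congr fun i hi => by rw [hl.2 i hi x (by simp) y (by simp)]
        simp only [LinearMap.comp_apply, cap_sx, bd_sx, bdL, map_add, map_zero, add_zero, cn_sx,
          mf_sx, mfL, h2, e]
        cases x j <;> cases y j <;> cases e' : out (insert j L.toFinset) y <;>
          simp [mfL, bdL, add_self, e']
    rw [List.toFinset_cons, caps, ← ih hL']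
    refine h3.trans ?_
    rw [LinearMap.comp_apply, LinearMap.comp_apply, bd_caps, hE, Finset.sum_insert hj',
      Finset.erase_insert hj', map_add, caps_eq_zero L (All.sum _ fun i hi l hl => ?_), add_zero]
    obtain ⟨a1, a2⟩ := h _ l hl
    rw [Finset.card_erase_of_mem (Finset.mem_insert_of_mem hi), hc] at a1
    exact ⟨by omega, i, List.mem_toFinset.mp hi, a2 i (Finset.notMem_erase _ _)⟩

theorem base {F : Type} [Group F] (a : F →* Multiplicative (J → ℤ)) (v : F →₀ ZMod 2) :
    bd (mf (out ∅) (push (fun x j => decide ((a x).toAdd j = 0)) (pts v))) =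
      mapDomain a v 1 • sx [] := by
  induction v using Finsupp.induction_linear with
  | zero => simp
  | add f g hf hg =>
    rw [mapDomain_add, map_add, map_add, map_add, map_add, hf, hg, Finsupp.add_apply, add_smul]
  | single x b =>
    by_cases h : a x = 1
    · simp [pts_single, mfL, out, bdL, h]
    · have h' : ¬ ∀ j, (a x).toAdd j = 0 := fun e => h (funext e)
      simp [pts_single, mfL, out, h, h']

end pairing

theorem coord_eq {F J : Type} [Group F] [DecidableEq J] {X : J → F}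
    {a : F →* Multiplicative (J → ℤ)} (ha : ∀ j, a (X j) = Multiplicative.ofAdd (Pi.single j 1))
    {S : Finset J} {j : J} (hj : j ∉ S) {x y : F} (h : x⁻¹ * y ∈ Subgroup.closure (X '' S)) :
    (a x).toAdd j = (a y).toAdd j := by
  have key : ∀ w ∈ Subgroup.closure (X '' S), (a w).toAdd j = 0 := fun w hw => by
    induction hw using Subgroup.closure_induction with
    | mem w hw =>
      obtain ⟨i, hi, rfl⟩ := hw
      rw [ha, toAdd_ofAdd, Pi.single_eq_of_ne (by rintro rfl; exact hj hi)]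
    | one => simp
    | mul u v _ _ hu hv => simp [hu, hv]
    | inv u _ hu => simp [hu]
  have := key _ h
  rw [map_mul, map_inv, toAdd_mul, toAdd_inv, Pi.add_apply, Pi.neg_apply] at this
  omega

end Cy

open Cy in
theorem exists_cycle (F J : Type) [Group F] [Group.IsNilpotent F] [Fintype J] [DecidableEq J]
    (hJ : 2 ≤ Fintype.card J) (X : J → F) (a : F →* Multiplicative (J → ℤ))
    (ha : ∀ j, a (X j) = Multiplicative.ofAdd (Pi.single j 1))
    (r : ℕ) (lam : J → (Fin r → ℤ) →+ ℝ) (hface : ∀ j0, ∃ q, ∀ j, j ≠ j0 → 0 < lam j q) :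
    ∃ (C : ℕ) (Wd : Finset J → Finset F),
      (∀ S, ∀ w ∈ Wd S, w ∈ Subgroup.closure (X '' S)) ∧
      ∀ T : ℕ, ∃ Z : Ch (F × (Fin r → ℤ)), bd Z = 0 ∧
        Sup Z (fun l => l.length = Fintype.card J ∧ ∃ S : Finset J, S ≠ Finset.univ ∧
          (∀ x ∈ l, ∀ y ∈ l, x.1⁻¹ * y.1 ∈ Wd S ∧ ∀ i, |x.2 i - y.2 i| ≤ C) ∧
          ∀ x ∈ l, x.1 ∈ Wd Finset.univ ∧ (∀ i, |x.2 i| ≤ C * (T + 1)) ∧
            ∀ j ∈ S, (T : ℝ) ≤ lam j x.2) (C * (T + 1) ^ C) ∧
        ∀ (Y : Type) (φ : F × (Fin r → ℤ) → Y) (f : J → Y → Bool),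
          (∀ j x, x.1 ∈ Wd Finset.univ → f j (φ x) = decide ((a x.1).toAdd j = 0)) →
          ∀ W : Ch Y, bd W = push φ Z → ∃ l ∈ W.support, l.length ≠ Fintype.card J + 1 ∨
            ∀ j, ∃ x ∈ l, ∃ y ∈ l, f j x ≠ f j y := by
  classical
  have hne : Nonempty J := Fintype.card_pos_iff.mp (by omega)
  obtain ⟨ξ, x1, x2, x3⟩ := exists_xi X a ha
  obtain ⟨E, e1, hE⟩ := exists_E X ξ x1 x2
  obtain ⟨C, hD⟩ := exists_D lam hface
  let V : Finset F := Finset.univ.biUnion fun S => (E S).support.biUnion List.toFinset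
  have hV : ∀ S, ∀ l ∈ (E S).support, ∀ x ∈ l, x ∈ V := fun S l hl x hx =>
    Finset.mem_biUnion.mpr ⟨S, Finset.mem_univ S,
      Finset.mem_biUnion.mpr ⟨l, hl, List.mem_toFinset.mpr hx⟩⟩
  let Wd : Finset J → Finset F := fun S =>
    (V ∪ Finset.image₂ (fun x y => x⁻¹ * y) V V).filter (· ∈ Subgroup.closure (X '' S))
  let N := ∑ S, (E S).support.card
  let K := Fintype.card (Finset J) * (N * 3 ^ (Fintype.card J + 1))
  have hE' : ∀ S, Sup (E S) (fun l => l.length = S.card + 1 ∧ ∀ x ∈ l, x ∈ Wd Finset.univ ∧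
      ∀ y ∈ l, x⁻¹ * y ∈ Wd S) N := fun S =>
    ⟨Finset.single_le_sum (f := fun S => (E S).support.card) (fun _ _ => Nat.zero_le _)
      (Finset.mem_univ S), fun l hl => ⟨((hE S).1 l hl).1, fun x hx =>
      ⟨Finset.mem_filter.mpr ⟨Finset.mem_union_left _ (hV S l hl x hx), by
        simpa using (((hE S).1 l hl).2 x hx).1⟩, fun y hy => Finset.mem_filter.mpr
        ⟨Finset.mem_union_right _ (Finset.mem_image₂_of_mem (hV S l hl x hx) (hV S l hl y hy)),
          (((hE S).1 l hl).2 x hx).2 y hy⟩⟩⟩⟩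
  have hnil : ∀ S, All (E S) fun l => l ≠ [] := fun S l hl e => by
    have := ((hE S).1 l hl).1
    simp [e] at this
  refine ⟨(K + 1) * C, Wd, fun S w hw => (Finset.mem_filter.mp hw).2, fun T => ?_⟩
  obtain ⟨D, d1, hD⟩ := hD T
  have hC : C ≤ (K + 1) * C := Nat.le_mul_of_pos_left _ (Nat.succ_pos K)
  have hP := fun S : Finset J => sup_P (n := Fintype.card J)
    (S := fun l : List (F × (Fin r → ℤ)) => l.length = Fintype.card J ∧
      (∀ x ∈ l, ∀ y ∈ l, x.1⁻¹ * y.1 ∈ Wd S ∧ ∀ i, |x.2 i - y.2 i| ≤ ((K + 1) * C : ℕ)) ∧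
      ∀ x ∈ l, x.1 ∈ Wd Finset.univ ∧ (∀ i, |x.2 i| ≤ ((K + 1) * C : ℕ) * (T + 1)) ∧
        ∀ j ∈ S, (T : ℝ) ≤ lam j x.2) (hE' S) (hD Sᶜ).1
    (fun α β h1 h2 => by
      have := S.card_le_univ
      rw [h1.1, h2.1, Finset.card_compl]
      omega)
    fun α β l h1 h2 h3 h4 => ⟨h3, fun x hx y hy => ⟨(h1.2 _ (h4 x hx).1).2 _ (h4 y hy).1,
      fun i => (h2.2.1 _ (h4 x hx).2 _ (h4 y hy).2 i).trans (Nat.cast_le.mpr hC)⟩, fun x hx =>
      ⟨(h1.2 _ (h4 x hx).1).1, fun i => ((h2.2.2 _ (h4 x hx).2).1 i).trans (by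
        exact_mod_cast Nat.mul_le_mul_right _ hC),
        fun j hj => (h2.2.2 _ (h4 x hx).2).2 j (by simpa using hj)⟩⟩
  have hu : P (E Finset.univ) (D Finset.univᶜ) = 0 := by rw [Finset.compl_univ, d1, P_nil]
  refine ⟨∑ S, P (E S) (D Sᶜ), bd_Z hnil (fun S => (hE S).2) fun S => (hD S).2, ?_,
    fun Y φ f hf W hW => ?_⟩
  · refine (Sup.sum Finset.univ (N := N * (C * (T + 1) ^ C * 3 ^ (Fintype.card J + 1)))
      fun S _ => ?_).mono (fun _ h => h) ?_
    · by_cases hS : S = Finset.univ
      · rw [hS, hu]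
        exact Sup.zero _ _
      · exact (hP S).mono (fun l hl => ⟨hl.1, S, hS, hl.2⟩) le_rfl
    · calc _ = K * C * (T + 1) ^ C := by simp only [K, Finset.card_univ]; ring
        _ ≤ _ := Nat.mul_le_mul (Nat.mul_le_mul_right _ (Nat.le_succ K))
          (Nat.pow_le_pow_right (Nat.succ_pos T) hC)
  by_contra hcon
  push Not at hcon
  obtain ⟨j0⟩ := hne
  let ψ : F → J → Bool := fun x j => decide ((a x).toAdd j = 0)
  let L := (Finset.univ.erase j0).toList
  have hL : L.length + 1 = Fintype.card J := by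
    rw [Finset.length_toList, Finset.card_erase_add_one (Finset.mem_univ j0), Finset.card_univ]
  have hL' : L.toFinset = Finset.univ.erase j0 := Finset.toList_toFinset _
  have h1 : caps (j0 :: L) (push (fun y j => f j y) W) = 0 :=
    caps_eq_zero _ (Sup.push (S := fun l => l ∈ W.support) (All.sup fun _ h => h) _ fun l hl => by
      obtain ⟨a1, j, a2⟩ := hcon l hl
      refine ⟨by rw [List.length_map, List.length_cons]; omega, j, ?_, fun x hx y hy => ?_⟩
      · by_cases e : j = j0 <;> simp [L, e]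
      · obtain ⟨x, hx', rfl⟩ := List.mem_map.mp hx
        obtain ⟨y, hy', rfl⟩ := List.mem_map.mp hy
        exact a2 x hx' y hy').2
  have h2 : ∀ S, push ((fun y j => f j y) ∘ φ) (P (E S) (D Sᶜ)) =
      push ψ (push Prod.fst (P (E S) (D Sᶜ))) := fun S => by
    rw [push_push]
    refine lin_congr (hP S).2 fun l hl => ?_
    rw [push_sx, push_sx]
    exact congrArg sx (List.map_congr_left fun x hx => funext fun j => hf j x (hl.2.2 x hx).1)
  have h3 := congrArg bd h1
  rw [caps, LinearMap.comp_apply, bd_cap, bd_caps, bd_push, hW, push_push, map_sum, map_sum,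
    Finset.sum_eq_single (Finset.univ.erase j0) (fun S _ hS => ?_) (by simp), h2,
    push_P (hnil _) (fun l hl => by simpa using ((hD _).1.2 l hl).1)
      (by rw [(hD _).2]; simp [d1]), ← hL'] at h3
  · have h4 := peel (E := fun S => push ψ (E S)) (fun S => by rw [bd_push, (hE S).2, map_sum])
      (fun S => ((hE S).1.sup.push ψ fun l hl => ⟨by rw [List.length_map, hl.1],
        fun j hj x hx y hy => by
          obtain ⟨x, hx', rfl⟩ := List.mem_map.mp hx
          obtain ⟨y, hy', rfl⟩ := List.mem_map.mp hy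
          simp only [ψ, coord_eq ha hj ((hl.2 x hx').2 y hy')]⟩).2) L (Finset.nodup_toList _)
    have h5 : out L.toFinset = fun x => x j0 := funext fun x => by simp [out, hL']
    rw [h5, h3, e1, base, x3, map_zero] at h4
    simpa using congrArg e0 h4
  · by_cases hS' : S = Finset.univ
    · rw [hS', hu, map_zero, map_zero]
    obtain ⟨j, hj, hj'⟩ : ∃ j ∈ L, j ∉ S := by
      by_contra e
      push Not at e
      have e' : Finset.univ.erase j0 ⊆ S := fun j hj => e j (Finset.mem_toList.mpr hj)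
      by_cases h0 : j0 ∈ S
      · exact hS' (Finset.eq_univ_of_forall fun j => if h : j = j0 then h ▸ h0 else e' (by simp [h]))
      · exact hS (Finset.Subset.antisymm (fun j hj => by
          simpa using fun h : j = j0 => h0 (h ▸ hj)) e')
    rw [h2, push_push]
    refine caps_eq_zero _ ((hP S).push _ fun l hl => ⟨by rw [List.length_map, hl.1]; omega, j, hj,
      fun x hx y hy => ?_⟩).2
    obtain ⟨x, hx', rfl⟩ := List.mem_map.mp hx
    obtain ⟨y, hy', rfl⟩ := List.mem_map.mp hy
    simp only [Function.comp_apply, ψ,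
      coord_eq ha hj' (Finset.mem_filter.mp (hl.2.1 x hx' y hy').1).2]

end Pool.Agent.Lib.MP_2fb4be_al.Sol
end
end
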