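import Pool.Agent.Lib.MP_2fb4be_al.Sol.LKM

-- part Pool.Agent.Lib.MP_2fb4be_al.Sol.Rank
section

/-!
Torsion-free nilpotent groups of bounded abelian rank have a short series with rational factors.
-/

set_option autoImplicit false

noncomputable section

namespace Pool.Agent.Lib.MP_2fb4be_al.Sol

open scoped TensorProduct IsMulCommutative commutatorElement

theorem PolyQ.of_injective {h : ℕ} {M N : Type} [Group M] [Group N] (hN : PolyQ h N)
    (f : M →* N) (hf : Function.Injective f) : PolyQ h M := by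
  induction h generalizing M N with
  | zero =>
    have : Subsingleton N := hN
    exact hf.subsingleton
  | succ h ih =>
    obtain ⟨φ, hφ⟩ := hN
    refine ⟨φ.comp f, ih hφ ((f.comp (φ.comp f).ker.subtype).codRestrict φ.ker fun x => x.2) ?_⟩
    intro x y hxy
    exact Subtype.ext (hf (congrArg Subtype.val hxy))

theorem PolyQ.succ {h : ℕ} {N : Type} [Group N] (hN : PolyQ h N) : PolyQ (h + 1) N :=
  ⟨1, hN.of_injective (Subgroup.subtype _) (Subgroup.subtype_injective _)⟩

theorem PolyQ.mono {h h' : ℕ} {N : Type} [Group N] (hN : PolyQ h N) (hh : h ≤ h') :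
    PolyQ h' N := by
  induction hh with
  | refl => exact hN
  | step _ ih => exact ih.succ

theorem PolyQ.ext {a b : ℕ} {N Q : Type} [Group N] [Group Q] (ψ : N →* Q) (hQ : PolyQ a Q)
    (hK : PolyQ b ψ.ker) : PolyQ (b + a) N := by
  induction a generalizing N Q with
  | zero =>
    have : Subsingleton Q := hQ
    refine hK.of_injective ((MonoidHom.id N).codRestrict ψ.ker fun x => Subsingleton.elim _ _) ?_
    intro x y hxy
    exact congrArg Subtype.val hxy
  | succ a ih =>
    obtain ⟨φ, hφ⟩ := hQ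
    refine ⟨φ.comp ψ, ih ((ψ.comp (φ.comp ψ).ker.subtype).codRestrict φ.ker fun x => x.2) hφ ?_⟩
    refine hK.of_injective (((φ.comp ψ).ker.subtype.comp (Subgroup.subtype _)).codRestrict ψ.ker
      fun x => congrArg Subtype.val x.2) ?_
    intro x y hxy
    have := congrArg Subtype.val hxy
    exact Subtype.ext (Subtype.ext this)

namespace Rk

theorem polyQ_fin (d : ℕ) : PolyQ d (Multiplicative (Fin d → ℚ)) := by
  induction d with
  | zero => exact (inferInstance : Subsingleton (Multiplicative (Fin 0 → ℚ)))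
  | succ d ih =>
    let φ : Multiplicative (Fin (d + 1) → ℚ) →* Multiplicative ℚ :=
      AddMonoidHom.toMultiplicative (Pi.evalAddMonoidHom (fun _ => ℚ) 0)
    let τ : Multiplicative (Fin (d + 1) → ℚ) →* Multiplicative (Fin d → ℚ) :=
      AddMonoidHom.toMultiplicative (LinearMap.funLeft ℚ ℚ Fin.succ).toAddMonoidHom
    refine ⟨φ, ih.of_injective (τ.comp φ.ker.subtype) ?_⟩
    rw [injective_iff_map_eq_one]
    intro x hx
    apply Subtype.ext
    apply Multiplicative.toAdd.injective
    funext i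
    refine Fin.cases ?_ (fun j => ?_) i
    · exact congrArg Multiplicative.toAdd x.2
    · exact congrFun (congrArg Multiplicative.toAdd hx) j

theorem polyQ_space (V : Type) [AddCommGroup V] [Module ℚ V] [FiniteDimensional ℚ V] {d : ℕ}
    (hd : Module.finrank ℚ V ≤ d) : PolyQ d (Multiplicative V) := by
  refine PolyQ.mono ((polyQ_fin _).of_injective (AddMonoidHom.toMultiplicative
    (Module.finBasis ℚ V).equivFun.toLinearMap.toAddMonoidHom) ?_) hd
  intro x y hxy
  exact Multiplicative.toAdd.injective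
    ((Module.finBasis ℚ V).equivFun.injective (congrArg Multiplicative.toAdd hxy))

/-- pointwise stabiliser -/
def fixer {N V : Type} [Group N] [AddCommGroup V] [Module ℚ V] (ρ : N →* Module.End ℚ V)
    (W : Submodule ℚ V) : Subgroup N where
  carrier := {g | ∀ w ∈ W, ρ g w = w}
  one_mem' := by intro w _; simp
  mul_mem' := by
    intro a b ha hb w hw
    rw [map_mul, Module.End.mul_apply, hb w hw, ha w hw]
  inv_mem' := by
    intro a ha w hw
    conv_lhs => rw [← ha w hw]
    rw [← Module.End.mul_apply, ← map_mul, inv_mul_cancel, map_one, Module.End.one_apply]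

theorem polyQ_fixer {N V : Type} [Group N] [AddCommGroup V] [Module ℚ V] [FiniteDimensional ℚ V]
    (ρ : N →* Module.End ℚ V) {d b : ℕ} (hd : Module.finrank ℚ V ≤ d)
    (hu : ∀ W : Submodule ℚ V, W ≠ ⊤ → ∃ v, v ∉ W ∧ ∀ g, ρ g v - v ∈ W)
    (hb : PolyQ b (fixer ρ ⊤)) (m : ℕ) :
    ∀ W : Submodule ℚ V, Module.finrank ℚ V ≤ Module.finrank ℚ W + m →
      PolyQ (b + m * d) (fixer ρ W) := by
  induction m with
  | zero =>
    intro W hW
    have : W = ⊤ := Submodule.eq_top_of_finrank_eq (le_antisymm (Submodule.finrank_le W) hW)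
    subst this
    simpa using hb
  | succ m ih =>
    intro W hW
    by_cases htop : W = ⊤
    · subst htop
      exact hb.mono (Nat.le_add_right _ _)
    obtain ⟨v, hv, hv'⟩ := hu W htop
    let θ : fixer ρ W →* Multiplicative V :=
      { toFun := fun g => Multiplicative.ofAdd (ρ g v - v)
        map_one' := by simp
        map_mul' := by
          intro x y
          rw [← ofAdd_add]
          congr 1
          have := x.2 _ (hv' y)
          rw [map_sub] at this
          rw [Subgroup.coe_mul, map_mul, Module.End.mul_apply]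
          rw [sub_eq_iff_eq_add] at this
          rw [this]
          abel }
    have hlt : W < W ⊔ Submodule.span ℚ {v} := by
      refine lt_of_le_of_ne le_sup_left fun h => hv ?_
      rw [h]
      exact Submodule.mem_sup_right (Submodule.mem_span_singleton_self v)
    have h1 := ih (W ⊔ Submodule.span ℚ {v})
      (by have := Submodule.finrank_lt_finrank_of_lt hlt; omega)
    have h2 : PolyQ (b + m * d) θ.ker := by
      refine h1.of_injective (((fixer ρ W).subtype.comp θ.ker.subtype).codRestrict _ ?_) ?_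
      · intro x w hw
        obtain ⟨w1, hw1, w2, hw2, rfl⟩ := Submodule.mem_sup.1 hw
        obtain ⟨c, rfl⟩ := Submodule.mem_span_singleton.1 hw2
        have e : ρ (x.1 : N) v - v = 0 := congrArg Multiplicative.toAdd x.2
        have e2 := x.1.2 w1 hw1
        change ρ (x.1 : N) _ = _
        rw [map_add, map_smul, e2, sub_eq_zero.1 e]
      · intro x y hxy
        have := congrArg Subtype.val hxy
        exact Subtype.ext (Subtype.ext this)
    have := PolyQ.ext θ (polyQ_space V hd) h2
    rwa [add_assoc, ← Nat.succ_mul] at this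

/-- a self-centralising abelian normal subgroup -/
theorem exists_max_abelian (N : Type) [Group N] [Group.IsNilpotent N] :
    ∃ A : Subgroup N, A.Normal ∧ (∀ a ∈ A, ∀ b ∈ A, a * b = b * a) ∧
      ∀ x, (∀ a ∈ A, x * a = a * x) → x ∈ A := by
  obtain ⟨A, -, hA⟩ := zorn_le_nonempty₀
    {A : Subgroup N | A.Normal ∧ ∀ a ∈ A, ∀ b ∈ A, a * b = b * a} (by
      intro c hc hchain A0 hA0
      have hne : c.Nonempty := ⟨A0, hA0⟩
      refine ⟨sSup c, ⟨⟨?_⟩, ?_⟩, fun z hz => le_sSup hz⟩
      · intro n hn g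
        rw [Subgroup.mem_sSup_of_directedOn hne hchain.directedOn] at hn ⊢
        obtain ⟨s, hs, hn⟩ := hn
        exact ⟨s, hs, (hc hs).1.conj_mem n hn g⟩
      · intro a ha b hb
        rw [Subgroup.mem_sSup_of_directedOn hne hchain.directedOn] at ha hb
        obtain ⟨s, hs, ha⟩ := ha
        obtain ⟨t, ht, hb⟩ := hb
        rcases hchain.total hs ht with h | h
        · exact (hc ht).2 a (h ha) b hb
        · exact (hc hs).2 a ha b (h hb)) ⊥
    ⟨inferInstance, by
      intro a ha b hb
      rw [Subgroup.mem_bot] at ha hb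
      rw [ha, hb]⟩
  obtain ⟨hn, hc⟩ := hA.prop
  refine ⟨A, hn, hc, ?_⟩
  obtain ⟨c, hcN⟩ := Group.IsNilpotent.nilpotent' (G := N)
  have key : ∀ i, ∀ x ∈ Subgroup.upperCentralSeries N i, (∀ a ∈ A, x * a = a * x) → x ∈ A := by
    intro i
    induction i with
    | zero =>
      intro x hx _
      rw [Subgroup.upperCentralSeries_zero, Subgroup.mem_bot] at hx
      rw [hx]; exact A.one_mem
    | succ i ih =>
      intro x hx hxa
      have hcomm : ∀ y : N, ⁅x, y⁆ ∈ A := by
        intro y
        refine ih _ (Subgroup.mem_upperCentralSeries_succ_iff.1 hx y) fun a ha => ?_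
        have h1 : x * a = a * x := hxa a ha
        have h2 : x * (y⁻¹ * a * y) = (y⁻¹ * a * y) * x :=
          hxa _ (by simpa using hn.conj_mem a ha y⁻¹)
        have h3 : Commute (y * x⁻¹ * y⁻¹) a := by
          have : Commute x⁻¹ (y⁻¹ * a * y) := (show Commute x _ from h2).inv_left
          have h4 := this.eq
          change _ = _
          calc y * x⁻¹ * y⁻¹ * a = y * (x⁻¹ * (y⁻¹ * a * y)) * y⁻¹ := by group
            _ = y * ((y⁻¹ * a * y) * x⁻¹) * y⁻¹ := by rw [h4]
            _ = _ := by group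
        have := (show Commute x a from h1).mul_left h3
        rw [commutatorElement_def]
        simpa [mul_assoc] using this.eq
      -- the subgroup generated by `A` and `x`
      let B : Subgroup N :=
        { carrier := {y | ∃ z : ℤ, y * x ^ z ∈ A}
          one_mem' := ⟨0, by simp⟩
          mul_mem' := by
            rintro a b ⟨z, hz⟩ ⟨w, hw⟩
            refine ⟨w + z, ?_⟩
            have := A.mul_mem (hn.conj_mem _ hw a) hz
            convert this using 1
            rw [zpow_add]; group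
          inv_mem' := by
            rintro a ⟨z, hz⟩
            refine ⟨-z, ?_⟩
            have := hn.conj_mem _ (A.inv_mem hz) a⁻¹
            convert this using 1
            group }
      have hAB : A ≤ B := fun a ha => ⟨0, by simpa using ha⟩
      have hB : B.Normal ∧ ∀ a ∈ B, ∀ b ∈ B, a * b = b * a := by
        constructor
        · constructor
          rintro y ⟨z, hz⟩ g
          refine ⟨z, ?_⟩
          have hq : (QuotientGroup.mk (g * y * g⁻¹ * x ^ z) : N ⧸ A) = 1 := by
            have h1 : (QuotientGroup.mk (y * x ^ z) : N ⧸ A) = 1 := (QuotientGroup.eq_one_iff _).2 hz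
            have h2 : (QuotientGroup.mk ⁅x, g⁆ : N ⧸ A) = 1 :=
              (QuotientGroup.eq_one_iff _).2 (hcomm g)
            rw [← QuotientGroup.mk'_apply] at h1 h2 ⊢
            rw [map_commutatorElement, commutatorElement_eq_one_iff_commute] at h2
            rw [map_mul, map_zpow] at h1
            simp only [map_mul, map_zpow, map_inv]
            have h3 := (h2.inv_right.zpow_left z).eq
            rw [mul_assoc, ← h3, ← mul_assoc, mul_assoc (QuotientGroup.mk' A g), h1]
            simp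
          exact (QuotientGroup.eq_one_iff _).1 hq
        · rintro a ⟨z, hz⟩ b ⟨w, hw⟩
          have c1 : Commute (a * x ^ z) (b * x ^ w) := hc _ hz _ hw
          have c2 : Commute x (a * x ^ z) := hxa _ hz
          have c3 : Commute x (b * x ^ w) := hxa _ hw
          have e1 : a = (a * x ^ z) * x ^ (-z) := by group
          have e2 : b = (b * x ^ w) * x ^ (-w) := by group
          have : Commute ((a * x ^ z) * x ^ (-z)) ((b * x ^ w) * x ^ (-w)) :=
            (c1.mul_right (c2.symm.zpow_right _)).mul_left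
              ((c3.zpow_left _).mul_right (Commute.zpow_zpow_self x _ _))
          rw [← e1, ← e2] at this
          exact this
      exact hA.le_of_ge hB hAB ⟨-1, by simp⟩
  intro x hx
  exact key c x (by rw [hcN]; trivial) hx

theorem torsionFree_of_center {N : Type} [Group N] [Group.IsNilpotent N]
    (hZ : ∀ z ∈ Subgroup.center N, IsOfFinOrder z → z = 1) (A : Subgroup N) (hn : A.Normal)
    (hc : ∀ a ∈ A, ∀ b ∈ A, a * b = b * a) (m : ℕ) (hm : 0 < m) :
    ∀ a ∈ A, a ^ m = 1 → a = 1 := by
  obtain ⟨c, hcN⟩ := Group.IsNilpotent.nilpotent' (G := N)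
  have key : ∀ i, ∀ a ∈ Subgroup.upperCentralSeries N i, a ∈ A → a ^ m = 1 → a = 1 := by
    intro i
    induction i with
    | zero =>
      intro x hx _ _
      rwa [Subgroup.upperCentralSeries_zero, Subgroup.mem_bot] at hx
    | succ i ih =>
      intro a ha haA ham
      refine hZ a ?_ (isOfFinOrder_iff_pow_eq_one.2 ⟨m, hm, ham⟩)
      rw [Subgroup.mem_center_iff]
      intro y
      have h1 : y * a⁻¹ * y⁻¹ ∈ A := hn.conj_mem _ (A.inv_mem haA) y
      have e : ⁅a, y⁆ = a * (y * a⁻¹ * y⁻¹) := by rw [commutatorElement_def]; group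
      have h2 := ih _ (Subgroup.mem_upperCentralSeries_succ_iff.1 ha y)
        (e ▸ A.mul_mem haA h1) (by
          rw [e, (show Commute a _ from hc _ haA _ h1).mul_pow, ham, conj_pow, inv_pow, ham]
          simp)
      exact (commutatorElement_eq_one_iff_commute.1 h2).eq.symm
  intro a ha
  exact key c a (by rw [hcN]; trivial) ha

end Rk

open Rk in
theorem polyQ_of_rank (n : ℕ) : ∃ h, ∀ (N : Type) [Group N] [Group.IsNilpotent N],
    (∀ z ∈ Subgroup.center N, IsOfFinOrder z → z = 1) →
    (∀ φ : Multiplicative (Fin n → ℤ) →* N, ¬ Function.Injective φ) → PolyQ h N := by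
  refine ⟨n + n * n, fun N _ _ hZ hφ => ?_⟩
  obtain ⟨A, hn, hc, hmax⟩ := exists_max_abelian N
  have : IsMulCommutative A := ⟨⟨fun a b => Subtype.ext (hc a a.2 b b.2)⟩⟩
  let M := Additive A
  let V := ℚ ⊗[ℤ] M
  let j : M →ₗ[ℤ] V := TensorProduct.mk ℤ ℚ M 1
  have hloc : IsLocalizedModule (nonZeroDivisors ℤ) j :=
    (isLocalizedModule_iff_isBaseChange (nonZeroDivisors ℤ) ℚ j).2 (TensorProduct.isBaseChange ℤ M ℚ)
  have hj : Function.Injective j := by
    rw [injective_iff_map_eq_zero]
    intro a ha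
    obtain ⟨s, hs⟩ := (IsLocalizedModule.eq_zero_iff (nonZeroDivisors ℤ) j).1 ha
    have hs0 : (s : ℤ) ≠ 0 := nonZeroDivisors.coe_ne_zero s
    have h1 : ((Additive.toMul a : A) : N) ^ (s : ℤ) = 1 := by
      have h0 : (Additive.toMul a : A) ^ (s : ℤ) = 1 := by
        rw [← toMul_zsmul]
        exact congrArg Additive.toMul hs
      rw [← Subgroup.coe_zpow, h0, Subgroup.coe_one]
    have h2 : ((Additive.toMul a : A) : N) ^ (s : ℤ).natAbs = 1 := by
      rcases Int.natAbs_eq (s : ℤ) with h | h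
      · rw [← zpow_natCast, ← h, h1]
      · rw [← zpow_natCast, ← neg_neg ((s : ℤ).natAbs : ℤ), ← h, zpow_neg, h1, inv_one]
    have := torsionFree_of_center hZ A hn hc _ (Int.natAbs_pos.2 hs0) _ (Additive.toMul a).2 h2
    exact Additive.toMul.injective (Subtype.ext this)
  have hrk : Module.rank ℤ M ≤ n := by
    by_contra hlt
    obtain ⟨f, hf⟩ := natCast_le_rank_iff.1 (not_le.1 hlt).le
    refine hφ (A.subtype.comp (AddMonoidHom.toMultiplicativeLeft
      (Fintype.linearCombination ℤ f).toAddMonoidHom)) ?_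
    have := hf.fintypeLinearCombination_injective
    intro x y hxy
    exact Multiplicative.toAdd.injective (this (Additive.toMul.injective (Subtype.ext hxy)))
  have hrkV : Module.rank ℚ V ≤ n := by
    rw [IsLocalization.rank_eq ℚ (nonZeroDivisors ℤ) le_rfl,
      IsLocalizedModule.rank_eq (nonZeroDivisors ℤ) le_rfl j]
    exact hrk
  have : FiniteDimensional ℚ V :=
    Module.rank_lt_aleph0_iff.1 (hrkV.trans_lt Cardinal.natCast_lt_aleph0)
  have hfr : Module.finrank ℚ V ≤ n := Module.finrank_le_of_rank_le hrkV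
  let ρ0 : N →* Module.End ℤ M :=
    { toFun := fun g => (MonoidHom.toAdditive (MulAut.conjNormal g : A ≃* A).toMonoidHom).toIntLinearMap
      map_one' := by ext a; simp
      map_mul' := by intro g h; ext a; simp }
  let ρ : N →* Module.End ℚ V := (Module.End.baseChangeHom ℤ ℚ M).toMonoidHom.comp ρ0
  have hρ : ∀ g (a : M), ρ g (j a) = j (ρ0 g a) := fun g a => rfl
  have hρ0 : ∀ g (a : M), ((Additive.toMul (ρ0 g a) : A) : N) =
      g * ((Additive.toMul a : A) : N) * g⁻¹ := fun g a => rfl
  have hb : PolyQ n (fixer ρ ⊤) := by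
    have hsub : ∀ x : fixer ρ ⊤, (fixer ρ ⊤).subtype x ∈ A := by
      intro x
      refine hmax _ fun a ha => ?_
      have h1 := x.2 (j (Additive.ofMul ⟨a, ha⟩)) trivial
      rw [hρ] at h1
      have h2 := congrArg (fun x : M => ((Additive.toMul x : A) : N)) (hj h1)
      simp only [hρ0] at h2
      exact mul_inv_eq_iff_eq_mul.1 h2
    refine (polyQ_space V hfr).of_injective ((AddMonoidHom.toMultiplicativeRight
      j.toAddMonoidHom).comp ((fixer ρ ⊤).subtype.codRestrict A hsub)) ?_
    intro x y hxy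
    have := hj (congrArg Multiplicative.toAdd hxy)
    have h2 := congrArg Subtype.val (Additive.ofMul.injective this)
    exact Subtype.ext h2
  have hu : ∀ W : Submodule ℚ V, W ≠ ⊤ → ∃ v, v ∉ W ∧ ∀ g, ρ g v - v ∈ W := by
    intro W hW
    by_contra hcon
    push Not at hcon
    obtain ⟨c, hcN⟩ := Group.IsNilpotent.nilpotent' (G := N)
    have key : ∀ i, ∀ a : M, ((Additive.toMul a : A) : N) ∈ Subgroup.upperCentralSeries N i →
        j a ∈ W := by
      intro i
      induction i with
      | zero =>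
        intro a ha
        rw [Subgroup.upperCentralSeries_zero, Subgroup.mem_bot] at ha
        have : a = 0 := Additive.toMul.injective (Subtype.ext ha)
        rw [this, map_zero]; exact W.zero_mem
      | succ i ih =>
        intro a ha
        by_contra hv
        obtain ⟨g, hg⟩ := hcon _ hv
        apply hg
        rw [hρ, ← map_sub]
        apply ih
        have h1 := (Subgroup.upperCentralSeries N i).inv_mem
          (Subgroup.mem_upperCentralSeries_succ_iff.1 ha g)
        convert h1 using 1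
        rw [commutatorElement_inv, commutatorElement_def, ← hρ0]
        rw [sub_eq_add_neg]
        rfl
    apply hW
    rw [eq_top_iff]
    intro v hv
    clear hv
    induction v using TensorProduct.induction_on with
    | zero => exact W.zero_mem
    | tmul q a =>
      have : q ⊗ₜ[ℤ] a = q • j a := by
        change _ = q • ((1 : ℚ) ⊗ₜ[ℤ] a)
        rw [TensorProduct.smul_tmul', smul_eq_mul, mul_one]
      rw [this]
      exact W.smul_mem _ (key c a (by rw [hcN]; trivial))
    | add x y hx hy => exact W.add_mem hx hy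
  have := polyQ_fixer ρ hfr hu hb n ⊥ (by omega)
  refine this.of_injective ((MonoidHom.id N).codRestrict _ ?_) ?_
  · intro x w hw
    rw [Submodule.mem_bot] at hw
    rw [hw, map_zero]
  · intro x y hxy
    exact congrArg Subtype.val hxy

end Pool.Agent.Lib.MP_2fb4be_al.Sol
end
end

-- part Pool.Agent.Lib.MP_2fb4be_al.Sol.JenA
section

/-!
Powers of the augmentation ideal of a rational group algebra.
-/

set_option autoImplicit false

noncomputable section

namespace Pool.Agent.Lib.MP_2fb4be_al.Sol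

namespace Jn

open scoped commutatorElement

abbrev R (N : Type) [Group N] : Type := MonoidAlgebra ℚ N

variable {N M : Type} [Group N] [Group M]

def e (n : N) : R N := MonoidAlgebra.single n 1

theorem e_mul (a b : N) : e (a * b) = e a * e b := by
  simp [e, MonoidAlgebra.single_mul_single]

theorem e_one : e (1 : N) = 1 := rfl

theorem e_inj {a b : N} (h : e a = e b) : a = b :=
  MonoidAlgebra.single_left_injective (one_ne_zero (α := ℚ)) h

theorem ind {p : R N → Prop} (x : R N) (h1 : ∀ n, p (e n)) (h2 : ∀ x y, p x → p y → p (x + y))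
    (h3 : ∀ (c : ℚ) x, p x → p (c • x)) : p x :=
  MonoidAlgebra.induction_on x h1 h2 h3

variable (N) in
def I : Submodule ℚ (R N) := Submodule.span ℚ (Set.range fun n : N => e n - 1)

theorem sub_mem_I (n : N) : e n - 1 ∈ I N := Submodule.subset_span ⟨n, rfl⟩

theorem I_ind {p : R N → Prop} {x : R N} (hx : x ∈ I N) (h1 : ∀ n, p (e n - 1))
    (h2 : ∀ x y, p x → p y → p (x + y)) (h3 : ∀ (c : ℚ) x, p x → p (c • x)) : p x := by
  induction hx using Submodule.span_induction with
  | mem x hx => obtain ⟨n, rfl⟩ := hx; exact h1 n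
  | zero => simpa using h3 0 _ (h1 1)
  | add x y _ _ hx hy => exact h2 x y hx hy
  | smul c x _ hx => exact h3 c x hx

theorem sub_mem_I' (a b : N) : e a - e b ∈ I N := by
  have := (I N).sub_mem (sub_mem_I a) (sub_mem_I b)
  simpa using this

theorem I_mul_left (r : R N) {x : R N} (hx : x ∈ I N) : r * x ∈ I N := by
  refine ind (p := fun r => r * x ∈ I N) r (fun g => ?_) (fun a b ha hb => ?_) fun c a ha => ?_
  · refine I_ind (p := fun x => e g * x ∈ I N) hx (fun n => ?_) (fun a b ha hb => ?_)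
      fun c a ha => ?_
    · rw [mul_sub, ← e_mul, mul_one]; exact sub_mem_I' _ _
    · rw [mul_add]; exact add_mem ha hb
    · rw [mul_smul_comm]; exact Submodule.smul_mem _ _ ha
  · rw [add_mul]; exact add_mem ha hb
  · rw [smul_mul_assoc]; exact Submodule.smul_mem _ _ ha

theorem I_mul_right (r : R N) {x : R N} (hx : x ∈ I N) : x * r ∈ I N := by
  refine ind (p := fun r => x * r ∈ I N) r (fun g => ?_) (fun a b ha hb => ?_) fun c a ha => ?_
  · refine I_ind (p := fun x => x * e g ∈ I N) hx (fun n => ?_) (fun a b ha hb => ?_)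
      fun c a ha => ?_
    · rw [sub_mul, ← e_mul, one_mul]; exact sub_mem_I' _ _
    · rw [add_mul]; exact add_mem ha hb
    · rw [smul_mul_assoc]; exact Submodule.smul_mem _ _ ha
  · rw [mul_add]; exact add_mem ha hb
  · rw [mul_smul_comm]; exact Submodule.smul_mem _ _ ha

variable (N) in
/-- powers of the augmentation ideal -/
def P : ℕ → Submodule ℚ (R N)
  | 0 => ⊤
  | i + 1 => P i * I N

theorem P_ind {i : ℕ} {p : R N → Prop} {x : R N} (hx : x ∈ P N (i + 1))
    (h1 : ∀ a ∈ P N i, ∀ b ∈ I N, p (a * b)) (h2 : ∀ x y, p x → p y → p (x + y)) : p x :=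
  Submodule.mul_induction_on hx h1 h2

theorem mul_mem_P {i : ℕ} {a b : R N} (ha : a ∈ P N i) (hb : b ∈ I N) : a * b ∈ P N (i + 1) :=
  Submodule.mul_mem_mul ha hb

theorem P_one : P N 1 = I N := by
  apply le_antisymm
  · intro x hx
    exact P_ind (p := fun x => x ∈ I N) hx (fun a _ b hb => I_mul_left a hb) fun _ _ => add_mem
  · intro x hx
    simpa using mul_mem_P (i := 0) (a := 1) trivial hx

theorem P_eq (i : ℕ) : P N (i + 1) = I N ^ (i + 1) := by
  induction i with
  | zero => rw [zero_add, P_one, pow_one]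
  | succ i ih => rw [pow_succ, ← ih]; rfl

theorem P_mul_left (i : ℕ) (r : R N) {x : R N} (hx : x ∈ P N i) : r * x ∈ P N i := by
  induction i generalizing x with
  | zero => trivial
  | succ i ih =>
    refine P_ind (p := fun x => r * x ∈ P N (i + 1)) hx (fun a ha b hb => ?_) fun a b ha hb => ?_
    · rw [← mul_assoc]; exact mul_mem_P (ih ha) hb
    · rw [mul_add]; exact add_mem ha hb

theorem P_mul_right (i : ℕ) (r : R N) {x : R N} (hx : x ∈ P N i) : x * r ∈ P N i := by
  cases i with
  | zero => trivial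
  | succ i =>
    refine P_ind (p := fun x => x * r ∈ P N (i + 1)) hx (fun a ha b hb => ?_) fun a b ha hb => ?_
    · rw [mul_assoc]; exact mul_mem_P ha (I_mul_right r hb)
    · rw [add_mul]; exact add_mem ha hb

theorem P_succ_le (i : ℕ) : P N (i + 1) ≤ P N i := fun _ hx =>
  P_ind (p := fun x => x ∈ P N i) hx (fun _ ha b _ => P_mul_right i b ha) fun _ _ => add_mem

theorem P_anti {i j : ℕ} (h : i ≤ j) : P N j ≤ P N i :=
  antitone_nat_of_succ_le P_succ_le h

theorem P_mul {i j : ℕ} {x y : R N} (hx : x ∈ P N i) (hy : y ∈ P N j) : x * y ∈ P N (i + j) := by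
  induction j generalizing y with
  | zero => exact P_mul_right i y hx
  | succ j ih =>
    refine P_ind (p := fun y => x * y ∈ P N (i + (j + 1))) hy (fun a ha b hb => ?_)
      fun a b ha hb => ?_
    · rw [← mul_assoc]; exact mul_mem_P (ih ha) hb
    · rw [mul_add]; exact add_mem ha hb

theorem I_mul_P {i : ℕ} {x y : R N} (hx : x ∈ I N) (hy : y ∈ P N i) : x * y ∈ P N (i + 1) := by
  rw [add_comm]
  exact P_mul (P_one (N := N) ▸ hx) hy

/-- functoriality -/
def mp (f : M →* N) : R M →ₐ[ℚ] R N := MonoidAlgebra.mapDomainAlgHom ℚ ℚ f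

theorem mp_e (f : M →* N) (m : M) : mp f (e m) = e (f m) := by
  simp [mp, e]

theorem mp_inj {f : M →* N} (hf : Function.Injective f) : Function.Injective (mp f) :=
  MonoidAlgebra.mapDomain_injective hf

theorem mp_mp {L : Type} [Group L] (f : M →* N) (g : L →* M) (x : R L) :
    mp f (mp g x) = mp (f.comp g) x := by
  simp [mp]

theorem mp_id (x : R N) : mp (MonoidHom.id N) x = x := by simp [mp]

theorem mp_I (f : M →* N) {x : R M} (hx : x ∈ I M) : mp f x ∈ I N := by
  refine I_ind (p := fun x => mp f x ∈ I N) hx (fun n => ?_) (fun a b ha hb => ?_) fun c a ha => ?_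
  · rw [map_sub, mp_e, map_one]; exact sub_mem_I _
  · rw [map_add]; exact add_mem ha hb
  · rw [map_smul]; exact Submodule.smul_mem _ _ ha

theorem mp_P (f : M →* N) (i : ℕ) {x : R M} (hx : x ∈ P M i) : mp f x ∈ P N i := by
  induction i generalizing x with
  | zero => trivial
  | succ i ih =>
    refine P_ind (p := fun x => mp f x ∈ P N (i + 1)) hx (fun a ha b hb => ?_) fun a b ha hb => ?_
    · rw [map_mul]; exact mul_mem_P (ih ha) (mp_I f hb)
    · rw [map_add]; exact add_mem ha hb

/-- membership involves finitely many group elements -/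
def Fin (F : ∀ H : Subgroup N, Submodule ℚ (R H)) (x : R N) : Prop :=
  ∃ S : Set N, S.Finite ∧ ∀ H : Subgroup N, S ⊆ H → ∃ y ∈ F H, mp H.subtype y = x

theorem Fin.add {F : ∀ H : Subgroup N, Submodule ℚ (R H)} {x y : R N} (hx : Fin F x)
    (hy : Fin F y) : Fin F (x + y) := by
  obtain ⟨S, hS, h1⟩ := hx
  obtain ⟨T, hT, h2⟩ := hy
  refine ⟨S ∪ T, hS.union hT, fun H hH => ?_⟩
  obtain ⟨a, ha, rfl⟩ := h1 H (Set.subset_union_left.trans hH)
  obtain ⟨b, hb, rfl⟩ := h2 H (Set.subset_union_right.trans hH)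
  exact ⟨a + b, add_mem ha hb, map_add _ _ _⟩

theorem Fin.smul {F : ∀ H : Subgroup N, Submodule ℚ (R H)} (c : ℚ) {x : R N} (hx : Fin F x) :
    Fin F (c • x) := by
  obtain ⟨S, hS, h1⟩ := hx
  refine ⟨S, hS, fun H hH => ?_⟩
  obtain ⟨a, ha, rfl⟩ := h1 H hH
  exact ⟨c • a, Submodule.smul_mem _ _ ha, map_smul _ _ _⟩

theorem fin_P (i : ℕ) {x : R N} (hx : x ∈ P N i) : Fin (fun H => P H i) x := by
  induction i generalizing x with
  | zero =>
    refine ind x (fun n => ⟨{n}, Set.finite_singleton n, fun H hH => ?_⟩) (fun _ _ => Fin.add)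
      fun c _ => Fin.smul c
    exact ⟨e ⟨n, hH rfl⟩, trivial, mp_e _ _⟩
  | succ i ih =>
    refine P_ind hx (fun a ha b hb => ?_) fun _ _ => Fin.add
    have h2 : Fin (fun H => I H) b := by
      refine I_ind hb (fun n => ⟨{n}, Set.finite_singleton n, fun H hH => ?_⟩)
        (fun _ _ => Fin.add) fun c _ => Fin.smul c
      exact ⟨e ⟨n, hH rfl⟩ - 1, sub_mem_I _, by rw [map_sub, mp_e, map_one]; rfl⟩
    obtain ⟨S, hS, h1⟩ := ih ha
    obtain ⟨T, hT, h2⟩ := h2
    refine ⟨S ∪ T, hS.union hT, fun H hH => ?_⟩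
    obtain ⟨a', ha', rfl⟩ := h1 H (Set.subset_union_left.trans hH)
    obtain ⟨b', hb', rfl⟩ := h2 H (Set.subset_union_right.trans hH)
    exact ⟨a' * b', mul_mem_P ha' hb', map_mul _ _ _⟩

/-- additive characters of a `PolyQ h` group span at most `h` dimensions -/
theorem exists_fd {h : ℕ} {V : Type} [AddCommGroup V] [Module ℚ V] (hN : PolyQ h N)
    (δ : N →* Multiplicative V) : ∃ U : Submodule ℚ V, FiniteDimensional ℚ U ∧
      Module.finrank ℚ U ≤ h ∧ ∀ n, (δ n).toAdd ∈ U := by
  induction h generalizing N with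
  | zero =>
    have : Subsingleton N := hN
    refine ⟨⊥, inferInstance, by simp, fun n => ?_⟩
    rw [Subsingleton.elim n 1, map_one]
    exact Submodule.zero_mem _
  | succ h ih =>
    obtain ⟨φ, hφ⟩ := hN
    obtain ⟨U, hU, hd, hm⟩ := ih hφ (δ.comp φ.ker.subtype)
    by_cases h0 : ∀ n, φ n = 1
    · exact ⟨U, hU, hd.trans (Nat.le_succ h), fun n => hm ⟨n, h0 n⟩⟩
    push Not at h0
    obtain ⟨t, ht⟩ := h0
    refine ⟨U ⊔ Submodule.span ℚ {(δ t).toAdd}, inferInstance, ?_, fun n => ?_⟩
    · refine (Submodule.finrank_add_le_finrank_add_finrank _ _).trans (Nat.add_le_add hd ?_)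
      simpa using finrank_span_le_card (R := ℚ) ({(δ t).toAdd} : Set V)
    · have ht' : (φ t).toAdd ≠ 0 := ht
      set q : ℚ := (φ n).toAdd / (φ t).toAdd with hq
      have hk : n ^ (q.den : ℤ) * t ^ (-q.num) ∈ φ.ker := by
        rw [MonoidHom.mem_ker]
        apply Multiplicative.toAdd.injective
        rw [map_mul, map_zpow, map_zpow, toAdd_mul, toAdd_zpow, toAdd_zpow, toAdd_one,
          zsmul_eq_mul, zsmul_eq_mul]
        have e1 : (φ n).toAdd = q * (φ t).toAdd := by rw [hq]; field_simp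
        have e2 : (q.den : ℚ) * q = q.num := Rat.den_mul_eq_num q
        rw [e1]
        push_cast
        rw [← mul_assoc, e2]
        ring
      have h1 := hm ⟨_, hk⟩
      change (δ (n ^ (q.den : ℤ) * t ^ (-q.num))).toAdd ∈ U at h1
      rw [map_mul, map_zpow, map_zpow, toAdd_mul, toAdd_zpow, toAdd_zpow] at h1
      have h2 : (q.den : ℤ) • (δ n).toAdd ∈ U ⊔ Submodule.span ℚ {(δ t).toAdd} := by
        have := Submodule.sub_mem _ (Submodule.mem_sup_left h1) (Submodule.mem_sup_right
          (S := U) (zsmul_mem (Submodule.mem_span_singleton_self (R := ℚ) (δ t).toAdd) (-q.num)))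
        simpa using this
      rw [← Int.cast_smul_eq_zsmul ℚ] at h2
      exact (Submodule.smul_mem_iff _ (by simp)).1 h2

theorem e_mul_sub (a b : N) : e (a * b) - 1 - ((e a - 1) + (e b - 1)) ∈ P N 2 := by
  have := mul_mem_P (i := 1) (P_one (N := N) ▸ sub_mem_I a) (sub_mem_I b)
  convert this using 1
  rw [e_mul]; noncomm_ring

theorem fd_quot {h : ℕ} (hN : PolyQ h N) :
    FiniteDimensional ℚ ((P N 1).map (P N 2).mkQ) ∧
      Module.finrank ℚ ((P N 1).map (P N 2).mkQ) ≤ h := by
  let δ : N →* Multiplicative (R N ⧸ P N 2) :=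
    { toFun := fun n => Multiplicative.ofAdd ((P N 2).mkQ (e n - 1))
      map_one' := by simp [e_one]
      map_mul' := by
        intro a b
        rw [← ofAdd_add, ← map_add]
        congr 1
        exact (Submodule.Quotient.eq _).2 (e_mul_sub a b) }
  obtain ⟨U, hU, hd, hm⟩ := exists_fd hN δ
  have hle : (P N 1).map (P N 2).mkQ ≤ U := by
    rw [Submodule.map_le_iff_le_comap, P_one]
    refine Submodule.span_le.2 ?_
    rintro _ ⟨n, rfl⟩
    exact hm n
  exact ⟨Submodule.finiteDimensional_of_le hle, (Submodule.finrank_mono hle).trans hd⟩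

theorem exists_fg {h : ℕ} (hN : PolyQ h N) (j : ℕ) :
    ∃ G : Submodule ℚ (R N), G.FG ∧ G ⊔ P N j = ⊤ := by
  obtain ⟨F, hF, hF1, hF2⟩ : ∃ F : Submodule ℚ (R N), F.FG ∧ F ≤ I N ∧ I N ≤ F ⊔ P N 2 := by
    have h1 := (fd_quot hN).1
    obtain ⟨s, hs⟩ := Module.Finite.iff_fg.1 h1
    have h2 : ∀ v ∈ s, ∃ x ∈ P N 1, (P N 2).mkQ x = v := fun v hv =>
      Submodule.mem_map.1 (hs ▸ Submodule.subset_span hv)
    choose! f hf1 hf2 using h2
    refine ⟨Submodule.span ℚ (f '' s), Submodule.fg_span (s.finite_toSet.image f), ?_, ?_⟩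
    · refine Submodule.span_le.2 ?_
      rintro _ ⟨v, hv, rfl⟩
      exact P_one (N := N) ▸ hf1 v hv
    · have h3 : (P N 1).map (P N 2).mkQ ≤ (Submodule.span ℚ (f '' s)).map (P N 2).mkQ := by
        rw [← hs]
        refine Submodule.span_le.2 fun v hv => ?_
        exact ⟨f v, Submodule.subset_span ⟨v, hv, rfl⟩, hf2 v hv⟩
      rw [Submodule.map_le_iff_le_comap, Submodule.comap_map_mkQ, P_one, sup_comm] at h3
      exact h3
  have k1 : ∀ j, F ^ j ≤ P N j := by
    intro j
    induction j with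
    | zero => exact le_top
    | succ j ih => rw [pow_succ]; exact mul_le_mul' ih hF1
  have k2 : ∀ j, P N j ≤ F ^ j ⊔ P N (j + 1) := by
    intro j
    induction j with
    | zero =>
      intro x hx
      clear hx
      refine ind (p := fun x => x ∈ F ^ 0 ⊔ P N 1) x (fun n => ?_) (fun _ _ => add_mem)
        fun c _ => Submodule.smul_mem _ c
      have : e n = 1 + (e n - 1) := by abel
      rw [this, pow_zero, P_one]
      exact Submodule.add_mem_sup (Submodule.one_le.1 le_rfl) (sub_mem_I n)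
    | succ j ih =>
      intro x hx
      refine P_ind (p := fun x => x ∈ F ^ (j + 1) ⊔ P N (j + 1 + 1)) hx (fun a ha b hb => ?_)
        fun _ _ => add_mem
      obtain ⟨a1, h1, a2, h2, rfl⟩ := Submodule.mem_sup.1 (ih ha)
      obtain ⟨b1, h3, b2, h4, rfl⟩ := Submodule.mem_sup.1 (hF2 hb)
      rw [add_mul, mul_add a1, add_assoc (a1 * b1)]
      refine Submodule.add_mem_sup ?_
        (add_mem (P_mul (i := j) (j := 2) (k1 j h1) h4) (mul_mem_P h2 hb))
      rw [pow_succ]
      exact Submodule.mul_mem_mul h1 h3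
  induction j with
  | zero => exact ⟨⊥, Submodule.fg_bot, by simp [P]⟩
  | succ j ih =>
    obtain ⟨G, hG, hG'⟩ := ih
    refine ⟨G ⊔ F ^ j, hG.sup (hF.pow j), ?_⟩
    rw [eq_top_iff, ← hG', sup_assoc]
    exact sup_le_sup_left (k2 j) _

/-- a rational character kills the square of the augmentation ideal -/
theorem char_eq_one (φ : N →* Multiplicative ℚ) {n : N} (hn : e n - 1 ∈ P N 2) : φ n = 1 := by
  let ψ : N →* TrivSqZeroExt ℚ ℚ :=
    { toFun := fun n => TrivSqZeroExt.inl 1 + TrivSqZeroExt.inr (φ n).toAdd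
      map_one' := by simp
      map_mul' := by intro a b; ext <;> simp [add_comm] }
  let Ψ := MonoidAlgebra.lift ℚ (TrivSqZeroExt ℚ ℚ) N ψ
  have hΨ : ∀ n, Ψ (e n) = ψ n := fun n => by simp [Ψ, e]
  have h1 : ∀ x ∈ I N, (Ψ x).fst = 0 := by
    intro x hx
    refine I_ind (p := fun x => (Ψ x).fst = 0) hx (fun n => ?_) (fun a b ha hb => ?_)
      fun c a ha => ?_
    · rw [map_sub, hΨ, map_one]; simp [ψ]
    · rw [map_add, TrivSqZeroExt.fst_add, ha, hb, add_zero]
    · rw [map_smul, TrivSqZeroExt.fst_smul, ha, smul_zero]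
  have h2 : (Ψ (e n - 1)).snd = 0 := by
    refine P_ind (p := fun x => (Ψ x).snd = 0) hn (fun a ha b hb => ?_) fun a b ha hb => ?_
    · rw [map_mul, TrivSqZeroExt.snd_mul, h1 a (P_one (N := N) ▸ ha), h1 b hb]; simp
    · rw [map_add, TrivSqZeroExt.snd_add, ha, hb, add_zero]
  rw [map_sub, hΨ, map_one] at h2
  simpa [ψ] using h2

end Jn

end Pool.Agent.Lib.MP_2fb4be_al.Sol
end
end

-- part Pool.Agent.Lib.MP_2fb4be_al.Sol.Jennings
section

/-!
Jennings: uniform faithful unipotent models of nilpotent `PolyQ h` groups.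
-/

set_option autoImplicit false

noncomputable section

namespace Pool.Agent.Lib.MP_2fb4be_al.Sol

namespace Jn

open scoped commutatorElement

variable {N M : Type} [Group N] [Group M]

section T

variable (γ : M →* M)

def D : Module.End ℚ (R M) := (mp γ).toLinearMap - 1

theorem D_apply (x : R M) : D γ x = mp γ x - x := rfl

theorem D_P (i : ℕ) {x : R M} (hx : x ∈ P M i) : D γ x ∈ P M i :=
  sub_mem (mp_P γ i hx) hx

def T (i a : ℕ) : Submodule ℚ (R M) := P M i ⊓ (P M (i + 1)).comap (D γ ^ a)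

theorem mem_T_zero {i : ℕ} {x : R M} : x ∈ T γ i 0 ↔ x ∈ P M (i + 1) :=
  ⟨fun h => h.2, fun h => ⟨P_succ_le i h, h⟩⟩

theorem mem_T_succ {i a : ℕ} {x : R M} : x ∈ T γ i (a + 1) ↔ x ∈ P M i ∧ D γ x ∈ T γ i a := by
  have e1 : (D γ ^ (a + 1)) x = (D γ ^ a) (D γ x) := by rw [pow_succ]; rfl
  constructor
  · intro h
    refine ⟨h.1, D_P γ i h.1, ?_⟩
    have := h.2
    rw [SetLike.mem_coe, Submodule.mem_comap, e1] at this
    exact this
  · intro h
    refine ⟨h.1, ?_⟩
    rw [SetLike.mem_coe, Submodule.mem_comap, e1]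
    exact h.2.2

theorem T_succ (i a : ℕ) : T γ i a ≤ T γ i (a + 1) := by
  induction a with
  | zero =>
    intro x hx
    rw [mem_T_succ]
    exact ⟨hx.1, (mem_T_zero γ).2 (D_P γ _ ((mem_T_zero γ).1 hx))⟩
  | succ a ih =>
    intro x hx
    rw [mem_T_succ] at hx ⊢
    exact ⟨hx.1, ih hx.2⟩

theorem T_mono (i : ℕ) {a b : ℕ} (h : a ≤ b) : T γ i a ≤ T γ i b :=
  monotone_nat_of_le_succ (T_succ γ i) h

theorem P_le_T (i a : ℕ) : P M (i + 1) ≤ T γ i a := fun _ hx =>
  T_mono γ i (Nat.zero_le a) ((mem_T_zero γ).2 hx)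

theorem mp_T {γ' : M →* M} (h : γ.comp γ' = γ'.comp γ) (i a : ℕ) {x : R M} (hx : x ∈ T γ i a) :
    mp γ' x ∈ T γ i a := by
  induction a generalizing x with
  | zero => exact (mem_T_zero γ).2 (mp_P γ' _ ((mem_T_zero γ).1 hx))
  | succ a ih =>
    rw [mem_T_succ] at hx ⊢
    refine ⟨mp_P γ' i hx.1, ?_⟩
    have := ih hx.2
    rwa [D_apply, map_sub, mp_mp, ← h, ← mp_mp] at this

theorem T_mul (i : ℕ) (s : ℕ) : ∀ a b : ℕ, a + b = s → ∀ x ∈ T γ i a, ∀ y ∈ T γ 1 b,
    x * y ∈ T γ (i + 1) s := by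
  induction s with
  | zero =>
    intro a b hab x hx y hy
    obtain rfl : a = 0 := by omega
    exact P_le_T γ _ _ (P_mul ((mem_T_zero γ).1 hx) hy.1)
  | succ s ih =>
    intro a b hab x hx y hy
    cases a with
    | zero => exact P_le_T γ _ _ (P_mul ((mem_T_zero γ).1 hx) hy.1)
    | succ a =>
      cases b with
      | zero => exact P_le_T γ _ _ (P_mul (i := i) (j := 2) hx.1 ((mem_T_zero γ).1 hy))
      | succ b =>
        rw [mem_T_succ]
        refine ⟨P_mul hx.1 hy.1, ?_⟩
        have e1 : D γ (x * y) = D γ x * mp γ y + x * D γ y := by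
          rw [D_apply, D_apply, D_apply, map_mul]; noncomm_ring
        rw [e1]
        exact add_mem (ih a (b + 1) (by omega) _ ((mem_T_succ γ).1 hx).2 _ (mp_T γ rfl _ _ hy))
          (ih (a + 1) b (by omega) _ hx _ ((mem_T_succ γ).1 hy).2)

theorem P_le_T_of {h : ℕ} (h1 : P M 1 ≤ T γ 1 h) (i : ℕ) : P M i ≤ T γ i (1 + i * h) := by
  induction i with
  | zero =>
    intro x hx
    rw [zero_mul, add_zero, ← zero_add 1, mem_T_succ, mem_T_zero, zero_add, P_one]
    refine ⟨hx, ?_⟩
    clear hx
    refine ind (p := fun x => D γ x ∈ I M) x (fun n => ?_) (fun a b ha hb => ?_) fun c a ha => ?_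
    · rw [D_apply, mp_e]; exact sub_mem_I' _ _
    · rw [map_add]; exact add_mem ha hb
    · rw [map_smul]; exact Submodule.smul_mem _ _ ha
  | succ i ih =>
    intro x hx
    refine P_ind (p := fun x => x ∈ T γ (i + 1) (1 + (i + 1) * h)) hx (fun a ha b hb => ?_)
      fun _ _ => add_mem
    exact T_mul γ i _ _ _ (by ring) a (ih ha) b (h1 (P_one (N := M) ▸ hb))

theorem unif {h c : ℕ} (hM : PolyQ h M) (hc : P M 1 ≤ T γ 1 c) : P M 1 ≤ T γ 1 h := by
  obtain ⟨hfd, hd⟩ := fd_quot hM
  have hle : ∀ a, (T γ 1 a).map (P M 2).mkQ ≤ (P M 1).map (P M 2).mkQ := fun a =>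
    Submodule.map_mono inf_le_left
  have stat : ∀ a, T γ 1 a = T γ 1 (a + 1) → T γ 1 (a + 1) = T γ 1 (a + 1 + 1) := by
    intro a ha
    ext x
    rw [mem_T_succ, mem_T_succ γ (a := a + 1), ← ha]
  have key : ∀ a, T γ 1 a = T γ 1 (a + 1) ∨
      a + 1 ≤ Module.finrank ℚ ((T γ 1 (a + 1)).map (P M 2).mkQ) := by
    have step : ∀ a, T γ 1 a ≠ T γ 1 (a + 1) → Module.finrank ℚ ((T γ 1 a).map (P M 2).mkQ) <
        Module.finrank ℚ ((T γ 1 (a + 1)).map (P M 2).mkQ) := by
      intro a ha
      have := Submodule.finiteDimensional_of_le (hle (a + 1))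
      refine Submodule.finrank_lt_finrank_of_lt
        (lt_of_le_of_ne (Submodule.map_mono (T_succ γ 1 a)) fun h => ha ?_)
      have h2 := congrArg (Submodule.comap (P M 2).mkQ) h
      rwa [Submodule.comap_map_mkQ, Submodule.comap_map_mkQ, sup_eq_right.2 (P_le_T γ 1 _),
        sup_eq_right.2 (P_le_T γ 1 _)] at h2
    intro a
    induction a with
    | zero =>
      by_cases h0 : T γ 1 0 = T γ 1 (0 + 1)
      · exact Or.inl h0
      · right
        have := step 0 h0
        omega
    | succ a ih =>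
      by_cases h0 : T γ 1 (a + 1) = T γ 1 (a + 1 + 1)
      · exact Or.inl h0
      · right
        rcases ih with ih | ih
        · exact absurd (stat a ih) h0
        · have := step _ h0
          omega
  have h1 : T γ 1 h = T γ 1 (h + 1) := by
    rcases key h with h1 | h1
    · exact h1
    · have := Submodule.finrank_mono (hle (h + 1))
      omega
  have h2 : ∀ j, T γ 1 (h + j) = T γ 1 (h + j + 1) := by
    intro j
    induction j with
    | zero => exact h1
    | succ j ih => exact stat _ ih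
  have h3 : ∀ j, T γ 1 (h + j) = T γ 1 h := by
    intro j
    induction j with
    | zero => rfl
    | succ j ih => rw [← ih, h2 j]; rfl
  exact hc.trans ((T_mono γ 1 (Nat.le_add_left c h)).trans (h3 c).le)

end T

section Z

variable {H V : Type} [AddCommGroup V] [Module ℚ V] (ρ : H → Module.End ℚ V)

theorem mem_Zs {W : Submodule ℚ V} {l : ℕ} {x : V} :
    x ∈ Zs ρ Set.univ W (l + 1) ↔ ∀ h, ρ h x - x ∈ Zs ρ Set.univ W l := by
  simp [Zs]

theorem Zs_mono' {W W' : Submodule ℚ V} (h : W ≤ W') (l : ℕ) :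
    Zs ρ Set.univ W l ≤ Zs ρ Set.univ W' l := by
  induction l with
  | zero => exact h
  | succ l ih => exact fun x hx => (mem_Zs ρ).2 fun g => ih ((mem_Zs ρ).1 hx g)

theorem Zs_add' (W : Submodule ℚ V) (a b : ℕ) :
    Zs ρ Set.univ (Zs ρ Set.univ W a) b = Zs ρ Set.univ W (a + b) := by
  induction b with
  | zero => rfl
  | succ b ih =>
    ext x
    rw [← add_assoc, mem_Zs, mem_Zs, ih]

end Z

theorem act_mem {V : Type} [AddCommGroup V] [Module ℚ V] (σ : N →* Module.End ℚ V)
    (W : Submodule ℚ V) (hW : ∀ g, ∀ w ∈ W, σ g w ∈ W) (j : ℕ) {r : R N} (hr : r ∈ P N j)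
    {w : V} (hw : w ∈ Zs σ Set.univ W j) : MonoidAlgebra.lift ℚ _ N σ r w ∈ W := by
  have he : ∀ g, MonoidAlgebra.lift ℚ _ N σ (e g) = σ g := fun g => by simp [e]
  induction j generalizing r w with
  | zero =>
    clear hr
    refine ind (p := fun r => MonoidAlgebra.lift ℚ _ N σ r w ∈ W) r (fun n => ?_)
      (fun a b ha hb => ?_) fun c a ha => ?_
    · rw [he]; exact hW n w hw
    · rw [map_add]; exact add_mem ha hb
    · rw [map_smul]; exact Submodule.smul_mem _ _ ha
  | succ j ih =>
    refine P_ind (p := fun r => MonoidAlgebra.lift ℚ _ N σ r w ∈ W) hr (fun a ha b hb => ?_)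
      fun a b ha hb => ?_
    · rw [map_mul, Module.End.mul_apply]
      refine ih ha ?_
      refine I_ind (p := fun b => MonoidAlgebra.lift ℚ _ N σ b w ∈ Zs σ Set.univ W j) hb
        (fun n => ?_) (fun a b ha hb => ?_) fun c a ha => ?_
      · rw [map_sub, he, map_one]; exact (mem_Zs _).1 hw n
      · rw [map_add]; exact add_mem ha hb
      · rw [map_smul]; exact Submodule.smul_mem _ _ ha
    · rw [map_add]; exact add_mem ha hb

variable (N) in
/-- the `k + 1` st dimension subgroup is trivial -/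
def J (k : ℕ) : Prop := ∀ n : N, e n - 1 ∈ P N (k + 1) → n = 1

section step

variable {H : Type} [Group H] (K : Subgroup H) [K.Normal]

def cj (g : H) : K →* K := (MulAut.conjNormal g : K ≃* K).toMonoidHom

theorem coe_cj (g : H) (x : K) : (cj K g x : H) = g * x * g⁻¹ := rfl

theorem cj_comp (g g' : H) : (cj K g).comp (cj K g') = cj K (g * g') := by
  ext x
  simp [coe_cj, mul_assoc]

theorem cj_one : cj K 1 = MonoidHom.id K := by
  ext x
  simp [coe_cj]

theorem nil_T [Group.IsNilpotent H] (t : H) : ∃ c, P K 1 ≤ T (cj K t) 1 c := by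
  obtain ⟨c, hc⟩ := Group.IsNilpotent.nilpotent' (G := H)
  have key : ∀ j, ∀ m : K, (m : H) ∈ Subgroup.upperCentralSeries H j →
      e m - 1 ∈ T (cj K t) 1 j := by
    intro j
    induction j with
    | zero =>
      intro m hm
      rw [Subgroup.upperCentralSeries_zero, Subgroup.mem_bot] at hm
      have : m = 1 := Subtype.ext hm
      rw [this, e_one, sub_self]
      exact zero_mem _
    | succ j ih =>
      intro m hm
      rw [mem_T_succ]
      refine ⟨P_one (N := K) ▸ sub_mem_I m, ?_⟩
      have h1 := ih (cj K t m * m⁻¹) (by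
        have := (Subgroup.upperCentralSeries H j).inv_mem
          (Subgroup.mem_upperCentralSeries_succ_iff.1 hm t)
        rw [commutatorElement_inv, commutatorElement_def] at this
        exact this)
      have h2 := P_le_T (cj K t) 1 j (e_mul_sub (cj K t m * m⁻¹) m)
      rw [inv_mul_cancel_right] at h2
      have := add_mem h1 h2
      convert this using 1
      rw [D_apply, map_sub, mp_e, map_one]
      abel
  refine ⟨c, ?_⟩
  rw [P_one]
  refine Submodule.span_le.2 ?_
  rintro _ ⟨m, rfl⟩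
  exact key c m (by rw [hc]; trivial)

theorem zpow_T (t : H) (i a : ℕ) {x : R K} (hx : x ∈ T (cj K t) i (a + 1)) (z : ℤ) :
    mp (cj K (t ^ z)) x - x ∈ T (cj K t) i a := by
  have hcomm : ∀ z : ℤ, (cj K t).comp (cj K (t ^ z)) = (cj K (t ^ z)).comp (cj K t) := by
    intro z
    rw [cj_comp, cj_comp, (Commute.self_zpow t z).eq]
  have hD : ∀ z : ℤ, mp (cj K (t ^ (z + 1))) x - mp (cj K (t ^ z)) x ∈ T (cj K t) i a := by
    intro z
    have := mp_T _ (hcomm z) i a ((mem_T_succ _).1 hx).2
    rwa [D_apply, map_sub, mp_mp, cj_comp, ← zpow_add_one] at this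
  induction z using Int.induction_on with
  | zero => rw [zpow_zero, cj_one, mp_id, sub_self]; exact zero_mem _
  | succ z ih => simpa using add_mem (hD z) ih
  | pred z ih =>
    have := sub_mem ih (hD (-z - 1))
    rw [sub_add_cancel] at this
    convert this using 1
    abel

theorem step [Group.IsNilpotent H] {h k : ℕ} (hK : PolyQ h K) (hJ : J K k) (t : H) (z : H → ℤ)
    (hz : ∀ a b, z (a * b) = z a + z b) (hm : ∀ g, g * t ^ (-z g) ∈ K) (h0 : ∀ m ∈ K, z m = 0)
    (n : K) (hn : e (n : H) - 1 ∈ P H ((k + 1) * (1 + k * h))) : n = 1 := by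
  let σ : H →* Module.End ℚ (R K) :=
    { toFun := fun g => (LinearMap.mulLeft ℚ (e ⟨g * t ^ (-z g), hm g⟩)).comp
        (mp (cj K (t ^ z g))).toLinearMap
      map_one' := by
        refine LinearMap.ext fun x => ?_
        have : (⟨1 * t ^ (-z 1), hm 1⟩ : K) = 1 := Subtype.ext (by simp [h0 1 K.one_mem])
        simp only [LinearMap.comp_apply, LinearMap.mulLeft_apply, AlgHom.toLinearMap_apply]
        rw [this, h0 1 K.one_mem, zpow_zero, cj_one, mp_id, e_one, one_mul]
        rfl
      map_mul' := by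
        intro a b
        refine LinearMap.ext fun x => ?_
        simp only [LinearMap.comp_apply, LinearMap.mulLeft_apply, AlgHom.toLinearMap_apply,
          Module.End.mul_apply]
        rw [map_mul, mp_e, mp_mp, cj_comp, ← mul_assoc, ← e_mul, ← zpow_add, ← hz]
        congr 2
        apply Subtype.ext
        simp only [Subgroup.coe_mul, coe_cj, hz]
        group }
  have hσ : ∀ g x, σ g x = e ⟨g * t ^ (-z g), hm g⟩ * mp (cj K (t ^ z g)) x := fun g x => rfl
  obtain ⟨c, hc⟩ := nil_T K t
  have h1 := P_le_T_of _ (unif _ hK hc)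
  have h2 : ∀ i a, T (cj K t) i a ≤ Zs σ Set.univ (P K (i + 1)) a := by
    intro i a
    induction a with
    | zero => exact fun x hx => (mem_T_zero _).1 hx
    | succ a ih =>
      intro x hx
      refine (mem_Zs _).2 fun g => ih ?_
      have a1 := zpow_T K t i a hx (z g)
      have a2 := P_le_T (cj K t) i a (I_mul_P (sub_mem_I ⟨g * t ^ (-z g), hm g⟩)
        (mp_P (cj K (t ^ z g)) i hx.1))
      have := add_mem a2 a1
      convert this using 1
      rw [hσ]; noncomm_ring
  have h3 : ∀ j i, i + j = k + 1 →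
      P K i ≤ Zs σ Set.univ (P K (k + 1)) (j * (1 + k * h)) := by
    intro j
    induction j with
    | zero =>
      intro i hi
      rw [add_zero] at hi
      rw [hi, zero_mul]
      exact le_rfl
    | succ j ih =>
      intro i hi
      rw [Nat.succ_mul, ← Zs_add']
      refine (h1 i).trans ((T_mono _ i ?_).trans ((h2 i _).trans
        (Zs_mono' _ (ih (i + 1) (by omega)) _)))
      exact Nat.add_le_add_left (Nat.mul_le_mul_right h (by omega)) 1
  have h4 := act_mem σ (P K (k + 1)) (fun g w hw => by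
    rw [hσ]; exact P_mul_left _ _ (mp_P _ _ hw)) _ hn (h3 (k + 1) 0 (by omega) (x := 1) trivial)
  have he : MonoidAlgebra.lift ℚ _ H σ (e (n : H)) = σ n := by simp [e]
  rw [map_sub, he, map_one (MonoidAlgebra.lift ℚ _ H σ), LinearMap.sub_apply, hσ,
    map_one (mp _), mul_one] at h4
  have e1 : (⟨(n : H) * t ^ (-z n), hm n⟩ : K) = n := Subtype.ext (by simp [h0 n n.2])
  rw [e1] at h4
  exact hJ n h4

end step

theorem exists_cyc (φ : N →* Multiplicative ℚ) (S : Set N) (hS : S.Finite) :
    ∃ H : Subgroup N, S ⊆ H ∧ φ.ker ≤ H ∧ ∃ t ∈ H, ∀ g ∈ H, ∃ z : ℤ,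
      (φ g).toAdd = z * (φ t).toAdd := by
  obtain ⟨d, hd, hd'⟩ : ∃ d : ℕ, d ≠ 0 ∧ ∀ s ∈ S, ∃ z : ℤ, (d : ℚ) * (φ s).toAdd = z := by
    refine ⟨∏ s ∈ hS.toFinset, (φ s).toAdd.den, Finset.prod_ne_zero_iff.2 fun s _ => Rat.den_nz _,
      fun s hs => ?_⟩
    obtain ⟨c, hc⟩ := Finset.dvd_prod_of_mem (fun s => (φ s).toAdd.den) (hS.mem_toFinset.2 hs)
    refine ⟨c * (φ s).toAdd.num, ?_⟩
    rw [hc]
    push_cast
    rw [← Rat.den_mul_eq_num]
    ring
  let H : Subgroup N :=
    { carrier := {g | ∃ z : ℤ, (d : ℚ) * (φ g).toAdd = z}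
      one_mem' := ⟨0, by simp⟩
      mul_mem' := by
        rintro a b ⟨z, hz⟩ ⟨w, hw⟩
        exact ⟨z + w, by rw [map_mul, toAdd_mul, mul_add, hz, hw]; push_cast; rfl⟩
      inv_mem' := by
        rintro a ⟨z, hz⟩
        exact ⟨-z, by rw [map_inv, toAdd_inv, mul_neg, hz]; push_cast; rfl⟩ }
  let B : AddSubgroup ℤ :=
    { carrier := {z | ∃ g : N, (d : ℚ) * (φ g).toAdd = z}
      zero_mem' := ⟨1, by simp⟩
      add_mem' := by
        rintro z w ⟨a, hz⟩ ⟨b, hw⟩
        exact ⟨a * b, by rw [map_mul, toAdd_mul, mul_add, hz, hw]; push_cast; rfl⟩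
      neg_mem' := by
        rintro z ⟨a, hz⟩
        exact ⟨a⁻¹, by rw [map_inv, toAdd_inv, mul_neg, hz]; push_cast; rfl⟩ }
  obtain ⟨a, ha⟩ := Int.subgroup_cyclic B
  obtain ⟨t, ht⟩ : a ∈ B := ha ▸ AddSubgroup.subset_closure rfl
  refine ⟨H, hd', fun g hg => ⟨0, by rw [MonoidHom.mem_ker.1 hg]; simp⟩, t, ⟨a, ht⟩, ?_⟩
  rintro g ⟨z, hz⟩
  have hzB : z ∈ B := ⟨g, hz⟩
  rw [ha, AddSubgroup.mem_closure_singleton] at hzB
  obtain ⟨w, rfl⟩ := hzB
  refine ⟨w, mul_left_cancel₀ (a := (d : ℚ)) (by exact_mod_cast hd) ?_⟩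
  rw [hz, mul_left_comm, ht]
  simp

theorem exists_J (h : ℕ) : ∃ k, ∀ (N : Type) [Group N] [Group.IsNilpotent N], PolyQ h N →
    J N k := by
  induction h with
  | zero =>
    refine ⟨0, fun N _ _ hN n _ => ?_⟩
    have : Subsingleton N := hN
    exact Subsingleton.elim _ _
  | succ h ih =>
    obtain ⟨k, hk⟩ := ih
    refine ⟨(k + 1) * (1 + k * h), fun N _ _ hN n hn => ?_⟩
    obtain ⟨φ, hφ⟩ := hN
    have hpos : 1 ≤ (k + 1) * (1 + k * h) := Nat.mul_pos (by omega) (by omega)
    have hn1 : φ n = 1 := char_eq_one φ (P_anti (by omega) hn)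
    obtain ⟨S, hS, hS'⟩ := fin_P _ (P_succ_le _ hn)
    obtain ⟨H, hSH, hKH, t, ht, hz⟩ := exists_cyc φ S hS
    obtain ⟨y, hy, hy'⟩ := hS' H hSH
    have hnH : n ∈ H := hKH hn1
    have e1 : y = e (⟨n, hnH⟩ : H) - 1 := by
      apply mp_inj (Subgroup.subtype_injective H)
      rw [hy', map_sub, mp_e, map_one]
      rfl
    let K : Subgroup H := (φ.comp H.subtype).ker
    have hK : PolyQ h K := by
      refine hφ.of_injective ((H.subtype.comp K.subtype).codRestrict φ.ker fun x => x.2) ?_
      intro a b hab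
      have := congrArg Subtype.val hab
      exact Subtype.ext (Subtype.ext this)
    let z : H → ℤ := fun g => ((φ g).toAdd / (φ t).toAdd).num
    have hz1 : ∀ g : H, (z g : ℚ) = (φ g).toAdd / (φ t).toAdd := by
      intro g
      obtain ⟨w, hw⟩ := hz g g.2
      by_cases h0 : (φ t).toAdd = 0
      · simp [z, h0]
      · simp [z, hw, h0]
    have hz2 : ∀ g : H, (φ g).toAdd = z g * (φ t).toAdd := by
      intro g
      obtain ⟨w, hw⟩ := hz g g.2
      by_cases h0 : (φ t).toAdd = 0
      · rw [hw, h0]; simp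
      · rw [hz1]; field_simp
    have := step K hK (hk K hK) ⟨t, ht⟩ z (fun a b => by
        apply Int.cast_injective (α := ℚ)
        push_cast
        rw [hz1, hz1, hz1, Subgroup.coe_mul, map_mul, toAdd_mul, add_div])
      (fun g => by
        apply Multiplicative.toAdd.injective
        change (φ ((g : N) * t ^ (-z g))).toAdd = 0
        rw [map_mul, map_zpow, toAdd_mul, toAdd_zpow, hz2 g]
        simp)
      (fun m hm => by
        apply Int.cast_injective (α := ℚ)
        have : φ m = 1 := hm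
        rw [hz1, this]
        simp) ⟨⟨n, hnH⟩, hn1⟩ (e1 ▸ hy)
    exact congrArg (fun x : K => ((x : H) : N)) this

variable (N) in
/-- the power of the augmentation ideal as an ideal -/
def Id (k : ℕ) : Ideal (R N) where
  carrier := P N k
  add_mem' := add_mem
  zero_mem' := zero_mem _
  smul_mem' := fun r _ hx => P_mul_left k r hx

instance (k : ℕ) : (Id N k).IsTwoSided := ⟨fun r hx => P_mul_right k r hx⟩

end Jn

open Jn in
theorem jennings (h : ℕ) : ∃ k, ∀ (G : Type) [Group G] (N : Subgroup G) [N.Normal]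
    [Group.IsNilpotent N], PolyQ h N → ∃ M : NilModel G N, M.k = k := by
  obtain ⟨k, hk⟩ := exists_J h
  refine ⟨k, fun G _ N _ _ hN => ?_⟩
  let A := R N ⧸ Id N (k + 1)
  let π : R N →ₐ[ℚ] A := Ideal.Quotient.mkₐ ℚ (Id N (k + 1))
  have hπ : ∀ x, π x = 0 ↔ x ∈ P N (k + 1) := fun x => Ideal.Quotient.eq_zero_iff_mem
  have hsurj : Function.Surjective π := Ideal.Quotient.mkₐ_surjective ℚ _
  have hbot : (P N (k + 1)).map π.toLinearMap = ⊥ := by
    rw [eq_bot_iff]
    rintro _ ⟨x, hx, rfl⟩
    exact (hπ x).2 hx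
  let ι : N →* Aˣ := (π.toMonoidHom.comp (MonoidAlgebra.of ℚ N)).toHomUnits
  have hι : ∀ n, (ι n : A) = π (e n) := fun n => rfl
  let β : G →* (A →ₐ[ℚ] A) :=
    { toFun := fun g => Ideal.quotientMapₐ (Id N (k + 1)) (mp (cj N g))
        fun x hx => mp_P (cj N g) (k + 1) hx
      map_one' := by
        refine AlgHom.ext fun a => ?_
        obtain ⟨x, rfl⟩ := hsurj a
        change π (mp (cj N 1) x) = π x
        rw [cj_one, mp_id]
      map_mul' := by
        intro g g'
        refine AlgHom.ext fun a => ?_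
        obtain ⟨x, rfl⟩ := hsurj a
        change π (mp (cj N (g * g')) x) = π (mp (cj N g) (mp (cj N g') x))
        rw [mp_mp, cj_comp] }
  let α : G →* (A ≃ₐ[ℚ] A) := (AlgEquiv.algHomUnitsEquiv ℚ A).toMonoidHom.comp β.toHomUnits
  have hα : ∀ g x, α g (π x) = π (mp (cj N g) x) := fun g x => rfl
  have fd : FiniteDimensional ℚ A := by
    obtain ⟨F, hF, hF'⟩ := exists_fg hN (k + 1)
    have h1 := congrArg (Submodule.map π.toLinearMap) hF'
    rw [Submodule.map_sup, hbot, sup_bot_eq, Submodule.map_top,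
      LinearMap.range_eq_top.2 hsurj] at h1
    exact ⟨h1 ▸ hF.map _⟩
  refine ⟨{ A := A, I := (I N).map π.toLinearMap, k := k, ι := ι, α := α, nil := ⟨?_, ?_⟩,
            inj := ?_, span := ?_, conj := ?_, inner := ?_ }, rfl⟩
  · rw [← Submodule.map_mul]
    refine Submodule.map_mono (Submodule.mul_le.2 fun a ha b _ => I_mul_right b ha)
  · rw [← Submodule.map_pow, ← P_eq, hbot]
  · rw [injective_iff_map_eq_one]
    intro n hn
    refine hk N hN n ((hπ _).1 ?_)
    rw [map_sub, map_one, ← hι, hn, Units.val_one, sub_self]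
  · rw [I, Submodule.map_span, ← Set.range_comp]
    congr 2
  · intro g n n' hn
    rw [hι, hι, hα, mp_e]
    congr 2
    exact Subtype.ext hn.symm
  · intro n a
    obtain ⟨x, rfl⟩ := hsurj a
    rw [hα, ← map_inv, hι, hι, ← map_mul, ← map_mul]
    congr 1
    refine ind (p := fun x => mp (cj N n) x = e n * x * e n⁻¹) x (fun m => ?_)
      (fun a b ha hb => ?_) fun c a ha => ?_
    · rw [mp_e, ← e_mul, ← e_mul]; rfl
    · rw [map_add, ha, hb, mul_add, add_mul]
    · rw [map_smul, ha, mul_smul_comm, smul_mul_assoc]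

end Pool.Agent.Lib.MP_2fb4be_al.Sol
end
end
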