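import Pool.Agent.Lib.MP_2fb4be_al.Sol.StructA

-- part Pool.Agent.Lib.MP_2fb4be_al.Sol.KNull
section

/-!
Vanishing of complete cohomology up to torsion: closure properties and the soluble induction.
-/

set_option autoImplicit false

noncomputable section

namespace Pool.Agent.Lib.MP_2fb4be_al.Sol.K

open Finsupp hiding cons
open Filter Pool.Agent.Lib.MP_f0c981_al

variable {k : Type} [CommRing k] {G : Type} [Group G]

/-- A property that holds for all homogeneous chains of large degree. -/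
def Ev (p : B k G → Prop) : Prop := ∀ᶠ n in atTop, ∀ x ∈ gr k G n, p x

omit [Group G] in
lemma Ev.bd {p : B k G → Prop} (h : Ev p) : Ev fun x => p (bd x) := by
  obtain ⟨n0, h⟩ := eventually_atTop.1 h
  refine eventually_atTop.2 ⟨n0 + 1, fun n hn x hx => ?_⟩
  obtain ⟨n, rfl⟩ := Nat.exists_eq_add_of_le' (le_trans (Nat.le_add_left 1 n0) hn)
  exact h n (by omega) _ (bd_gr hx)

omit [Group G] in
lemma Ev.of_succ {p : B k G → Prop} (n0 : ℕ) (h : ∀ n, n0 ≤ n → ∀ x ∈ gr k G (n + 1), p x) :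
    Ev p := by
  refine eventually_atTop.2 ⟨n0 + 1, fun n hn x hx => ?_⟩
  obtain ⟨n, rfl⟩ := Nat.exists_eq_add_of_le' (le_trans (Nat.le_add_left 1 n0) hn)
  exact h n (by omega) _ hx

variable {D D' : Type} [AddCommGroup D] [Module k D] [AddCommGroup D'] [Module k D']

/-- Every eventual cocycle with values in `E` has a nonzero multiple that is a coboundary. -/
def Null (E : DM k G D) : Prop :=
  ∀ u : k, u ≠ 0 → ∀ f : B k G →ₗ[k] D, Eqv E.ρ f → Ev (fun x => E.d (f x) = u • f (bd x)) →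
    ∃ m : k, m ≠ 0 ∧ ∃ h : B k G →ₗ[k] D, Eqv E.ρ h ∧
      Ev fun x => m • f x = E.d (h x) + u • h (bd x)

/-- Morphisms of differential modules. -/
structure Mor (E : DM k G D) (E' : DM k G D') (π : D →ₗ[k] D') : Prop where
  ρ : ∀ γ x, π (E.ρ γ x) = E'.ρ γ (π x)
  d : ∀ x, π (E.d x) = E'.d (π x)

/-- Exactness. -/
def DM.Ex (E : DM k G D) : Prop := ∀ y, E.d y = 0 → ∃ x, E.d x = y

lemma null_free [Nontrivial k] (E : DM k G D) (s : D →ₗ[k] D) (h1 : ∀ γ x, s (E.ρ γ x) = E.ρ γ (s x))
    (h2 : ∀ x, x = E.d (s x) + s (E.d x)) : Null E := by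
  intro u _ f f1 f2
  refine ⟨1, one_ne_zero, s ∘ₗ f, fun γ x => by simp [f1 γ x, h1], ?_⟩
  filter_upwards [f2] with n h x hx
  rw [one_smul, h2 (f x), h x hx, map_smul]
  rfl

lemma lift_map (ρ : Representation k G D) (ρ' : Representation k G D') (π : D →ₗ[k] D')
    (hπ : ∀ γ x, π (ρ γ x) = ρ' γ (π x)) (f : B k G →ₗ[k] D') (hf : Eqv ρ' f) :
    ∃ g : B k G →ₗ[k] D, Eqv ρ g ∧ ∀ n, (∀ x ∈ gr k G (n + 1), f x ∈ LinearMap.range π) →
      ∀ x ∈ gr k G (n + 1), π (g x) = f x := by
  obtain ⟨g, g1, g2⟩ := lift ρ (fun l y => f (single l 1) ∈ LinearMap.range π →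
      π y = f (single l 1))
    (fun γ l y h hl => by
      rw [← act_single, hf] at hl ⊢
      obtain ⟨z, hz⟩ := hl
      rw [hπ, h ⟨ρ γ⁻¹ z, by
        rw [hπ, hz, ← Module.End.mul_apply, ← map_mul, inv_mul_cancel, map_one,
          Module.End.one_apply]⟩])
    fun l => by
      by_cases h : f (single l 1) ∈ LinearMap.range π
      · obtain ⟨y, hy⟩ := h
        exact ⟨y, fun _ => hy⟩
      · exact ⟨0, fun h' => absurd h' h⟩
  exact ⟨g, g1, fun n h x hx => gr_ext (π ∘ₗ g) f
    (fun l hl => g2 l (ne_nil_of_length hl) (h _ (single_mem_gr hl 1))) hx⟩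

lemma lift_surj (ρ : Representation k G D) (ρ' : Representation k G D') (π : D →ₗ[k] D')
    (hπ : ∀ γ x, π (ρ γ x) = ρ' γ (π x)) (hs : Function.Surjective π)
    (f : B k G →ₗ[k] D') (hf : Eqv ρ' f) :
    ∃ g : B k G →ₗ[k] D, Eqv ρ g ∧ ∀ n, ∀ x ∈ gr k G (n + 1), π (g x) = f x := by
  obtain ⟨g, g1, g2⟩ := lift_map ρ ρ' π hπ f hf
  exact ⟨g, g1, fun n => g2 n fun x _ => hs _⟩

variable [IsDomain k]

lemma null_inj (E : DM k G D) (E' : DM k G D') (π : D →ₗ[k] D') (ι : D →ₗ[k] D)
    (hπ : Mor E E' π) (hι : Mor E E ι) (hs : Function.Surjective π)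
    (hi : Function.Injective ι) (h1 : ∀ x, π (ι x) = 0)
    (h2 : ∀ x, π x = 0 → x ∈ LinearMap.range ι) (hE : Null E) : Null E' := by
  intro u hu f f1 f2
  obtain ⟨g, g1, g2⟩ := lift_surj E.ρ E'.ρ π hπ.ρ hs f f1
  have g3 : Ev fun x => π (g x) = f x := Ev.of_succ 0 fun n _ => g2 n
  obtain ⟨θ, t1, t2⟩ := lift_map E.ρ E.ρ ι hι.ρ (E.d ∘ₗ g - u • g ∘ₗ bd) fun γ x => by
    simp [g1 γ x, bd_act, g1 γ, E.ρ_d]
  have t3 : Ev fun x => ι (θ x) = E.d (g x) - u • g (bd x) := by
    have : Ev fun x => π (E.d (g x) - u • g (bd x)) = 0 := by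
      filter_upwards [g3, g3.bd, f2] with n a b c x hx
      rw [map_sub, map_smul, hπ.d, a x hx, b x hx, c x hx, sub_self]
    obtain ⟨n0, h⟩ := eventually_atTop.1 this
    exact Ev.of_succ n0 fun n hn => t2 n fun x hx => h2 _ (h _ (by omega) x hx)
  obtain ⟨m, hm, h, a1, a2⟩ := hE (-u) (neg_ne_zero.2 hu) θ t1 (by
    filter_upwards [t3, t3.bd] with n a b x hx
    apply hi
    rw [hι.d, map_smul, a x hx, b x hx, map_sub, E.dd, map_smul, bd_bd, map_zero, smul_zero,
      sub_zero, zero_sub, neg_smul])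
  obtain ⟨m', hm', h', b1, b2⟩ := hE u hu (m • g - ι ∘ₗ h)
    (fun γ x => by simp [g1 γ x, a1 γ x, hι.ρ]) (by
      filter_upwards [t3, a2] with n a b x hx
      have e := congrArg ι (b x hx)
      rw [map_smul, a x hx, map_add, map_smul, hι.d] at e
      simp only [LinearMap.sub_apply, LinearMap.smul_apply, LinearMap.comp_apply, map_sub,
        map_smul]
      linear_combination (norm := module) e)
  refine ⟨m' * m, mul_ne_zero hm' hm, π ∘ₗ h', fun γ x => by simp [b1 γ x, hπ.ρ], ?_⟩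
  filter_upwards [b2, g3] with n a b x hx
  have e := congrArg π (a x hx)
  simp only [LinearMap.sub_apply, LinearMap.smul_apply, LinearMap.comp_apply, map_sub,
    map_smul, map_add, h1, sub_zero, b x hx, hπ.d] at e
  rw [mul_smul, e]
  rfl

lemma null_tors [CharZero k] (E : DM k G D) (E' : DM k G D') (π : D →ₗ[k] D') (τ : D →ₗ[k] D)
    (hπ : Mor E E' π) (hτ : Mor E E τ) (hs : Function.Surjective π) (j : ℕ) (hj : j ≠ 0)
    (ht : τ ^ j = 1) (h1 : ∀ x, π (τ x) = π x)
    (h2 : ∀ x, π x = 0 → x ∈ LinearMap.range (1 - τ)) (hE : Null E) : Null E' := by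
  intro u hu f f1 f2
  obtain ⟨g, g1, g2⟩ := lift_surj E.ρ E'.ρ π hπ.ρ hs f f1
  have g3 : Ev fun x => π (g x) = f x := Ev.of_succ 0 fun n _ => g2 n
  have p1 : ∀ i : ℕ, Mor E E (τ ^ i) ∧ ∀ x, π ((τ ^ i) x) = π x := by
    intro i
    induction i with
    | zero => exact ⟨⟨fun _ _ => rfl, fun _ => rfl⟩, fun _ => rfl⟩
    | succ i ih =>
      simp only [pow_succ', Module.End.mul_eq_comp]
      exact ⟨⟨fun γ x => by simp [ih.1.ρ, hτ.ρ], fun x => by simp [ih.1.d, hτ.d]⟩,
        fun x => by simp [h1, ih.2]⟩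
  let N : D →ₗ[k] D := ∑ i ∈ Finset.range j, τ ^ i
  have N1 : Mor E E N := ⟨fun γ x => by simp [N, (p1 _).1.ρ], fun x => by simp [N, (p1 _).1.d]⟩
  have N2 : ∀ x, π (N x) = (j : k) • π x := fun x => by
    simp [N, (p1 _).2, Nat.cast_smul_eq_nsmul]
  have N3 : ∀ x, π x = 0 → N x = 0 := fun x hx => by
    obtain ⟨y, rfl⟩ := h2 x hx
    have : N * (1 - τ) = 0 := by rw [geom_sum_mul_neg, ht, sub_self]
    exact LinearMap.congr_fun this y
  obtain ⟨m, hm, h, a1, a2⟩ := hE u hu (N ∘ₗ g) (fun γ x => by simp [g1 γ x, N1.ρ]) (by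
    filter_upwards [g3, g3.bd, f2] with n a b c x hx
    have := N3 (E.d (g x) - u • g (bd x)) (by
      rw [map_sub, map_smul, hπ.d, a x hx, b x hx, c x hx, sub_self])
    rwa [map_sub, map_smul, N1.d, sub_eq_zero] at this)
  refine ⟨m * j, mul_ne_zero hm (Nat.cast_ne_zero.2 hj), π ∘ₗ h,
    fun γ x => by simp [a1 γ x, hπ.ρ], ?_⟩
  filter_upwards [a2, g3] with n a b x hx
  have e := congrArg π (a x hx)
  simp only [LinearMap.comp_apply, map_smul, map_add, N2, b x hx, hπ.d] at e
  rw [mul_smul, e]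
  rfl

lemma null_colim (hG : FinType k G) (E0 : DM k G D) (E : DM k G D') (π : D →ₗ[k] D')
    (hπ : Mor E0 E π) (hs : Function.Surjective π) (hE : E.Ex) {I : Type} (M : I → Type)
    [∀ i, AddCommGroup (M i)] [∀ i, Module k (M i)] (F : ∀ i, DM k G (M i))
    (p : ∀ i, D →ₗ[k] M i) (q : ∀ i, M i →ₗ[k] D') (hp : ∀ i, Mor E0 (F i) (p i))
    (hq : ∀ i, Mor (F i) E (q i)) (hpq : ∀ i x, q i (p i x) = π x) (hF : ∀ i, (F i).Ex)
    (hN : ∀ i, Null (F i))
    (hX : ∀ X : Set D, X.Finite → (∀ x ∈ X, π x = 0) → ∃ i, ∀ x ∈ X, p i x = 0) : Null E := by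
  intro u hu f f1 f2
  obtain ⟨r, σ, r1, s1, r2, s2, r3, s3, hfin⟩ := hG
  obtain ⟨n0, f2⟩ := eventually_atTop.1 f2
  obtain ⟨f', g1, g2⟩ := lift_surj E0.ρ E.ρ π hπ.ρ hs f f1
  obtain ⟨X, X1, X2, X3⟩ := hfin (n0 + 1)
  obtain ⟨i, hi⟩ := hX _ (X1.image (E0.d ∘ₗ f' ∘ₗ bd)) (by
    rintro _ ⟨x, hx, rfl⟩
    have h := bd_gr (X2 x hx)
    simp only [LinearMap.comp_apply]
    rw [hπ.d, g2 _ _ h, f2 _ (by omega) _ h, bd_bd, map_zero, smul_zero])
  have X4 := X3 (LinearMap.ker (p i ∘ₗ E0.d ∘ₗ f' ∘ₗ bd)) fun γ x hx => by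
    have : p i (E0.d (f' (bd x))) = 0 := hi _ ⟨x, hx, rfl⟩
    simp [bd_act, g1 γ, E0.ρ_d, (hp i).ρ, this]
  obtain ⟨g, a1, a2, -, a3⟩ := extend (F i) (fun _ => ⊤) (fun _ _ _ _ => trivial)
    (fun _ y _ h => by simpa using hF i y h) u (n0 + 1) 0 (p i ∘ₗ f' ∘ₗ r) (fun _ _ => by simp)
    (fun _ _ _ _ => trivial) (fun _ _ _ _ => by simp)
    (fun γ x => by simp [r1 γ x, g1 γ, (hp i).ρ]) (fun _ _ => trivial) fun x hx => by
      have : p i (E0.d (f' (bd (r x)))) = 0 := X4 x hx
      simp [← r3 _ x hx, ← (hp i).d, this]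
  simp only [LinearMap.zero_apply, zero_add] at a3
  have c3 : ∀ n, n0 + 1 ≤ n → ∀ x ∈ gr k G (n + 1),
      E.d (q i (g x) - f (r x)) = u • (q i (g (bd x)) - f (r (bd x))) := fun n hn x hx => by
    rw [map_sub, ← (hq i).d, a3 n hn x hx, f2 _ (by omega) _ (r2 _ x hx), r3 _ x hx, map_smul,
      smul_sub]
  obtain ⟨h2, b1, -, -, b3⟩ := extend E (fun _ => ⊤) (fun _ _ _ _ => trivial)
    (fun _ y _ h => by simpa using hE y h) (-u) (n0 + 1) (q i ∘ₗ g - f ∘ₗ r) 0
    (fun γ x => by simp [a1 γ x, r1 γ x, f1 γ, (hq i).ρ])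
    (fun _ _ _ _ => trivial)
    (fun n hn x hx => by
      simp only [LinearMap.sub_apply, LinearMap.comp_apply]
      rw [c3 _ (by omega) x hx, neg_smul, add_neg_cancel])
    (fun _ _ => by simp) (fun _ _ => trivial) fun x hx => by
      simp only [LinearMap.sub_apply, LinearMap.comp_apply, LinearMap.zero_apply, smul_zero,
        add_zero]
      have h := bd_gr hx
      rw [c3 _ le_rfl x hx, a2 _ h, LinearMap.comp_apply, LinearMap.comp_apply, hpq,
        g2 _ _ (r2 _ _ h), sub_self, smul_zero]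
  obtain ⟨m, hm, h1, c1, c2⟩ := hN i u hu g a1 (Ev.of_succ (n0 + 1) a3)
  refine ⟨m * u, mul_ne_zero hm hu, m • f ∘ₗ σ + u • q i ∘ₗ h1 - (m * u) • h2, fun γ x => by
    simp [s1 γ x, f1 γ, c1 γ x, b1 γ x, (hq i).ρ], ?_⟩
  have e4 : Ev fun x => f x - f (r x) = f (bd (σ x)) + f (σ (bd x)) ∧
      E.d (f (σ x)) = u • f (bd (σ x)) :=
    Ev.of_succ n0 fun n hn x hx => ⟨by rw [← map_sub, s3 n x hx, map_add],
      f2 _ (by omega) _ (s2 _ x hx)⟩
  filter_upwards [c2, Ev.of_succ _ b3, e4] with n a b c x hx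
  have e1 := congrArg (q i) (a x hx)
  have e2 := b x hx
  obtain ⟨e3, e4⟩ := c x hx
  simp only [map_add, map_smul, (hq i).d] at e1
  simp only [LinearMap.sub_apply, LinearMap.add_apply, LinearMap.smul_apply,
    LinearMap.comp_apply, map_sub, map_add, map_smul] at e2 ⊢
  linear_combination (norm := module) (m * u) • e3 - m • e4 + u • e1 + (m * u) • e2

section DY

variable {Y Y' : Type} [MulAction G Y] [MulAction G Y']

/-- The tensor product of a differential module with a permutation module. -/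
def DY (E : DM k G D) (Y : Type) [MulAction G Y] : DM k G (Y →₀ D) where
  ρ :=
    { toFun := fun γ => lmapDomain _ k (γ • ·) ∘ₗ mapRange.linearMap (E.ρ γ)
      map_one' := lhom_ext fun y b => by simp
      map_mul' := fun a b => lhom_ext fun y b => by simp [mul_smul] }
  d := mapRange.linearMap E.d
  ρ_d := fun γ x => by
    induction x using Finsupp.induction_linear with
    | zero => simp
    | add x y h1 h2 => simp only [map_add, h1, h2]
    | single y b => simp [E.ρ_d]
  dd := fun x => by ext y : 1; simp [E.dd]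

omit [IsDomain k] in
@[simp] lemma DY_ρ (E : DM k G D) (γ : G) (y : Y) (b : D) :
    (DY E Y).ρ γ (single y b) = single (γ • y) (E.ρ γ b) := by simp [DY]

omit [IsDomain k] in
@[simp] lemma DY_d (E : DM k G D) (y : Y) (b : D) :
    (DY E Y).d (single y b) = single y (E.d b) := by simp [DY]

omit [IsDomain k] in
lemma DY_ex (E : DM k G D) (c : D →ₗ[k] D) (hc : ∀ x, E.d (c x) = x - c (E.d x)) :
    (DY E Y).Ex := by
  intro y hy
  refine ⟨mapRange.linearMap c y, ?_⟩
  ext a : 1
  have : E.d (y a) = 0 := DFunLike.congr_fun hy a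
  simp [DY, hc, this]

omit [IsDomain k] in
lemma mor_of_single (E : DM k G D) {E' : DM k G D'} (π : (Y →₀ D) →ₗ[k] D')
    (h1 : ∀ (γ : G) y b, π (single (γ • y) (E.ρ γ b)) = E'.ρ γ (π (single y b)))
    (h2 : ∀ y b, π (single y (E.d b)) = E'.d (π (single y b))) : Mor (DY E Y) E' π := by
  refine ⟨fun γ x => ?_, fun x => ?_⟩
  · induction x using Finsupp.induction_linear with
    | zero => simp
    | add x y h1 h2 => simp only [map_add, h1, h2]
    | single y b => rw [DY_ρ, h1]
  · induction x using Finsupp.induction_linear with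
    | zero => simp
    | add x y h1 h2 => simp only [map_add, h1, h2]
    | single y b => rw [DY_d, h2]

omit [IsDomain k] in
lemma mor_map (E : DM k G D) (φ : Y → Y') (h : ∀ (γ : G) y, φ (γ • y) = γ • φ y) :
    Mor (DY E Y) (DY E Y') (lmapDomain _ k φ) :=
  mor_of_single E _ (fun γ y b => by simp [h]) fun y b => by simp

lemma null_DY_free (E : DM k G D) (c : G → D →ₗ[k] D)
    (hc : ∀ g x, E.d (c g x) = x - c g (E.d x))
    (hc' : ∀ (γ g : G) x, c (γ • g) (E.ρ γ x) = E.ρ γ (c g x))
    (φ : Y → G) (h : ∀ (γ : G) y, φ (γ • y) = γ • φ y) : Null (DY E Y) := by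
  refine null_free _ (lsum k fun y => lsingle y ∘ₗ c (φ y)) (fun γ x => ?_) fun x => ?_
  · induction x using Finsupp.induction_linear with
    | zero => simp
    | add x y h1 h2 => simp only [map_add, h1, h2]
    | single y b => simp [h, ← hc']
  · induction x using Finsupp.induction_linear with
    | zero => simp
    | add x y h1 h2 =>
      simp only [map_add]
      rw [add_add_add_comm, ← h1, ← h2]
    | single y b => simp [hc]

omit [IsDomain k] in
lemma of_null_DY [Nontrivial k] (E : DM k G D) (y0 : Y) (h : ∀ γ : G, γ • y0 = y0)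
    (hN : Null (DY E Y)) (f : B k G →ₗ[k] D) (f1 : Eqv E.ρ f) (f2 : ∀ x, E.d (f x) = f (bd x)) :
    ∃ m : k, m ≠ 0 ∧ ∃ a : B k G →ₗ[k] D, Eqv E.ρ a ∧
      Ev fun x => m • f x = E.d (a x) + a (bd x) := by
  obtain ⟨m, hm, a, a1, a2⟩ := hN 1 one_ne_zero (lsingle y0 ∘ₗ f) (fun γ x => by simp [h, f1 γ])
    (Eventually.of_forall fun n x _ => by simp [f2])
  have he : Mor (DY E Y) E (lsum k fun _ => LinearMap.id) :=
    mor_of_single E _ (fun γ y b => by simp) fun y b => by simp
  refine ⟨m, hm, (lsum k fun _ => LinearMap.id) ∘ₗ a, fun γ x => by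
    rw [LinearMap.comp_apply, a1, he.ρ]; rfl, ?_⟩
  filter_upwards [a2] with n e x hx
  have := congrArg (lsum k fun _ : Y => (LinearMap.id : D →ₗ[k] D)) (e x hx)
  rw [map_add, he.d, map_smul, map_smul, one_smul] at this
  simpa using this

end DY

lemma mapDomain_sec {Y Y' Z M : Type} [AddCommMonoid M] (π : Y → Y') (s : Y' → Z) (p : Y → Z)
    (x : Y →₀ M) (hx : mapDomain π x = 0) (h : ∀ y ∈ x.support, p y = s (π y)) :
    mapDomain p x = 0 := by
  rw [mapDomain_congr h]
  change mapDomain (s ∘ π) x = 0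
  rw [mapDomain_comp, hx, mapDomain_zero]

lemma qmap_smul {H K : Subgroup G} (h : H ≤ K) (γ : G) (y : G ⧸ H) :
    Subgroup.quotientMapOfLE h (γ • y) = γ • Subgroup.quotientMapOfLE h y := by
  induction y using QuotientGroup.induction_on with
  | H g => rfl

lemma null_cyc [CharZero k] (E : DM k G D) (H : Subgroup G) (h : G) (hn : ∀ x, x ∈ H ↔ h⁻¹ * x * h ∈ H)
    (K : Subgroup G) (hK : K = H ⊔ Subgroup.closure {h}) (hN : Null (DY E (G ⧸ H))) :
    Null (DY E (G ⧸ K)) := by
  have hle : H ≤ K := hK ▸ le_sup_left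
  have hh : h ∈ K := hK ▸ (le_sup_right : _ ≤ H ⊔ _) (Subgroup.subset_closure rfl)
  let t : G ⧸ H → G ⧸ H := Quotient.map' (· * h) fun a b hab => by
    rw [QuotientGroup.leftRel_apply] at hab ⊢
    have := (hn _).1 hab
    simpa [mul_assoc] using this
  have ht : ∀ g : G, t (g : G ⧸ H) = (g * h : G) := fun g => rfl
  have ti : Function.Injective t := by
    intro a b
    induction a using QuotientGroup.induction_on with
    | H a =>
      induction b using QuotientGroup.induction_on with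
      | H b =>
        rw [ht, ht, QuotientGroup.eq, QuotientGroup.eq, hn (a⁻¹ * b)]
        simp [mul_assoc]
  let τ : (G ⧸ H →₀ D) →ₗ[k] (G ⧸ H →₀ D) := lmapDomain _ k t
  let π : (G ⧸ H →₀ D) →ₗ[k] (G ⧸ K →₀ D) := lmapDomain _ k (Subgroup.quotientMapOfLE hle)
  have hτ : Mor (DY E (G ⧸ H)) (DY E (G ⧸ H)) τ := mor_map E t fun γ y => by
    induction y using QuotientGroup.induction_on with
    | H g =>
      change t ((γ * g : G) : G ⧸ H) = γ • t g
      rw [ht, ht, mul_assoc]
      rfl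
  have hπ : Mor (DY E (G ⧸ H)) (DY E (G ⧸ K)) π := mor_map E _ (qmap_smul hle)
  have hs : Function.Surjective π := mapDomain_surjective fun y => by
    induction y using QuotientGroup.induction_on with
    | H g => exact ⟨g, rfl⟩
  have h1 : ∀ x, π (τ x) = π x := fun x => by
    change mapDomain _ (mapDomain t x) = mapDomain _ x
    rw [← mapDomain_comp]
    congr 1
    funext y
    induction y using QuotientGroup.induction_on with
    | H g =>
      change ((g * h : G) : G ⧸ K) = g
      rw [QuotientGroup.eq]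
      simpa using hh
  let ι : (G ⧸ H →₀ D) →ₗ[k] (G ⧸ H →₀ D) := 1 - τ
  have h2 : ∀ x, π x = 0 → x ∈ LinearMap.range ι := fun x hx => by
    have key : ∀ a ∈ K, ∀ (g : G) (b : D), single (g : G ⧸ H) b - single ((g * a : G) : G ⧸ H) b
        ∈ LinearMap.range ι := by
      intro a ha
      rw [hK, ← Subgroup.closure_eq H, ← Subgroup.closure_union] at ha
      induction ha using Subgroup.closure_induction with
      | mem a ha =>
        intro g b
        rcases ha with ha | rfl
        · rw [QuotientGroup.mk_mul_of_mem g ha, sub_self]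
          exact zero_mem _
        · exact ⟨single g b, by simp [ι, τ, ht]⟩
      | one => simp
      | mul a a' _ _ e1 e2 =>
        intro g b
        have := add_mem (e1 g b) (e2 (g * a) b)
        rwa [sub_add_sub_cancel, mul_assoc] at this
      | inv a _ e =>
        intro g b
        have := neg_mem (e (g * a⁻¹) b)
        rwa [neg_sub, inv_mul_cancel_right] at this
    let s : G ⧸ K → G ⧸ H := fun z => (z.out : G)
    have e0 : mapDomain (s ∘ Subgroup.quotientMapOfLE hle) x = 0 :=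
      mapDomain_sec _ s _ x hx fun _ _ => rfl
    have e1 : x - mapDomain (s ∘ Subgroup.quotientMapOfLE hle) x ∈ LinearMap.range ι := by
      clear e0 hx
      induction x using Finsupp.induction_linear with
      | zero => simp
      | add x y a b =>
        rw [mapDomain_add, add_sub_add_comm]
        exact add_mem a b
      | single y b =>
        induction y using QuotientGroup.induction_on with
        | H g =>
          obtain ⟨a, ha⟩ := QuotientGroup.mk_out_eq_mul K g
          rw [mapDomain_single]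
          change _ - single (((g : G ⧸ K).out : G) : G ⧸ H) b ∈ _
          rw [ha]
          exact key a a.2 g b
    rwa [e0, sub_zero] at e1
  by_cases hj : ∃ j : ℕ, j ≠ 0 ∧ h ^ j ∈ H
  · obtain ⟨j, hj, hh⟩ := hj
    refine null_tors _ _ π τ hπ hτ hs j hj ?_ h1 h2 hN
    have : ∀ (i : ℕ) (g : G) (b : D), (τ ^ i) (single (g : G ⧸ H) b) =
        single ((g * h ^ i : G) : G ⧸ H) b := by
      intro i g b
      induction i with
      | zero => simp
      | succ i ih =>
        rw [pow_succ', Module.End.mul_apply, ih, pow_succ, ← mul_assoc]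
        simp [τ, ht]
    refine lhom_ext fun y b => ?_
    induction y using QuotientGroup.induction_on with
    | H g => simp [this, QuotientGroup.mk_mul_of_mem g hh]
  · refine null_inj _ _ π ι hπ ⟨fun γ x => by simp [ι, hτ.ρ], fun x => by simp [ι, hτ.d]⟩ hs
      ((injective_iff_map_eq_zero _).2 fun x hx => ?_) (fun x => by simp [ι, h1]) h2 hN
    by_contra hx0
    obtain ⟨y, hy⟩ := support_nonempty_iff.2 hx0
    have e : mapDomain t x = x := (sub_eq_zero.1 hx).symm
    induction y using QuotientGroup.induction_on with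
    | H g =>
      have : ∀ i : ℕ, ((g * h ^ i : G) : G ⧸ H) ∈ (x.support : Set (G ⧸ H)) := by
        intro i
        induction i with
        | zero => simpa using hy
        | succ i ih =>
          rw [pow_succ, ← mul_assoc, ← ht, Finset.mem_coe, mem_support_iff, ← e,
            mapDomain_apply ti]
          exact mem_support_iff.1 ih
      obtain ⟨a, b, hab, e'⟩ := Set.Finite.exists_lt_map_eq_of_forall_mem this
        x.support.finite_toSet
      obtain ⟨c, rfl⟩ := Nat.exists_eq_add_of_lt hab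
      refine hj ⟨c + 1, Nat.succ_ne_zero _, ?_⟩
      rw [QuotientGroup.eq, add_assoc, pow_add] at e'
      simpa [mul_assoc] using e'

lemma null_ab [CharZero k] (hG : FinType k G) (E : DM k G D) (c : D →ₗ[k] D)
    (hc : ∀ x, E.d (c x) = x - c (E.d x)) (K : Subgroup G)
    (hN : Null (DY E (G ⧸ ⁅K, K⁆))) : Null (DY E (G ⧸ K)) := by
  classical
  have hle : ⁅K, K⁆ ≤ K := Subgroup.commutator_le.2 fun a ha b hb =>
    K.mul_mem (K.mul_mem (K.mul_mem ha hb) (K.inv_mem ha)) (K.inv_mem hb)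
  have fin : ∀ S : Finset G, (S : Set G) ⊆ K →
      Null (DY E (G ⧸ (⁅K, K⁆ ⊔ Subgroup.closure (S : Set G)))) := by
    intro S
    induction S using Finset.induction_on with
    | empty => intro _; rwa [Finset.coe_empty, Subgroup.closure_empty, sup_bot_eq]
    | insert h S _ ih =>
      intro hS
      rw [Finset.coe_insert, Set.insert_subset_iff] at hS
      have hl : ⁅K, K⁆ ⊔ Subgroup.closure (S : Set G) ≤ K :=
        sup_le hle ((Subgroup.closure_le K).2 hS.2)
      have key : ∀ a ∈ K, ∀ x ∈ ⁅K, K⁆ ⊔ Subgroup.closure (S : Set G),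
          a⁻¹ * x * a ∈ ⁅K, K⁆ ⊔ Subgroup.closure (S : Set G) := fun a ha x hx => by
        have e : a⁻¹ * x * a = a⁻¹ * x * a⁻¹⁻¹ * x⁻¹ * x := by group
        rw [e]
        exact mul_mem ((le_sup_left : ⁅K, K⁆ ≤ _)
          (Subgroup.commutator_mem_commutator (K.inv_mem ha) (hl hx))) hx
      refine null_cyc E _ h (fun x => ⟨key h hS.1 x, fun hx => ?_⟩) _ ?_ (ih hS.2)
      · have := key h⁻¹ (K.inv_mem hS.1) _ hx
        simpa [mul_assoc] using this
      · rw [Finset.coe_insert, Set.insert_eq, Subgroup.closure_union, sup_comm (Subgroup.closure _),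
          sup_assoc]
  refine null_colim hG (DY E G) _ (lmapDomain _ k fun g : G => (g : G ⧸ K))
    (mor_map E _ fun _ _ => rfl) (mapDomain_surjective QuotientGroup.mk_surjective) (DY_ex E c hc)
    (I := {H : Subgroup G // H ≤ K ∧ Null (DY E (G ⧸ H))}) (fun H => G ⧸ H.1 →₀ D)
    (fun H => DY E (G ⧸ H.1)) (fun H => lmapDomain _ k fun g : G => (g : G ⧸ H.1))
    (fun H => lmapDomain _ k (Subgroup.quotientMapOfLE H.2.1)) (fun H => mor_map E _ fun _ _ => rfl)
    (fun H => mor_map E _ (qmap_smul H.2.1)) (fun H x => mapDomain_comp.symm) (fun _ => DY_ex E c hc)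
    (fun H => H.2.2) fun X hX h0 => ?_
  let S : Finset G := (hX.toFinset.biUnion fun x => x.support).image
    fun g : G => g⁻¹ * (g : G ⧸ K).out
  have hS : (S : Set G) ⊆ K := by
    intro a ha
    obtain ⟨g, -, rfl⟩ := Finset.mem_image.1 ha
    exact QuotientGroup.eq.1 (Quotient.out_eq _).symm
  refine ⟨⟨_, sup_le hle ((Subgroup.closure_le K).2 hS), fin S hS⟩, fun x hx => ?_⟩
  refine mapDomain_sec _ (fun z : G ⧸ K => (z.out : G ⧸ _)) _ x (h0 x hx) fun g hg => ?_
  refine QuotientGroup.eq.2 ((le_sup_right : _ ≤ ⁅K, K⁆ ⊔ _) (Subgroup.subset_closure ?_))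
  exact Finset.mem_image.2 ⟨g, Finset.mem_biUnion.2 ⟨x, hX.mem_toFinset.2 hx, hg⟩, rfl⟩

/-- A nonzero multiple of the identity of the bar complex is eventually null-homotopic. -/
lemma key [CharZero k] [Group.IsSolvable G] (hG : Combable G) :
    ∃ m : k, m ≠ 0 ∧ ∃ a : B k G →ₗ[k] B k G, Eqv (act k G G) a ∧
      Ev fun x => m • x = bd (a x) + a (bd x) := by
  obtain ⟨n, hn⟩ := Group.IsSolvable.solvable (G := G)
  have h1 : ∀ j, Null (DY (barD k G) (G ⧸ derivedSeries G j)) →
      Null (DY (barD k G) (G ⧸ derivedSeries G 0)) := by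
    intro j
    induction j with
    | zero => exact id
    | succ j ih => exact fun h => ih (null_ab (finType hG) _ (cons 1) (bd_cons 1) _ h)
  have h2 : Null (DY (barD k G) (G ⧸ derivedSeries G n)) := by
    rw [hn]
    refine null_DY_free _ cons bd_cons (fun γ g x => (lmap_cons _ g x).symm) Quotient.out
      fun γ y => ?_
    have : ((γ • y).out : G ⧸ (⊥ : Subgroup G)) = (γ * y.out : G) := by
      rw [QuotientGroup.out_eq']
      conv_lhs => rw [← QuotientGroup.out_eq' y]
      rfl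
    rw [QuotientGroup.eq, Subgroup.mem_bot, inv_mul_eq_one] at this
    exact this
  exact of_null_DY (barD k G) ((1 : G) : G ⧸ derivedSeries G 0)
    (fun γ => QuotientGroup.eq.2 (Subgroup.mem_top _)) (h1 n h2) LinearMap.id (fun _ _ => rfl)
    fun _ => rfl

end Pool.Agent.Lib.MP_2fb4be_al.Sol.K
end
end

-- part Pool.Agent.Lib.MP_2fb4be_al.Sol.KMain
section

/-!
A soluble combable group has finite subgroups of bounded order and bounded free abelian rank.
-/

set_option autoImplicit false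

noncomputable section

namespace Pool.Agent.Lib.MP_2fb4be_al.Sol

namespace K

open Finsupp hiding cons
open Filter Pool.Agent.Lib.MP_f0c981_al

variable {k : Type} [CommRing k] {G : Type} [Group G]

lemma exists_r {H : Type} [Group H] (φ : H →* G) (hφ : Function.Injective φ) :
    ∃ r : G → H, ∀ γ g, r (φ γ * g) = γ * r g := by
  let := MulAction.compHom G φ
  obtain ⟨r, hr⟩ := exists_triv (G := H) (X := G) ⊥ Set.univ (fun _ _ _ => trivial)
    fun x _ γ h => by
      have : φ γ * x = x := h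
      rw [Subgroup.mem_bot, ← hφ.eq_iff, map_one]
      exact mul_eq_right.1 this
  refine ⟨r, fun γ g => ?_⟩
  have := hr γ g trivial
  rw [Subgroup.mem_bot, mul_assoc, inv_mul_eq_one] at this
  exact this

lemma act_nil (γ : G) (y : B k G) : act k G G γ y [] = y [] := by
  classical
  induction y using Finsupp.induction_linear with
  | zero => simp
  | add x y h1 h2 => simp [h1, h2]
  | single l r => simp [single_apply]

lemma act_mul (γ δ : G) (y : B k G) :
    act k G G γ (act k G G δ y) = act k G G (γ * δ) y := by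
  rw [map_mul]
  rfl

open Classical in
/-- The lists whose head has a given value under `r`. -/
def eL {H : Type} (r : G → H) (γ : H) : List G → B k G
  | [] => 0
  | g :: l => if r g = γ then single (g :: l) 1 else 0

lemma exists_e (F : Subgroup G) [Fintype F] : ∃ e : F → B k G →ₗ[k] B k G,
    (∀ y, ∑ γ, bd (e γ y) = bd y) ∧
      ∀ (γ δ : F) y, e (γ * δ) (act k G G γ y) = act k G G γ (e δ y) := by
  classical
  obtain ⟨r, hr⟩ := exists_r F.subtype F.subtype_injective
  simp only [Subgroup.coe_subtype] at hr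
  refine ⟨fun γ => linearCombination k (eL r γ), fun y => ?_, fun γ δ y => ?_⟩
  · induction y using Finsupp.induction_linear with
    | zero => simp
    | add x y h1 h2 => simp only [map_add, Finset.sum_add_distrib, h1, h2]
    | single l c =>
      cases l with
      | nil => simp [eL]
      | cons g l =>
        rw [← map_sum]
        simp [eL]
  · induction y using Finsupp.induction_linear with
    | zero => simp
    | add x y h1 h2 => simp only [map_add, h1, h2]
    | single l c =>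
      cases l with
      | nil => simp [eL]
      | cons g l =>
        by_cases h : r g = δ <;> simp [eL, hr, h]

/-- The boundary of `m` times the identity factors equivariantly in degree `n`. -/
def Phi (F : Subgroup G) (m : k) (n : ℕ) : Prop := ∃ β : B k G →ₗ[k] B k G,
  (∀ (γ : F) x, β (act k G G γ x) = act k G G γ (β x)) ∧
    ∀ x ∈ gr k G (n + 1), m • bd x = bd (β (bd x))

lemma Phi.step (F : Subgroup G) [Fintype F] (m : k) (n : ℕ) (h : Phi F m (n + 1)) :
    Phi F m n := by
  obtain ⟨e, e1, e2⟩ := exists_e (k := k) F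
  obtain ⟨β, b1, b2⟩ := h
  obtain ⟨ψ, hψ⟩ : ∃ ψ : B k G →ₗ[k] B k G, ∀ x, ψ x = m • x - bd (β x) :=
    ⟨m • LinearMap.id - bd ∘ₗ β, fun _ => rfl⟩
  have p1 : ∀ (γ : F) x, ψ (act k G G γ x) = act k G G γ (ψ x) := fun γ x => by
    simp [hψ, b1, bd_act]
  have p2 : ∀ y ∈ gr k G (n + 1), ψ (cons 1 (bd y)) = ψ y := fun y hy => by
    have : ψ (bd (cons 1 y)) = 0 := by rw [hψ, b2 _ (cons_gr 1 hy), sub_self]
    rw [bd_cons, map_sub, sub_eq_zero] at this
    exact this.symm
  refine ⟨∑ γ : F, e γ ∘ₗ act k G G γ ∘ₗ ψ ∘ₗ cons 1 ∘ₗ act k G G (γ⁻¹ : F), fun δ x => ?_,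
    fun x hx => ?_⟩
  · simp only [LinearMap.sum_apply, LinearMap.comp_apply, map_sum]
    refine (Fintype.sum_equiv (Equiv.mulLeft δ) _ _ fun γ => ?_).symm
    rw [Equiv.coe_mulLeft, ← e2, act_mul, act_mul]
    simp
  · simp only [LinearMap.sum_apply, LinearMap.comp_apply, map_sum]
    have : ∀ γ : F, act k G G γ (ψ (cons 1 (act k G G (γ⁻¹ : F) (bd x)))) = ψ x := fun γ => by
      rw [← bd_act, p2 _ (act_gr _ hx), p1, act_mul]
      simp
    simp only [this, e1]
    simp [hψ, bd_bd]

lemma Phi.dvd (F : Subgroup G) [Fintype F] (m : k) (h : Phi F m 0) :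
    (Fintype.card F : k) ∣ m := by
  obtain ⟨e, e1, e2⟩ := exists_e (k := k) F
  obtain ⟨β, b1, b2⟩ := h
  have h1 := b2 (single [1] 1) (single_mem_gr List.length_singleton 1)
  rw [bd_single_cons, bd_nil, map_zero, sub_zero, ← e1] at h1
  have h2 : ∀ γ : F, bd (e γ (β (single [] 1))) [] = bd (e 1 (β (single [] 1))) [] := fun γ => by
    have := e2 γ 1 (β (single [] 1))
    rw [← b1, act_single, List.map_nil, mul_one] at this
    rw [this, bd_act, act_nil]
  have h3 := DFunLike.congr_fun h1 []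
  simp only [Finsupp.finsetSum_apply, h2, Finset.sum_const, Finset.card_univ, nsmul_eq_mul,
    smul_single, single_eq_same, smul_eq_mul, mul_one] at h3
  exact ⟨_, h3⟩

lemma card_dvd (F : Subgroup G) [Finite F] (m : k) (a : B k G →ₗ[k] B k G)
    (a1 : Eqv (act k G G) a) (a2 : Ev fun x => m • x = bd (a x) + a (bd x)) :
    (Nat.card F : k) ∣ m := by
  have := Fintype.ofFinite F
  obtain ⟨n0, a2⟩ := eventually_atTop.1 a2
  have : Phi F m n0 := ⟨a, fun γ => a1 γ, fun x hx => by
    have := congrArg bd (a2 _ (Nat.le_succ _) x hx)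
    rwa [map_smul, map_add, bd_bd, zero_add] at this⟩
  rw [Nat.card_eq_fintype_card]
  refine Phi.dvd F m ?_
  clear a2
  induction n0 with
  | zero => exact this
  | succ n ih => exact ih (Phi.step F m n this)

/-- Multiplication by a function of the head. -/
def mL (a : G → k) : List G → B k G
  | [] => 0
  | g :: l => a g • single (g :: l) 1

/-- Multiplication by a function of the head. -/
def Mh (a : G → k) : B k G →ₗ[k] B k G := linearCombination k (mL a)

omit [Group G] in
@[simp] lemma Mh_nil (a : G → k) (c : k) : Mh a (single [] c) = 0 := by simp [Mh, mL]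

omit [Group G] in
lemma Mh_cons (a : G → k) (g : G) (y : B k G) : Mh a (cons g y) = a g • cons g y := by
  induction y using Finsupp.induction_linear with
  | zero => simp
  | add x y h1 h2 => simp only [map_add, h1, h2, smul_add]
  | single l r => simp [Mh, mL, mul_comm]

omit [Group G] in
lemma Mh_pr (a : G → k) (ψ : G → G) (y : B k G) : Mh a (pr id ψ y) = pr id ψ (Mh a y) := by
  induction y using Finsupp.induction_linear with
  | zero => simp
  | add x y h1 h2 => simp only [map_add, h1, h2]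
  | single l r =>
    cases l with
    | nil => simp
    | cons g l => rw [← cons_single, Mh_cons, map_smul, pr_cons, Mh_cons, id]

lemma Mh_act (a : G → k) (t : G) (c : k) (h : ∀ g, a (t * g) = a g + c) (y : B k G) :
    Mh a (act k G G t y) = act k G G t (Mh a y) + c • (act k G G t y - single [] (y [])) := by
  induction y using Finsupp.induction_linear with
  | zero => simp
  | add x y h1 h2 =>
    simp only [map_add, h1, h2, Finsupp.add_apply, single_add]
    module
  | single l r =>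
    cases l with
    | nil => simp
    | cons g l =>
      have : (single (g :: l) r : B k G) [] = 0 := by simp
      rw [this, ← cons_single, Mh_cons, act_apply, lmap_cons, Mh_cons, map_smul, act_apply,
        lmap_cons, smul_eq_mul, h, add_smul]
      simp

/-- The cap product with the coboundary of `a`. -/
def Kc (a : G → k) : B k G →ₗ[k] B k G := Mh a ∘ₗ bd - bd ∘ₗ Mh a

omit [Group G] in
lemma Kc_apply (a : G → k) (y : B k G) : Kc a y = Mh a (bd y) - bd (Mh a y) := rfl

lemma Kc_act (a : G → k) (t : G) (c : k) (h : ∀ g, a (t * g) = a g + c) (y : B k G) :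
    Kc a (act k G G t y) = act k G G t (Kc a y) - single [] (c * bd y []) := by
  rw [Kc_apply, Kc_apply, bd_act, Mh_act a t c h, Mh_act a t c h, ← smul_eq_mul, ← smul_single]
  simp only [map_add, map_sub, map_smul, bd_act, bd_nil]
  module

lemma bd_pr' (t : G) (y : B k G) :
    bd (pr id (t • ·) y) = act k G G t y - y - pr id (t • ·) (bd y) := by
  have := bd_pr id (t • ·) y
  rw [show lmap id y = y by simp [lmap]] at this
  exact eq_sub_of_add_eq this

lemma Kc_pr (a : G → k) (t : G) (c : k) (h : ∀ g, a (t * g) = a g + c) (y : B k G) :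
    Kc a (pr id (t • ·) y) = c • (act k G G t y - single [] (y [])) - pr id (t • ·) (Kc a y) := by
  rw [Kc_apply, Kc_apply, Mh_pr, bd_pr', bd_pr']
  simp only [map_sub, Mh_pr, Mh_act a t c h]
  abel

lemma no_free (N : ℕ) (T : ℕ → G) (a : ℕ → G → k) (hT : ∀ i j, T i * T j = T j * T i)
    (ha : ∀ i ≤ N, ∀ j ≤ N, ∀ g, a i (T j * g) = a i g + if i = j then 1 else 0) (m : k)
    (A : B k G →ₗ[k] B k G) (a1 : Eqv (act k G G) A)
    (a2 : ∀ x ∈ gr k G (N + 2), m • x = bd (A x) + A (bd x)) : m = 0 := by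
  obtain ⟨φ, φ0, φs⟩ : ∃ φ : ℕ → B k G →ₗ[k] k, (∀ y, φ 0 y = bd y []) ∧
      ∀ j y, φ (j + 1) y = φ j (Kc (a j) y) :=
    ⟨fun j => Nat.rec (lapply [] ∘ₗ bd) (fun j f => f ∘ₗ Kc (a j)) j, fun _ => rfl,
      fun _ _ => rfl⟩
  obtain ⟨z, z0, zs⟩ : ∃ z : ℕ → B k G, z 0 = single [1] 1 ∧
      ∀ j, z (j + 1) = pr id (T j • ·) (z j) :=
    ⟨fun j => Nat.rec (single [1] 1) (fun j y => pr id (T j • ·) y) j, rfl, fun _ => rfl⟩
  have zgr : ∀ j, z j ∈ gr k G (j + 1) := fun j => by
    induction j with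
    | zero => rw [z0]; exact single_mem_gr List.length_singleton 1
    | succ j ih => rw [zs]; exact pr_gr _ _ ih
  have znil : ∀ j, z j [] = 0 := fun j =>
    gr_ext (lapply []) 0 (fun l hl => by simp [ne_nil_of_length hl]) (zgr j)
  have φnil : ∀ j c, φ j (single [] c) = 0 := fun j c => by
    cases j with
    | zero => simp [φ0]
    | succ j => simp [φs, Kc_apply]
  have φbd : ∀ j y, φ j (bd y) = 0 := fun j => by
    induction j with
    | zero => simp [φ0, bd_bd]
    | succ j ih => simp [φs, Kc_apply, bd_bd, ih]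
  have φact : ∀ j ≤ N + 1, ∀ i ≤ N, ∀ y, φ j (act k G G (T i) y) = φ j y := fun j => by
    induction j with
    | zero => intro _ i _ y; rw [φ0, φ0, bd_act, act_nil]
    | succ j ih =>
      intro hj i hi y
      rw [φs, φs, Kc_act _ _ _ (ha j (by omega) i hi), map_sub, φnil, ih (by omega) i hi, sub_zero]
  have Kz : ∀ j, ∀ i ≤ N, j ≤ i → ∃ c, Kc (a i) (z j) = single [] c := fun j => by
    induction j with
    | zero =>
      intro i _ _
      refine ⟨-a i 1, ?_⟩
      rw [z0, Kc_apply, ← cons_single, Mh_cons]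
      simp [bd_single_cons]
    | succ j ih =>
      intro i hi hj
      obtain ⟨c, hc⟩ := ih i hi (by omega)
      refine ⟨0, ?_⟩
      rw [zs, Kc_pr _ _ _ (ha i hi j (by omega)), hc, if_neg (by omega)]
      simp
  have φz : ∀ j ≤ N + 1, φ j (z j) = 1 := fun j => by
    induction j with
    | zero => simp [φ0, z0, bd_single_cons]
    | succ j ih =>
      intro hj
      obtain ⟨c, hc⟩ := Kz j j (by omega) le_rfl
      rw [φs, zs, Kc_pr _ _ _ (ha j (by omega) j (by omega)), hc, if_pos rfl, znil]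
      simp [φact j (by omega) j (by omega), ih (by omega)]
  have zbd : ∀ j ≤ N, ∀ ψ : B k G →ₗ[k] k, (∀ i ≤ N, ∀ y, ψ (act k G G (T i) y) = ψ y) →
      ψ (bd (z (j + 1))) = 0 := fun j => by
    induction j with
    | zero =>
      intro h ψ hψ
      rw [zs, bd_pr', map_sub, map_sub, hψ 0 h]
      simp [z0, bd_single_cons]
    | succ j ih =>
      intro h ψ hψ
      rw [zs, bd_pr', map_sub, map_sub, hψ _ h, sub_self, zero_sub, neg_eq_zero]
      refine ih (by omega) (ψ ∘ₗ pr id (T (j + 1) • ·)) fun i hi y => ?_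
      rw [LinearMap.comp_apply, LinearMap.comp_apply, act_apply,
        pr_nat id (T (j + 1) • ·) id (T (j + 1) • ·) (T i • ·) (T i • ·) (fun _ => rfl)
          (fun x => by simp only [smul_eq_mul, ← mul_assoc, hT i]), ← act_apply, hψ i hi]
  have h1 := congrArg (φ (N + 1)) (a2 _ (zgr (N + 1)))
  have h2 : φ (N + 1) (A (bd (z (N + 1)))) = 0 :=
    zbd N le_rfl (φ (N + 1) ∘ₗ A) fun i hi y => by
      rw [LinearMap.comp_apply, LinearMap.comp_apply, a1, φact _ le_rfl i hi]
  rwa [map_smul, map_add, φbd, h2, φz _ le_rfl, smul_eq_mul, mul_one, add_zero] at h1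

lemma krop' (k : Type) [CommRing k] [IsDomain k] [CharZero k] (G : Type) [Group G]
    [Group.IsSolvable G] (hG : Combable G) :
    (∃ m : k, m ≠ 0 ∧ ∀ F : Subgroup G, Finite F → (Nat.card F : k) ∣ m) ∧
      ∃ n : ℕ, ∀ φ : Multiplicative (Fin n → ℤ) →* G, ¬ Function.Injective φ := by
  obtain ⟨m, hm, A, a1, a2⟩ := key (k := k) hG
  refine ⟨⟨m, hm, fun F _ => card_dvd F m A a1 a2⟩, ?_⟩
  obtain ⟨N, a2⟩ := eventually_atTop.1 a2
  refine ⟨N + 1, fun φ hφ => hm ?_⟩
  obtain ⟨r, hr⟩ := exists_r φ hφ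
  refine no_free N (fun j => φ (Multiplicative.ofAdd (Pi.single (Fin.ofNat (N + 1) j) 1)))
    (fun i g => (((r g).toAdd (Fin.ofNat (N + 1) i) : ℤ) : k)) (fun i j => by
      rw [← φ.map_mul, ← φ.map_mul, mul_comm]) (fun i hi j hj g => ?_) m A a1
    (a2 (N + 2) (by omega))
  have : Fin.ofNat (N + 1) i = Fin.ofNat (N + 1) j ↔ i = j := by
    rw [Fin.ext_iff, Fin.val_ofNat, Fin.val_ofNat, Nat.mod_eq_of_lt (by omega),
      Nat.mod_eq_of_lt (by omega)]
  simp only [hr, toAdd_mul, toAdd_ofAdd, Pi.add_apply, Pi.single_apply, this]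
  split_ifs <;> simp [add_comm]

end K

theorem krop (G : Type) [Group G] [Group.IsSolvable G] (hG : Combable G) :
    (∃ m : ℕ, 0 < m ∧ ∀ F : Subgroup G, Finite F → Nat.card F ∣ m) ∧
      ∃ n : ℕ, ∀ φ : Multiplicative (Fin n → ℤ) →* G, ¬ Function.Injective φ := by
  obtain ⟨⟨m, hm, h⟩, h2⟩ := K.krop' ℤ G hG
  exact ⟨⟨m.natAbs, Int.natAbs_pos.2 hm, fun F hF => Int.natCast_dvd.1 (h F hF)⟩, h2⟩

end Pool.Agent.Lib.MP_2fb4be_al.Sol
end
end
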