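import Mathlib
import Pool.Agent.Lib.MP_2fb4be_al.NF
import Pool.Agent.Lib.MP_2fb4be_al.Sol.Sub
import Pool.Agent.Lib.MP_2fb4be_al.Sol.Cycle
import Pool.Agent.Lib.MP_2fb4be_al.Sol.Box
import Pool.Agent.Lib.MP_2fb4be_al.Sol.Cartan

import Pool.Agent.Lib.MP_2fb4be_al.Sol.KMain
import Pool.Agent.Lib.MP_2fb4be_al.Sol.Jennings
import Pool.Agent.Lib.MP_2fb4be_al.Sol.StructA

-- part Pool.Agent.Lib.MP_2fb4be_al.Sol.GeoMain
section

/-!
A combable group carries no geometry in the sense of `Geo`.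
-/

set_option autoImplicit false

namespace Pool.Agent.Lib.MP_2fb4be_al.Sol

theorem unif2 {α : Type} {s : Set α} (hs : s.Finite) {Q : α → ℕ → ℕ → Prop}
    (hm : ∀ a R d R' d', R ≤ R' → d ≤ d' → Q a R d → Q a R' d')
    (h : ∀ a ∈ s, ∃ R d, Q a R d) : ∃ R d, ∀ a ∈ s, Q a R d := by
  choose! R d h using h
  obtain ⟨R', h1⟩ := (hs.image R).bddAbove
  obtain ⟨d', h2⟩ := (hs.image d).bddAbove
  exact ⟨R', d', fun a ha => hm a _ _ _ _ (h1 ⟨a, ha, rfl⟩) (h2 ⟨a, ha, rfl⟩) (h a ha)⟩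

theorem exists_big (A : ℝ) (e : ℕ) : ∃ n : ℕ, A * (n + 1) ^ e < 2 ^ n := by
  have h := (tendsto_pow_const_div_const_pow_of_one_lt e (r := 2) (by norm_num)).comp
    (Filter.tendsto_add_atTop_nat 1)
  have h2 := (h.const_mul (2 * A)).eventually (gt_mem_nhds (show 2 * A * 0 < 1 by simp))
  obtain ⟨n, hn⟩ := h2.exists
  refine ⟨n, ?_⟩
  simp only [Function.comp_apply, Nat.cast_add, Nat.cast_one] at hn
  rw [← mul_div_assoc, div_lt_one (by positivity), pow_succ] at hn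
  linarith

namespace Geo

variable {G Γ K J : Type} [Group G] [Group Γ] [Field K] [Fintype J] (P : Geo G Γ K J)

theorem lin_ne (γ : Γ) : P.lin γ ≠ 0 := by
  have := P.lin_mul γ γ⁻¹
  rw [mul_inv_cancel, P.lin_one] at this
  exact left_ne_zero_of_mul_eq_one this.symm

/-- The logarithmic size of the character along the section. -/
noncomputable def lam (j : J) : (Fin P.r → ℤ) →+ ℝ :=
  AddMonoidHom.mk' (fun q => Real.log (P.v j (P.lin (P.s q)))) fun q q' => by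
    rw [P.lin_s, map_mul, Real.log_mul ((P.v j).ne_zero (P.lin_ne _)) ((P.v j).ne_zero (P.lin_ne _))]

theorem lam_face (j0 : J) : ∃ q, ∀ j, j ≠ j0 → 0 < P.lam j q :=
  (P.face j0).imp fun _ h j hj => Real.log_pos (h j hj)

theorem deep (c : ℕ) : ∃ c0 : ℕ, ∀ j n, ∃ q : Fin P.r → ℤ, (∀ a, |q a| ≤ (c0 * (n + 1) : ℕ)) ∧
    ((c * (n + 1) : ℕ) : ℝ) ≤ P.lam j q := by
  have h1 : ∀ j, ∃ q, (c : ℝ) ≤ P.lam j q := by
    intro j
    obtain ⟨j0, hj⟩ := Fintype.exists_ne_of_one_lt_card P.card j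
    obtain ⟨q, hq⟩ := P.lam_face j0
    obtain ⟨t, ht⟩ := exists_nat_ge (c / P.lam j q)
    refine ⟨t • q, ?_⟩
    rwa [map_nsmul, nsmul_eq_mul, ← div_le_iff₀ (hq j hj.symm)]
  choose q hq using h1
  obtain ⟨c0, h0⟩ := (Set.finite_range fun p : J × Fin P.r => (q p.1 p.2).natAbs).bddAbove
  refine ⟨c0, fun j n => ⟨(n + 1) • q j, fun a => ?_, ?_⟩⟩
  · have := h0 ⟨(j, a), rfl⟩
    simp only [Pi.smul_apply, nsmul_eq_mul, abs_mul, Nat.abs_cast]
    push_cast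
    rw [mul_comm, ← Int.natCast_natAbs]
    exact mul_le_mul_of_nonneg_right (by exact_mod_cast this) (by positivity)
  · rw [map_nsmul, nsmul_eq_mul]
    push_cast
    rw [mul_comm]
    exact mul_le_mul_of_nonneg_left (hq j) (by positivity)

theorem rad_step (R d : ℕ) : ∃ R' d', R ≤ R' ∧ ∀ L, 2 ≤ L → ∀ x, Rad (P.Bd R) (L ^ d) x →
    Rad (P.Bd R') (L ^ d') x⁻¹ ∧ ∀ y, Rad (P.Bd R) (L ^ d) y → Rad (P.Bd R') (L ^ d') (x * y) := by
  obtain ⟨R', h⟩ := P.Bd_mul R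
  refine ⟨max R R', d + 1, le_max_left _ _, fun L hL x hx => ⟨?_, fun y hy => ?_⟩⟩
  · exact (hx.inv fun b hb => (h b hb).1).mono (P.Bd_mono (le_max_right _ _))
      (Nat.pow_le_pow_right (by omega) (by omega))
  · exact (hx.mul hy).mono (P.Bd_mono (le_max_left _ _)) (by
      rw [pow_succ, ← mul_two]
      exact Nat.mul_le_mul_left _ hL)

theorem safe_dead {E ρ : ℝ} (h : ρ < E / 4) {t : J → ℝ} (h1 : ∀ j, E / 4 ≤ t j)
    (h2 : ∀ j, t j ≤ 3 * E / 4) {l : List Γ} (hl : P.Safe (fun j => {e | e = 0 ∨ E ≤ P.v j e}) ρ l) :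
    ∃ j, ∀ x ∈ l, ∀ y ∈ l, (P.v j (P.tr x) < t j ↔ P.v j (P.tr y) < t j) := by
  obtain ⟨j, e, he | he, h3⟩ := hl
  · have : ∀ x ∈ l, P.v j (P.tr x) < t j := fun x hx => by
      have := h3 x hx
      rw [he, sub_zero] at this
      linarith [h1 j]
    exact ⟨j, fun x hx y hy => iff_of_true (this x hx) (this y hy)⟩
  · have : ∀ x ∈ l, ¬ P.v j (P.tr x) < t j := fun x hx => by
      have a1 := h3 x hx
      have a2 := (P.v j).le_sub e (P.tr x)
      rw [(P.v j).map_sub] at a2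
      linarith [h2 j]
    exact ⟨j, fun x hx y hy => iff_of_false (this x hx) (this y hy)⟩

include P in
theorem false [CharZero K] (hG : Combable G) : False := by
  classical
  obtain ⟨R1, d1, c, hel⟩ := P.elts
  choose x hxU hx1 hx2 hx3 using fun p : ℕ × ℕ => hel p.1 (p.2 + 2) (by omega)
  have : Group.IsNilpotent (P.U 0) := Subgroup.isNilpotent_of_lowerCentralSeries_eq_bot P.U_nil
  have : Group.IsNilpotent (ℕ × ℕ → P.U 0) :=
    Group.isNilpotent_pi_of_bounded_class (Group.nilpotencyClass (P.U 0)) fun _ => le_rfl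
  let X : J → ((ℕ × ℕ → P.U 0) × Multiplicative (J → ℤ)) := fun j =>
    (fun p => ⟨x p j, hxU p j⟩, Multiplicative.ofAdd (Pi.single j 1))
  let φ : ℕ × ℕ → ((ℕ × ℕ → P.U 0) × Multiplicative (J → ℤ)) →* Γ := fun p =>
    (P.U 0).subtype.comp ((Pi.evalMonoidHom _ p).comp (MonoidHom.fst _ _))
  have hφ : ∀ p w, φ p w ∈ P.U 0 := fun p w => (w.1 p).2
  obtain ⟨C, Wd, hWd, hZ⟩ := exists_cycle _ J P.card X (MonoidHom.snd _ _) (fun _ => rfl) P.r
    P.lam P.lam_face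
  obtain ⟨c0, hc0⟩ := P.deep c
  have hA : ∀ S : Set J, ∀ w ∈ Subgroup.closure (X '' S), (∀ j, j ∉ S → w.2.toAdd j = 0) ∧
      ∀ p, P.tr (φ p w) = ∑ j, (w.2.toAdd j : K) * P.tr (x p j) := by
    intro S w hw
    induction hw using Subgroup.closure_induction with
    | mem w hw =>
      obtain ⟨j, hj, rfl⟩ := hw
      refine ⟨fun j' hj' => Pi.single_eq_of_ne (fun e : j' = j => hj' (e ▸ hj)) _, fun p => ?_⟩
      simp only [X, toAdd_ofAdd, Pi.single_apply]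
      simp [φ]
    | one => exact ⟨fun _ _ => rfl, fun p => by simp [P.tr_one]⟩
    | mul w w' _ _ a b =>
      refine ⟨fun j hj => by simp [a.1 j hj, b.1 j hj], fun p => ?_⟩
      rw [map_mul, P.tr_mul, P.lin_U _ (hφ p w), one_mul, a.2, b.2, ← Finset.sum_add_distrib]
      simp [add_mul]
    | inv w _ a =>
      refine ⟨fun j hj => by simp [a.1 j hj], fun p => ?_⟩
      have := P.tr_mul (φ p w) (φ p w⁻¹)
      rw [← map_mul, mul_inv_cancel, map_one, P.tr_one, P.lin_U _ (hφ p w), one_mul, a.2] at this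
      rw [eq_neg_of_add_eq_zero_right this.symm]
      simp
  have hB : ∀ S : Set J, ∀ w ∈ Subgroup.closure (X '' S), ∃ R d, ∀ (p : ℕ × ℕ) (q : Fin P.r → ℤ),
      (∀ a, |q a| ≤ (p.2 + 2 : ℕ)) → (∀ j ∈ S, ((c * (p.1 + 1) : ℕ) : ℝ) ≤ P.lam j q) →
      (P.s q)⁻¹ * φ p w * P.s q ∈ P.Om R ((p.2 + 2) ^ d) := by
    intro S w hw
    induction hw using Subgroup.closure_induction with
    | mem w hw =>
      obtain ⟨j, hj, rfl⟩ := hw
      exact ⟨R1, d1, fun p q h1 h2 => hx3 p j q h1 (h2 j hj)⟩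
    | one =>
      obtain ⟨R, d, -, -, h⟩ := P.step 0
      exact ⟨R, d, fun p q _ _ => by
        simpa using (h _ (show 2 ≤ p.2 + 2 by omega)).1 1 P.Bd_one (Subgroup.one_mem _)⟩
    | mul w w' _ _ a b =>
      obtain ⟨R, d, a⟩ := a
      obtain ⟨R', d', b⟩ := b
      obtain ⟨R2, d2, -, -, h⟩ := P.step (max R R')
      refine ⟨R2, (d + d' + 1) * d2, fun p q h1 h2 => ?_⟩
      have := ((h ((p.2 + 2) ^ (d + d' + 1)) (le_trans (by omega) (le_pow_self (by omega)))).2 _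
        (P.Om_mono (le_max_left _ _) (Nat.pow_le_pow_right (by omega) (by omega))
          (a p q h1 h2))).2.2.1 _ (P.Om_mono (le_max_right _ _)
          (Nat.pow_le_pow_right (by omega) (by omega)) (b p q h1 h2))
      simpa [pow_mul, mul_assoc] using this
    | inv w _ a =>
      obtain ⟨R, d, a⟩ := a
      obtain ⟨R2, d2, -, -, h⟩ := P.step R
      refine ⟨R2, (d + 1) * d2, fun p q h1 h2 => ?_⟩
      have := ((h ((p.2 + 2) ^ (d + 1)) (le_trans (by omega) (le_pow_self (by omega)))).2 _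
        (P.Om_mono le_rfl (Nat.pow_le_pow_right (by omega) (by omega)) (a p q h1 h2))).2.1
      simpa [pow_mul, mul_assoc] using this
  obtain ⟨Rs, ds, hs⟩ := P.s_rad
  have hC : ∀ w ∈ Subgroup.closure (X '' (Finset.univ : Finset J)), ∃ R d, ∀ p : ℕ × ℕ,
      c0 * (p.1 + 1) ≤ p.2 + 2 → Rad (P.Bd R) ((p.2 + 2) ^ d) (φ p w) := by
    intro w hw
    induction hw using Subgroup.closure_induction with
    | mem w hw =>
      obtain ⟨j, -, rfl⟩ := hw
      obtain ⟨R2, d2, -, -, h2⟩ := P.om_rad R1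
      obtain ⟨R3, d3, r3, h3⟩ := P.rad_step (max Rs R2) (ds + (d1 + 1) * d2)
      obtain ⟨R4, d4, -, h4⟩ := P.rad_step R3 d3
      refine ⟨R4, d4, fun p hp => ?_⟩
      obtain ⟨q, a1, a2⟩ := hc0 j p.1
      have a3 : ∀ a, |q a| ≤ (p.2 + 2 : ℕ) := fun a => (a1 a).trans (by exact_mod_cast hp)
      have b1 : Rad (P.Bd (max Rs R2)) ((p.2 + 2) ^ (ds + (d1 + 1) * d2)) (P.s q) :=
        (hs _ (by omega) q a3).mono (P.Bd_mono (le_max_left _ _))
          (Nat.pow_le_pow_right (by omega) (by omega))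
      have b2 := (h2 ((p.2 + 2) ^ (d1 + 1)) (le_trans (by omega) (le_pow_self (by omega))) _
        (P.Om_mono le_rfl (Nat.pow_le_pow_right (by omega) (by omega)) (hx3 p j q a3 a2))).mono
        (P.Bd_mono (le_max_right Rs _)) (show _ ≤ (p.2 + 2) ^ (ds + (d1 + 1) * d2) by
          rw [← pow_mul]
          exact Nat.pow_le_pow_right (by omega) (by omega))
      have b3 := h3 _ (show 2 ≤ p.2 + 2 by omega) _ b1
      have := (h4 _ (show 2 ≤ p.2 + 2 by omega) _ (b3.2 _ b2)).2 _ b3.1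
      simpa [φ, X, mul_assoc] using this
    | one => exact ⟨0, 0, fun p _ => ⟨[], by simp, by simp, by simp⟩⟩
    | mul w w' _ _ a b =>
      obtain ⟨R, d, a⟩ := a
      obtain ⟨R', d', b⟩ := b
      obtain ⟨R2, d2, -, h⟩ := P.rad_step (max R R') (d + d')
      refine ⟨R2, d2, fun p hp => ?_⟩
      rw [map_mul]
      exact (h _ (by omega) _ ((a p hp).mono (P.Bd_mono (le_max_left _ _))
        (Nat.pow_le_pow_right (by omega) (by omega)))).2 _ ((b p hp).mono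
        (P.Bd_mono (le_max_right _ _)) (Nat.pow_le_pow_right (by omega) (by omega)))
    | inv w _ a =>
      obtain ⟨R, d, a⟩ := a
      obtain ⟨R2, d2, -, h⟩ := P.rad_step R d
      refine ⟨R2, d2, fun p hp => ?_⟩
      rw [map_inv]
      exact (h _ (by omega) _ (a p hp)).1
  obtain ⟨R2, d2, h2⟩ := unif2 (s := {y : Finset J × _ | y.2 ∈ Wd y.1})
    (Set.Finite.subset (Set.finite_univ.prod (Set.finite_iUnion fun S => (Wd S).finite_toSet))
      fun y hy => ⟨trivial, Set.mem_iUnion.2 ⟨_, hy⟩⟩)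
    (Q := fun y R d => ∀ (p : ℕ × ℕ) (q : Fin P.r → ℤ), (∀ a, |q a| ≤ (p.2 + 2 : ℕ)) →
      (∀ j ∈ y.1, ((c * (p.1 + 1) : ℕ) : ℝ) ≤ P.lam j q) →
      (P.s q)⁻¹ * φ p y.2 * P.s q ∈ P.Om R ((p.2 + 2) ^ d))
    (fun _ _ _ _ _ a b h p q h1 h2 =>
      P.Om_mono a (Nat.pow_le_pow_right (by omega) b) (h p q h1 h2))
    fun y hy => hB _ _ (hWd _ _ hy)
  obtain ⟨R3, d3, h3⟩ := unif2 (Wd Finset.univ).finite_toSet
    (Q := fun w R d => ∀ p : ℕ × ℕ, c0 * (p.1 + 1) ≤ p.2 + 2 →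
      Rad (P.Bd R) ((p.2 + 2) ^ d) (φ p w))
    (fun _ _ _ _ _ a b h p hp => (h p hp).mono (P.Bd_mono a) (Nat.pow_le_pow_right (by omega) b))
    fun w hw => hC _ (hWd _ _ hw)
  obtain ⟨R4, d4, h4⟩ := P.s_coc C
  obtain ⟨R5, h5⟩ := P.bd_finite (s := P.s '' Set.Icc (fun _ => -(C : ℤ)) fun _ => C)
    ((Set.finite_Icc _ _).image _) (by
      rintro _ ⟨q, -, rfl⟩
      exact P.s_Bd q)
  obtain ⟨R6, d6, -, -, h6⟩ := P.step (max R2 R4)
  obtain ⟨R7, d7, -, h7⟩ := P.rad_step (max R3 Rs) (d3 + ds)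
  obtain ⟨c1, hc1⟩ := (((Wd Finset.univ).finite_toSet.prod Set.finite_univ).image
    fun y : ((ℕ × ℕ → P.U 0) × Multiplicative (J → ℤ)) × J =>
      ∑ j, P.v y.2 (y.1.2.toAdd j : K)).bddAbove
  obtain ⟨κ, hκ0, hκ⟩ : ∃ κ : ℝ, 0 < κ ∧ ∀ w ∈ Wd Finset.univ, ∀ j, w.2.toAdd j ≠ 0 →
      κ ≤ P.v j (w.2.toAdd j : K) := by
    obtain ⟨B, hB⟩ := (((Wd Finset.univ).finite_toSet.prod Set.finite_univ).image
      fun y : ((ℕ × ℕ → P.U 0) × Multiplicative (J → ℤ)) × J =>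
      (P.v y.2 (y.1.2.toAdd y.2 : K))⁻¹).bddAbove
    refine ⟨(max B 1)⁻¹, by positivity, fun w hw j hj => ?_⟩
    exact inv_le_of_inv_le₀ ((P.v j).pos (Int.cast_ne_zero.2 hj))
      ((hB ⟨(w, j), ⟨hw, trivial⟩, rfl⟩).trans (le_max_left _ _))
  set m := Fintype.card J with hm
  obtain ⟨R8, d8, e8, h8⟩ := P.layers m (max (max R5 R6) R7) P.k
  obtain ⟨R9, C9, h9⟩ := P.fill hG m R8
  obtain ⟨c2, hc2⟩ := P.Bd_v R9
  set d0 := (d2 + d4 + 1) * d6 + d7 + C + 1 with hd0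
  set c3 := (C + 1) * (c + 1) + c0 + 2 with hc3
  set ρ := (2 * m + 1 : ℕ) ^ P.k * |c1| with hρ
  obtain ⟨n, hn⟩ := exists_big (κ⁻¹ * (4 * ρ + 4 * |c2| * ((m + 1) * C9 * 2 + 1) *
    c3 ^ (2 * (d0 * d8)))) (2 * (d0 * d8))
  obtain ⟨p, hp1, hp2⟩ : ∃ p : ℕ × ℕ, p.1 = n ∧
    p.2 = (C + 1) * (c * (n + 1) + 1) + c0 * (n + 1) := ⟨(n, _), rfl, rfl⟩
  set L := p.2 + 2 with hL
  have hL2 : 2 ≤ L := by omega
  have hL4 : L = C * (c * (n + 1) + 1) + (c * (n + 1) + 1) + c0 * (n + 1) + 2 := by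
    rw [hL, hp2]; ring
  have hL3 : L ≤ c3 * (n + 1) := by rw [hL, hp2, hc3]; nlinarith
  have up : ∀ {a}, a ≤ d0 → L ^ a ≤ L ^ d0 := fun h => Nat.pow_le_pow_right (by omega) h
  obtain ⟨Z, hZ0, hZs, hZn⟩ := hZ (c * (n + 1))
  set E := κ * 2 ^ n with hE
  let Φ : ((ℕ × ℕ → P.U 0) × Multiplicative (J → ℤ)) × (Fin P.r → ℤ) → Γ :=
    fun y => φ p y.1 * P.s y.2
  have hΦ : ∀ j (y : ((ℕ × ℕ → P.U 0) × Multiplicative (J → ℤ)) × (Fin P.r → ℤ)),
      y.1 ∈ Wd Finset.univ →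
      P.v j (P.tr (Φ y) - y.1.2.toAdd j * P.tr (x p j)) ≤ |c1| ∧
      (y.1.2.toAdd j * P.tr (x p j) = 0 ∧ y.1.2.toAdd j = 0 ∨
        E ≤ P.v j (y.1.2.toAdd j * P.tr (x p j)) ∧ y.1.2.toAdd j ≠ 0) := by
    intro j y hy
    constructor
    · rw [P.tr_mul, P.tr_s, mul_zero, add_zero, (hA _ _ (hWd _ _ hy)).2,
        ← Finset.add_sum_erase _ _ (Finset.mem_univ j), add_sub_cancel_left]
      refine ((P.v j).sum_le _ _).trans (le_trans ?_ ((hc1 ⟨(y.1, j), ⟨hy, trivial⟩, rfl⟩).trans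
        (le_abs_self _)))
      refine le_trans (Finset.sum_le_sum fun i hi => ?_) (Finset.sum_le_sum_of_subset_of_nonneg
        (Finset.erase_subset j _) fun _ _ _ => (P.v j).nonneg _)
      rw [map_mul]
      exact mul_le_of_le_one_right ((P.v j).nonneg _) (hx2 p i j (Finset.ne_of_mem_erase hi).symm)
    · by_cases h : y.1.2.toAdd j = 0
      · exact Or.inl ⟨by simp [h], h⟩
      · refine Or.inr ⟨?_, h⟩
        rw [map_mul]
        exact mul_le_mul (hκ _ hy j h) (hp1 ▸ hx1 p j) (by positivity) ((P.v j).nonneg _)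
  have hz : Sup (push Φ Z) (P.Ivt (fun j => {e | e = 0 ∨ E ≤ P.v j e}) m 0 (max (max R5 R6) R7)
      (L ^ d0) |c1|) (L ^ d0) := by
    refine (hZs.push Φ ?_).mono (fun _ h => h) (le_trans ?_ (up (a := C + 1) (by omega)))
    swap
    · rw [pow_succ']
      have : C ≤ C * (c * (n + 1) + 1) := Nat.le_mul_of_pos_right _ (by omega)
      exact Nat.mul_le_mul (by omega) (Nat.pow_le_pow_left (by omega) _)
    rintro l ⟨a1, S, a2, a3, a4⟩
    have a5 : ∀ y ∈ l, ∀ a, |y.2 a| ≤ (L : ℕ) := fun y hy a => ((a4 y hy).2.1 a).trans (by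
      have : C * (c * (n + 1) + 1) ≤ L := by omega
      exact_mod_cast this)
    refine ⟨by simpa using a1, fun y hy y' hy' => ?_, fun y hy => ?_, ?_⟩
    · obtain ⟨y, b1, rfl⟩ := List.mem_map.1 hy
      obtain ⟨y', b2, rfl⟩ := List.mem_map.1 hy'
      have b3 := h2 (S, y.1⁻¹ * y'.1) (a3 y b1 y' b2).1 p y.2 (a5 y b1)
        (hp1 ▸ (a4 y b1).2.2)
      have b4 := h4 L hL2 y.2 (y'.2 - y.2) (a5 y b1) (a3 y' b2 y b1).2
      have b5 := ((h6 (L ^ (d2 + d4 + 1)) (hL2.trans (le_pow_self (by omega)))).2 _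
        (P.Om_mono (le_max_left _ _) (Nat.pow_le_pow_right (by omega) (by omega)) b3)).2.2.1 _
        (P.Om_mono (le_max_right _ _) (Nat.pow_le_pow_right (by omega) (by omega)) b4)
      rw [← pow_mul] at b5
      refine ⟨_, P.Om_mono (by omega) (up (by omega)) b5, P.Om_U _ _ _ b5, P.s (y'.2 - y.2),
        P.Bd_mono (by omega) (h5 _ ⟨_, ⟨fun a => (abs_le.1 ((a3 y' b2 y b1).2 a)).1,
          fun a => (abs_le.1 ((a3 y' b2 y b1).2 a)).2⟩, rfl⟩), ?_, fun _ => P.tr_s _⟩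
      simp [Φ, mul_assoc]
    · obtain ⟨y, b1, rfl⟩ := List.mem_map.1 hy
      exact ((h7 L hL2 _ ((h3 _ (a4 y b1).1 p (by rw [hp1]; omega)).mono (P.Bd_mono (le_max_left _ _))
        (Nat.pow_le_pow_right (by omega) (by omega)))).2 _ ((hs L hL2 _ (a5 y b1)).mono
        (P.Bd_mono (le_max_right _ _)) (Nat.pow_le_pow_right (by omega) (by omega)))).mono
        (P.Bd_mono (by omega)) (up (by omega))
    · obtain ⟨j, hj⟩ : ∃ j, j ∉ S := by
        by_contra h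
        exact a2 (Finset.eq_univ_of_forall (by simpa using h))
      obtain ⟨y0, b0⟩ := List.exists_mem_of_length_pos (l := l) (by have := P.card; omega)
      refine ⟨j, y0.1.2.toAdd j * P.tr (x p j), ((hΦ j y0 (a4 y0 b0).1).2.imp And.left And.left),
        fun y hy => ?_⟩
      obtain ⟨y, b1, rfl⟩ := List.mem_map.1 hy
      have b2 := (hA _ _ (hWd _ _ (a3 y0 b0 y b1).1)).1 j hj
      have b3 : y0.1.2.toAdd j = y.1.2.toAdd j := by
        have : -y0.1.2.toAdd j + y.1.2.toAdd j = 0 := b2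
        omega
      rw [b3]
      exact (hΦ j y (a4 y b1).1).1
  obtain ⟨z', H, b1, b2, b3⟩ := h8 _ (hL2.trans (le_pow_self (by omega))) _ _ (abs_nonneg _) _
    (by rw [bd_push, hZ0, map_zero]) hz
  rw [← pow_mul] at b2
  have hz' : bd z' = 0 := by
    have := bd_bd H
    rwa [b1, map_add, bd_push, hZ0, map_zero, zero_add] at this
  obtain ⟨Y, b4, b5⟩ := h9 (L ^ (d0 * d8)) _ z' hz' (b2.mono (fun l hl => ⟨hl.1, fun y hy y' hy' => by
    obtain ⟨u, -, a1, b, a2, a3, -⟩ := hl.2.1 y hy y' hy'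
    rw [P.U_k, Subgroup.mem_bot] at a1
    rwa [a3, a1, one_mul], hl.2.2.1⟩) le_rfl)
  set N := C9 * (L ^ (d0 * d8) + 1) * L ^ (d0 * d8) * (m + 1) with hN
  have hV : (Y.support.biUnion List.toFinset).card ≤ N := by
    refine Finset.card_biUnion_le.trans ((Finset.sum_le_card_nsmul _ _ (m + 1) fun l hl =>
      (List.toFinset_card_le l).trans (b5.2 l hl).1.le).trans ?_)
    exact Nat.mul_le_mul_right _ b5.1
  have hE0 : 0 < E := by positivity
  choose t t1 t2 t3 using fun j => exists_gap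
    ((Y.support.biUnion List.toFinset).image fun y => P.v j (P.tr y)) N
    (Finset.card_image_le.trans hV) E hE0
  have hw : 0 < E / (2 * (N + 1)) := by positivity
  have hN2 : ((N + 1 : ℕ) : ℝ) ≤ ((m + 1) * C9 * 2 + 1) * c3 ^ (2 * (d0 * d8)) *
      (n + 1) ^ (2 * (d0 * d8)) := by
    have a1 : 1 ≤ L ^ (d0 * d8) := Nat.one_le_pow _ _ (by omega)
    have a2 : L ^ (d0 * d8) * L ^ (d0 * d8) ≤ c3 ^ (2 * (d0 * d8)) * (n + 1) ^ (2 * (d0 * d8)) := by
      rw [← pow_add, ← two_mul, ← mul_pow]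
      exact Nat.pow_le_pow_left hL3 _
    have a3 : N + 1 ≤ ((m + 1) * C9 * 2 + 1) * (L ^ (d0 * d8) * L ^ (d0 * d8)) := by
      rw [hN]
      generalize L ^ (d0 * d8) = A at *
      have : A ≤ A * A := by nlinarith
      have : (m + 1) * C9 * A ≤ (m + 1) * C9 * (A * A) := by gcongr
      nlinarith
    exact_mod_cast a3.trans (by rw [mul_assoc _ (c3 ^ _)]; gcongr)
  have hρ0 : 0 ≤ ρ := by positivity
  have hbig : 4 * ρ + 4 * |c2| * (N + 1) < E := by
    rw [mul_assoc, inv_mul_lt_iff₀ hκ0] at hn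
    refine lt_of_le_of_lt ?_ hn
    have a1 : (1 : ℝ) ≤ (n + 1) ^ (2 * (d0 * d8)) := one_le_pow₀ (by simp)
    push_cast at hN2
    have a2 := mul_le_mul_of_nonneg_left hN2 (show 0 ≤ 4 * |c2| by positivity)
    nlinarith
  have hρE : ρ < E / 4 := by
    have : 0 ≤ 4 * |c2| * (N + 1) := by positivity
    linarith
  have hc1ρ : |c1| ≤ ρ := le_mul_of_one_le_left (abs_nonneg _) (one_le_pow₀ (by simp))
  obtain ⟨l, hl, hl'⟩ := hZn Γ Φ (fun j y => decide (P.v j (P.tr y) < t j)) (fun j y hy => by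
    rw [decide_eq_decide]
    obtain ⟨a1, ⟨a2, a3⟩ | ⟨a2, a3⟩⟩ := hΦ j y hy
    · rw [a2, sub_zero] at a1
      exact iff_of_true (by linarith [t1 j]) a3
    · have a4 := (P.v j).le_sub (y.1.2.toAdd j * P.tr (x p j)) (P.tr (Φ y))
      rw [(P.v j).map_sub] at a4
      exact iff_of_false (by linarith [t2 j]) a3) (H + Y)
    (by rw [map_add, b1, b4, add_assoc, add_self, add_zero])
  have key : l.length = m + 1 ∧ ∃ j, ∀ x ∈ l, ∀ y ∈ l,
      (P.v j (P.tr x) < t j ↔ P.v j (P.tr y) < t j) := by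
    refine supp_add (S := fun l => l.length = m + 1 ∧ ∃ j, ∀ x ∈ l, ∀ y ∈ l,
      (P.v j (P.tr x) < t j ↔ P.v j (P.tr y) < t j)) (fun s hs => ⟨(b3 s hs).1,
        P.safe_dead hρE (fun j => by linarith [t1 j]) t2 (b3 s hs).2⟩) (fun s hs => ?_) l hl
    obtain ⟨a1, a2⟩ := b5.2 s hs
    obtain ⟨y0, a3⟩ := List.exists_mem_of_length_pos (l := s) (by omega)
    obtain ⟨j, hj⟩ := P.nonface y0
    have a4 : ∀ y ∈ s, |P.v j (P.tr y) - P.v j (P.tr y0)| ≤ |c2| := fun y hy => by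
      refine ((P.v j).abs_abv_sub_le_abv_sub _ _).trans ?_
      rw [P.tr_sub, map_mul]
      exact (mul_le_of_le_one_left ((P.v j).nonneg _) hj).trans
        ((hc2 _ (a2 y0 a3 y hy) j).trans (le_abs_self _))
    have a5 : 2 * |c2| ≤ E / (2 * (N + 1)) := by
      rw [le_div_iff₀ (by positivity)]
      linarith
    have a6 : ∀ y ∈ s, ∀ y' ∈ s, P.v j (P.tr y) < t j → P.v j (P.tr y') < t j := by
      intro y hy y' hy' h
      have a7 := (t3 j _ (Finset.mem_image_of_mem _ (Finset.mem_biUnion.2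
        ⟨s, hs, List.mem_toFinset.2 hy⟩))).resolve_right (not_le.2 h)
      have a8 := abs_le.1 (a4 y hy)
      have a9 := abs_le.1 (a4 y' hy')
      linarith
    exact ⟨a1, j, fun y hy y' hy' => ⟨a6 y hy y' hy', a6 y' hy' y hy⟩⟩
  obtain ⟨k1, j, k2⟩ := key
  obtain ⟨y, hy, y', hy', k3⟩ := hl'.resolve_left (not_not.2 k1) j
  exact k3 (decide_eq_decide.2 (k2 y hy y' hy'))

end Geo

end Pool.Agent.Lib.MP_2fb4be_al.Sol
end

-- part Pool.Agent.Lib.MP_2fb4be_al.Sol.Build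
section

/-!
Construction of the geometry from a character of infinite order.
-/

set_option autoImplicit false

noncomputable section

namespace Pool.Agent.Lib.MP_2fb4be_al.Sol

open scoped commutatorElement

section words

variable {G : Type} [Group G] {S : Set G}

/-- Conjugates of basic commutators by words of length at most `n`. -/
def Cj (S : Set G) (n : ℕ) : Set G :=
  {g | ∃ w, Rad S n w ∧ ∃ x ∈ S, ∃ y ∈ S, g = w * ⁅x, y⁆ * w⁻¹}

theorem Rad.one (B : Set G) (n : ℕ) : Rad B n 1 := ⟨[], by simp, by simp, rfl⟩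

theorem Rad.single {B : Set G} {x : G} (h : x ∈ B) : Rad B 1 x := ⟨[x], by simp, by simpa, by simp⟩

theorem Cj_mono {n n' : ℕ} (h : n ≤ n') : Cj S n ⊆ Cj S n' := by
  rintro _ ⟨w, a, b⟩
  exact ⟨w, a.mono le_rfl h, b⟩

theorem Rad.conj {n m a : ℕ} {z w : G} (hz : Rad (Cj S n) m z) (hw : Rad S a w) :
    Rad (Cj S (a + n)) m (w * z * w⁻¹) := by
  obtain ⟨l, h1, h2, rfl⟩ := hz
  refine ⟨l.map (MulAut.conj w), by simpa using h1, fun y hy => ?_, ?_⟩
  · obtain ⟨y, hy', rfl⟩ := List.mem_map.1 hy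
    obtain ⟨w', b1, x, b2, x', b3, rfl⟩ := h2 y hy'
    exact ⟨w * w', hw.mul b1, x, b2, x', b3, by simp [mul_assoc]⟩
  · rw [← map_list_prod]
    rfl

theorem rad_comm1 {x : G} (hx : x ∈ S) (l : List G) (hl : ∀ y ∈ l, y ∈ S) :
    Rad (Cj S l.length) l.length ⁅x, l.prod⁆ := by
  induction l with
  | nil => simpa using Rad.one _ _
  | cons y l ih =>
    have hy := hl y (by simp)
    have h1 : Rad (Cj S (1 + l.length)) 1 ⁅x, y⁆ :=
      Rad.single ⟨1, Rad.one _ _, x, hx, y, hy, by simp⟩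
    have := h1.mul ((ih fun z hz => hl z (by simp [hz])).conj (Rad.single hy))
    rw [List.prod_cons, List.length_cons, add_comm l.length]
    convert this using 1
    simp only [commutatorElement_def]
    group

theorem rad_comm {a b : ℕ} {w w' : G} (hw : Rad S a w) (hw' : Rad S b w') :
    Rad (Cj S (a + b)) (a * b) ⁅w, w'⁆ := by
  obtain ⟨l, h1, h2, rfl⟩ := hw
  obtain ⟨l', h3, h4, rfl⟩ := hw'
  refine Rad.mono (B := Cj S (l.length + l'.length)) (D := l.length * l'.length) ?_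
    (Cj_mono (by omega)) (Nat.mul_le_mul h1 h3)
  clear h1
  induction l with
  | nil => simpa using Rad.one _ _
  | cons x l ih =>
    have hx := h2 x (by simp)
    have := ((ih fun z hz => h2 z (by simp [hz])).conj (Rad.single hx)).mul
      ((rad_comm1 hx l' h4).mono (Cj_mono (by omega)) le_rfl)
    rw [List.prod_cons, List.length_cons, add_comm l.length, add_assoc, add_mul, one_mul,
      add_comm l'.length]
    convert this using 1
    simp only [commutatorElement_def]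
    group

theorem rad_prod {ι : Type} (l : List ι) (a : ι → G) {L : ℕ} (ha : ∀ i, Rad S L (a i)) :
    Rad S (l.length * L) (l.map a).prod := by
  induction l with
  | nil => simpa using Rad.one _ _
  | cons i l ih =>
    rw [List.map_cons, List.prod_cons, List.length_cons, add_mul, one_mul, add_comm]
    exact (ha i).mul ih

theorem rad_coc (hS : ∀ x ∈ S, x⁻¹ ∈ S) {ι : Type} (l : List ι) (a b : ι → G) {L : ℕ}
    (ha : ∀ i, Rad S L (a i)) (hb : ∀ i, Rad S L (b i)) :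
    Rad (Cj S (2 * l.length * L)) (l.length * L * (l.length * L))
      ((l.map a).prod⁻¹ * (l.map fun i => a i * b i).prod * (l.map b).prod⁻¹) := by
  induction l with
  | nil => simpa using Rad.one _ _
  | cons i l ih =>
    have := ((rad_comm ((rad_prod l a ha).inv hS) (hb i)).mono
      (Cj_mono (n' := 2 * (l.length + 1) * L) (by nlinarith)) le_rfl).mul
      ((ih.conj (hb i)).mono (Cj_mono (by nlinarith)) le_rfl)
    simp only [List.map_cons, List.prod_cons, List.length_cons]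
    refine Rad.mono (D := l.length * L * L + l.length * L * (l.length * L)) ?_ le_rfl
      (by nlinarith [Nat.zero_le (l.length * L * L), Nat.zero_le (L * L)])
    convert this using 1
    simp only [commutatorElement_def]
    group

theorem rad_zpow (hS : ∀ x ∈ S, x⁻¹ ∈ S) {x : G} (hx : x ∈ S) {q : ℤ} {L : ℕ} (h : |q| ≤ L) :
    Rad S L (x ^ q) := by
  obtain ⟨n, rfl | rfl⟩ := q.eq_nat_or_neg
  · rw [zpow_natCast]
    exact (Rad.pow hx n).mono le_rfl (by simpa using h)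
  · rw [zpow_neg, zpow_natCast]
    exact ((Rad.pow hx n).inv hS).mono le_rfl (by simpa using h)

end words

theorem poly_bound (a b e : ℕ) : ∃ d, ∀ L, 2 ≤ L → a * (b * L + 1) ^ e + 2 ≤ L ^ d := by
  refine ⟨a + (b + 2) * e + 2, fun L hL => ?_⟩
  have h1 := Bx.le_pow (c := a) hL
  have h2 := Bx.le_pow (c := b) hL
  have h3 : b * L + 1 ≤ L ^ (b + 2) := by
    rw [pow_add]
    have : L ≤ L ^ 2 := le_pow_self (by omega)
    calc _ ≤ (b + 1) * L := by nlinarith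
      _ ≤ _ := Nat.mul_le_mul h2 this
  have h4 : a * (b * L + 1) ^ e ≤ L ^ (a + (b + 2) * e) := by
    rw [pow_add, pow_mul]
    exact Nat.mul_le_mul (by omega) (Nat.pow_le_pow_left h3 _)
  have h5 : 1 ≤ L ^ (a + (b + 2) * e) := Nat.one_le_pow _ _ (by omega)
  rw [pow_add]
  nlinarith [Nat.mul_le_mul hL hL]

section sums

variable {A : Type} [Ring A] [Algebra ℚ A] {d : ℕ} {b : Module.Basis (Fin d) ℚ A} {D : ℕ}

theorem Sz.sum {R L : ℕ} (l : List A) (h : ∀ x ∈ l, Sz b D R L x) :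
    Sz b D R (l.length * L) l.sum := by
  induction l with
  | nil => simpa using Sz.zero R 0
  | cons x l ih =>
    rw [List.sum_cons, List.length_cons, add_mul, one_mul, add_comm _ L]
    exact (h x (by simp)).add (ih fun y hy => h y (by simp [hy]))

theorem Sm.sum {E : ℕ} (l : List A) (h : ∀ x ∈ l, Sm b D E x) : Sm b D E l.sum := by
  induction l with
  | nil => exact fun i => ⟨0, zero_mem _, by simp⟩
  | cons x l ih =>
    intro i
    obtain ⟨t, a1, a2⟩ := h x (by simp) i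
    obtain ⟨t', a3, a4⟩ := ih (fun y hy => h y (by simp [hy])) i
    exact ⟨t + t', add_mem a1 a3, by simp [a2, a4, mul_add]⟩

end sums

namespace Cart

variable {G : Type} [Group G] {M : NilModel G (commutator G)} {P : Push M} {K : Type} [Field K]
  [NumberField K] (C : Cart P K)

/-- The letters. -/
def S : Set G := Set.range C.h ∪ Set.range fun a => (C.h a)⁻¹

/-- The section. -/
def s (q : Fin C.r → ℤ) : G := ((List.finRange C.r).map fun a => C.h a ^ q a).prod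

theorem S_fin : C.S.Finite := (Set.finite_range _).union (Set.finite_range _)

theorem S_inv : ∀ x ∈ C.S, x⁻¹ ∈ C.S := by
  rintro _ (⟨a, rfl⟩ | ⟨a, rfl⟩)
  · exact Or.inr ⟨a, rfl⟩
  · exact Or.inl ⟨a, by simp⟩

theorem S_H : P.i '' C.S ⊆ C.H := by
  rintro _ ⟨_, ⟨a, rfl⟩ | ⟨a, rfl⟩, rfl⟩
  · exact C.h_mem a
  · simpa using C.h_mem a

theorem rad_H {n : ℕ} {g : G} (h : Rad C.S n g) : P.i g ∈ C.H := by
  obtain ⟨l, -, h2, rfl⟩ := h
  rw [map_list_prod]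
  refine Subgroup.list_prod_mem _ fun x hx => ?_
  obtain ⟨y, hy, rfl⟩ := List.mem_map.1 hx
  exact C.S_H ⟨y, h2 y hy, rfl⟩

theorem s_rad {q : Fin C.r → ℤ} {L : ℕ} (h : ∀ a, |q a| ≤ L) : Rad C.S (C.r * L) (C.s q) := by
  simpa [s] using rad_prod (List.finRange C.r) _ fun a => rad_zpow C.S_inv (Or.inl ⟨a, rfl⟩) (h a)

theorem χ_s (q : Fin C.r → ℤ) : C.χ (P.i (C.s q)) = ∏ a, C.χ (P.i (C.h a)) ^ q a := by
  rw [s, map_list_prod, map_list_prod, List.map_map, List.map_map, Fin.prod_univ_def]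
  simp [Function.comp_def]

theorem s_H (q : Fin C.r → ℤ) : P.i (C.s q) ∈ C.H := by
  obtain ⟨L, hL⟩ := (Set.finite_range fun a => (q a).natAbs).bddAbove
  exact C.rad_H (C.s_rad (L := L) fun a => by
    rw [← Int.natCast_natAbs]
    exact_mod_cast hL ⟨a, rfl⟩)

variable {d : ℕ} (b : Module.Basis (Fin d) ℚ M.A) {D : ℕ} (hD : 0 < D)
include hD

theorem cj_om : ∃ R e, ∀ n, 2 ≤ n → ∀ g, Rad (Cj C.S n) n g → P.i g ∈ P.Om b D R (n ^ e) := by
  have h1 : ∀ p : C.S × C.S, ∃ X : Set M.A, X.Finite ∧ ∀ w : List G, (∀ h ∈ w, h ∈ C.S) →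
      ∃ l : List M.A, l.length ≤ (w.length + 1) ^ C.e ∧ (∀ y ∈ l, y ∈ X) ∧
        (w.map fun g => P.π (P.i g)).prod ((M.ι ⟨⁅p.1.1, p.2.1⁆, Subgroup.commutator_mem_commutator
          (Subgroup.mem_top _) (Subgroup.mem_top _)⟩ : M.A) - 1) = l.sum := by
    intro p
    refine orbit_sum C.S_fin C.e _ ?_
    rw [Zs_comp]
    refine Zs_mono_left C.S_H le_rfl _ (C.unip ⟨_, Bx.iso_U P (Bx.iso_ι 1 _)⟩ ?_)
    rw [P.i_ι _ _ rfl, map_commutatorElement]
    have a1 := C.S_H ⟨_, p.1.2, rfl⟩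
    have a2 := C.S_H ⟨_, p.2.2, rfl⟩
    exact mul_mem (mul_mem (mul_mem a1 a2) (inv_mem a1)) (inv_mem a2)
  choose X hX hXw using h1
  have := C.S_fin.to_subtype
  obtain ⟨R, hR⟩ := exists_sz b hD (Set.finite_iUnion hX)
  obtain ⟨e1, h1⟩ := poly_bound R 1 C.e
  obtain ⟨R', e2, h2⟩ := sz_prod b hD M.nil R
  refine ⟨R', (e1 + 1) * e2, fun n hn g hg => ?_⟩
  obtain ⟨l, a1, a2, rfl⟩ := hg
  have key : ∃ l' : List (commutator G), l'.map Subtype.val = l ∧
      ∀ x ∈ l', Sz b D R (n ^ (e1 + 1)) ((M.ι x : M.A) - 1) := by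
    clear a1
    induction l with
    | nil => exact ⟨[], rfl, by simp⟩
    | cons g l ih =>
      obtain ⟨l', b1, b2⟩ := ih fun y hy => a2 y (by simp [hy])
      obtain ⟨_, ⟨w, c1, c2, rfl⟩, x, c3, y, c4, rfl⟩ := a2 g (by simp)
      obtain ⟨m, d1, d2, d3⟩ := hXw (⟨x, c3⟩, ⟨y, c4⟩) w c2
      have hc : ⁅x, y⁆ ∈ commutator G :=
        Subgroup.commutator_mem_commutator (Subgroup.mem_top _) (Subgroup.mem_top _)
      refine ⟨⟨_, Subgroup.Normal.conj_mem inferInstance _ hc w.prod⟩ :: l', by simp [b1], ?_⟩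
      rintro z hz
      rcases List.mem_cons.1 hz with rfl | hz
      swap
      · exact b2 z hz
      have e : (w.map fun g => P.π (P.i g)).prod = P.π (P.i w.prod) := by
        rw [map_list_prod, map_list_prod, List.map_map]
        rfl
      rw [e, P.π_apply, P.ρ_i, map_sub, map_one, M.conj w.prod _
        ⟨_, Subgroup.Normal.conj_mem inferInstance _ hc w.prod⟩ rfl] at d3
      rw [d3]
      refine (Sz.sum m fun y hy => hR y (Set.mem_iUnion.2 ⟨_, d2 y hy⟩)).mono le_rfl ?_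
      refine le_trans ?_ (((Nat.le_add_right _ 2).trans (h1 n hn)).trans
        (Bx.pow_mono hn (Nat.le_succ e1)))
      rw [mul_comm]
      exact Nat.mul_le_mul_left _ (d1.trans (Nat.pow_le_pow_left (by omega) _))
  obtain ⟨l', rfl, b2⟩ := key
  refine ⟨⟨_, Bx.iso_U P (Bx.iso_ι 1 l'.prod)⟩, Bx.iso_ι D _, ?_, ?_⟩
  · rw [pow_mul]
    have := h2 _ (Bx.two_le hn e1) (l'.map M.ι) (by
      rw [List.length_map] at a1 ⊢
      exact a1.trans (le_pow_self (by omega))) (fun u hu => by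
      obtain ⟨x, hx, rfl⟩ := List.mem_map.1 hu
      exact ⟨M.ι_mem x, b2 x hx⟩)
    rwa [← map_list_prod] at this
  · rw [P.i_ι _ _ rfl, SubmonoidClass.coe_list_prod]

theorem s_coc (c : ℕ) : ∃ R e, ∀ L : ℕ, 2 ≤ L → ∀ q q' : Fin C.r → ℤ, (∀ a, |q a| ≤ (L : ℤ)) →
    (∀ a, |q' a| ≤ (c : ℤ)) → (P.i (C.s q))⁻¹ * P.i (C.s (q + q')) * (P.i (C.s q'))⁻¹ ∈
      P.Om b D R (L ^ e) := by
  obtain ⟨R, e, h⟩ := C.cj_om b hD
  obtain ⟨e1, h1⟩ := poly_bound 1 (C.r * (c + 1)) 2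
  refine ⟨R, e1 * e, fun L hL q q' hq hq' => ?_⟩
  have h2 := h1 L hL
  have h3 := rad_coc C.S_inv (List.finRange C.r) (fun a => C.h a ^ q a) (fun a => C.h a ^ q' a)
    (L := (c + 1) * L)
    (fun a => rad_zpow C.S_inv (Or.inl ⟨a, rfl⟩) ((hq a).trans (by push_cast; nlinarith)))
    fun a => rad_zpow C.S_inv (Or.inl ⟨a, rfl⟩) ((hq' a).trans (by push_cast; nlinarith))
  rw [List.length_finRange] at h3
  rw [mul_assoc] at h2
  rw [mul_assoc] at h3
  generalize C.r * ((c + 1) * L) = A at h2 h3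
  have := h (L ^ e1) (by omega) _ (h3.mono (Cj_mono (by nlinarith)) (by nlinarith))
  simpa [s, pow_mul, zpow_add] using this

theorem elts {J : Type} [Fintype J] (Q : Places C.χ J D) : ∃ R e c : ℕ, ∀ n L : ℕ, 2 ≤ L →
    ∃ x : J → P.Γ, (∀ j, x j ∈ P.Ua 0) ∧ (∀ j, 2 ^ n ≤ Q.v j (C.tr (x j))) ∧
      (∀ j j', j' ≠ j → Q.v j' (C.tr (x j)) ≤ 1) ∧ ∀ j (q : Fin C.r → ℤ), (∀ a, |q a| ≤ (L : ℤ)) →
        ((c * (n + 1) : ℕ) : ℝ) ≤ Real.log (Q.v j (C.χ (P.i (C.s q)))) →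
        (P.i (C.s q))⁻¹ * x j * P.i (C.s q) ∈ P.Om b D R (L ^ e) := by
  obtain ⟨X, hX, hXw⟩ := orbit_sum (ρ := fun g => P.tw C.χ (P.i g)) C.S_fin C.e C.θ (by
    rw [Zs_comp]
    exact Zs_mono_left C.S_H le_rfl _ C.unip_θ)
  obtain ⟨E, hE⟩ := iso_open b hD M.nil M.ι.range (by
    rintro _ ⟨n, rfl⟩
    exact M.ι_mem n)
  obtain ⟨c, c', h1⟩ := Q.approx ((fun p : (K →ₗ[ℚ] M.A) × Fin d => b.coord p.2 ∘ₗ p.1) ''
    X ×ˢ Set.univ) ((hX.prod Set.finite_univ).image _) E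
  obtain ⟨R, e, h2⟩ := sz_grp b hD M.nil 0
  obtain ⟨e1, h3⟩ := poly_bound c' C.r C.e
  refine ⟨R, e1 * e, c, fun n L hL => ?_⟩
  choose x x1 x2 x3 using fun j => h1 n j ((fun q => (C.χ (P.i (C.s q)) : K)) ''
    Set.Icc (fun _ => -(L : ℤ)) fun _ => L) ((Set.finite_Icc _ _).image _)
  have htr : ∀ y, C.tr (P.j ⟨_, C.θ_U y⟩) = y := fun y => by
    have := C.τ_sq _ (M.nil.ex_mem (i := 0) (a := C.θ y) (by simpa using C.θ_I y)).2
    rw [map_sub, C.τ_θ, sub_eq_zero] at this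
    rw [C.tr_j, this]
  refine ⟨fun j => P.j ⟨_, C.θ_U (x j)⟩, fun j => (Bx.j_mem_Ua P).2 (Bx.U_le P _),
    fun j => by rw [htr]; exact x1 j, fun j j' hj => by rw [htr]; exact x2 j j' hj,
    fun j q hq hc => ?_⟩
  obtain ⟨u, a1, a2⟩ := P.conj (P.i (C.s q))⁻¹ ⟨_, C.θ_U (x j)⟩
  have hI : P.ρ (P.i (C.s q))⁻¹ (C.θ (x j)) ∈ M.I := by
    have := Bx.ρ_mem P (P.i (C.s q))⁻¹ (a := 0) (x := C.θ (x j)) (by simpa using C.θ_I _)
    rwa [zero_add, pow_one] at this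
  have a3 : (u : M.Aˣ) = ex (P.ρ (P.i (C.s q))⁻¹ (C.θ (x j))) := by
    refine Units.ext (a1.trans ?_)
    exact congrArg Units.val (map_ex (P.ρ (P.i (C.s q))⁻¹ : M.A →ₐ[ℚ] M.A)
      (Ex.nil M.nil (C.θ_I (x j))))
  obtain ⟨w, b1, b2, b3⟩ := (C.s_rad hq).inv C.S_inv
  obtain ⟨l, c1, c2, c3⟩ := hXw w b2
  have e0 : (w.map fun g => P.tw C.χ (P.i g)).prod = P.tw C.χ (P.i (C.s q))⁻¹ := by
    rw [← map_inv, ← b3, map_list_prod, map_list_prod, List.map_map]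
    rfl
  have e2 : P.ρ (P.i (C.s q))⁻¹ (C.θ (x j)) =
      (l.map fun f => f ((C.χ (P.i (C.s q)) : K)⁻¹ * x j)).sum := by
    have := map_list_sum (LinearMap.applyₗ (R := ℚ) ((C.χ (P.i (C.s q)) : K)⁻¹ * x j)) l
    rw [← c3, e0, LinearMap.applyₗ_apply_apply, P.tw_apply, map_inv C.χ, inv_inv,
      mul_inv_cancel_left₀ (Units.ne_zero _)] at this
    exact this
  have key := x3 j _ ⟨q, ⟨fun a => (abs_le.1 (hq a)).1, fun a => (abs_le.1 (hq a)).2⟩, rfl⟩ hc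
  have a4 : Sm b D E (P.ρ (P.i (C.s q))⁻¹ (C.θ (x j))) := by
    rw [e2]
    refine Sm.sum _ fun y hy i => ?_
    obtain ⟨f, hf, rfl⟩ := List.mem_map.1 hy
    exact (key _ ⟨(f, i), ⟨c2 f hf, trivial⟩, rfl⟩).1
  have a5 : Sz b D 0 (L ^ e1) (P.ρ (P.i (C.s q))⁻¹ (C.θ (x j))) := by
    rw [e2]
    refine (Sz.sum (L := c') _ fun y hy i => ?_).mono le_rfl ?_
    · obtain ⟨f, hf, rfl⟩ := List.mem_map.1 hy
      obtain ⟨⟨t, d1, d2⟩, d3⟩ := key _ ⟨(f, i), ⟨c2 f hf, trivial⟩, rfl⟩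
      refine ⟨?_, d3⟩
      rw [pow_zero, one_mul]
      exact d2 ▸ mul_mem (pow_mem (natCast_mem _ D) E) d1
    · have := h3 L hL
      have : (w.length + 1) ^ C.e ≤ (C.r * L + 1) ^ C.e := Nat.pow_le_pow_left (by omega) _
      rw [List.length_map]
      nlinarith
  refine ⟨u, ?_, ?_, by simpa using a2⟩
  · rw [a3]
    exact hE _ hI (a3 ▸ (P.hU _).1 u.2) a4
  · rw [a3, pow_mul]
    exact (h2 _ (by have := h3 L hL; omega)).1 _ hI a5

omit hD in
theorem Bd_v {J : Type} [Fintype J] (Q : Places C.χ J D) (ℓ : Len G) (R : ℕ) :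
    ∃ c : ℝ, ∀ γ ∈ P.Bd b D ℓ R, ∀ j, Q.v j (C.tr γ) ≤ c := by
  obtain ⟨c, hc⟩ := Q.rat' R
  obtain ⟨c1, h1⟩ := (((ℓ.fin R).prod Set.finite_univ).image
    fun p : G × J => Q.v p.2 (C.tr (P.i p.1))).bddAbove
  obtain ⟨c2, h2⟩ := (Set.finite_range fun j => ∑ i, c * Q.v j (C.τ (b i))).bddAbove
  refine ⟨c2 + c1, ?_⟩
  rintro _ ⟨_, ⟨u, -, a1, rfl⟩, g, a2, rfl⟩ j
  rw [C.tr_mul, C.χ_j, Units.val_one, one_mul, C.tr_j]
  refine ((Q.v j).add_le _ _).trans (add_le_add (le_trans ?_ (h2 ⟨j, rfl⟩))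
    (h1 ⟨(g, j), ⟨a2, trivial⟩, rfl⟩))
  rw [← b.sum_repr (_ - 1), map_sum]
  refine ((Q.v j).sum_le _ _).trans (Finset.sum_le_sum fun i _ => ?_)
  rw [map_smul, Rat.smul_def, map_mul]
  exact mul_le_mul_of_nonneg_right (hc j _ (a1 i).1 (a1 i).2) ((Q.v j).nonneg _)

/-- The geometry. -/
def geo {J : Type} [Fintype J] (Q : Places C.χ J D) (ℓ : Len G) (B : P.Box b D ℓ) :
    Geo G P.Γ K J where
  i := P.i
  k := M.k
  U := P.Ua
  Bd := P.Bd b D ℓ
  Om := P.Om b D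
  pw := P.pwΓ
  lin γ := C.χ γ
  tr := C.tr
  v := Q.v
  r := C.r
  s q := P.i (C.s q)
  U_normal := B.U_normal
  U_anti := B.U_anti
  U_k := B.U_k
  U_nil := B.U_nil
  Bd_mono := B.Bd_mono
  Bd_one := B.Bd_one
  Bd_mul := B.Bd_mul
  Bd_i := B.Bd_i
  Bd_fin := B.Bd_fin
  Bd_cob := B.Bd_cob
  Bd_v := C.Bd_v b Q ℓ
  Om_mono := B.Om_mono
  Om_U := B.Om_U
  Om_mul := B.Om_mul
  contr R := by
    obtain ⟨R', e, h⟩ := B.contr R
    refine ⟨R', e, fun L hL => ?_⟩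
    obtain ⟨m, a1, a2, a3, a4⟩ := h L hL
    refine ⟨m, a1, a2, fun t ht j => Q.rat j _ (by simpa using Bx.div_mem a3 t) ?_, a4⟩
    rw [abs_of_nonneg (by positivity)]
    exact div_le_one_of_le₀ (by exact_mod_cast ht) (by positivity)
  pw_U := B.pw_U
  pw_zero := B.pw_zero
  pw_one := B.pw_one
  lin_one := by simp
  lin_mul := by simp
  tr_mul := C.tr_mul
  lin_U := by
    rintro _ ⟨u, -, rfl⟩
    simp [C.χ_j]
  tr_U := by
    rintro _ ⟨u, hu, rfl⟩
    rw [C.tr_j]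
    exact C.τ_sq _ hu
  tr_pw := by
    rintro t _ ⟨u, hu, rfl⟩
    have := C.τ_sq _ ((Bx.Cg.self (h := M.nil) hu).pw t).2
    rw [map_sub, sub_eq_zero, map_smul, Rat.smul_def] at this
    rw [Bx.pwΓ_j, C.tr_j, C.tr_j]
    exact this
  card := Q.card
  nonface := Q.nonface
  face j0 := by
    obtain ⟨γ, h⟩ := Q.face j0
    obtain ⟨m, hm, q, e⟩ := C.gen γ
    refine ⟨q, fun j hj => ?_⟩
    rw [C.χ_s, ← e, Units.val_pow_eq_pow_val, map_pow]
    exact one_lt_pow₀ (h j hj) hm.ne'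
  tr_s q := C.tr_H _ (C.s_H q)
  lin_s q q' := by
    rw [← Units.val_mul, C.χ_s, C.χ_s, C.χ_s, ← Finset.prod_mul_distrib]
    simp [zpow_add]
  s_Bd q := B.Bd_i _
  s_rad := by
    choose f hf using B.Bd_i
    obtain ⟨R, hR⟩ := (C.S_fin.image f).bddAbove
    obtain ⟨e, he⟩ := poly_bound 1 C.r 1
    refine ⟨R, e, fun L hL q hq => ?_⟩
    obtain ⟨l, a1, a2, a3⟩ := C.s_rad hq
    refine ⟨l.map P.i, ?_, fun y hy => ?_, by rw [← a3, map_list_prod]⟩
    · have := he L hL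
      simp only [List.length_map, pow_one] at *
      omega
    · obtain ⟨g, hg, rfl⟩ := List.mem_map.1 hy
      exact B.Bd_mono (hR ⟨g, a2 g hg, rfl⟩) (hf g)
  s_coc := C.s_coc b hD
  elts := C.elts b hD Q

end Cart

theorem core {G : Type} [Group G] (hG : Combable G) (M : NilModel G (commutator G)) :
    ∃ H : Subgroup G, H.FiniteIndex ∧ Group.IsNilpotent H := by
  have := hG.fg
  obtain ⟨P⟩ := exists_push M
  refine (exists_cart P).resolve_right ?_
  rintro ⟨K, _, _, ⟨C⟩⟩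
  obtain ⟨S, hS, hS'⟩ := Group.fg_iff.1 this
  obtain ⟨D0, h0, h1⟩ := exists_D M (Module.finBasis ℚ M.A)
  obtain ⟨D, hD, h2, J, _, ⟨Q⟩⟩ := exists_places C.χ ((C.χ.comp P.i) '' S) (hS'.image _) (by
    rw [← MonoidHom.map_closure, hS, ← MonoidHom.range_eq_map]
    refine le_antisymm ?_ ?_
    · rintro _ ⟨γ, rfl⟩
      obtain ⟨u, g, rfl⟩ := P.dec γ
      exact ⟨g, by simp [C.χ_j]⟩
    · rintro _ ⟨g, rfl⟩
      exact ⟨_, rfl⟩) C.inf D0 h0
  obtain ⟨ℓ, -⟩ := id hG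
  exact (C.geo _ hD Q ℓ (exists_box P _ hD ℓ (h1 D hD h2))).false hG

end Pool.Agent.Lib.MP_2fb4be_al.Sol
end
end

-- part Pool.Agent.Lib.MP_2fb4be_al.Sol.Final
section

/-!
Soluble combable groups are virtually nilpotent.
-/

set_option autoImplicit false

namespace Pool.Agent.Lib.MP_2fb4be_al.Sol

/-- Virtually nilpotent groups. -/
def VN (G : Type) [Group G] : Prop := ∃ H : Subgroup G, H.FiniteIndex ∧ Group.IsNilpotent H

theorem VN.of_subgroup {G : Type} [Group G] (S : Subgroup G) [S.FiniteIndex] (h : VN S) : VN G := by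
  obtain ⟨H, h1, h2⟩ := h
  refine ⟨H.map S.subtype, ⟨?_⟩, Group.nilpotent_of_mulEquiv
    (H.equivMapOfInjective S.subtype S.subtype_injective)⟩
  rw [Subgroup.index_map_subtype]
  exact mul_ne_zero h1.1 Subgroup.FiniteIndex.index_ne_zero

theorem VN.of_quotient {G : Type} [Group G] (T : Subgroup G) [T.Normal] [Finite T]
    (h : VN (G ⧸ T)) : VN G := by
  obtain ⟨H, h1, h2⟩ := h
  have h3 : (H.comap (QuotientGroup.mk' T)).FiniteIndex :=
    ⟨by rw [Subgroup.index_comap_of_surjective _ (QuotientGroup.mk'_surjective T)]; exact h1.1⟩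
  have h4 : (MulAut.conjNormal (G := G) (H := T)).ker.FiniteIndex := inferInstance
  refine ⟨(MulAut.conjNormal (H := T)).ker ⊓ H.comap (QuotientGroup.mk' T), inferInstance,
    Subgroup.isNilpotent_of_ker_le_center
      (((QuotientGroup.mk' T).comp (Subgroup.subtype _)).codRestrict H fun x => x.2.2) ?_⟩
  intro x hx
  have h5 : (x : G) ∈ T := (QuotientGroup.eq_one_iff _).1 (congrArg Subtype.val hx)
  refine Subgroup.mem_center_iff.2 fun y => Subtype.ext ?_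
  have h6 := congrArg (fun f : MulAut T => (f ⟨x, h5⟩ : G)) (MonoidHom.mem_ker.1 y.2.1)
  simp only [MulAut.conjNormal_apply, MulAut.one_apply] at h6
  exact mul_inv_eq_iff_eq_mul.1 h6

theorem virt_nilp (G : Type) [Group G] [Group.IsSolvable G] (hG : Combable G) : VN G := by
  classical
  obtain ⟨⟨m, hm, h1⟩, -⟩ := krop G hG
  have hex : ∃ c, ∃ T : Subgroup G, T.Normal ∧ Finite T ∧ m - Nat.card T = c :=
    ⟨_, ⊥, inferInstance, inferInstance, rfl⟩
  obtain ⟨T, _, _, h2⟩ := Nat.find_spec hex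
  refine VN.of_quotient T ?_
  have hQ := hG.quotient T
  obtain ⟨k1, k2⟩ := krop _ hQ
  obtain ⟨H, _, ⟨M⟩⟩ := St.struct_of PolyQ.of_injective polyQ_of_rank jennings (G ⧸ T)
    (fun T' _ _ => by
      have e : Nat.card (T'.comap (QuotientGroup.mk' T)) = Nat.card T * Nat.card T' :=
        QuotientGroup.card_preimage_mk T T'
      have p1 : 0 < Nat.card T := Nat.card_pos
      have p2 : 0 < Nat.card T' := Nat.card_pos
      have f : Finite (T'.comap (QuotientGroup.mk' T)) :=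
        Nat.finite_of_card_ne_zero (by rw [e]; positivity)
      have a1 := Nat.find_min' hex ⟨T'.comap (QuotientGroup.mk' T), inferInstance, f, rfl⟩
      have a2 := Nat.le_of_dvd hm (h1 _ f)
      rw [← h2, e] at a1
      rw [e] at a2
      refine Subgroup.eq_bot_of_card_le _ (le_of_mul_le_mul_left (a := Nat.card T) ?_ p1)
      omega) k1 k2
  exact VN.of_subgroup H (core (hQ.subgroup H) M)

end Pool.Agent.Lib.MP_2fb4be_al.Sol
end
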