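import Mathlib
import Pool.Agent.Lib.MP_2fb4be_al.Sol.Final

/-!
A virtually soluble automatic group is virtually nilpotent.
-/

set_option autoImplicit false

namespace Pool.Agent.Lib.MP_2fb4be_al.SolubleRetired

open Pool.Agent.Lib.MP_2fb4be_al

theorem result (G : Type) [Group G] (hG : IsAutomatic G) (S : Subgroup G) [S.FiniteIndex]
    [Group.IsSolvable S] : ∃ H : Subgroup G, H.FiniteIndex ∧ Group.IsNilpotent H :=
  Sol.VN.of_subgroup S (Sol.virt_nilp S ((Sol.combable_of_automatic hG).subgroup S))

end Pool.Agent.Lib.MP_2fb4be_al.SolubleRetired
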