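import Mathlib
import Pool.Agent.Lib.MP_2fb4be_al.Sol.SolubleRetired

/-!
No virtually soluble automatic group contains the Baumslag-Solitar group.
-/

set_option autoImplicit false

namespace Pool.Agent.Lib.MP_2fb4be_al.Sol

theorem finOrder_of_vn {G : Type} [Group G] (h : VN G) (x y : G) (hxy : y * x * y⁻¹ = x ^ 2) :
    IsOfFinOrder x := by
  obtain ⟨H, h1, h2⟩ := h
  obtain ⟨n, hn, -, hy⟩ := Subgroup.exists_pow_mem_of_index_ne_zero h1.1 y
  obtain ⟨m, hm, -, hx⟩ := Subgroup.exists_pow_mem_of_index_ne_zero h1.1 x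
  have a1 : ∀ k : ℕ, y ^ k * x * (y ^ k)⁻¹ = x ^ 2 ^ k := by
    intro k
    induction k with
    | zero => simp
    | succ k ih =>
      rw [pow_succ 2, pow_mul, ← ih, conj_pow, pow_succ y, ← hxy]
      group
  obtain ⟨r, hr⟩ : ∃ r, 2 ^ n = r + 1 ∧ 0 < r :=
    ⟨2 ^ n - 1, by have := Nat.one_lt_two_pow hn.ne'; omega⟩
  have a2 : ∀ c, x ^ (m * r ^ c) ∈ H.lowerCentralSeries c := by
    intro c
    induction c with
    | zero => simpa using hx
    | succ c ih =>
      have := Subgroup.commutator_mem_commutator (inv_mem ih) hy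
      rw [commutatorElement_def, inv_inv, mul_assoc, mul_assoc, ← mul_assoc (y ^ n), ← conj_pow, a1,
        hr.1, ← pow_mul, add_mul, one_mul, pow_add, (Commute.pow_pow_self x _ _).eq,
        inv_mul_cancel_left] at this
      rwa [pow_succ r, ← mul_assoc, mul_comm _ r]
  obtain ⟨c, hc⟩ := (Subgroup.isNilpotent_iff_lowerCentralSeries H).1 h2
  exact isOfFinOrder_iff_pow_eq_one.2 ⟨_, by have := hr.2; positivity,
    Subgroup.mem_bot.1 (hc ▸ a2 c)⟩

theorem no_bs (G : Type) [Group G] (hG : IsAutomatic G) (S : Subgroup G) [S.FiniteIndex]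
    [Group.IsSolvable S] (φ : PresentedGroup
      ({FreeGroup.of (1 : Fin 2) * FreeGroup.of 0 * (FreeGroup.of 1)⁻¹ * (FreeGroup.of 0 ^ 2)⁻¹} :
        Set (FreeGroup (Fin 2))) →* G) : ¬ Function.Injective φ := by
  intro hφ
  have h1 := finOrder_of_vn (SolubleRetired.result G hG S)
    (φ (PresentedGroup.of 0)) (φ (PresentedGroup.of 1)) (by
      rw [← mul_inv_eq_one, ← map_inv, ← map_pow, ← map_inv, ← map_mul, ← map_mul, ← map_mul]
      exact (congrArg φ (PresentedGroup.one_of_mem rfl)).trans (map_one φ))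
  rw [hφ.isOfFinOrder_iff] at h1
  let f : Fin 2 → Equiv.Perm ℚ := ![Equiv.addRight 1, Equiv.mulLeft₀ 2 two_ne_zero]
  obtain ⟨n, hn, h2⟩ := isOfFinOrder_iff_pow_eq_one.1 ((PresentedGroup.toGroup (f := f) (by
    rintro _ rfl
    ext z
    simp [f, pow_two]
    ring)).isOfFinOrder h1)
  have := congrArg (fun e : Equiv.Perm ℚ => e 0) h2
  simp [f, hn.ne'] at this

end Pool.Agent.Lib.MP_2fb4be_al.Sol
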